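import Pool.Agent.Lib_MP_d5472a_co.Basic

set_option autoImplicit false

namespace Pool.Agent.SymLaman
open scoped Pointwise

/-- The union of the orbits of `(a,b)` and `(b,a)`. -/
def orb2 (Γ : Type) [Group Γ] [Fintype Γ] {V : Type} [DecidableEq V] [MulAction Γ V]
    (e : V × V) : Finset (V × V) :=
  (Finset.univ : Finset (Γ × Bool)).image
    (fun p => if p.2 then (p.1 • e.1, p.1 • e.2) else (p.1 • e.2, p.1 • e.1))

theorem mem_orb2 (Γ : Type) [Group Γ] [Fintype Γ] {V : Type} [DecidableEq V] [MulAction Γ V]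
    (e f : V × V) : f ∈ orb2 Γ e ↔ ∃ γ : Γ, f = (γ • e.1, γ • e.2) ∨ f = (γ • e.2, γ • e.1) := by
  unfold orb2
  simp only [Finset.mem_image, Finset.mem_univ, true_and, Prod.exists, Bool.exists_bool]
  constructor
  · rintro ⟨γ, h | h⟩
    · exact ⟨γ, Or.inr (by simpa using h.symm)⟩
    · exact ⟨γ, Or.inl (by simpa using h.symm)⟩
  · rintro ⟨γ, h | h⟩
    · exact ⟨γ, Or.inr (by simpa using h.symm)⟩
    · exact ⟨γ, Or.inl (by simpa using h.symm)⟩

theorem card_orb2_filter (Γ : Type) [Group Γ] [Fintype Γ] {V : Type} [DecidableEq V]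
    [MulAction Γ V] (e : V × V) (hne : e.1 ≠ e.2)
    (hfree : ∀ γ : Γ, γ ≠ 1 →
      ¬ ((γ • e.1 = e.1 ∧ γ • e.2 = e.2) ∨ (γ • e.1 = e.2 ∧ γ • e.2 = e.1)))
    (X : Finset V) :
    ((orb2 Γ e).filter (fun f => f.1 ∈ X ∧ f.2 ∈ X)).card = 2 * kk Γ e.1 e.2 X := by
  classical
  have key : ((orb2 Γ e).filter (fun f => f.1 ∈ X ∧ f.2 ∈ X)) =
      ((Finset.univ.filter (fun γ : Γ => γ • e.1 ∈ X ∧ γ • e.2 ∈ X)) ×ˢ
        (Finset.univ : Finset Bool)).image
      (fun p => if p.2 then (p.1 • e.1, p.1 • e.2) else (p.1 • e.2, p.1 • e.1)) := by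
    ext f
    simp only [Finset.mem_filter, Finset.mem_image, Finset.mem_product, Finset.mem_univ,
      true_and, and_true, mem_orb2, Prod.exists, Bool.exists_bool]
    constructor
    · rintro ⟨⟨γ, h | h⟩, hX⟩
      · subst h
        exact ⟨γ, Or.inr ⟨hX, by simp⟩⟩
      · subst h
        exact ⟨γ, Or.inl ⟨⟨hX.2, hX.1⟩, by simp⟩⟩
    · rintro ⟨γ, ⟨hX, h⟩ | ⟨hX, h⟩⟩
      · have h' : f = (γ • e.2, γ • e.1) := by simpa using h.symm
        subst h'
        exact ⟨⟨γ, Or.inr rfl⟩, hX.2, hX.1⟩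
      · have h' : f = (γ • e.1, γ • e.2) := by simpa using h.symm
        subst h'
        exact ⟨⟨γ, Or.inl rfl⟩, hX.1, hX.2⟩
  rw [key, Finset.card_image_of_injective, Finset.card_product]
  · simp [kk, mul_comm]
  · -- injectivity
    have h1 : ∀ γ γ' : Γ, γ • e.1 = γ' • e.1 → γ • e.2 = γ' • e.2 → γ = γ' := by
      intro γ γ' h1 h2
      by_contra hcon
      have hx : γ'⁻¹ * γ ≠ 1 := by
        intro h
        apply hcon
        exact (inv_mul_eq_one.mp h).symm
      apply hfree _ hx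
      left
      constructor
      · rw [mul_smul, h1, inv_smul_smul]
      · rw [mul_smul, h2, inv_smul_smul]
    have h2 : ∀ γ γ' : Γ, γ • e.1 = γ' • e.2 → γ • e.2 = γ' • e.1 → False := by
      intro γ γ' h1 h2
      by_cases hx : γ'⁻¹ * γ = 1
      · have : γ = γ' := (inv_mul_eq_one.mp hx).symm
        subst this
        exact hne (smul_left_cancel _ h1)
      · apply hfree _ hx
        right
        constructor
        · rw [mul_smul, h1, inv_smul_smul]
        · rw [mul_smul, h2, inv_smul_smul]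
    rintro ⟨γ, b⟩ ⟨γ', b'⟩ h
    cases b <;> cases b' <;> simp only [Bool.false_eq_true, if_false, if_true, Prod.mk.injEq] at h
    · rw [h1 γ γ' h.2 h.1]
    · exact (h2 γ γ' h.2 h.1).elim
    · exact (h2 γ γ' h.1 h.2).elim
    · rw [h1 γ γ' h.1 h.2]

/-- PART C: representatives of free orbits of ordered pairs. -/
theorem exists_orbit_reps (Γ : Type) [Group Γ] [Fintype Γ]
    {V : Type} [Fintype V] [DecidableEq V] [MulAction Γ V]
    (P : Finset (V × V)) (hswap : ∀ e ∈ P, (e.2, e.1) ∈ P)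
    (hinv : ∀ (γ : Γ), ∀ e ∈ P, (γ • e.1, γ • e.2) ∈ P)
    (hne : ∀ e ∈ P, e.1 ≠ e.2)
    (hfree : ∀ γ : Γ, γ ≠ 1 → ∀ e ∈ P,
      ¬ ((γ • e.1 = e.1 ∧ γ • e.2 = e.2) ∨ (γ • e.1 = e.2 ∧ γ • e.2 = e.1))) :
    ∃ S : Finset (V × V), S ⊆ P ∧ ∀ X : Finset V,
      (P.filter (fun e => e.1 ∈ X ∧ e.2 ∈ X)).card = 2 * ∑ e ∈ S, kk Γ e.1 e.2 X := by
  classical
  induction P using Finset.strongInduction with
  | H P ih =>
    rcases P.eq_empty_or_nonempty with rfl | ⟨e, he⟩
    · exact ⟨∅, by simp, by simp⟩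
    · have hsub : orb2 Γ e ⊆ P := by
        intro f hf
        rw [mem_orb2] at hf
        obtain ⟨γ, rfl | rfl⟩ := hf
        · exact hinv γ e he
        · exact hinv γ (e.2, e.1) (hswap e he)
      have heO : e ∈ orb2 Γ e := by
        rw [mem_orb2]
        exact ⟨1, Or.inl (by simp)⟩
      have hOswap : ∀ f, (f.2, f.1) ∈ orb2 Γ e → f ∈ orb2 Γ e := by
        intro f hf
        rw [mem_orb2] at hf ⊢
        obtain ⟨γ, h | h⟩ := hf
        · refine ⟨γ, Or.inr ?_⟩
          rw [Prod.mk.injEq] at h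
          rw [← h.1, ← h.2]
        · refine ⟨γ, Or.inl ?_⟩
          rw [Prod.mk.injEq] at h
          rw [← h.1, ← h.2]
      have hOinv : ∀ (γ : Γ) f, (γ • f.1, γ • f.2) ∈ orb2 Γ e → f ∈ orb2 Γ e := by
        intro γ f hf
        rw [mem_orb2] at hf ⊢
        obtain ⟨γ', h | h⟩ := hf
        · refine ⟨γ⁻¹ * γ', Or.inl ?_⟩
          rw [Prod.mk.injEq] at h
          rw [mul_smul, mul_smul, ← h.1, ← h.2, inv_smul_smul, inv_smul_smul]
        · refine ⟨γ⁻¹ * γ', Or.inr ?_⟩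
          rw [Prod.mk.injEq] at h
          rw [mul_smul, mul_smul, ← h.1, ← h.2, inv_smul_smul, inv_smul_smul]
      obtain ⟨S', hS', hcard⟩ := ih (P \ orb2 Γ e)
        (Finset.ssubset_iff_subset_ne.mpr ⟨Finset.sdiff_subset, fun h => by
          have := h ▸ he
          exact (Finset.mem_sdiff.mp this).2 heO⟩)
        (fun f hf => by
          rw [Finset.mem_sdiff] at hf ⊢
          exact ⟨hswap f hf.1, fun h => hf.2 (hOswap f h)⟩)
        (fun γ f hf => by
          rw [Finset.mem_sdiff] at hf ⊢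
          exact ⟨hinv γ f hf.1, fun h => hf.2 (hOinv γ f h)⟩)
        (fun f hf => hne f (Finset.mem_sdiff.mp hf).1)
        (fun γ hγ f hf => hfree γ hγ f (Finset.mem_sdiff.mp hf).1)
      have heS' : e ∉ S' := fun h => (Finset.mem_sdiff.mp (hS' h)).2 heO
      refine ⟨insert e S', ?_, fun X => ?_⟩
      · intro f hf
        rcases Finset.mem_insert.mp hf with rfl | hf
        · exact he
        · exact (Finset.mem_sdiff.mp (hS' hf)).1
      · rw [Finset.sum_insert heS', mul_add, ← hcard X,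
          ← card_orb2_filter Γ e (hne e he) (fun γ hγ => hfree γ hγ e he) X,
          ← Finset.card_union_of_disjoint, ← Finset.filter_union,
          Finset.union_sdiff_of_subset hsub]
        exact Finset.disjoint_filter_filter Finset.disjoint_sdiff

end Pool.Agent.SymLaman
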