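import Pool.Agent.Lib_MP_d5472a_co.Basic

set_option autoImplicit false

namespace Pool.Agent.SymLaman
open scoped Pointwise

namespace Pos

section dimension

variable {Γ : Type} [Group Γ] [Fintype Γ] (τ : Γ →* Matrix.orthogonalGroup (Fin 2) ℝ)

/-- equivariant maps `Y → E2` -/
def Eqv (Y : Type) [MulAction Γ Y] : Submodule ℝ (Y → E2) where
  carrier := {p | ∀ (γ : Γ) (y : Y), p (γ • y) = Matrix.mulVec (τ γ).1 (p y)}
  add_mem' := by
    intro p q hp hq γ y
    simp only [Pi.add_apply, hp γ y, hq γ y, Matrix.mulVec_add]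
  zero_mem' := by
    intro γ y
    simp
  smul_mem' := by
    intro c p hp γ y
    simp only [Pi.smul_apply, hp γ y, Matrix.mulVec_smul]

omit [Fintype Γ] in
theorem mem_Eqv {Y : Type} [MulAction Γ Y] {p : Y → E2} :
    p ∈ Eqv τ Y ↔ ∀ (γ : Γ) (y : Y), p (γ • y) = Matrix.mulVec (τ γ).1 (p y) := Iff.rfl

/-- the operator of a group element -/
def T (Y : Type) [MulAction Γ Y] (γ : Γ) : (Y → E2) →ₗ[ℝ] (Y → E2) where
  toFun p := fun y => Matrix.mulVec (τ γ).1 (p (γ⁻¹ • y))
  map_add' p q := by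
    funext y
    simp only [Pi.add_apply, Matrix.mulVec_add]
  map_smul' c p := by
    funext y
    simp only [Pi.smul_apply, Matrix.mulVec_smul, RingHom.id_apply]

omit [Fintype Γ] in
theorem T_apply (Y : Type) [MulAction Γ Y] (γ : Γ) (p : Y → E2) (y : Y) :
    T τ Y γ p y = Matrix.mulVec (τ γ).1 (p (γ⁻¹ • y)) := rfl

omit [Fintype Γ] in
theorem trace_T (Y : Type) [Fintype Y] [DecidableEq Y] [MulAction Γ Y] (γ : Γ) :
    LinearMap.trace ℝ (Y → E2) (T τ Y γ) =
      Matrix.trace (τ γ).1 * ((Finset.univ.filter (fun y : Y => γ • y = y)).card : ℝ) := by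
  have hb := LinearMap.trace_eq_matrix_trace ℝ (Pi.basis (fun _ : Y => Pi.basisFun ℝ (Fin 2)))
    (T τ Y γ)
  rw [hb, Matrix.trace, Fintype.sum_sigma]
  have h1 : ∀ y : Y, ∑ i : Fin 2, Matrix.diag (LinearMap.toMatrix
      (Pi.basis (fun _ : Y => Pi.basisFun ℝ (Fin 2)))
      (Pi.basis (fun _ : Y => Pi.basisFun ℝ (Fin 2))) (T τ Y γ)) ⟨y, i⟩ =
      if γ • y = y then Matrix.trace (τ γ).1 else 0 := by
    intro y
    have h2 : ∀ i : Fin 2, Matrix.diag (LinearMap.toMatrix
      (Pi.basis (fun _ : Y => Pi.basisFun ℝ (Fin 2)))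
      (Pi.basis (fun _ : Y => Pi.basisFun ℝ (Fin 2))) (T τ Y γ)) ⟨y, i⟩ =
      if γ • y = y then (τ γ).1 i i else 0 := by
      intro i
      rw [Matrix.diag_apply, LinearMap.toMatrix_apply, Pi.basis_apply, Pi.basis_repr]
      rw [T_apply]
      by_cases h : γ • y = y
      · have h' : γ⁻¹ • y = y := by
          rw [inv_smul_eq_iff, h]
        rw [if_pos h, h']
        simp [Matrix.mulVec_single]
      · have h' : γ⁻¹ • y ≠ y := by
          intro h2
          apply h
          rw [inv_smul_eq_iff] at h2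
          exact h2.symm
        rw [if_neg h, Pi.single_eq_of_ne h']
        simp
    simp_rw [h2]
    split_ifs
    · rfl
    · simp
  simp_rw [h1]
  rw [← Finset.sum_filter, Finset.sum_const, nsmul_eq_mul, mul_comm]

/-- the averaging projection -/
noncomputable def avg (Y : Type) [MulAction Γ Y] : (Y → E2) →ₗ[ℝ] (Y → E2) :=
  ((Fintype.card Γ : ℝ)⁻¹) • ∑ γ : Γ, T τ Y γ

theorem avg_isProj (Y : Type) [MulAction Γ Y] : LinearMap.IsProj (Eqv τ Y) (avg τ Y) := by
  have hc : (Fintype.card Γ : ℝ) ≠ 0 := by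
    exact_mod_cast Fintype.card_ne_zero
  constructor
  · intro p γ y
    simp only [avg, LinearMap.smul_apply, LinearMap.sum_apply, Pi.smul_apply, Finset.sum_apply,
      T_apply]
    rw [Matrix.mulVec_smul]
    congr 1
    rw [Matrix.mulVec_sum]
    apply Fintype.sum_equiv (Equiv.mulLeft γ⁻¹)
    intro g
    simp only [Equiv.coe_mulLeft]
    have : (τ g).1 = (τ γ).1 * (τ (γ⁻¹ * g)).1 := by
      have h : τ g = τ γ * τ (γ⁻¹ * g) := by
        rw [← map_mul]; congr 1; group
      rw [h]; rfl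
    rw [this, ← Matrix.mulVec_mulVec]
    congr 3
    rw [mul_inv_rev, inv_inv, mul_smul]
  · intro p hp
    funext y
    simp only [avg, LinearMap.smul_apply, LinearMap.sum_apply, Pi.smul_apply, Finset.sum_apply,
      T_apply]
    have : ∀ g : Γ, Matrix.mulVec (τ g).1 (p (g⁻¹ • y)) = p y := by
      intro g
      rw [← hp g (g⁻¹ • y), smul_inv_smul]
    simp_rw [this]
    rw [Finset.sum_const, Finset.card_univ, ← Nat.cast_smul_eq_nsmul ℝ, smul_smul,
      inv_mul_cancel₀ hc, one_smul]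

/-- dimension formula -/
theorem dim_formula (Y : Type) [Fintype Y] [DecidableEq Y] [MulAction Γ Y] :
    (Fintype.card Γ : ℝ) * (Module.finrank ℝ (Eqv τ Y) : ℝ) =
      ∑ γ : Γ, Matrix.trace (τ γ).1 * ((Finset.univ.filter (fun y : Y => γ • y = y)).card : ℝ) := by
  have hc : (Fintype.card Γ : ℝ) ≠ 0 := by
    exact_mod_cast Fintype.card_ne_zero
  have h1 := LinearMap.IsProj.trace (avg_isProj τ Y)
  rw [← h1, avg, map_smul, map_sum]
  simp_rw [trace_T]
  rw [smul_eq_mul, ← mul_assoc, mul_inv_cancel₀ hc, one_mul]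

theorem dim_eq (Y : Type) [Fintype Y] [DecidableEq Y] [MulAction Γ Y]
    (hfix : ∀ γ : Γ, γ ≠ 1 → Matrix.trace (τ γ).1 = 0 ∨ ∀ v : Y, γ • v ≠ v) :
    Fintype.card Γ * Module.finrank ℝ (Eqv τ Y) = 2 * Fintype.card Y := by
  have h := dim_formula τ Y
  rw [Finset.sum_eq_single (1 : Γ)] at h
  · have h1 : Matrix.trace (τ (1 : Γ)).1 = 2 := by
      rw [map_one]
      simp [Matrix.trace]
    rw [h1] at h
    simp only [one_smul, Finset.filter_true, Finset.card_univ] at h
    exact_mod_cast h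
  · intro γ _ hγ
    rcases hfix γ hγ with h0 | h0
    · rw [h0, zero_mul]
    · rw [Finset.filter_false_of_mem (fun y _ => h0 y)]
      simp
  · intro h; exact absurd (Finset.mem_univ _) h

theorem dim_le (Y : Type) [Fintype Y] [DecidableEq Y] [MulAction Γ Y]
    (htr : ∀ γ : Γ, γ ≠ 1 → Matrix.trace (τ γ).1 ≤ 0) :
    Fintype.card Γ * Module.finrank ℝ (Eqv τ Y) ≤ 2 * Fintype.card Y := by
  classical
  have h := dim_formula τ Y
  rw [← Finset.add_sum_erase _ _ (Finset.mem_univ (1 : Γ))] at h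
  have h1 : Matrix.trace (τ (1 : Γ)).1 = 2 := by
    rw [map_one]
    simp [Matrix.trace]
  rw [h1] at h
  simp only [one_smul, Finset.filter_true, Finset.card_univ] at h
  have h2 : ∑ γ ∈ Finset.univ.erase (1 : Γ), Matrix.trace (τ γ).1 *
      ((Finset.univ.filter (fun y : Y => γ • y = y)).card : ℝ) ≤ 0 := by
    apply Finset.sum_nonpos
    intro γ hγ
    apply mul_nonpos_of_nonpos_of_nonneg (htr γ (Finset.ne_of_mem_erase hγ))
    positivity
  have h3 : (Fintype.card Γ : ℝ) * (Module.finrank ℝ (Eqv τ Y) : ℝ) ≤ 2 * Fintype.card Y := by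
    linarith
  exact_mod_cast h3

end dimension

section generic

variable {Γ : Type} [Group Γ] [Fintype Γ] (τ : Γ →* Matrix.orthogonalGroup (Fin 2) ℝ)
variable {V : Type} [Fintype V]

/-- generic element of a submodule -/
theorem exists_generic (W : Submodule ℝ (V → E2)) :
    ∃ q ∈ W, ∀ v w : V, q v = q w → ∀ p ∈ W, p v = p w := by
  classical
  -- bad pairs
  let B : Finset (V × V) := Finset.univ.filter (fun e => ¬ ∀ p ∈ W, p e.1 = p e.2)
  let U : V × V → Submodule ℝ W := fun e =>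
    { carrier := {p | p.1 e.1 = p.1 e.2}
      add_mem' := by
        intro p q hp hq
        show (p + q).1 e.1 = (p + q).1 e.2
        simp only [Submodule.coe_add, Pi.add_apply]
        rw [show p.1 e.1 = p.1 e.2 from hp, show q.1 e.1 = q.1 e.2 from hq]
      zero_mem' := rfl
      smul_mem' := by
        intro c p hp
        show (c • p).1 e.1 = (c • p).1 e.2
        simp only [Submodule.coe_smul, Pi.smul_apply]
        rw [show p.1 e.1 = p.1 e.2 from hp] }
  have hU : ∀ e ∈ B, U e ≠ ⊤ := by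
    intro e he htop
    have he' := (Finset.mem_filter.mp he).2
    apply he'
    intro p hp
    have h1 : (⟨p, hp⟩ : W) ∈ U e := by rw [htop]; trivial
    exact h1
  have hne : (⋃ p ∈ B.image U, (p : Set W)) ≠ Set.univ := by
    apply Subspace.biUnion_ne_univ_of_top_notMem
    intro h
    obtain ⟨e, he, h2⟩ := Finset.mem_image.mp h
    exact hU e he h2
  rw [Set.ne_univ_iff_exists_notMem] at hne
  obtain ⟨q, hq⟩ := hne
  refine ⟨q.1, q.2, ?_⟩
  intro v w hvw p hp
  by_contra hcon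
  apply hq
  rw [Set.mem_iUnion₂]
  refine ⟨U (v, w), Finset.mem_image_of_mem U (Finset.mem_filter.mpr ⟨Finset.mem_univ _,
    fun h => hcon (h p hp)⟩), ?_⟩
  exact hvw

omit [Fintype Γ] in
/-- the set of values of an equivariant map, as an abstract `Γ`-set -/
theorem exists_quot [MulAction Γ V] (q : V → E2) (hq : q ∈ Eqv τ V) :
    ∃ (Y : Type) (_ : Fintype Y) (_ : DecidableEq Y) (_ : MulAction Γ Y) (f : V → Y),
      Function.Surjective f ∧ (∀ (γ : Γ) (v : V), f (γ • v) = γ • f v) ∧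
      (∀ v w, f v = f w ↔ q v = q w) := by
  classical
  let r : Setoid V := Setoid.ker q
  have hact : ∀ (γ : Γ) (v w : V), q v = q w → q (γ • v) = q (γ • w) := by
    intro γ v w h
    rw [hq γ v, hq γ w, h]
  let M : MulAction Γ (Quotient r) :=
    { smul := fun γ => Quotient.map (fun v => γ • v) (fun v w h => hact γ v w h)
      one_smul := by
        intro y
        induction y using Quotient.inductionOn with
        | _ v => exact congrArg (Quotient.mk r) (one_smul Γ v)
      mul_smul := by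
        intro g h y
        induction y using Quotient.inductionOn with
        | _ v => exact congrArg (Quotient.mk r) (mul_smul g h v) }
  refine ⟨Quotient r, Fintype.ofFinite _, Classical.decEq _, M, Quotient.mk r,
    Quotient.mk_surjective, fun γ v => rfl, fun v w => ?_⟩
  exact Quotient.eq (r := r)

omit [Fintype Γ] [Fintype V] in
/-- submodules of maps factoring through `f` -/
theorem finrank_le_quot [MulAction Γ V] {Y : Type} [Fintype Y] [MulAction Γ Y] (f : V → Y)
    (hf : Function.Surjective f) (hact : ∀ (γ : Γ) (v : V), f (γ • v) = γ • f v)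
    (W : Submodule ℝ (V → E2)) (hW : W ≤ Eqv τ V)
    (hfac : ∀ p ∈ W, ∀ v w, f v = f w → p v = p w) :
    Module.finrank ℝ W ≤ Module.finrank ℝ (Eqv τ Y) := by
  obtain ⟨s, hs⟩ := hf.hasRightInverse
  have hmem : ∀ p ∈ W, (fun y => p (s y)) ∈ Eqv τ Y := by
    intro p hp γ y
    show p (s (γ • y)) = _
    rw [← hW hp γ (s y)]
    apply hfac p hp
    rw [hs, hact, hs]
  let φ : W →ₗ[ℝ] Eqv τ Y :=
    { toFun := fun p => ⟨fun y => p.1 (s y), hmem p.1 p.2⟩
      map_add' := fun p q => rfl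
      map_smul' := fun c p => rfl }
  apply LinearMap.finrank_le_finrank_of_injective (f := φ)
  intro p q h
  apply Subtype.ext
  funext v
  have h1 : p.1 (s (f v)) = q.1 (s (f v)) := congrFun (congrArg Subtype.val h) (f v)
  rw [hfac p.1 p.2 v (s (f v)) (hs (f v)).symm, hfac q.1 q.2 v (s (f v)) (hs (f v)).symm, h1]

/-- the subspace in which the edges of `F` are contracted -/
def QF [MulAction Γ V] {ι : Type} (a b : ι → V) (F : Finset ι) : Submodule ℝ (V → E2) where
  carrier := {p | p ∈ Eqv τ V ∧ ∀ i ∈ F, p (a i) = p (b i)}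
  add_mem' := by
    rintro p q ⟨hp, hp'⟩ ⟨hq, hq'⟩
    refine ⟨Submodule.add_mem _ hp hq, fun i hi => ?_⟩
    simp only [Pi.add_apply, hp' i hi, hq' i hi]
  zero_mem' := ⟨Submodule.zero_mem _, fun i _ => rfl⟩
  smul_mem' := by
    rintro c p ⟨hp, hp'⟩
    refine ⟨Submodule.smul_mem _ c hp, fun i hi => ?_⟩
    simp only [Pi.smul_apply, hp' i hi]

omit [Fintype Γ] [Fintype V] in
theorem QF_le [MulAction Γ V] {ι : Type} (a b : ι → V) (F : Finset ι) :
    QF τ a b F ≤ Eqv τ V := fun _ h => h.1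

/-- the sparsity lemma -/
theorem sparsity [DecidableEq V] [MulAction Γ V] {ι : Type}
    (htr : ∀ γ : Γ, γ ≠ 1 → Matrix.trace (τ γ).1 ≤ 0)
    (hfix : ∀ γ : Γ, γ ≠ 1 → Matrix.trace (τ γ).1 = 0 ∨ ∀ v : V, γ • v ≠ v)
    (F : Finset ι) (a b : ι → V)
    (hL : ∀ X : Finset V, 2 ≤ X.card → ∑ i ∈ F, kk Γ (a i) (b i) X + 3 ≤ 2 * X.card)
    (hne : ∀ i ∈ F, a i ≠ b i) (hF : F.Nonempty) :
    Module.finrank ℝ (QF τ a b F) + F.card + 1 ≤ Module.finrank ℝ (Eqv τ V) := by
  classical
  obtain ⟨q, hqF, hgen⟩ := exists_generic (QF τ a b F)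
  obtain ⟨Y, _, _, _, f, hf, hact, hfq⟩ := exists_quot τ q hqF.1
  have h1 : Module.finrank ℝ (QF τ a b F) ≤ Module.finrank ℝ (Eqv τ Y) :=
    finrank_le_quot τ f hf hact _ (QF_le τ a b F)
      (fun p hp v w hvw => hgen v w ((hfq v w).mp hvw) p hp)
  have h2 := dim_le τ Y htr
  have h3 := dim_eq τ V hfix
  -- the count
  have hcnt : ∀ i ∈ F, ∑ y : Y, kk Γ (a i) (b i) (Finset.univ.filter (fun v => f v = y)) =
      Fintype.card Γ := by
    intro i hi
    have hab : ∀ γ : Γ, f (γ • a i) = f (γ • b i) := by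
      intro γ
      rw [hact, hact]
      congr 1
      rw [hfq]
      exact hqF.2 i hi
    unfold kk
    have h5 : ∀ y : Y, (Finset.univ.filter (fun γ : Γ =>
        γ • a i ∈ Finset.univ.filter (fun v => f v = y) ∧
        γ • b i ∈ Finset.univ.filter (fun v => f v = y))) =
        Finset.univ.filter (fun γ : Γ => f (γ • a i) = y) := by
      intro y
      ext γ
      simp only [Finset.mem_filter, Finset.mem_univ, true_and]
      constructor
      · exact fun h => h.1
      · exact fun h => ⟨h, by rw [← hab]; exact h⟩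
    simp_rw [h5]
    rw [← Finset.card_eq_sum_card_fiberwise (f := fun γ : Γ => f (γ • a i))
      (s := Finset.univ) (t := Finset.univ) (fun _ _ => Finset.mem_coe.mpr (Finset.mem_univ _))]
    exact Finset.card_univ
  have htot : ∑ y : Y, ∑ i ∈ F, kk Γ (a i) (b i) (Finset.univ.filter (fun v => f v = y)) =
      Fintype.card Γ * F.card := by
    rw [Finset.sum_comm, Finset.sum_congr rfl hcnt, Finset.sum_const, smul_eq_mul, mul_comm]
  have hV : ∑ y : Y, (Finset.univ.filter (fun v => f v = y)).card = Fintype.card V := by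
    rw [← Finset.card_eq_sum_card_fiberwise (f := f)
      (s := Finset.univ) (t := Finset.univ) (fun _ _ => Finset.mem_coe.mpr (Finset.mem_univ _))]
    exact Finset.card_univ
  have hkk1 : ∀ X : Finset V, X.card = 1 → ∀ i ∈ F, kk Γ (a i) (b i) X = 0 := by
    intro X hX i hi
    obtain ⟨v, rfl⟩ := Finset.card_eq_one.mp hX
    unfold kk
    rw [Finset.card_eq_zero, Finset.filter_eq_empty_iff]
    rintro γ _ ⟨h6, h7⟩
    rw [Finset.mem_singleton] at h6 h7
    exact hne i hi (MulAction.injective γ (h6.trans h7.symm))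
  have hfib : ∀ y : Y, ∑ i ∈ F, kk Γ (a i) (b i) (Finset.univ.filter (fun v => f v = y)) + 2 ≤
      2 * (Finset.univ.filter (fun v => f v = y)).card := by
    intro y
    by_cases hc : 2 ≤ (Finset.univ.filter (fun v => f v = y)).card
    · have := hL _ hc
      omega
    · have hpos : 0 < (Finset.univ.filter (fun v => f v = y)).card := by
        obtain ⟨v, hv⟩ := hf y
        exact Finset.card_pos.mpr ⟨v, by simp [hv]⟩
      have h1' : (Finset.univ.filter (fun v => f v = y)).card = 1 := by omega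
      rw [Finset.sum_eq_zero (hkk1 _ h1'), h1']
  obtain ⟨i0, hi0⟩ := hF
  have hstrict : ∑ i ∈ F, kk Γ (a i) (b i) (Finset.univ.filter (fun v => f v = f (a i0))) + 2 <
      2 * (Finset.univ.filter (fun v => f v = f (a i0))).card := by
    have hc : 2 ≤ (Finset.univ.filter (fun v => f v = f (a i0))).card := by
      rw [← Finset.card_pair (hne i0 hi0)]
      apply Finset.card_le_card
      intro v hv
      rw [Finset.mem_insert, Finset.mem_singleton] at hv
      rw [Finset.mem_filter]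
      refine ⟨Finset.mem_univ _, ?_⟩
      rcases hv with rfl | rfl
      · rfl
      · rw [hfq]
        exact (hqF.2 i0 hi0).symm
    have := hL _ hc
    omega
  have hsum : ∑ y : Y, (∑ i ∈ F, kk Γ (a i) (b i) (Finset.univ.filter (fun v => f v = y)) + 2) <
      ∑ y : Y, 2 * (Finset.univ.filter (fun v => f v = y)).card :=
    Finset.sum_lt_sum (fun y _ => hfib y) ⟨f (a i0), Finset.mem_univ _, hstrict⟩
  rw [Finset.sum_add_distrib, htot, ← Finset.mul_sum, hV, Finset.sum_const, Finset.card_univ,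
    smul_eq_mul] at hsum
  have hΓ : 0 < Fintype.card Γ := Fintype.card_pos
  have h4 : Fintype.card Γ * (Module.finrank ℝ (QF τ a b F) + F.card) <
      Fintype.card Γ * Module.finrank ℝ (Eqv τ V) := by
    calc Fintype.card Γ * (Module.finrank ℝ (QF τ a b F) + F.card)
        = Fintype.card Γ * Module.finrank ℝ (QF τ a b F) + Fintype.card Γ * F.card := by ring
      _ ≤ Fintype.card Γ * Module.finrank ℝ (Eqv τ Y) + Fintype.card Γ * F.card := by gcongr
      _ < Fintype.card Γ * Module.finrank ℝ (Eqv τ V) := by omega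
  have := Nat.lt_of_mul_lt_mul_left h4
  omega

theorem exists_mul (x d : E2) (hx : x ≠ 0) (h : -(x 1) * d 0 + x 0 * d 1 = 0) :
    ∃ μ : ℝ, ∀ k, d k = μ * x k := by
  by_cases h0 : x 0 = 0
  · have h1 : x 1 ≠ 0 := by
      intro h1
      apply hx
      funext k
      fin_cases k
      · exact h0
      · exact h1
    refine ⟨d 1 / x 1, fun k => ?_⟩
    fin_cases k
    · show d 0 = d 1 / x 1 * x 0
      rw [h0] at h ⊢
      have : d 0 = 0 := by
        rw [zero_mul, add_zero] at h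
        rcases mul_eq_zero.mp h with h2 | h2
        · exact absurd (neg_eq_zero.mp h2) h1
        · exact h2
      rw [this, mul_zero]
    · show d 1 = d 1 / x 1 * x 1
      rw [div_mul_cancel₀ _ h1]
  · refine ⟨d 0 / x 0, fun k => ?_⟩
    fin_cases k
    · show d 0 = d 0 / x 0 * x 0
      rw [div_mul_cancel₀ _ h0]
    · show d 1 = d 0 / x 0 * x 1
      field_simp
      linarith

theorem exists_partial [DecidableEq V] [MulAction Γ V] {ι : Type}
    (htr : ∀ γ : Γ, γ ≠ 1 → Matrix.trace (τ γ).1 ≤ 0)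
    (hfix : ∀ γ : Γ, γ ≠ 1 → Matrix.trace (τ γ).1 = 0 ∨ ∀ v : V, γ • v ≠ v)
    (F : Finset ι) (a b : ι → V)
    (hL : ∀ X : Finset V, 2 ≤ X.card → ∑ i ∈ F, kk Γ (a i) (b i) X + 3 ≤ 2 * X.card)
    (hne : ∀ i ∈ F, a i ≠ b i) (hF : F.Nonempty)
    (x : ι → E2) (hx : ∀ i ∈ F, x i ≠ 0) :
    ∃ q ∈ Eqv τ V, (∃ μ : ι → ℝ, (∀ i ∈ F, ∀ k, q (a i) k - q (b i) k = μ i * x i k) ∧
      ∃ i ∈ F, μ i ≠ 0) := by
  classical
  have hsp := sparsity τ htr hfix F a b hL hne hF
  let Ψ : Eqv τ V →ₗ[ℝ] (F → ℝ) :=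
    { toFun := fun p j => -(x j.1 1) * (p.1 (a j.1) 0 - p.1 (b j.1) 0)
        + x j.1 0 * (p.1 (a j.1) 1 - p.1 (b j.1) 1)
      map_add' := by
        intro p q
        funext j
        simp only [Submodule.coe_add, Pi.add_apply]
        ring
      map_smul' := by
        intro c p
        funext j
        simp only [Submodule.coe_smul, Pi.smul_apply, smul_eq_mul, RingHom.id_apply]
        ring }
  have hrn := LinearMap.finrank_range_add_finrank_ker Ψ
  have hr : Module.finrank ℝ (LinearMap.range Ψ) ≤ F.card := by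
    refine (Submodule.finrank_le _).trans ?_
    rw [Module.finrank_fintype_fun_eq_card, Fintype.card_coe]
  have hex : ∃ p : Eqv τ V, Ψ p = 0 ∧ p.1 ∉ QF τ a b F := by
    by_contra hcon
    push Not at hcon
    have hle : (LinearMap.ker Ψ).map (Eqv τ V).subtype ≤ QF τ a b F := by
      rintro _ ⟨p, hp, rfl⟩
      exact hcon p hp
    have h1 := Submodule.finrank_mono hle
    rw [Submodule.finrank_map_subtype_eq] at h1
    omega
  obtain ⟨p, hp0, hpF⟩ := hex
  have hmul : ∀ i : ι, ∃ μ : ℝ, i ∈ F → ∀ k, p.1 (a i) k - p.1 (b i) k = μ * x i k := by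
    intro i
    by_cases hi : i ∈ F
    · have h1 : -(x i 1) * (p.1 (a i) 0 - p.1 (b i) 0)
        + x i 0 * (p.1 (a i) 1 - p.1 (b i) 1) = 0 := congrFun hp0 ⟨i, hi⟩
      obtain ⟨μ, hμ⟩ := exists_mul (x i) (fun k => p.1 (a i) k - p.1 (b i) k) (hx i hi) h1
      exact ⟨μ, fun _ => hμ⟩
    · exact ⟨0, fun h => absurd h hi⟩
  choose μ hμ using hmul
  refine ⟨p.1, p.2, μ, hμ, ?_⟩
  by_contra hcon
  push Not at hcon
  apply hpF
  refine ⟨p.2, fun i hi => ?_⟩
  funext k
  have h1 := hμ i hi k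
  rw [hcon i hi, zero_mul] at h1
  linarith

/-- approximate realisation, without injectivity -/
theorem exists_real [DecidableEq V] [MulAction Γ V] {ι : Type}
    (htr : ∀ γ : Γ, γ ≠ 1 → Matrix.trace (τ γ).1 ≤ 0)
    (hfix : ∀ γ : Γ, γ ≠ 1 → Matrix.trace (τ γ).1 = 0 ∨ ∀ v : V, γ • v ≠ v)
    (a b : ι → V) (x : ι → E2) (δ : ℝ) (hδ : 0 < δ) (n : ℕ) : ∀ F : Finset ι, F.card = n →
    (∀ X : Finset V, 2 ≤ X.card → ∑ i ∈ F, kk Γ (a i) (b i) X + 3 ≤ 2 * X.card) →
    (∀ i ∈ F, a i ≠ b i) → (∀ i ∈ F, x i ≠ 0) →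
    ∃ q ∈ Eqv τ V, ∀ i ∈ F, ∃ c : ℝ, c ≠ 0 ∧
      ∀ k : Fin 2, |c * (q (a i) k - q (b i) k) - x i k| < δ := by
  classical
  induction n using Nat.strong_induction_on with
  | _ n ih =>
  intro F hcard hL hne hx
  rcases F.eq_empty_or_nonempty with rfl | hF
  · exact ⟨0, Submodule.zero_mem _, fun i hi => absurd hi (Finset.notMem_empty i)⟩
  obtain ⟨q0, hq0, μ, hμ, i0, hi0, hμ0⟩ := exists_partial τ htr hfix F a b hL hne hF x hx
  have hsub : F.filter (fun i => μ i = 0) ⊆ F := Finset.filter_subset _ _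
  have hlt : (F.filter (fun i => μ i = 0)).card < n := by
    rw [← hcard]
    apply Finset.card_lt_card
    refine ⟨hsub, fun h => ?_⟩
    exact hμ0 (Finset.mem_filter.mp (h hi0)).2
  obtain ⟨q1, hq1, hc⟩ := ih _ hlt (F.filter (fun i => μ i = 0)) rfl
    (fun X hX => by
      have h1 := hL X hX
      have h2 : ∑ i ∈ F.filter (fun i => μ i = 0), kk Γ (a i) (b i) X ≤
          ∑ i ∈ F, kk Γ (a i) (b i) X :=
        Finset.sum_le_sum_of_subset hsub
      omega)
    (fun i hi => hne i (hsub hi)) (fun i hi => hx i (hsub hi))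
  -- choose `s`
  have hev : ∀ᶠ s : ℝ in nhdsWithin 0 (Set.Ioi 0), ∀ i ∈ F, ∀ k : Fin 2, μ i ≠ 0 →
      |(μ i)⁻¹ * (s * (q1 (a i) k - q1 (b i) k))| < δ := by
    rw [Filter.eventually_all_finset]
    intro i _
    rw [Filter.eventually_all]
    intro k
    have hcont : Continuous (fun s : ℝ => |(μ i)⁻¹ * (s * (q1 (a i) k - q1 (b i) k))|) := by
      fun_prop
    have ht : Filter.Tendsto (fun s : ℝ => |(μ i)⁻¹ * (s * (q1 (a i) k - q1 (b i) k))|)
        (nhdsWithin 0 (Set.Ioi 0)) (nhds 0) := by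
      have h1 := hcont.tendsto 0
      simp only [zero_mul, mul_zero, abs_zero] at h1
      exact h1.mono_left nhdsWithin_le_nhds
    filter_upwards [ht.eventually (gt_mem_nhds hδ)] with s hs _
    exact hs
  obtain ⟨s, hs, hs0⟩ := (hev.and self_mem_nhdsWithin).exists
  have hspos : (0 : ℝ) < s := hs0
  refine ⟨q0 + s • q1, Submodule.add_mem _ hq0 (Submodule.smul_mem _ _ hq1), ?_⟩
  intro i hi
  by_cases h0 : μ i = 0
  · obtain ⟨c, hc0, hc1⟩ := hc i (Finset.mem_filter.mpr ⟨hi, h0⟩)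
    refine ⟨c / s, div_ne_zero hc0 hspos.ne', fun k => ?_⟩
    have h1 := hμ i hi k
    rw [h0, zero_mul] at h1
    have h2 : c / s * ((q0 + s • q1) (a i) k - (q0 + s • q1) (b i) k) =
        c * (q1 (a i) k - q1 (b i) k) := by
      simp only [Pi.add_apply, Pi.smul_apply, smul_eq_mul]
      have h3 : q0 (a i) k + s * q1 (a i) k - (q0 (b i) k + s * q1 (b i) k) =
          s * (q1 (a i) k - q1 (b i) k) := by linarith
      rw [h3]
      field_simp
    rw [h2]
    exact hc1 k
  · refine ⟨(μ i)⁻¹, inv_ne_zero h0, fun k => ?_⟩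
    have h1 := hμ i hi k
    have h2 : (μ i)⁻¹ * ((q0 + s • q1) (a i) k - (q0 + s • q1) (b i) k) - x i k =
        (μ i)⁻¹ * (s * (q1 (a i) k - q1 (b i) k)) := by
      simp only [Pi.add_apply, Pi.smul_apply, smul_eq_mul]
      have h3 : q0 (a i) k + s * q1 (a i) k - (q0 (b i) k + s * q1 (b i) k) =
          μ i * x i k + s * (q1 (a i) k - q1 (b i) k) := by linarith
      rw [h3]
      field_simp
      ring
    rw [h2]
    exact hs i hi k h0

/-- an injective equivariant map -/
theorem exists_inj [DecidableEq V] [MulAction Γ V]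
    (htr : ∀ γ : Γ, γ ≠ 1 → Matrix.trace (τ γ).1 ≤ 0)
    (hfix : ∀ γ : Γ, γ ≠ 1 → Matrix.trace (τ γ).1 = 0 ∨ ∀ v : V, γ • v ≠ v) :
    ∃ q ∈ Eqv τ V, Function.Injective q := by
  classical
  obtain ⟨q, hqF, hgen⟩ := exists_generic (Eqv τ V)
  obtain ⟨Y, _, _, _, f, hf, hact, hfq⟩ := exists_quot τ q hqF
  have h1 : Module.finrank ℝ (Eqv τ V) ≤ Module.finrank ℝ (Eqv τ Y) :=
    finrank_le_quot τ f hf hact _ le_rfl
      (fun p hp v w hvw => hgen v w ((hfq v w).mp hvw) p hp)
  have h2 := dim_le τ Y htr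
  have h3 := dim_eq τ V hfix
  have h4 : Fintype.card V ≤ Fintype.card Y := by
    have : Fintype.card Γ * Module.finrank ℝ (Eqv τ V) ≤
        Fintype.card Γ * Module.finrank ℝ (Eqv τ Y) := Nat.mul_le_mul_left _ h1
    omega
  have h5 : Function.Bijective f := by
    rw [Fintype.bijective_iff_surjective_and_card]
    exact ⟨hf, le_antisymm h4 (Fintype.card_le_of_surjective f hf)⟩
  exact ⟨q, hqF, fun v w h => h5.1 ((hfq v w).mpr h)⟩

end generic

end Pos

/-- PART P: symmetric positions realising prescribed directions approximately. -/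
theorem exists_positions (Γ : Type) [Group Γ] [Fintype Γ]
    (τ : Γ →* Matrix.orthogonalGroup (Fin 2) ℝ)
    {V : Type} [Fintype V] [DecidableEq V] [MulAction Γ V] {ι : Type} [DecidableEq ι]
    (htr : ∀ γ : Γ, γ ≠ 1 → Matrix.trace (τ γ).1 ≤ 0)
    (hfix : ∀ γ : Γ, γ ≠ 1 → Matrix.trace (τ γ).1 = 0 ∨ ∀ v : V, γ • v ≠ v)
    (S : Finset ι) (a b : ι → V)
    (hL : ∀ X : Finset V, 2 ≤ X.card → ∑ i ∈ S, kk Γ (a i) (b i) X + 3 ≤ 2 * X.card)
    (hne : ∀ i ∈ S, a i ≠ b i)
    (x : ι → E2) (hx : ∀ i ∈ S, x i ≠ 0) (δ : ℝ) (hδ : 0 < δ) :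
    ∃ q : V → E2, (∀ (γ : Γ) (v : V), q (γ • v) = Matrix.mulVec (τ γ).1 (q v)) ∧
      Function.Injective q ∧
      ∀ i ∈ S, ∃ c : ℝ, c ≠ 0 ∧ ∀ k : Fin 2, |c * (q (a i) k - q (b i) k) - x i k| < δ := by
  classical
  obtain ⟨q, hq, hreal⟩ := Pos.exists_real τ htr hfix a b x δ hδ S.card S rfl hL hne hx
  obtain ⟨q2, hq2, hinj⟩ := Pos.exists_inj τ htr hfix
  have hreal' : ∀ i : ι, ∃ c : ℝ, c ≠ 0 ∧
      (i ∈ S → ∀ k : Fin 2, |c * (q (a i) k - q (b i) k) - x i k| < δ) := by
    intro i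
    by_cases hi : i ∈ S
    · obtain ⟨c, hc, h⟩ := hreal i hi
      exact ⟨c, hc, fun _ => h⟩
    · exact ⟨1, one_ne_zero, fun h => absurd h hi⟩
  choose c hc0 hc using hreal'
  have hev1 : ∀ᶠ t : ℝ in nhdsWithin 0 (Set.Ioi 0), ∀ i ∈ S, ∀ k : Fin 2,
      |c i * ((q (a i) k + t * q2 (a i) k) - (q (b i) k + t * q2 (b i) k)) - x i k| < δ := by
    rw [Filter.eventually_all_finset]
    intro i hi
    rw [Filter.eventually_all]
    intro k
    have hcont : Continuous (fun t : ℝ =>
        |c i * ((q (a i) k + t * q2 (a i) k) - (q (b i) k + t * q2 (b i) k)) - x i k|) := by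
      fun_prop
    have h1 := hcont.tendsto 0
    simp only [zero_mul, add_zero] at h1
    exact (h1.mono_left nhdsWithin_le_nhds).eventually (gt_mem_nhds (hc i hi k))
  have hev2 : ∀ᶠ t : ℝ in nhdsWithin 0 (Set.Ioi 0), ∀ v w : V, v ≠ w →
      q v + t • q2 v ≠ q w + t • q2 w := by
    rw [Filter.eventually_all]
    intro v
    rw [Filter.eventually_all]
    intro w
    by_cases hvw : v = w
    · exact Filter.Eventually.of_forall (fun t h => absurd hvw h)
    by_cases hq' : q v = q w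
    · filter_upwards [self_mem_nhdsWithin] with t ht _ h
      rw [hq'] at h
      have h2 := add_left_cancel h
      have ht0 : t ≠ 0 := ne_of_gt ht
      exact hvw (hinj (smul_right_injective E2 ht0 h2))
    · have hcont : Continuous (fun t : ℝ => (q v + t • q2 v) - (q w + t • q2 w)) := by
        fun_prop
      have h1 := hcont.tendsto 0
      simp only [zero_smul, add_zero] at h1
      have h2 : q v - q w ≠ 0 := sub_ne_zero.mpr hq'
      filter_upwards [(h1.mono_left nhdsWithin_le_nhds).eventually (isOpen_ne.mem_nhds h2)]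
        with t ht _ h
      exact ht (sub_eq_zero.mpr h)
  obtain ⟨t, ht1, ht2⟩ := (hev1.and hev2).exists
  refine ⟨q + t • q2, ?_, ?_, ?_⟩
  · exact Submodule.add_mem (Pos.Eqv τ V) hq (Submodule.smul_mem _ t hq2)
  · intro v w h
    by_contra hvw
    exact ht2 v w hvw h
  · intro i hi
    exact ⟨c i, hc0 i, fun k => ht1 i hi k⟩

end Pool.Agent.SymLaman
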