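import Pool.Agent.Lib_MP_d5472a_co.Frame
import Pool.Agent.Lib_MP_d5472a_co.PartC
import Pool.Agent.Lib_MP_d5472a_co.Pos

set_option autoImplicit false

/-! PART R: rank upper bound and assembly. -/

namespace Pool.Agent.SymLaman
open scoped Pointwise

theorem rigM_swap {V : Type} [Fintype V] [DecidableEq V] (G : SimpleGraph V)
    [DecidableRel G.Adj] (q : V → Fin 2 → ℝ) (v w : V) :
    rigM G q (v, w) = rigM G q (w, v) := by
  funext c
  unfold rigM
  simp only [Matrix.of_apply]
  by_cases h : G.Adj v w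
  · have h' := h.symm
    have hne := h.ne
    simp only [h, h', if_true]
    by_cases h1 : c.1 = v
    · have h2 : c.1 ≠ w := by rw [h1]; exact hne
      simp [h1, hne]
    · by_cases h2 : c.1 = w
      · simp [h2, hne.symm]
      · simp [h1, h2]
  · have h' : ¬ G.Adj w v := fun h'' => h h''.symm
    simp [h, h']

/-- PART R1: upper bound for the rank. -/
theorem rank_upper {V : Type} [Fintype V] [DecidableEq V] (G : SimpleGraph V)
    [DecidableRel G.Adj] (q : V → Fin 2 → ℝ) :
    2 * (rigM G q).rank ≤ (Finset.univ.filter (fun x : V × V => G.Adj x.1 x.2)).card := by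
  classical
  have hcard : (Finset.univ.filter (fun x : V × V => G.Adj x.1 x.2)).card
      = 2 * G.edgeFinset.card := by
    rw [← SimpleGraph.dart_card_eq_twice_card_edges, ← Fintype.card_coe]
    refine Fintype.card_congr ⟨fun x => ⟨x.1, (Finset.mem_filter.1 x.2).2⟩,
      fun d => ⟨d.toProd, Finset.mem_filter.2 ⟨Finset.mem_univ _, d.adj⟩⟩, ?_, ?_⟩
    · intro x; rfl
    · intro d; rfl
  rw [hcard]
  refine Nat.mul_le_mul_left 2 ?_
  rw [Matrix.rank_eq_finrank_span_row]
  -- the representing rows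
  let f : Sym2 V → (V × Fin 2 → ℝ) := fun s => rigM G q (Quot.out s)
  have hf : ∀ v w : V, f s(v, w) = rigM G q (v, w) := by
    intro v w
    have h1 : s((Quot.out s(v, w)).1, (Quot.out s(v, w)).2) = s(v, w) := by
      exact Quot.out_eq s(v, w)
    rw [Sym2.eq_iff] at h1
    show rigM G q (Quot.out s(v, w)) = _
    rcases h1 with ⟨h1, h2⟩ | ⟨h1, h2⟩
    · congr 1
      exact Prod.ext h1 h2
    · rw [rigM_swap G q v w]
      congr 1
      exact Prod.ext h1 h2
  have hle : Submodule.span ℝ (Set.range (rigM G q).row)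
      ≤ Submodule.span ℝ ((G.edgeFinset.image f : Finset (V × Fin 2 → ℝ)) : Set (V × Fin 2 → ℝ)) := by
    rw [Submodule.span_le]
    rintro _ ⟨⟨v, w⟩, rfl⟩
    by_cases h : G.Adj v w
    · apply Submodule.subset_span
      rw [Finset.mem_coe, Finset.mem_image]
      exact ⟨s(v, w), by rw [SimpleGraph.mem_edgeFinset]; exact h, hf v w⟩
    · have : (rigM G q).row (v, w) = 0 := by
        funext c
        simp [Matrix.row, rigM, h]
      rw [this]
      exact Submodule.zero_mem _
  refine (Submodule.finrank_mono hle).trans ?_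
  exact (finrank_span_finset_le_card _).trans Finset.card_image_le

/-- the load vector as a function -/
noncomputable def vec {V : Type} [DecidableEq V] (a b : V) (z : E2) : V × Fin 2 → ℝ :=
  fun c => (if c.1 = a then z c.2 else 0) - (if c.1 = b then z c.2 else 0)

theorem vec_smul {V : Type} [DecidableEq V] (a b : V) (c : ℝ) (z : E2) :
    vec a b (c • z) = c • vec a b z := by
  funext k
  simp only [vec, Pi.smul_apply, smul_eq_mul]
  split_ifs <;> ring

theorem rigM_row {V : Type} [Fintype V] [DecidableEq V] (G : SimpleGraph V)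
    [DecidableRel G.Adj] (q : V → Fin 2 → ℝ) {a b : V} (h : G.Adj a b) :
    rigM G q (a, b) = vec a b (q a - q b) := by
  funext c
  have hne := h.ne
  simp only [rigM, Matrix.of_apply, vec, h, if_true, Pi.sub_apply]
  by_cases h1 : c.1 = a
  · have h2 : c.1 ≠ b := by rw [h1]; exact hne
    simp [h1, hne]
  · by_cases h2 : c.1 = b
    · simp [h2, hne.symm]
    · simp [h1, h2]

theorem vec_apply {V : Type} [DecidableEq V] (a b : V) (z : E2) (c : V × Fin 2) :
    vec a b z c = (Finsupp.single a z - Finsupp.single b z : V →₀ E2) c.1 c.2 := by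
  rw [Finsupp.sub_apply, Finsupp.single_apply, Finsupp.single_apply]
  simp only [vec, Pi.sub_apply, eq_comm (a := c.1)]
  split_ifs <;> simp

/-- PART R2: assembly. -/
theorem assembly {Γ : Type} [Group Γ] [Fintype Γ] {V : Type} [Fintype V] [DecidableEq V]
    [MulAction Γ V] (G : SimpleGraph V) [DecidableRel G.Adj]
    (τ : Γ →* Matrix.orthogonalGroup (Fin 2) ℝ)
    (ρ : Γ →* (E2 →ₗ[ℝ] E2)) (hρ : ∀ (γ : Γ) (x : E2), ρ γ x = Matrix.mulVec (τ γ).1 x)
    (htr : ∀ γ : Γ, γ ≠ 1 → Matrix.trace (τ γ).1 ≤ 0)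
    (hfix : ∀ γ : Γ, γ ≠ 1 → Matrix.trace (τ γ).1 = 0 ∨ ∀ v : V, γ • v ≠ v)
    (S : Finset (V × V)) (x : V × V → E2) (Jf : Type) [Fintype Jf] (ef : Jf → V × V)
    (df : Jf → E2) (F : Frame G ρ S x Jf ef df)
    (hL : ∀ X : Finset V, 2 ≤ X.card → ∑ i ∈ S, kk Γ i.1 i.2 X + 3 ≤ 2 * X.card) :
    ∃ q : V → Fin 2 → ℝ, (∀ (γ : Γ) (v : V), q (γ • v) = Matrix.mulVec (τ γ).1 (q v)) ∧
      Fintype.card Γ * S.card + Fintype.card Jf ≤ (rigM G q).rank := by
  classical
  -- the family of load vectors
  let fam : (V × V → E2) → ((Γ × S) ⊕ Jf) → (V × Fin 2 → ℝ) := fun y s =>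
    match s with
    | Sum.inl (γ, i) => vec (γ • i.1.1) (γ • i.1.2) (ρ γ (y i.1))
    | Sum.inr j => vec (ef j).1 (ef j).2 (df j)
  -- independence at `x`
  have hind : LinearIndependent ℝ (fam x) := by
    rw [Fintype.linearIndependent_iff]
    intro g hg
    let ω : V × V → Γ → ℝ := fun e γ => if h : e ∈ S then g (Sum.inl (γ, ⟨e, h⟩)) else 0
    let c : Jf → ℝ := fun j => g (Sum.inr j)
    have key := F.ind ω c ?_
    · intro s
      rcases s with ⟨γ, i⟩ | j
      · have h1 := congrFun (key.1 i.1 i.2) γ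
        simpa only [ω, i.2, dif_pos, Pi.zero_apply] using h1
      · exact congrFun key.2 j
    · ext v k
      have h1 := congrFun hg (v, k)
      rw [Fintype.sum_sum_type, Fintype.sum_prod_type, Finset.sum_comm] at h1
      rw [Finsupp.add_apply, Pi.add_apply, Finsupp.finsetSum_apply, Finset.sum_apply]
      rw [Pi.add_apply, Finset.sum_apply, Finset.sum_apply] at h1
      rw [Finsupp.zero_apply, Pi.zero_apply]
      rw [Pi.zero_apply] at h1
      rw [← h1]
      congr 1
      · unfold load
        rw [Finsupp.finsetSum_apply, Finset.sum_apply, ← Finset.sum_coe_sort]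
        refine Finset.sum_congr rfl fun i _ => ?_
        unfold load1
        rw [Finsupp.finsetSum_apply, Finset.sum_apply, Finset.sum_apply]
        refine Finset.sum_congr rfl fun γ _ => ?_
        have h2 : ω i.1 γ = g (Sum.inl (γ, i)) := by
          simp only [ω, i.2, dif_pos]
        rw [← h2, ← vec_apply (c := (v, k)), vec_smul]
      · refine Finset.sum_congr rfl fun j _ => ?_
        rw [← vec_apply (c := (v, k)), vec_smul]
  -- openness
  have hcont : Continuous fam := by
    rw [continuous_pi_iff]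
    intro s
    rcases s with ⟨γ, i⟩ | j
    · have h1 : Continuous (fun y : V × V → E2 => ρ γ (y i.1)) :=
        (LinearMap.continuous_of_finiteDimensional (ρ γ)).comp (continuous_apply i.1)
      rw [continuous_pi_iff]
      intro c
      show Continuous (fun y : V × V → E2 => vec (γ • i.1.1) (γ • i.1.2) (ρ γ (y i.1)) c)
      unfold vec
      have h2 : Continuous (fun y : V × V → E2 => (ρ γ (y i.1)) c.2) :=
        (continuous_apply c.2).comp h1
      refine Continuous.sub ?_ ?_
      · split_ifs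
        · exact h2
        · exact continuous_const
      · split_ifs
        · exact h2
        · exact continuous_const
    · exact continuous_const
  have hopen : IsOpen {y : V × V → E2 | LinearIndependent ℝ (fam y)} :=
    isOpen_setOfPred_linearIndependent.preimage hcont
  obtain ⟨δ, hδ, hball⟩ := Metric.isOpen_iff.1 hopen x hind
  -- x i ≠ 0 and adjacency
  have hx0 : ∀ i ∈ S, x i ≠ 0 := by
    intro i hi h0
    have h1 := hind.ne_zero (Sum.inl (1, ⟨i, hi⟩))
    apply h1
    show vec _ _ (ρ 1 (x i)) = 0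
    rw [h0, map_zero]
    funext c
    simp [vec]
  have hne : ∀ i ∈ S, i.1 ≠ i.2 := by
    intro i hi
    have := F.adjS i hi 1
    rw [one_smul, one_smul] at this
    exact this.ne
  obtain ⟨q, hq, hinj, hreal⟩ := exists_positions Γ τ htr hfix S Prod.fst Prod.snd hL hne x hx0
    (δ / 2) (by positivity)
  refine ⟨q, hq, ?_⟩
  have hreal' : ∀ i : V × V, ∃ c : ℝ, c ≠ 0 ∧
      (i ∈ S → ∀ k : Fin 2, |c * (q i.1 k - q i.2 k) - x i k| < δ / 2) := by
    intro i
    by_cases hi : i ∈ S
    · obtain ⟨c, hc, h⟩ := hreal i hi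
      exact ⟨c, hc, fun _ => h⟩
    · exact ⟨1, one_ne_zero, fun h => absurd h hi⟩
  choose c hc0 hc using hreal'
  -- the perturbed directions
  let y : V × V → E2 := fun i => if i ∈ S then c i • (q i.1 - q i.2) else x i
  have hy : y ∈ Metric.ball x δ := by
    rw [Metric.mem_ball]
    refine lt_of_le_of_lt ((dist_pi_le_iff (by positivity : (0 : ℝ) ≤ δ / 2)).2 fun i => ?_)
      (by linarith : δ / 2 < δ)
    rw [dist_pi_le_iff (by positivity : (0 : ℝ) ≤ δ / 2)]
    intro k
    rw [Real.dist_eq]
    by_cases hi : i ∈ S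
    · simp only [y, hi, if_true, Pi.smul_apply, Pi.sub_apply, smul_eq_mul]
      exact (hc i hi k).le
    · simp only [y, hi, if_false, sub_self, abs_zero]
      positivity
  have hyind : LinearIndependent ℝ (fam y) := hball hy
  -- the rows
  have hpar := F.par q (fun γ v => by rw [hq, hρ])
  choose d hd using hpar
  have hd0 : ∀ j, d j ≠ 0 := by
    intro j h0
    have h1 := hd j
    rw [h0, zero_smul, sub_eq_zero] at h1
    exact (F.adjf j).ne (hinj h1)
  let rw' : ((Γ × S) ⊕ Jf) → V × V := fun s =>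
    match s with
    | Sum.inl (γ, i) => (γ • i.1.1, γ • i.1.2)
    | Sum.inr j => ef j
  let w : ((Γ × S) ⊕ Jf) → ℝˣ := fun s =>
    match s with
    | Sum.inl (γ, i) => (Units.mk0 (c i.1) (hc0 i.1))⁻¹
    | Sum.inr j => Units.mk0 (d j) (hd0 j)
  have hrows : (fun s => rigM G q (rw' s)) = w • fam y := by
    funext s
    rw [Pi.smul_apply']
    rcases s with ⟨γ, i⟩ | j
    · show rigM G q (γ • i.1.1, γ • i.1.2)
        = (Units.mk0 (c i.1) (hc0 i.1))⁻¹ • vec (γ • i.1.1) (γ • i.1.2) (ρ γ (y i.1))
      rw [rigM_row G q (F.adjS i.1 i.2 γ)]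
      have h1 : y i.1 = c i.1 • (q i.1.1 - q i.1.2) := by simp only [y, i.2, if_true]
      rw [h1, map_smul, vec_smul, map_sub, hq, hq, hρ, hρ]
      rw [Units.smul_def, Units.val_inv_eq_inv_val, Units.val_mk0, smul_smul,
        inv_mul_cancel₀ (hc0 i.1), one_smul]
    · show rigM G q (ef j) = Units.mk0 (d j) (hd0 j) • vec (ef j).1 (ef j).2 (df j)
      have h1 : rigM G q (ef j) = rigM G q ((ef j).1, (ef j).2) := rfl
      rw [h1, rigM_row G q (F.adjf j), hd j, vec_smul]
      rfl
  have hli : LinearIndependent ℝ (fun s => rigM G q (rw' s)) := by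
    rw [hrows]
    exact hyind.units_smul w
  have h1 : ((rigM G q).submatrix rw' id).rank = Fintype.card ((Γ × S) ⊕ Jf) := by
    apply LinearIndependent.rank_matrix
    exact hli
  have h2 := Matrix.rank_submatrix_le (rigM G q) rw' id
  rw [h1] at h2
  rw [Fintype.card_sum, Fintype.card_prod, Fintype.card_coe] at h2
  exact h2

end Pool.Agent.SymLaman
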