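import Mathlib

set_option autoImplicit false

/-! Basic definitions for the symmetric Laman problem MP_d5472a_co. -/

namespace Pool.Agent.SymLaman
open scoped Pointwise

/-- the plane -/
abbrev E2 : Type := Fin 2 → ℝ

/-- non-parallel vectors -/
def NP (x y : E2) : Prop := ∀ α β : ℝ, α • x + β • y = 0 → α = 0 ∧ β = 0

section kkdef
variable (Γ : Type) [Group Γ] [Fintype Γ]
variable {Y : Type} [MulAction Γ Y] [DecidableEq Y]

/-- number of group elements sending both points into `X` -/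
def kk (a b : Y) (X : Finset Y) : ℕ :=
  (Finset.univ.filter (fun γ : Γ => γ • a ∈ X ∧ γ • b ∈ X)).card

end kkdef

/-- The facts about a dihedral group of order 4 or 6 acting on the plane that we use. -/
structure Dih (Γ : Type) [Group Γ] [Fintype Γ] (ρ : Γ →* (E2 →ₗ[ℝ] E2)) where
  R : Subgroup Γ
  m : ℕ
  hm : m = 2 ∨ m = 3
  card_R : Nat.card R = m
  card_G : Fintype.card Γ = 2 * m
  refl_sq : ∀ g : Γ, g ∉ R → g * g = 1
  mul_mem : ∀ g h : Γ, g ∉ R → h ∉ R → g * h ∈ R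
  np_rot : m = 3 → ∀ r ∈ R, r ≠ 1 → ∀ x : E2, x ≠ 0 → NP x (ρ r x)
  half : m = 2 → ∀ r ∈ R, r ≠ 1 → ∀ x : E2, ρ r x = -x
  dneg : ∀ g : Γ, g ∉ R → ∃ d : E2, d ≠ 0 ∧ ρ g d = -d
  dpos : ∀ g : Γ, g ∉ R → ∃ d : E2, d ≠ 0 ∧ ρ g d = d

end Pool.Agent.SymLaman
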