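import Pool.Agent.Lib_MP_d5472a_co.ViolF

set_option autoImplicit false
set_option linter.unusedSectionVars false

/-! Two violations of the same type contradict each other. -/

namespace Pool.Agent.SymLaman
open scoped Pointwise

variable {Γ : Type} [Group Γ] [Fintype Γ]
variable {Y : Type} [MulAction Γ Y] [DecidableEq Y]
variable {ι : Type} [DecidableEq ι]
variable {ρ : Γ →* (E2 →ₗ[ℝ] E2)}

theorem two_le_card_of {X : Finset Y} {y z : Y} (hyz : y ≠ z) (hy : y ∈ X) (hz : z ∈ X) :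
    2 ≤ X.card := by
  have : ({y, z} : Finset Y) ⊆ X := by
    intro t ht
    simp only [Finset.mem_insert, Finset.mem_singleton] at ht
    rcases ht with rfl | rfl
    · exact hy
    · exact hz
  refine le_trans (le_of_eq ?_) (Finset.card_le_card this)
  rw [Finset.card_pair hyz]

theorem BB_add_orbit (H : Subgroup Γ) {D : Dih Γ ρ} {A : Finset Y} (hA : Good D A)
    {S : Finset ι} {a b : ι → Y} {u w : Y}
    {X : Finset Y} {v : Y} (hvA : v ∈ A) (hXA : X ⊆ away Γ A v)
    (hX : InvH H X) {p q r : ι}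
    (hp : p ∈ S) (hq : q ∈ S) (hr : r ∈ S) (hpq : p ≠ q) (hpr : p ≠ r) (hqr : q ≠ r)
    (hap : a p = v) (haq : a q = v) (har : a r = v)
    (hbp : b p ∈ X) (hbq : b q ∈ X) (hbr : b r ∈ X) :
    ∃ Z : Finset Y, Z ⊆ A ∧ v ∈ Z ∧
      BB (Γ := Γ) S a b u w Z ≤ BB (Γ := Γ) S a b u w X - 2 * Nat.card H := by
  obtain ⟨Z, hZA, hXZ, hvZ, _, _, hbZ⟩ := bb_add_orbit H hA (T := {p, q, r}) (by
    intro k hk
    simp only [Finset.mem_insert, Finset.mem_singleton] at hk
    rcases hk with rfl | rfl | rfl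
    · exact hp
    · exact hq
    · exact hr) hvA (X := X) (S := S) (a := a) (b := b) hXA hX (by
      intro k hk
      simp only [Finset.mem_insert, Finset.mem_singleton] at hk
      rcases hk with rfl | rfl | rfl
      · exact ⟨hap, hbp⟩
      · exact ⟨haq, hbq⟩
      · exact ⟨har, hbr⟩) (by
      rw [Finset.card_insert_of_notMem (by simp [hpq, hpr]), Finset.card_pair hqr]; norm_num)
  rw [Finset.card_insert_of_notMem (by simp [hpq, hpr]), Finset.card_pair hqr] at hbZ
  refine ⟨Z, hZA, hvZ, ?_⟩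
  rw [BB_eq, BB_eq]
  have h1 : (kk Γ u w X : ℤ) ≤ kk Γ u w Z := by
    exact_mod_cast kk_mono (Γ := Γ) u w hXZ
  push_cast at hbZ
  linarith

theorem conflict_G {D : Dih Γ ρ} (hm : D.m = 3) {A : Finset Y} (hA : Good D A)
    (hnf : ∀ y ∈ A, ¬ Fx Γ y) {S : Finset ι} {a b : ι → Y} {u w : Y} {σ : Γ} {d : E2}
    (hFE : FE D u w σ d) (hβ : StarG D A S a b u w)
    {v : Y} (hvA : v ∈ A) {p q r : ι}
    (hp : p ∈ S) (hq : q ∈ S) (hr : r ∈ S) (hpq : p ≠ q) (hpr : p ≠ r) (hqr : q ≠ r)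
    (hap : a p = v) (haq : a q = v) (har : a r = v)
    (h1 : TG (Γ := Γ) (away Γ A v) (BB (Γ := Γ) S a b u w) (b p) (b q))
    (h2 : TG (Γ := Γ) (away Γ A v) (BB (Γ := Γ) S a b u w) (b p) (b r)) : False := by
  obtain ⟨W1, hW1, hp1, hq1, hb1, hI1⟩ := h1
  obtain ⟨W2, hW2, hp2, hr2, hb2, hI2⟩ := h2
  have hW1A := hW1.trans away_subset
  have hW2A := hW2.trans away_subset
  have hcapA : W1 ∩ W2 ⊆ A := Finset.inter_subset_left.trans hW1A
  have hIc := hI1.inter hI2
  have e1 := BB_top hm hA hnf (u := u) (w := w) S a b hW1A hI1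
  have e2 := BB_top hm hA hnf (u := u) (w := w) S a b hW2A hI2
  have e3 := BB_top hm hA hnf (u := u) (w := w) S a b hcapA hIc
  have k1 := kk_fe_R hm hFE (hI1.mono le_top)
  have k2 := kk_fe_R hm hFE (hI2.mono le_top)
  have k3 := kk_fe_R hm hFE (hIc.mono le_top)
  have k4 := kk_fe_R hm hFE ((hI1.union hI2).mono le_top)
  have m1 := kk_mono (Γ := Γ) u w (Finset.inter_subset_left (s₁ := W1) (s₂ := W2))
  have m2 := kk_mono (Γ := Γ) u w (Finset.inter_subset_right (s₁ := W1) (s₂ := W2))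
  have m3 := kk_supermod (Γ := Γ) u w W1 W2
  have m4 := BB_submod (Γ := Γ) S a b u w W1 W2
  have m5 := hβ.h2 (W1 ∩ W2) hcapA ⟨b p, Finset.mem_inter.2 ⟨hp1, hp2⟩⟩ (hIc.mono le_top)
  have hun : BB (Γ := Γ) S a b u w (W1 ∪ W2) ≤ 12 := by
    omega
  obtain ⟨Z, hZA, hvZ, hbZ⟩ := BB_add_orbit (⊤ : Subgroup Γ) hA (u := u) (w := w) hvA
    (Finset.union_subset hW1 hW2) (hI1.union hI2) hp hq hr hpq hpr hqr hap haq har
    (Finset.mem_union_left _ hp1) (Finset.mem_union_left _ hq1) (Finset.mem_union_right _ hr2)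
  have := hβ.h1 Z hZA ⟨v, hvZ⟩
  rw [D.card_top, hm] at hbZ
  push_cast at hbZ
  omega

theorem conflict_R {D : Dih Γ ρ} (hm : D.m = 3) {A : Finset Y} (hA : Good D A)
    {S : Finset ι} {a b : ι → Y} {u w : Y} {σ : Γ} {d : E2}
    (hFE : FE D u w σ d) (hβ : StarG D A S a b u w) (hst : Strong Γ A S a b u w)
    {v : Y} (hvA : v ∈ A) {p q r : ι}
    (hp : p ∈ S) (hq : q ∈ S) (hr : r ∈ S) (hpq : p ≠ q) (hpr : p ≠ r) (hqr : q ≠ r)
    (hap : a p = v) (haq : a q = v) (har : a r = v)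
    (h1 : TR D (away Γ A v) (BB (Γ := Γ) S a b u w) u w σ (b p) (b q))
    (h2 : TR D (away Γ A v) (BB (Γ := Γ) S a b u w) u w σ (b p) (b r)) : False := by
  obtain ⟨W1, hW1, hp1, hq1, hb1, r1, hr1, hu1, hw1, hg1⟩ := h1
  obtain ⟨W2, hW2, hp2, hr2, hb2, r2, hr2R, hu2, hw2, hg2⟩ := h2
  have hW1A := hW1.trans away_subset
  have hW2A := hW2.trans away_subset
  have hcapA : W1 ∩ W2 ⊆ A := Finset.inter_subset_left.trans hW1A
  have m4 := BB_submod (Γ := Γ) S a b u w W1 W2
  by_cases hrr : r1 = r2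
  · subst hrr
    set g := r1 * σ * r1⁻¹ with hg
    have hgR : g ∉ D.R := D.conj_not_mem hFE.hσ r1
    have h2 : 2 ≤ (W1 ∩ W2).card := by
      refine two_le_card_of (y := r1 • u) (z := r1 • w) ?_ ?_ ?_
      · intro h; exact hFE.hne (smul_left_cancel _ h)
      · exact Finset.mem_inter.2 ⟨hu1, hu2⟩
      · exact Finset.mem_inter.2 ⟨hw1, hw2⟩
    have h3 := hst _ hcapA h2
    have hI : InvH (Subgroup.zpowers g) (W1 ∪ W2) := by
      refine invH_of_smul_eq fun h hh => ?_
      have h4 : Subgroup.zpowers g ≤ MulAction.stabilizer Γ (W1 ∪ W2) := by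
        rw [Subgroup.zpowers_le, mem_stab, Finset.smul_finset_union, hg1, hg2]
      exact mem_stab.1 (h4 hh)
    obtain ⟨Z, hZA, hvZ, hbZ⟩ := BB_add_orbit (Subgroup.zpowers g) hA (u := u) (w := w) hvA
      (Finset.union_subset hW1 hW2) hI hp hq hr hpq hpr hqr hap haq har
      (Finset.mem_union_left _ hp1) (Finset.mem_union_left _ hq1) (Finset.mem_union_right _ hr2)
    have := hβ.h1 Z hZA ⟨v, hvZ⟩
    rw [Nat.card_zpowers, orderOf_eq_prime (by rw [sq]; exact D.refl_sq g hgR)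
      (D.refl_ne_one hgR)] at hbZ
    push_cast at hbZ
    omega
  · set t := r2 * r1⁻¹ with ht
    have htR : t ∈ D.R := D.R.mul_mem hr2R (D.R.inv_mem hr1)
    have ht1 : t ≠ 1 := by
      intro h
      apply hrr
      rw [ht] at h
      exact (mul_inv_eq_one.1 h).symm
    have ht3 := D.cube hm htR
    have htr : t * r1 = r2 := by rw [ht]; group
    have httr : t * t * r2 = r1 := by
      calc t * t * r2 = t * t * (t * r1) := by rw [htr]
        _ = (t * t * t) * r1 := by simp only [mul_assoc]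
        _ = r1 := by rw [ht3, one_mul]
    set X := W1 ∪ W2 with hX
    have hXA : X ⊆ away Γ A v := Finset.union_subset hW1 hW2
    have hA' := away_good hA v
    have hXA' : X ⊆ A := hXA.trans away_subset
    have hbX : BB (Γ := Γ) S a b u w X ≤ 8 := by
      have h3 := hβ.h1 (W1 ∩ W2) hcapA ⟨b p, Finset.mem_inter.2 ⟨hp1, hp2⟩⟩
      omega
    have hne : ∀ s : Γ, s • u ≠ s • w := fun s h => hFE.hne (smul_left_cancel _ h)
    have htm : ∀ y : Y, t • r1 • y = r2 • y := fun y => by rw [smul_smul, htr]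
    have httm : ∀ y : Y, (t * t) • r2 • y = r1 • y := fun y => by rw [smul_smul, httr]
    have hbX1 : BB (Γ := Γ) S a b u w (X ∪ t • X) ≤ 10 := by
      have h3 := BB_submod (Γ := Γ) S a b u w X (t • X)
      rw [BB_smul] at h3
      have e1 : r2 • u ∈ t • X := by
        have : t • r1 • u ∈ t • X := Finset.smul_mem_smul_finset (Finset.mem_union_left _ hu1)
        rwa [htm] at this
      have e2 : r2 • w ∈ t • X := by
        have : t • r1 • w ∈ t • X := Finset.smul_mem_smul_finset (Finset.mem_union_left _ hw1)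
        rwa [htm] at this
      have h4 := hst (X ∩ t • X) (Finset.inter_subset_left.trans hXA')
        (two_le_card_of (hne r2) (Finset.mem_inter.2 ⟨Finset.mem_union_right _ hu2, e1⟩)
          (Finset.mem_inter.2 ⟨Finset.mem_union_right _ hw2, e2⟩))
      omega
    set X2 := X ∪ t • X ∪ (t * t) • X with hX2
    have hbX2 : BB (Γ := Γ) S a b u w X2 ≤ 12 := by
      have h3 := BB_submod (Γ := Γ) S a b u w (X ∪ t • X) ((t * t) • X)
      rw [BB_smul, ← hX2] at h3
      have e1 : r1 • u ∈ (t * t) • X := by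
        have : (t * t) • r2 • u ∈ (t * t) • X :=
          Finset.smul_mem_smul_finset (Finset.mem_union_right _ hu2)
        rwa [httm] at this
      have e2 : r1 • w ∈ (t * t) • X := by
        have : (t * t) • r2 • w ∈ (t * t) • X :=
          Finset.smul_mem_smul_finset (Finset.mem_union_right _ hw2)
        rwa [httm] at this
      have h4 := hst ((X ∪ t • X) ∩ (t * t) • X) (Finset.inter_subset_left.trans
          (Finset.union_subset hXA' (hA.smul_sub hXA' t)))
        (two_le_card_of (hne r1) (Finset.mem_inter.2 ⟨Finset.mem_union_left _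
          (Finset.mem_union_left _ hu1), e1⟩)
          (Finset.mem_inter.2 ⟨Finset.mem_union_left _ (Finset.mem_union_left _ hw1), e2⟩))
      omega
    have hX2A : X2 ⊆ away Γ A v := by
      refine Finset.union_subset (Finset.union_subset hXA ?_) ?_
      · exact hA'.smul_sub hXA t
      · exact hA'.smul_sub hXA (t * t)
    have htX2 : t • X2 = X2 := by
      rw [hX2, Finset.smul_finset_union, Finset.smul_finset_union, smul_smul, smul_smul]
      have : t * (t * t) = 1 := by rw [← mul_assoc]; exact ht3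
      rw [this, one_smul, Finset.union_comm, ← Finset.union_assoc]
    have hRX2 : D.R ≤ MulAction.stabilizer Γ X2 :=
      D.le_of_mem htR ht1 (mem_stab.2 htX2)
    have hWX2 : ∀ s ∈ D.R, ∀ W : Finset Y, W ⊆ X → s • W ⊆ X2 := by
      intro s hs W hW
      rw [← mem_stab.1 (hRX2 hs)]
      exact Finset.smul_finset_subset_smul_finset (hW.trans (Finset.subset_union_left.trans
        Finset.subset_union_left))
    have hgR : r1 * σ * r1⁻¹ ∉ D.R := D.conj_not_mem hFE.hσ r1
    have hgR2 : r2 * σ * r2⁻¹ ∉ D.R := D.conj_not_mem hFE.hσ r2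
    have hgX2 : (r1 * σ * r1⁻¹) • X2 ⊆ X2 := by
      intro y hy
      obtain ⟨z, hz, rfl⟩ := Finset.mem_smul_finset.1 hy
      have hz' : ∃ s ∈ D.R, z ∈ s • X := by
        rcases Finset.mem_union.1 hz with hz | hz
        · rcases Finset.mem_union.1 hz with hz | hz
          · exact ⟨1, D.R.one_mem, by rw [one_smul]; exact hz⟩
          · exact ⟨t, htR, hz⟩
        · exact ⟨t * t, D.R.mul_mem htR htR, hz⟩
      obtain ⟨s, hs, hzs⟩ := hz'
      obtain ⟨x, hx, rfl⟩ := Finset.mem_smul_finset.1 hzs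
      rcases Finset.mem_union.1 hx with hx | hx
      · have h3 : (r1 * σ * r1⁻¹) * s * (r1 * σ * r1⁻¹) ∈ D.R :=
          D.mul_mem _ _ (D.mul_not_mem' hs hgR) hgR
        refine hWX2 _ h3 W1 Finset.subset_union_left ?_
        rw [← hg1] at hx
        obtain ⟨x', hx', rfl⟩ := Finset.mem_smul_finset.1 hx
        refine Finset.mem_smul_finset.2 ⟨(r1 * σ * r1⁻¹) • (r1 * σ * r1⁻¹) • x', ?_, ?_⟩
        · rw [smul_smul, D.refl_sq _ hgR, one_smul]; exact hx'
        · simp only [smul_smul]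
          congr 1
          have h5 := D.refl_sq _ hgR
          calc (r1 * σ * r1⁻¹) * s * (r1 * σ * r1⁻¹) * ((r1 * σ * r1⁻¹) * (r1 * σ * r1⁻¹))
              = (r1 * σ * r1⁻¹) * s * (r1 * σ * r1⁻¹) := by rw [h5, mul_one]
            _ = (r1 * σ * r1⁻¹) * (s * (r1 * σ * r1⁻¹)) := by simp only [mul_assoc]
      · have h3 : (r1 * σ * r1⁻¹) * s * (r2 * σ * r2⁻¹) ∈ D.R :=
          D.mul_mem _ _ (D.mul_not_mem' hs hgR) hgR2
        refine hWX2 _ h3 W2 Finset.subset_union_right ?_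
        rw [← hg2] at hx
        obtain ⟨x', hx', rfl⟩ := Finset.mem_smul_finset.1 hx
        refine Finset.mem_smul_finset.2 ⟨(r2 * σ * r2⁻¹) • (r2 * σ * r2⁻¹) • x', ?_, ?_⟩
        · rw [smul_smul, D.refl_sq _ hgR2, one_smul]; exact hx'
        · simp only [smul_smul]
          congr 1
          have h5 := D.refl_sq _ hgR2
          calc (r1 * σ * r1⁻¹) * s * (r2 * σ * r2⁻¹) * ((r2 * σ * r2⁻¹) * (r2 * σ * r2⁻¹))
              = (r1 * σ * r1⁻¹) * s * (r2 * σ * r2⁻¹) := by rw [h5, mul_one]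
            _ = (r1 * σ * r1⁻¹) * (s * (r2 * σ * r2⁻¹)) := by simp only [mul_assoc]
    have hgst : r1 * σ * r1⁻¹ ∈ MulAction.stabilizer Γ X2 := by
      rw [mem_stab]
      exact Finset.eq_of_subset_of_card_le hgX2 (by rw [Finset.card_smul_finset])
    have htop := D.eq_top_of hRX2 hgR hgst
    have hI : InvH (⊤ : Subgroup Γ) X2 := by
      refine invH_of_smul_eq fun g _ => mem_stab.1 ?_
      rw [htop]; exact Subgroup.mem_top g
    have hsub : X ⊆ X2 := Finset.subset_union_left.trans Finset.subset_union_left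
    obtain ⟨Z, hZA, hvZ, hbZ⟩ := BB_add_orbit (⊤ : Subgroup Γ) hA (u := u) (w := w) hvA
      hX2A hI hp hq hr hpq hpr hqr hap haq har
      (hsub (Finset.mem_union_left _ hp1)) (hsub (Finset.mem_union_left _ hq1))
      (hsub (Finset.mem_union_right _ hr2))
    have := hβ.h1 Z hZA ⟨v, hvZ⟩
    rw [D.card_top, hm] at hbZ
    push_cast at hbZ
    omega

/-- the count of the reduced system is good for one of the pairs -/
def GoodPair (D : Dih Γ ρ) (A : Finset Y) (β : Finset Y → ℤ) (n n' : Y) : Prop :=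
  (∀ X ⊆ A, X.Nonempty → 4 ≤ β X - 2 * (kk Γ n n' X : ℤ)) ∧
      (∀ X ⊆ A, X.Nonempty → InvH D.R X → 6 ≤ β X - 2 * (kk Γ n n' X : ℤ))

theorem exists_good_pair_f {D : Dih Γ ρ} (hm : D.m = 3) {A : Finset Y} (hA : Good D A)
    (hnf : ∀ y ∈ A, ¬ Fx Γ y) {S : Finset ι} {a b : ι → Y} {u w : Y} {σ : Γ} {d : E2}
    (hFE : FE D u w σ d) (hβ : StarG D A S a b u w) (hst : Strong Γ A S a b u w)
    {v : Y} (hvA : v ∈ A) {p q r : ι}
    (hp : p ∈ S) (hq : q ∈ S) (hr : r ∈ S) (hpq : p ≠ q) (hpr : p ≠ r) (hqr : q ≠ r)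
    (hap : a p = v) (haq : a q = v) (har : a r = v)
    (hnpq : b p ≠ b q) (hnpr : b p ≠ b r) (hnqr : b q ≠ b r) :
    GoodPair D (away Γ A v) (BB (Γ := Γ) S a b u w) (b p) (b q) ∨
    GoodPair D (away Γ A v) (BB (Γ := Γ) S a b u w) (b p) (b r) ∨
    GoodPair D (away Γ A v) (BB (Γ := Γ) S a b u w) (b q) (b r) := by
  by_contra hcon
  push Not at hcon
  obtain ⟨h1, h2, h3⟩ := hcon
  have hβ' : StarG D (away Γ A v) S a b u w :=
    ⟨fun X hX => hβ.h1 X (hX.trans away_subset), fun X hX => hβ.h2 X (hX.trans away_subset)⟩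
  have hst' : Strong Γ (away Γ A v) S a b u w := fun X hX => hst X (hX.trans away_subset)
  have hnf' : ∀ y ∈ away Γ A v, ¬ Fx Γ y := fun y hy => hnf y (away_subset hy)
  have hA' := away_good hA v
  rcases viol_f hm hA' hnf' hFE hβ' hst' hnpq h1 with h1 | h1 <;>
    rcases viol_f hm hA' hnf' hFE hβ' hst' hnpr h2 with h2 | h2
  · exact conflict_R hm hA hFE hβ hst hvA hp hq hr hpq hpr hqr hap haq har h1 h2
  · rcases viol_f hm hA' hnf' hFE hβ' hst' hnqr h3 with h3 | h3
    · exact conflict_R hm hA hFE hβ hst hvA hq hp hr hpq.symm hqr hpr haq hap har h1.symm h3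
    · exact conflict_G hm hA hnf hFE hβ hvA hr hp hq hpr.symm hqr.symm hpq har hap haq
        h2.symm h3.symm
  · rcases viol_f hm hA' hnf' hFE hβ' hst' hnqr h3 with h3 | h3
    · exact conflict_R hm hA hFE hβ hst hvA hr hp hq hpr.symm hqr.symm hpq har hap haq
        h2.symm h3.symm
    · exact conflict_G hm hA hnf hFE hβ hvA hq hp hr hpq.symm hqr hpr haq hap har h1.symm h3
  · exact conflict_G hm hA hnf hFE hβ hvA hp hq hr hpq hpr hqr hap haq har h1 h2

end Pool.Agent.SymLaman
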