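import Pool.Agent.Lib_MP_d5472a_co.ConfF

set_option autoImplicit false
set_option linter.unusedSectionVars false

/-! Contraction of tight blocks. -/

namespace Pool.Agent.SymLaman
open scoped Pointwise

variable {Γ : Type} [Group Γ] [Fintype Γ]
variable {Y : Type} [MulAction Γ Y] [DecidableEq Y]
variable {ι : Type} [DecidableEq ι]
variable {ρ : Γ →* (E2 →ₗ[ℝ] E2)}

/-- the conclusion of the main theorem -/
def ConF (ρ : Γ →* (E2 →ₗ[ℝ] E2)) (S : Finset ι) (a b : ι → Y) (u w : Y) (σ : Γ) (d : E2) : Prop :=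
  ∃ x : ι → E2, ∀ (ω : ι → Γ → ℝ) (ωf : Γ → ℝ),
      load ρ S a b x ω + load1 ρ u w d ωf = 0 →
      (∀ i ∈ S, ω i = 0) ∧ ∀ γ : Γ, ωf γ + ωf (γ * σ) = 0

/-- the induction hypothesis -/
def IHF {Γ : Type} [Group Γ] [Fintype Γ] {ρ : Γ →* (E2 →ₗ[ℝ] E2)} (D : Dih Γ ρ) (ι : Type)
    [DecidableEq ι] (n : ℕ) : Prop :=
  ∀ (Z : Type) [MulAction Γ Z] [DecidableEq Z] (S : Finset ι) (a b : ι → Z) (A : Finset Z)
    (u w : Z) (σ : Γ) (d : E2), S.card < n → Good D A → (∀ y ∈ A, ¬ Fx Γ y) →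
    (∀ i ∈ S, a i ∈ A ∧ b i ∈ A) → FE D u w σ d → u ∈ A → w ∈ A → StarG D A S a b u w →
    ConF ρ S a b u w σ d

open Classical in
/-- the contraction map -/
noncomputable def kap (Γ : Type) [Group Γ] [Fintype Γ] {Y : Type} [MulAction Γ Y] [DecidableEq Y]
    (W : Finset Y) (y : Y) : Finset Y :=
  if h : ∃ g : Γ, y ∈ g • W then (h.choose) • W else {y}

section kap

variable {W : Finset Y} (hbl : ∀ g : Γ, (g • W ∩ W).Nonempty → g • W = W)

include hbl

theorem kap_of_mem {g : Γ} {y : Y} (h : y ∈ g • W) : kap Γ W y = g • W := by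
  have hex : ∃ g : Γ, y ∈ g • W := ⟨g, h⟩
  unfold kap
  rw [dif_pos hex]
  have h1 := hex.choose_spec
  set g' := hex.choose
  have h2 : ((g⁻¹ * g') • W ∩ W).Nonempty := by
    refine ⟨g⁻¹ • y, Finset.mem_inter.2 ⟨?_, ?_⟩⟩
    · rw [mul_smul]; exact Finset.smul_mem_smul_finset h1
    · exact Finset.inv_smul_mem_iff.2 h
  have h3 := hbl _ h2
  rw [mul_smul] at h3
  exact inv_smul_eq_iff.1 h3

theorem kap_cases (y : Y) : (∃ g : Γ, y ∈ g • W ∧ kap Γ W y = g • W) ∨
    ((∀ g : Γ, y ∉ g • W) ∧ kap Γ W y = {y}) := by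
  by_cases h : ∃ g : Γ, y ∈ g • W
  · obtain ⟨g, hg⟩ := h
    exact Or.inl ⟨g, hg, kap_of_mem hbl hg⟩
  · right
    push Not at h
    refine ⟨h, ?_⟩
    unfold kap
    rw [dif_neg (by push Not; exact h)]

theorem mem_kap (y : Y) : y ∈ kap Γ W y := by
  rcases kap_cases hbl y with ⟨g, hg, h⟩ | ⟨_, h⟩
  · rw [h]; exact hg
  · rw [h]; exact Finset.mem_singleton_self y

theorem kap_smul (γ : Γ) (y : Y) : kap Γ W (γ • y) = γ • kap Γ W y := by
  rcases kap_cases hbl y with ⟨g, hg, h⟩ | ⟨hg, h⟩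
  · rw [h, smul_smul]
    refine kap_of_mem hbl ?_
    rw [mul_smul]
    exact Finset.smul_mem_smul_finset hg
  · rcases kap_cases hbl (γ • y) with ⟨g, hg', h'⟩ | ⟨hg', h'⟩
    · exfalso
      refine hg (γ⁻¹ * g) ?_
      rw [mul_smul]
      have := Finset.smul_mem_smul_finset (a := γ⁻¹) hg'
      rwa [inv_smul_smul] at this
    · rw [h', h, Finset.smul_finset_singleton]

theorem kap_eq_of_mem {y z : Y} (h : z ∈ kap Γ W y) : kap Γ W z = kap Γ W y := by
  rcases kap_cases hbl y with ⟨g, hg, h'⟩ | ⟨hg, h'⟩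
  · rw [h'] at h ⊢
    exact kap_of_mem hbl h
  · rw [h'] at h
    rw [Finset.mem_singleton.1 h]

theorem kap_disj {y z : Y} (h : kap Γ W y ≠ kap Γ W z) : Disjoint (kap Γ W y) (kap Γ W z) := by
  rw [Finset.disjoint_left]
  intro t hty htz
  exact h ((kap_eq_of_mem hbl hty).symm.trans (kap_eq_of_mem hbl htz))

end kap

theorem mapDomain_load1 {Z : Type} [MulAction Γ Z] (f : Y → Z)
    (hf : ∀ (γ : Γ) (y : Y), f (γ • y) = γ • f y) (a b : Y) (x : E2) (ω : Γ → ℝ) :
    Finsupp.mapDomain.addMonoidHom f (load1 ρ a b x ω) = load1 ρ (f a) (f b) x ω := by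
  unfold load1
  rw [map_sum]
  refine Finset.sum_congr rfl fun γ _ => ?_
  rw [map_sub]
  simp only [Finsupp.mapDomain.addMonoidHom_apply, Finsupp.mapDomain_single, hf]

theorem load1_self (a : Y) (x : E2) (ω : Γ → ℝ) : load1 ρ a a x ω = 0 := by
  unfold load1
  exact Finset.sum_eq_zero fun γ _ => sub_self _

theorem bb_biUnion_le {S : Finset ι} {a b : ι → Y} (X' : Finset (Finset Y))
    (hdis : ∀ z ∈ X', ∀ z' ∈ X', z ≠ z' → Disjoint z z') {c : ℤ}
    (hc : ∀ z ∈ X', bb (Γ := Γ) S a b z ≤ c) :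
    bb (Γ := Γ) S a b (X'.biUnion id) ≤ c * X'.card := by
  induction X' using Finset.induction_on with
  | empty => simp [bb_empty]
  | insert z X' hz ih =>
    have h1 := ih (fun t ht t' ht' => hdis t (Finset.mem_insert_of_mem ht) t'
      (Finset.mem_insert_of_mem ht')) (fun t ht => hc t (Finset.mem_insert_of_mem ht))
    rw [Finset.biUnion_insert, Finset.card_insert_of_notMem hz]
    have h2 := bb_submod (Γ := Γ) S a b (id z) (X'.biUnion id)
    have h3 : id z ∩ X'.biUnion id = ∅ := by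
      rw [Finset.eq_empty_iff_forall_notMem]
      intro t ht
      rw [Finset.mem_inter, Finset.mem_biUnion] at ht
      obtain ⟨ht1, z', hz', ht2⟩ := ht
      have hne : z ≠ z' := fun h => hz (h ▸ hz')
      exact Finset.disjoint_left.1 (hdis z (Finset.mem_insert_self z X') z'
        (Finset.mem_insert_of_mem hz') hne) ht1 ht2
    rw [h3, bb_empty] at h2
    have h4 := hc z (Finset.mem_insert_self z X')
    simp only [id] at h2 ⊢
    push_cast
    linarith

theorem contract {D : Dih Γ ρ} (hm : D.m = 3) {A : Finset Y} (hA : Good D A)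
    (hnf : ∀ y ∈ A, ¬ Fx Γ y) {S : Finset ι} {a b : ι → Y} (hab : ∀ i ∈ S, a i ∈ A ∧ b i ∈ A)
    {u w : Y} {σ : Γ} {d : E2} (hFE : FE D u w σ d) (hu : u ∈ A) (hw : w ∈ A)
    (hβ : StarG D A S a b u w) (hns : ¬ Strong Γ A S a b u w) (ih : IHF D ι S.card) :
    ConF ρ S a b u w σ d := by
  classical
  unfold Strong at hns
  push Not at hns
  obtain ⟨X0, hX0A, hX0c, hX0β⟩ := hns
  have hX0β4 : BB (Γ := Γ) S a b u w X0 ≤ 4 := by
    have := BB_even hFE S a b X0
    omega
  obtain ⟨W, ⟨hWA, hWc⟩, hWβ, hbl⟩ := exists_block (Γ := Γ) (A := A) (BB (Γ := Γ) S a b u w)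
    (BB_smul S a b u w) (BB_submod S a b u w) (fun X => X ⊆ A ∧ 2 ≤ X.card) 4
    (fun X hX => hX.1) (by
      intro X g hX _ hn
      refine ⟨⟨Finset.union_subset hX.1 (hA.smul_sub hX.1 g), ?_⟩, ?_⟩
      · exact hX.2.trans (Finset.card_le_card Finset.subset_union_left)
      · refine hβ.h1 _ (Finset.inter_subset_left.trans hX.1) ?_
        rw [Finset.inter_comm]; exact hn) X0 ⟨hX0A, hX0c⟩ hX0β4
  have hWn : W.Nonempty := Finset.card_pos.1 (by omega)
  -- no nontrivial rotation stabilises W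
  have hnoR : ∀ r ∈ D.R, r ≠ 1 → r • W ≠ W := by
    intro r hr hr1 hrW
    have h1 : D.R ≤ MulAction.stabilizer Γ W := D.le_of_mem hr hr1 (mem_stab.2 hrW)
    have h2 := hβ.h2 W hWA hWn (invH_of_smul_eq fun h hh => mem_stab.1 (h1 hh))
    omega
  -- the special edges are not inside W
  have hkf : ∀ γ : Γ, ¬ (γ • u ∈ W ∧ γ • w ∈ W) := by
    rintro γ ⟨hγu, hγw⟩
    have h1 := fe_block hFE hbl hγu hγw
    have hgR := D.conj_not_mem hFE.hσ γ
    have h2 := BB_refl hgR (u := u) (w := w) S a b h1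
    have h3 : kk Γ u w W = 2 := by
      have h4 : kk Γ (γ • u) (γ • w) W = kk Γ u w W := kk_rel ⟨γ, Or.inl ⟨rfl, rfl⟩⟩ W
      rw [← h4, kk_block hbl hγu hγw]
      have h5 : (Finset.univ.filter (fun g : Γ => g • W = W)).card =
          Nat.card (MulAction.stabilizer Γ W) := by
        rw [Nat.card_eq_fintype_card, Fintype.card_subtype]
        congr 1
      rw [h5]
      refine card_stab_refl hgR (mem_stab.2 h1) ?_
      intro h hh
      by_cases hhR : h ∈ D.R
      · left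
        by_contra hh1
        exact hnoR h hhR hh1 (mem_stab.1 hh)
      · right
        have h6 : (γ * σ * γ⁻¹) * h ∈ D.R := D.mul_mem _ _ hgR hhR
        have h7 : ((γ * σ * γ⁻¹) * h) • W = W := by rw [mul_smul, mem_stab.1 hh, h1]
        have h8 : (γ * σ * γ⁻¹) * h = 1 := by
          by_contra hh1
          exact hnoR _ h6 hh1 h7
        have h9 := eq_inv_of_mul_eq_one_right h8
        rw [h9, D.inv_refl hgR]
    rw [h3] at h2
    have h10 := hβ.h1 W hWA hWn
    push_cast at h2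
    omega
  have hkf0 : kk Γ u w W = 0 := by
    rcases Nat.eq_zero_or_pos (kk Γ u w W) with h | h
    · exact h
    · obtain ⟨γ, hγ⟩ := kk_pos h
      exact absurd hγ (hkf γ)
  have hbbW : bb (Γ := Γ) S a b W ≤ 2 := by
    rw [BB_eq, hkf0] at hWβ
    push_cast at hWβ
    linarith
  set κ : Y → Finset Y := kap Γ W with hκ
  have hκs : ∀ (γ : Γ) (y : Y), κ (γ • y) = γ • κ y := kap_smul hbl
  set Sin := S.filter (fun i => κ (a i) = κ (b i)) with hSin
  set Sout := S.filter (fun i => ¬ κ (a i) = κ (b i)) with hSout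
  have hSinS : Sin ⊆ S := Finset.filter_subset _ _
  have hSoutS : Sout ⊆ S := Finset.filter_subset _ _
  have hκW : ∀ y ∈ W, κ y = W := by
    intro y hy
    have := kap_of_mem hbl (g := 1) (y := y) (by rw [one_smul]; exact hy)
    rwa [one_smul] at this
  have hκne : κ u ≠ κ w := by
    intro h
    have h1 : w ∈ κ u := by rw [h]; exact mem_kap hbl w
    rcases kap_cases hbl u with ⟨g, hg, h'⟩ | ⟨hg, h'⟩
    · have h2 : w ∈ g • W := by rw [← h']; exact h1
      exact hkf g⁻¹ ⟨Finset.inv_smul_mem_iff.2 hg, Finset.inv_smul_mem_iff.2 h2⟩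
    · have h2 : w ∈ ({u} : Finset Y) := by rw [← h']; exact h1
      exact hFE.hne (Finset.mem_singleton.1 h2).symm
  -- Sin is nonempty
  have hSinn : Sin.Nonempty := by
    by_contra hcon
    rw [Finset.not_nonempty_iff_eq_empty] at hcon
    have h1 : ∑ i ∈ S, (kk Γ (a i) (b i) W : ℤ) = 0 := by
      refine Finset.sum_eq_zero fun i hi => ?_
      rcases Nat.eq_zero_or_pos (kk Γ (a i) (b i) W) with h | h
      · rw [h]; rfl
      · exfalso
        obtain ⟨γ, h1, h2⟩ := kk_pos h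
        have h3 : i ∈ Sin := by
          refine Finset.mem_filter.2 ⟨hi, ?_⟩
          have h4 : κ (γ • a i) = κ (γ • b i) := by rw [hκW _ h1, hκW _ h2]
          rw [hκs, hκs] at h4
          exact smul_left_cancel _ h4
        rw [hcon] at h3
        exact Finset.notMem_empty i h3
    unfold bb at hbbW
    rw [h1] at hbbW
    have h2 : (2 : ℤ) ≤ W.card := by exact_mod_cast hWc
    linarith
  have hbbin : ∀ y : Y, bb (Γ := Γ) Sin a b (κ y) ≤ 2 := by
    intro y
    rcases kap_cases hbl y with ⟨g, hg, h'⟩ | ⟨hg, h'⟩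
    · have h1 : κ y = g • W := h'
      rw [h1, bb_smul]
      refine le_trans (le_of_eq ?_) hbbW
      unfold bb
      congr 1
      refine Finset.sum_subset hSinS fun i hi hi' => ?_
      rcases Nat.eq_zero_or_pos (kk Γ (a i) (b i) W) with h | h
      · rw [h]; rfl
      · exfalso
        obtain ⟨γ, h1, h2⟩ := kk_pos h
        apply hi'
        refine Finset.mem_filter.2 ⟨hi, ?_⟩
        have h4 : κ (γ • a i) = κ (γ • b i) := by rw [hκW _ h1, hκW _ h2]
        rw [hκs, hκs] at h4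
        exact smul_left_cancel _ h4
    · have h1 : κ y = {y} := h'
      rw [h1]
      unfold bb
      rw [Finset.card_singleton]
      have : 0 ≤ ∑ i ∈ Sin, (kk Γ (a i) (b i) {y} : ℤ) := Finset.sum_nonneg fun _ _ => by positivity
      push_cast
      linarith
  have hκA : ∀ y ∈ A, κ y ⊆ A := by
    intro y hy
    rcases kap_cases hbl y with ⟨g, hg, h'⟩ | ⟨hg, h'⟩
    · have h1 : κ y = g • W := h'
      rw [h1]; exact hA.smul_sub hWA g
    · have h1 : κ y = {y} := h'
      rw [h1]; exact Finset.singleton_subset_iff.2 hy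
  -- the contracted vertex set
  set AZ := A.image κ with hAZ
  have hkknn : ∀ (X' : Finset (Finset Y)), X' ⊆ AZ → ∀ c c' : Y,
      kk Γ (κ c) (κ c') X' = kk Γ c c' (X'.biUnion id) := by
    intro X' hX' c c'
    have hmem : ∀ y : Y, κ y ∈ X' ↔ y ∈ X'.biUnion id := by
      intro y
      rw [Finset.mem_biUnion]
      constructor
      · intro h
        exact ⟨κ y, h, mem_kap hbl y⟩
      · rintro ⟨z, hz, hyz⟩
        obtain ⟨y0, _, rfl⟩ := Finset.mem_image.1 (hX' hz)
        have : κ y = κ y0 := kap_eq_of_mem hbl hyz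
        rw [this]; exact hz
    unfold kk
    congr 1
    ext γ
    simp only [Finset.mem_filter, Finset.mem_univ, true_and]
    rw [← hκs, ← hκs, hmem, hmem]
  have hBBle : ∀ X' ⊆ AZ, BB (Γ := Γ) S a b u w (X'.biUnion id) ≤
      BB (Γ := Γ) Sout (κ ∘ a) (κ ∘ b) (κ u) (κ w) X' := by
    intro X' hX'
    have h1 : bb (Γ := Γ) Sin a b (X'.biUnion id) ≤ 2 * X'.card := by
      refine bb_biUnion_le X' ?_ ?_
      · intro z hz z' hz' hzz
        obtain ⟨y, _, rfl⟩ := Finset.mem_image.1 (hX' hz)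
        obtain ⟨y', _, rfl⟩ := Finset.mem_image.1 (hX' hz')
        exact kap_disj hbl hzz
      · intro z hz
        obtain ⟨y, _, rfl⟩ := Finset.mem_image.1 (hX' hz)
        exact hbbin y
    unfold BB
    rw [hkknn X' hX' u w]
    have h2 : ∑ i ∈ Sout, (kk Γ ((κ ∘ a) i) ((κ ∘ b) i) X' : ℤ) =
        ∑ i ∈ Sout, (kk Γ (a i) (b i) (X'.biUnion id) : ℤ) := by
      refine Finset.sum_congr rfl fun i _ => ?_
      rw [Function.comp_apply, Function.comp_apply, hkknn X' hX']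
    rw [h2]
    have h3 : ∑ i ∈ S, (kk Γ (a i) (b i) (X'.biUnion id) : ℤ) =
        ∑ i ∈ Sin, (kk Γ (a i) (b i) (X'.biUnion id) : ℤ) +
        ∑ i ∈ Sout, (kk Γ (a i) (b i) (X'.biUnion id) : ℤ) := by
      rw [hSin, hSout, Finset.sum_filter_add_sum_filter_not]
    rw [h3]
    unfold bb at h1
    linarith
  -- sets of the contracted system
  have hXA : ∀ X' ⊆ AZ, X'.biUnion id ⊆ A := by
    intro X' hX' y hy
    obtain ⟨z, hz, hyz⟩ := Finset.mem_biUnion.1 hy
    obtain ⟨y0, hy0, rfl⟩ := Finset.mem_image.1 (hX' hz)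
    exact hκA y0 hy0 hyz
  have hXne : ∀ X' ⊆ AZ, X'.Nonempty → (X'.biUnion id).Nonempty := by
    rintro X' hX' ⟨z, hz⟩
    obtain ⟨y0, hy0, rfl⟩ := Finset.mem_image.1 (hX' hz)
    exact ⟨y0, Finset.mem_biUnion.2 ⟨κ y0, hz, mem_kap hbl y0⟩⟩
  have hnoRZ : ∀ z ∈ AZ, ∀ r ∈ D.R, r ≠ 1 → r • z ≠ z := by
    intro z hz r hr hr1 hrz
    obtain ⟨y, hy, rfl⟩ := Finset.mem_image.1 hz
    rcases kap_cases hbl y with ⟨g, hg, h'⟩ | ⟨hg, h'⟩
    · have h1 : κ y = g • W := h'
      rw [h1, smul_smul] at hrz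
      have h2 : (g⁻¹ * r * g) • W = W := by
        rw [mul_assoc, mul_smul, hrz, inv_smul_smul]
      refine hnoR _ (D.conj_mem' hr g) ?_ h2
      intro h3
      apply hr1
      have h4 := congr_arg (fun t => g * t * g⁻¹) h3
      have h5 : g * (g⁻¹ * r * g) * g⁻¹ = r := by group
      rw [h5, mul_one, mul_inv_cancel] at h4
      exact h4
    · have h1 : κ y = {y} := h'
      rw [h1, Finset.smul_finset_singleton] at hrz
      have h2 : r • y = y := Finset.singleton_injective hrz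
      exact hnf y hy (hA.rot y hy r hr hr1 h2)
  obtain ⟨r0, hr0, hr01⟩ := Dih.exists_rot_ne D
  have hnfZ : ∀ z ∈ AZ, ¬ Fx Γ z := fun z hz hF => hnoRZ z hz r0 hr0 hr01 (hF r0)
  have hGoodZ : Good D AZ := by
    refine ⟨?_, ?_, ?_⟩
    · intro g _ z hz
      obtain ⟨y, hy, rfl⟩ := Finset.mem_image.1 hz
      rw [← hκs]
      exact Finset.mem_image.2 ⟨g • y, hA.inv g (Subgroup.mem_top g) y hy, rfl⟩
    · intro z hz r hr hr1 hrz
      exact absurd hrz (hnoRZ z hz r hr hr1)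
    · intro z hz z' _ hF _
      exact absurd hF (hnfZ z hz)
  have hFEZ : FE D (κ u) (κ w) σ d := by
    refine ⟨hFE.hσ, hκne, hFE.d0, ?_⟩
    rcases hFE.typ with ⟨h1, h2, h3⟩ | ⟨h1, h2, h3⟩
    · left
      exact ⟨by rw [← hκs, h1], by rw [← hκs, h2], h3⟩
    · right
      exact ⟨by rw [← hκs, h1], by rw [← hκs, h2], h3⟩
  have hStarZ : StarG D AZ Sout (κ ∘ a) (κ ∘ b) (κ u) (κ w) := by
    refine ⟨?_, ?_⟩
    · intro X' hX' hX'n
      exact (hβ.h1 _ (hXA X' hX') (hXne X' hX' hX'n)).trans (hBBle X' hX')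
    · intro X' hX' hX'n hR
      refine (hβ.h2 _ (hXA X' hX') (hXne X' hX' hX'n) ?_).trans (hBBle X' hX')
      intro r hr y hy
      obtain ⟨z, hz, hyz⟩ := Finset.mem_biUnion.1 hy
      exact Finset.mem_biUnion.2 ⟨r • z, hR r hr z hz, Finset.smul_mem_smul_finset hyz⟩
  have hcardout : Sout.card < S.card := by
    have h1 : Sin.card + Sout.card = S.card := by
      rw [hSin, hSout]
      exact Finset.card_filter_add_card_filter_not _
    have h2 := Finset.card_pos.2 hSinn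
    omega
  obtain ⟨xout, hxout⟩ := ih (Finset Y) Sout (κ ∘ a) (κ ∘ b) AZ (κ u) (κ w) σ d hcardout hGoodZ
    hnfZ (fun i hi => ⟨Finset.mem_image.2 ⟨a i, (hab i (hSoutS hi)).1, rfl⟩,
      Finset.mem_image.2 ⟨b i, (hab i (hSoutS hi)).2, rfl⟩⟩) hFEZ
    (Finset.mem_image.2 ⟨u, hu, rfl⟩) (Finset.mem_image.2 ⟨w, hw, rfl⟩) hStarZ
  obtain ⟨xin, hxin⟩ := T1 D hA Sin a b (fun i hi => hab i (hSinS hi)) (by
    refine ⟨?_, ?_⟩
    · intro X hX hXn
      have h1 := hβ.h1 X hX hXn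
      have h2 := BB_mono_S (Γ := Γ) hSinS a b u w X
      rw [BB_eq (Γ := Γ) Sin] at h2
      have h3 : (0 : ℤ) ≤ kk Γ u w X := by positivity
      omega
    · intro X hX hXn hR _
      have h1 := hβ.h2 X hX hXn hR
      have h2 := BB_mono_S (Γ := Γ) hSinS a b u w X
      rw [BB_eq (Γ := Γ) Sin] at h2
      have h3 : (0 : ℤ) ≤ kk Γ u w X := by positivity
      omega)
  refine ⟨fun i => if i ∈ Sin then xin i else xout i, ?_⟩
  intro ω ωf hker
  have hsplit : ∀ {Z : Type} [MulAction Γ Z] (a' b' : ι → Z) (x : ι → E2),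
      load ρ S a' b' x ω = load ρ Sin a' b' x ω + load ρ Sout a' b' x ω := by
    intro Z _ a' b' x
    unfold load
    rw [hSin, hSout, Finset.sum_filter_add_sum_filter_not]
  set x : ι → E2 := fun i => if i ∈ Sin then xin i else xout i with hx
  have hnotin : ∀ i ∈ Sout, i ∉ Sin := by
    intro i hi hi'
    exact (Finset.mem_filter.1 hi).2 (Finset.mem_filter.1 hi').2
  have hout0 : (∀ i ∈ Sout, ω i = 0) ∧ ∀ γ : Γ, ωf γ + ωf (γ * σ) = 0 := by
    refine hxout ω ωf ?_
    have h1 := congr_arg (Finsupp.mapDomain.addMonoidHom κ) hker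
    rw [map_add, map_zero, mapDomain_load1 κ hκs] at h1
    have h2 : Finsupp.mapDomain.addMonoidHom κ (load ρ S a b x ω) =
        load ρ S (κ ∘ a) (κ ∘ b) x ω := by
      unfold load
      rw [map_sum]
      exact Finset.sum_congr rfl fun i _ => mapDomain_load1 κ hκs _ _ _ _
    rw [h2, hsplit] at h1
    have h3 : load ρ Sin (κ ∘ a) (κ ∘ b) x ω = 0 := by
      unfold load
      refine Finset.sum_eq_zero fun i hi => ?_
      rw [Function.comp_apply, Function.comp_apply, (Finset.mem_filter.1 hi).2, load1_self]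
    rw [h3, zero_add] at h1
    rw [← h1]
    congr 1
    refine load_congr ρ Sout (fun _ _ => rfl) (fun _ _ => rfl) (fun i hi => ?_) (fun _ _ => rfl)
    simp only [hx]
    rw [if_neg (hnotin i hi)]
  refine ⟨?_, hout0.2⟩
  have hf0 : load1 ρ u w d ωf = 0 := load1_fe_zero hFE hout0.2
  rw [hf0, add_zero, hsplit] at hker
  have hout00 : load ρ Sout a b x ω = 0 := by
    unfold load
    refine Finset.sum_eq_zero fun i hi => ?_
    rw [hout0.1 i hi]
    ext1 y
    rw [load1_apply, inc_zero, inc_zero, sub_zero, Finsupp.zero_apply]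
  rw [hout00, add_zero] at hker
  have hin0 : ∀ i ∈ Sin, ω i = 0 := by
    refine hxin ω 0 rfl ?_
    rw [add_zero, ← hker]
    refine load_congr ρ Sin (fun _ _ => rfl) (fun _ _ => rfl) (fun i hi => ?_) (fun _ _ => rfl)
    simp only [hx]
    rw [if_pos hi]
  intro i hi
  by_cases h : κ (a i) = κ (b i)
  · exact hin0 i (Finset.mem_filter.2 ⟨hi, h⟩)
  · exact hout0.1 i (Finset.mem_filter.2 ⟨hi, h⟩)

end Pool.Agent.SymLaman
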