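import Pool.Agent.Lib_MP_d5472a_co.Load

set_option autoImplicit false
set_option linter.unusedSectionVars false

/-! Counting lemmas. -/

namespace Pool.Agent.SymLaman
open scoped Pointwise

variable {Γ : Type} [Group Γ] [Fintype Γ]
variable {Y : Type} [MulAction Γ Y] [DecidableEq Y]
variable {ι : Type} [DecidableEq ι]

theorem kk_smul (a b : Y) (g : Γ) (X : Finset Y) : kk Γ a b (g • X) = kk Γ a b X := by
  unfold kk
  refine Finset.card_bij (fun γ _ => g⁻¹ * γ) ?_ ?_ ?_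
  · intro γ hγ
    simp only [Finset.mem_filter, Finset.mem_univ, true_and] at hγ ⊢
    rw [mul_smul, mul_smul]
    exact ⟨Finset.inv_smul_mem_iff.2 hγ.1, Finset.inv_smul_mem_iff.2 hγ.2⟩
  · intro γ _ γ' _ h
    exact mul_left_cancel h
  · intro γ hγ
    simp only [Finset.mem_filter, Finset.mem_univ, true_and] at hγ
    refine ⟨g * γ, ?_, by simp⟩
    simp only [Finset.mem_filter, Finset.mem_univ, true_and]
    rw [mul_smul, mul_smul]
    exact ⟨Finset.smul_mem_smul_finset hγ.1, Finset.smul_mem_smul_finset hγ.2⟩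

theorem kk_rel {a b a' b' : Y} (h : Rel Γ a b a' b') (X : Finset Y) :
    kk Γ a' b' X = kk Γ a b X := by
  obtain ⟨g, hg⟩ := h
  unfold kk
  refine Finset.card_bij (fun γ _ => γ * g) ?_ ?_ ?_
  · intro γ hγ
    simp only [Finset.mem_filter, Finset.mem_univ, true_and] at hγ ⊢
    rw [mul_smul, mul_smul]
    rcases hg with ⟨rfl, rfl⟩ | ⟨rfl, rfl⟩
    · exact hγ
    · exact ⟨hγ.2, hγ.1⟩
  · intro γ _ γ' _ h
    exact mul_right_cancel h
  · intro γ hγ
    simp only [Finset.mem_filter, Finset.mem_univ, true_and] at hγ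
    refine ⟨γ * g⁻¹, ?_, by simp⟩
    simp only [Finset.mem_filter, Finset.mem_univ, true_and]
    rcases hg with ⟨rfl, rfl⟩ | ⟨rfl, rfl⟩
    · rw [smul_smul, smul_smul, inv_mul_cancel_right]
      exact hγ
    · rw [smul_smul, smul_smul, inv_mul_cancel_right]
      exact ⟨hγ.2, hγ.1⟩

theorem kk_supermod (a b : Y) (X Z : Finset Y) :
    kk Γ a b X + kk Γ a b Z ≤ kk Γ a b (X ∪ Z) + kk Γ a b (X ∩ Z) := by
  classical
  unfold kk
  rw [← Finset.card_union_add_card_inter]
  refine Nat.add_le_add (Finset.card_le_card ?_) (Finset.card_le_card ?_)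
  · intro γ hγ
    simp only [Finset.mem_union, Finset.mem_filter, Finset.mem_univ, true_and] at hγ ⊢
    tauto
  · intro γ hγ
    simp only [Finset.mem_inter, Finset.mem_filter, Finset.mem_univ, true_and] at hγ ⊢
    tauto

theorem kk_mono (a b : Y) {X Z : Finset Y} (h : X ⊆ Z) : kk Γ a b X ≤ kk Γ a b Z := by
  unfold kk
  refine Finset.card_le_card ?_
  intro γ hγ
  simp only [Finset.mem_filter, Finset.mem_univ, true_and] at hγ ⊢
  exact ⟨h hγ.1, h hγ.2⟩

theorem kk_eq_zero_left {a b : Y} {X : Finset Y} (h : ∀ γ : Γ, γ • a ∉ X) : kk Γ a b X = 0 := by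
  unfold kk
  rw [Finset.card_eq_zero, Finset.filter_eq_empty_iff]
  intro γ _ h'
  exact h γ h'.1

theorem kk_pos {a b : Y} {X : Finset Y} (h : 0 < kk Γ a b X) : ∃ γ : Γ, γ • a ∈ X ∧ γ • b ∈ X := by
  unfold kk at h
  obtain ⟨γ, hγ⟩ := Finset.card_pos.1 h
  exact ⟨γ, by simpa using hγ⟩

theorem kk_comm (a b : Y) (X : Finset Y) : kk Γ a b X = kk Γ b a X := by
  unfold kk
  congr 1
  ext γ
  simp only [Finset.mem_filter, Finset.mem_univ, true_and]
  tauto

theorem kk_empty (a b : Y) : kk Γ a b (∅ : Finset Y) = 0 := by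
  unfold kk
  simp

/-! ### divisibility -/

theorem card_image_mul_card_stab {H : Type} [Group H] [Fintype H] {Z : Type} [MulAction H Z]
    [DecidableEq Z] (z : Z) :
    (Finset.univ.image (fun h : H => h • z)).card *
      (Finset.univ.filter (fun h : H => h • z = z)).card = Fintype.card H := by
  have h1 := Finset.card_eq_sum_card_image (fun h : H => h • z) Finset.univ
  rw [Finset.card_univ] at h1
  rw [h1, Finset.sum_const_nat (m := (Finset.univ.filter (fun h : H => h • z = z)).card)]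
  intro z' hz'
  obtain ⟨g, _, rfl⟩ := Finset.mem_image.1 hz'
  refine Finset.card_bij (fun γ _ => g⁻¹ * γ) ?_ ?_ ?_
  · intro γ hγ
    simp only [Finset.mem_filter, Finset.mem_univ, true_and] at hγ ⊢
    rw [mul_smul, hγ, inv_smul_smul]
  · intro γ _ γ' _ h
    exact mul_left_cancel h
  · intro γ hγ
    simp only [Finset.mem_filter, Finset.mem_univ, true_and] at hγ
    refine ⟨g * γ, ?_, by simp⟩
    simp only [Finset.mem_filter, Finset.mem_univ, true_and]
    rw [mul_smul, hγ]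

theorem dvd_card_of_orbits {H : Type} [Group H] [Fintype H] {Z : Type} [MulAction H Z]
    [DecidableEq Z] (k n : ℕ) : ∀ (c : ℕ) (F : Finset Z), F.card = c →
    (∀ h : H, ∀ z ∈ F, h • z ∈ F) →
    (∀ z ∈ F, k ∣ n * (Finset.univ.image (fun h : H => h • z)).card) → k ∣ n * F.card := by
  intro c
  induction c using Nat.strong_induction_on with
  | _ c ih =>
    intro F hc hF hk
    rcases F.eq_empty_or_nonempty with rfl | ⟨z, hz⟩
    · simp
    · set O := Finset.univ.image (fun h : H => h • z) with hO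
      have hOF : O ⊆ F := by
        intro y hy
        obtain ⟨h, _, rfl⟩ := Finset.mem_image.1 hy
        exact hF h z hz
      have hzO : z ∈ O := Finset.mem_image.2 ⟨1, Finset.mem_univ _, one_smul _ _⟩
      have h1 : (F \ O).card + O.card = F.card := Finset.card_sdiff_add_card_eq_card hOF
      have h2 : 0 < O.card := Finset.card_pos.2 ⟨z, hzO⟩
      have h3 : k ∣ n * (F \ O).card := by
        refine ih (F \ O).card (by omega) (F \ O) rfl ?_ ?_
        · intro h y hy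
          rw [Finset.mem_sdiff] at hy ⊢
          refine ⟨hF h y hy.1, fun hy' => hy.2 ?_⟩
          obtain ⟨g, _, hg⟩ := Finset.mem_image.1 hy'
          refine Finset.mem_image.2 ⟨h⁻¹ * g, Finset.mem_univ _, ?_⟩
          change (h⁻¹ * g) • z = y
          have hg' : g • z = h • y := hg
          rw [mul_smul, hg', inv_smul_smul]
        · intro y hy
          exact hk y (Finset.mem_sdiff.1 hy).1
      rw [← h1, mul_add]
      exact dvd_add h3 (hk z hz)

theorem kk_dvd (H : Subgroup Γ) (a b : Y) (X : Finset Y)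
    (hX : ∀ h ∈ H, ∀ y ∈ X, h • y ∈ X) : Nat.card H ∣ kk Γ a b X := by
  classical
  unfold kk
  have h0 := dvd_card_of_orbits (H := H) (Z := Γ) (Nat.card H) 1 _
    (Finset.univ.filter (fun γ : Γ => γ • a ∈ X ∧ γ • b ∈ X)) rfl ?_ ?_
  · simpa using h0
  · intro h γ hγ
    simp only [Finset.mem_filter, Finset.mem_univ, true_and] at hγ ⊢
    rw [Subgroup.smul_def, smul_eq_mul, mul_smul, mul_smul]
    exact ⟨hX h h.2 _ hγ.1, hX h h.2 _ hγ.2⟩
  · intro γ _
    rw [one_mul, Finset.card_image_of_injective, Finset.card_univ, Nat.card_eq_fintype_card]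
    intro h h' hh
    simp only [Subgroup.smul_def, smul_eq_mul] at hh
    exact Subtype.ext (mul_right_cancel hh)

theorem card_dvd_free (H : Subgroup Γ) (X : Finset Y)
    (hX : ∀ h ∈ H, ∀ y ∈ X, h • y ∈ X) (hf : ∀ h ∈ H, h ≠ 1 → ∀ y ∈ X, h • y ≠ y) :
    Nat.card H ∣ X.card := by
  classical
  have h0 := dvd_card_of_orbits (H := H) (Z := Y) (Nat.card H) 1 _ X rfl ?_ ?_
  · simpa using h0
  · intro h y hy
    exact hX h h.2 y hy
  · intro y hy
    rw [one_mul, Finset.card_image_of_injective, Finset.card_univ, Nat.card_eq_fintype_card]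
    intro h h' hh
    simp only [Subgroup.smul_def] at hh
    by_contra hne
    have h1 : ((h'⁻¹ * h : H) : Γ) ≠ 1 := by
      intro h1
      apply hne
      have : h'⁻¹ * h = 1 := Subtype.ext h1
      exact (inv_mul_eq_one.1 this).symm
    refine hf _ (h'⁻¹ * h).2 h1 y hy ?_
    rw [Subgroup.coe_mul, mul_smul, hh, ← mul_smul]
    simp

theorem card_dvd_two (X : Finset Y) (hX : ∀ g : Γ, ∀ y ∈ X, g • y ∈ X)
    (hs : ∀ y ∈ X, (Finset.univ.filter (fun h : Γ => h • y = y)).card ∣ 2) :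
    Fintype.card Γ ∣ 2 * X.card := by
  refine dvd_card_of_orbits (H := Γ) (Z := Y) (Fintype.card Γ) 2 _ X rfl hX ?_
  intro y hy
  rw [← card_image_mul_card_stab (H := Γ) y, mul_comm 2]
  exact Nat.mul_dvd_mul_left _ (hs y hy)

/-! ### the count function -/

/-- `2|X|` minus the number of labelled edges inside `X` -/
def bb (S : Finset ι) (a b : ι → Y) (X : Finset Y) : ℤ :=
  2 * (X.card : ℤ) - ∑ i ∈ S, (kk Γ (a i) (b i) X : ℤ)

theorem bb_smul (S : Finset ι) (a b : ι → Y) (g : Γ) (X : Finset Y) :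
    bb (Γ := Γ) S a b (g • X) = bb (Γ := Γ) S a b X := by
  unfold bb
  rw [Finset.card_smul_finset]
  congr 1
  exact Finset.sum_congr rfl fun i _ => by rw [kk_smul]

theorem bb_submod (S : Finset ι) (a b : ι → Y) (X Z : Finset Y) :
    bb (Γ := Γ) S a b (X ∪ Z) + bb (Γ := Γ) S a b (X ∩ Z) ≤
      bb (Γ := Γ) S a b X + bb (Γ := Γ) S a b Z := by
  unfold bb
  have h1 : ((X ∪ Z).card : ℤ) + ((X ∩ Z).card : ℤ) = X.card + Z.card := by
    exact_mod_cast Finset.card_union_add_card_inter X Z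
  have h2 : (∑ i ∈ S, (kk Γ (a i) (b i) X : ℤ)) + (∑ i ∈ S, (kk Γ (a i) (b i) Z : ℤ)) ≤
      (∑ i ∈ S, (kk Γ (a i) (b i) (X ∪ Z) : ℤ)) + (∑ i ∈ S, (kk Γ (a i) (b i) (X ∩ Z) : ℤ)) := by
    rw [← Finset.sum_add_distrib, ← Finset.sum_add_distrib]
    refine Finset.sum_le_sum fun i _ => ?_
    exact_mod_cast kk_supermod (Γ := Γ) (a i) (b i) X Z
  linarith

theorem bb_empty (S : Finset ι) (a b : ι → Y) : bb (Γ := Γ) S a b (∅ : Finset Y) = 0 := by
  unfold bb
  simp [kk_empty]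

theorem bb_mono_S {S S' : Finset ι} (h : S' ⊆ S) (a b : ι → Y) (X : Finset Y) :
    bb (Γ := Γ) S a b X ≤ bb (Γ := Γ) S' a b X := by
  unfold bb
  have : ∑ i ∈ S', (kk Γ (a i) (b i) X : ℤ) ≤ ∑ i ∈ S, (kk Γ (a i) (b i) X : ℤ) :=
    Finset.sum_le_sum_of_subset_of_nonneg h fun i _ _ => by positivity
  linarith

theorem bb_congr_rel {S : Finset ι} {a b a' b' : ι → Y}
    (hrel : ∀ i ∈ S, Rel Γ (a i) (b i) (a' i) (b' i)) (X : Finset Y) :
    bb (Γ := Γ) S a' b' X = bb (Γ := Γ) S a b X := by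
  unfold bb
  congr 1
  exact Finset.sum_congr rfl fun i hi => by rw [kk_rel (hrel i hi)]

theorem bb_dvd (H : Subgroup Γ) (S : Finset ι) (a b : ι → Y) (X : Finset Y)
    (hX : ∀ h ∈ H, ∀ y ∈ X, h • y ∈ X) :
    (Nat.card H : ℤ) ∣ 2 * (X.card : ℤ) - bb (Γ := Γ) S a b X := by
  unfold bb
  rw [sub_sub_cancel]
  refine Finset.dvd_sum fun i _ => ?_
  exact_mod_cast kk_dvd H (a i) (b i) X hX

/-! ### blocks -/

theorem exists_block {A : Finset Y} (β : Finset Y → ℤ)
    (hinv : ∀ (g : Γ) (X : Finset Y), β (g • X) = β X)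
    (hsub : ∀ X Z : Finset Y, β (X ∪ Z) + β (X ∩ Z) ≤ β X + β Z)
    (P : Finset Y → Prop) (μ : ℤ) (h1 : ∀ X, P X → X ⊆ A)
    (h2 : ∀ X, ∀ g : Γ, P X → β X ≤ μ → (g • X ∩ X).Nonempty →
      P (X ∪ g • X) ∧ μ ≤ β (X ∩ g • X))
    (X0 : Finset Y) (hX0 : P X0) (hβ : β X0 ≤ μ) :
    ∃ W, P W ∧ β W ≤ μ ∧ ∀ g : Γ, (g • W ∩ W).Nonempty → g • W = W := by
  classical
  obtain ⟨W, hW, hmax⟩ := Finset.exists_max_image
    (A.powerset.filter (fun X => P X ∧ β X ≤ μ)) Finset.card
    ⟨X0, Finset.mem_filter.2 ⟨Finset.mem_powerset.2 (h1 X0 hX0), hX0, hβ⟩⟩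
  rw [Finset.mem_filter] at hW
  refine ⟨W, hW.2.1, hW.2.2, ?_⟩
  intro g hg
  obtain ⟨h3, h4⟩ := h2 W g hW.2.1 hW.2.2 hg
  have h5 := hsub W (g • W)
  rw [hinv] at h5
  have h6 : β (W ∪ g • W) ≤ μ := by linarith [hW.2.2]
  have h7 := hmax (W ∪ g • W) (Finset.mem_filter.2 ⟨Finset.mem_powerset.2 (h1 _ h3), h3, h6⟩)
  have h8 : W = W ∪ g • W := Finset.eq_of_subset_of_card_le Finset.subset_union_left h7
  have h9 : g • W ⊆ W := by
    conv_rhs => rw [h8]
    exact Finset.subset_union_right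
  exact Finset.eq_of_subset_of_card_le h9 (by rw [Finset.card_smul_finset])

theorem kk_block {W : Finset Y} (hW : ∀ g : Γ, (g • W ∩ W).Nonempty → g • W = W)
    {n n' : Y} (hn : n ∈ W) (hn' : n' ∈ W) :
    kk Γ n n' W = (Finset.univ.filter (fun g : Γ => g • W = W)).card := by
  unfold kk
  congr 1
  ext γ
  simp only [Finset.mem_filter, Finset.mem_univ, true_and]
  constructor
  · rintro ⟨h1, _⟩
    exact hW γ ⟨γ • n, Finset.mem_inter.2 ⟨Finset.smul_mem_smul_finset hn, h1⟩⟩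
  · intro h
    constructor
    · rw [← h]; exact Finset.smul_mem_smul_finset hn
    · rw [← h]; exact Finset.smul_mem_smul_finset hn'

/-! ### adding the orbit of a vertex -/

theorem bb_add_vertex (H : Subgroup Γ) {S T : Finset ι} (hTS : T ⊆ S) {a b : ι → Y}
    {X : Finset Y} {v : Y}
    (hX : ∀ h ∈ H, ∀ y ∈ X, h • y ∈ X) (hXv : ∀ g : Γ, g • v ∉ X)
    (hT : ∀ i ∈ T, a i = v ∧ b i ∈ X) (U : Finset Y)
    (hU : ∀ y, y ∈ U ↔ ∃ h ∈ H, h • v = y) :
    bb (Γ := Γ) S a b (X ∪ U) ≤ bb (Γ := Γ) S a b X + 2 * U.card - T.card * Nat.card H := by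
  classical
  unfold bb
  have h1 : ((X ∪ U).card : ℤ) ≤ X.card + U.card := by
    exact_mod_cast Finset.card_union_le X U
  have h2 : ∑ i ∈ S, (kk Γ (a i) (b i) X : ℤ) + T.card * Nat.card H ≤
      ∑ i ∈ S, (kk Γ (a i) (b i) (X ∪ U) : ℤ) := by
    rw [← Finset.sum_sdiff hTS, ← Finset.sum_sdiff hTS (f := fun i => (kk Γ (a i) (b i) (X ∪ U) : ℤ)),
      add_assoc]
    refine add_le_add ?_ ?_
    · refine Finset.sum_le_sum fun i _ => ?_
      exact_mod_cast kk_mono (Γ := Γ) (a i) (b i) Finset.subset_union_left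
    · have h3 : ∑ i ∈ T, (kk Γ (a i) (b i) X : ℤ) = 0 := by
        refine Finset.sum_eq_zero fun i hi => ?_
        rw [(hT i hi).1, kk_eq_zero_left hXv]
        rfl
      rw [h3, zero_add, ← nsmul_eq_mul, ← Finset.sum_const]
      refine Finset.sum_le_sum fun i hi => ?_
      rw [(hT i hi).1]
      have : Nat.card H ≤ kk Γ v (b i) (X ∪ U) := by
        unfold kk
        have h4 : Nat.card H = (Finset.univ.filter (fun g : Γ => g ∈ H)).card := by
          rw [Nat.card_eq_fintype_card, Fintype.card_subtype]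
        rw [h4]
        refine Finset.card_le_card ?_
        intro γ hγ
        simp only [Finset.mem_filter, Finset.mem_univ, true_and] at hγ ⊢
        exact ⟨Finset.mem_union_right _ ((hU _).2 ⟨γ, hγ, rfl⟩),
          Finset.mem_union_left _ (hX γ hγ _ (hT i hi).2)⟩
      exact_mod_cast this
  linarith

end Pool.Agent.SymLaman
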