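import Pool.Agent.Lib_MP_d5472a_co.Viol

set_option autoImplicit false

/-! Definitions for the final assembly. -/

namespace Pool.Agent.SymLaman
open scoped Pointwise

/-- the rigidity matrix of the statement -/
noncomputable def rigM {V : Type} [Fintype V] [DecidableEq V] (G : SimpleGraph V)
    [DecidableRel G.Adj] (q : V → Fin 2 → ℝ) : Matrix (V × V) (V × Fin 2) ℝ :=
  Matrix.of (fun (e : V × V) (c : V × Fin 2) =>
    if G.Adj e.1 e.2 then
      (if c.1 = e.1 then q e.1 c.2 - q e.2 c.2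
        else if c.1 = e.2 then q e.2 c.2 - q e.1 c.2 else 0)
    else 0)

/-- data for the assembly: free edge orbits `S` with base directions `x`, and finitely many
special edges `ef` with directions `df` -/
structure Frame {Γ : Type} [Group Γ] [Fintype Γ] {V : Type} [Fintype V] [DecidableEq V]
    [MulAction Γ V] (G : SimpleGraph V) (ρ : Γ →* (E2 →ₗ[ℝ] E2)) (S : Finset (V × V))
    (x : V × V → E2) (Jf : Type) [Fintype Jf] (ef : Jf → V × V) (df : Jf → E2) : Prop where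
  adjS : ∀ e ∈ S, ∀ γ : Γ, G.Adj (γ • e.1) (γ • e.2)
  adjf : ∀ j, G.Adj (ef j).1 (ef j).2
  par : ∀ q : V → E2, (∀ (γ : Γ) (v : V), q (γ • v) = ρ γ (q v)) →
    ∀ j, ∃ c : ℝ, q (ef j).1 - q (ef j).2 = c • df j
  ind : ∀ (ω : V × V → Γ → ℝ) (c : Jf → ℝ),
    load ρ S Prod.fst Prod.snd x ω +
      ∑ j, (Finsupp.single (ef j).1 (c j • df j) - Finsupp.single (ef j).2 (c j • df j)) = 0 →
    (∀ i ∈ S, ω i = 0) ∧ c = 0

/-- data of the special orbit of fixed edges for the dihedral group of order 6 -/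
structure FE {Γ : Type} [Group Γ] [Fintype Γ] {ρ : Γ →* (E2 →ₗ[ℝ] E2)} (D : Dih Γ ρ)
    {Y : Type} [MulAction Γ Y] (u w : Y) (σ : Γ) (d : E2) : Prop where
  hσ : σ ∉ D.R
  hne : u ≠ w
  d0 : d ≠ 0
  typ : (σ • u = w ∧ σ • w = u ∧ ρ σ d = -d) ∨ (σ • u = u ∧ σ • w = w ∧ ρ σ d = d)

/-- twice the count function including the special orbit -/
def BB {Γ : Type} [Group Γ] [Fintype Γ] {Y : Type} [MulAction Γ Y] [DecidableEq Y]
    {ι : Type} (S : Finset ι) (a b : ι → Y) (u w : Y) (X : Finset Y) : ℤ :=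
  4 * (X.card : ℤ) - 2 * ∑ i ∈ S, (kk Γ (a i) (b i) X : ℤ) - (kk Γ u w X : ℤ)

end Pool.Agent.SymLaman
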