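import Pool.Agent.Lib_MP_d5472a_co.T1
import Pool.Agent.Lib_MP_d5472a_co.Frame

set_option autoImplicit false
set_option linter.unusedSectionVars false

/-! The special orbit of fixed edges (dihedral group of order 6). -/

namespace Pool.Agent.SymLaman
open scoped Pointwise

variable {Γ : Type} [Group Γ] [Fintype Γ]
variable {Y : Type} [MulAction Γ Y] [DecidableEq Y]
variable {ι : Type} [DecidableEq ι]
variable {ρ : Γ →* (E2 →ₗ[ℝ] E2)}

/-! ### group facts for order 6 -/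

namespace Dih
variable (D : Dih Γ ρ)

theorem cube {r : Γ} (hm : D.m = 3) (hr : r ∈ D.R) : r * r * r = 1 := by
  have h1 : (⟨r, hr⟩ : D.R) ^ Nat.card D.R = 1 := pow_card_eq_one'
  rw [D.card_R, hm] at h1
  have := congr_arg Subtype.val h1
  rw [SubmonoidClass.coe_pow] at this
  simpa [pow_succ] using this

theorem eq_one_of_sq {r : Γ} (hm : D.m = 3) (hr : r ∈ D.R) (h : r * r = 1) : r = 1 := by
  have := D.cube hm hr
  rwa [h, one_mul] at this

/-- two reflections with conjugate relation: the centraliser of a reflection -/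
theorem centr (hm : D.m = 3) {s x : Γ} (hs : s ∉ D.R) (h : x * s * x⁻¹ = s) : x = 1 ∨ x = s := by
  have hss := D.refl_sq s hs
  have hsi := D.inv_refl hs
  by_cases hx : x ∈ D.R
  · left
    -- s x s = x⁻¹ and commuting gives x * x = 1
    have h1 := D.refl_sq (s * x) (D.mul_not_mem' hx hs)
    have h2 : x * s = s * x := by
      have := congr_arg (fun z => z * x) h
      simpa using this
    refine D.eq_one_of_sq hm hx ?_
    calc x * x = s * s * (x * x) := by rw [hss, one_mul]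
      _ = s * (s * x) * x := by simp only [mul_assoc]
      _ = s * (x * s) * x := by rw [h2]
      _ = (s * x) * (s * x) := by simp only [mul_assoc]
      _ = 1 := h1
  · right
    have h2 : x * s = s * x := by
      have := congr_arg (fun z => z * x) h
      simpa using this
    have hxs : x * s ∈ D.R := D.mul_mem x s hx hs
    have h3 : (x * s) * (x * s) = 1 := by
      calc (x * s) * (x * s) = (x * s) * (s * x) := by rw [h2]
        _ = x * (s * s) * x := by simp only [mul_assoc]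
        _ = 1 := by rw [hss, mul_one, D.refl_sq x hx]
    have h4 := D.eq_one_of_sq hm hxs h3
    have h5 := eq_inv_of_mul_eq_one_left h4
    rw [h5, hsi]

/-- every conjugate of a reflection is a conjugate by a rotation -/
theorem conj_rot {s x : Γ} (hs : s ∉ D.R) : ∃ r ∈ D.R, (x = r ∨ x = r * s) := by
  by_cases hx : x ∈ D.R
  · exact ⟨x, hx, Or.inl rfl⟩
  · refine ⟨x * s, D.mul_mem x s hx hs, Or.inr ?_⟩
    rw [mul_assoc, D.refl_sq s hs, mul_one]

theorem exists_rot_ne (D : Dih Γ ρ) : ∃ r ∈ D.R, r ≠ 1 := by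
  by_contra hcon
  push Not at hcon
  have h1 : D.R = ⊥ := by
    rw [eq_bot_iff]; intro r hr; exact Subgroup.mem_bot.2 (hcon r hr)
  have h2 := D.card_R
  rw [h1, Subgroup.card_bot] at h2
  have := D.m_prime.one_lt
  omega

end Dih

/-! ### formulas for the loads of the special orbit -/

/-- symmetrised coefficients -/
def sy (σ : Γ) (ω : Γ → ℝ) : Γ → ℝ := fun γ => ω γ + ω (γ * σ)

theorem sy_mul {σ : Γ} (hσ : σ * σ = 1) (ω : Γ → ℝ) (γ : Γ) : sy σ ω (γ * σ) = sy σ ω γ := by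
  unfold sy
  rw [mul_assoc, hσ, mul_one, add_comm]

/-- incidence sum at the image under a reflection, antisymmetric direction -/
theorem inc_neg_dir {σ : Γ} (hσ : σ * σ = 1) {d : E2} (hd : ρ σ d = -d) (c y : Y) (ω : Γ → ℝ) :
    inc ρ (σ • c) y d ω = - inc ρ c y d (fun γ => ω (γ * σ)) := by
  have hi : σ⁻¹ = σ := inv_eq_of_mul_eq_one_right hσ
  rw [inc_rebase, hi, hd]
  have := inc_smul_vec ρ c y d (-1) (fun γ => ω (γ * σ))
  simpa using this

theorem inc_pos_dir {σ : Γ} (hσ : σ * σ = 1) {d : E2} (hd : ρ σ d = d) (c y : Y) (ω : Γ → ℝ) :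
    inc ρ (σ • c) y d ω = inc ρ c y d (fun γ => ω (γ * σ)) := by
  have hi : σ⁻¹ = σ := inv_eq_of_mul_eq_one_right hσ
  rw [inc_rebase, hi, hd]

/-- type 1 formula -/
theorem load1_type1 {σ : Γ} (hσ : σ * σ = 1) {d : E2} (hd : ρ σ d = -d) (c y : Y) (ω : Γ → ℝ) :
    load1 ρ c (σ • c) d ω y = inc ρ c y d (sy σ ω) := by
  rw [load1_apply, inc_neg_dir hσ hd, sub_neg_eq_add, ← inc_add]
  rfl

theorem inc_fixed_neg {σ : Γ} (hσ : σ * σ = 1) {d : E2} (hd : ρ σ d = -d) {c : Y}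
    (hc : σ • c = c) (y : Y) {ω : Γ → ℝ} (hω : ∀ γ, ω (γ * σ) = ω γ) : inc ρ c y d ω = 0 := by
  have h := inc_neg_dir (ρ := ρ) hσ hd c y ω
  rw [hc] at h
  have h2 : (fun γ => ω (γ * σ)) = ω := funext hω
  rw [h2] at h
  have h3 : (2 : ℝ) • inc ρ c y d ω = 0 := by
    rw [two_smul]
    nth_rewrite 1 [h]
    exact neg_add_cancel _
  exact (smul_eq_zero.1 h3).resolve_left two_ne_zero

theorem inc_fixed_pos {σ : Γ} (hσ : σ * σ = 1) {d : E2} (hd : ρ σ d = d) {c : Y}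
    (hc : σ • c = c) (y : Y) (ω : Γ → ℝ) :
    (2 : ℝ) • inc ρ c y d ω = inc ρ c y d (sy σ ω) := by
  have h := inc_pos_dir (ρ := ρ) hσ hd c y ω
  rw [hc] at h
  rw [two_smul]
  nth_rewrite 2 [h]
  rw [← inc_add]
  rfl

theorem load1_type2 {σ : Γ} (hσ : σ * σ = 1) {d : E2} (hd : ρ σ d = d) {c c' : Y}
    (hc : σ • c = c) (hc' : σ • c' = c') (y : Y) (ω : Γ → ℝ) :
    (2 : ℝ) • load1 ρ c c' d ω y = inc ρ c y d (sy σ ω) - inc ρ c' y d (sy σ ω) := by
  rw [load1_apply, smul_sub, inc_fixed_pos hσ hd hc, inc_fixed_pos hσ hd hc']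

theorem load1_fe_zero {D : Dih Γ ρ} {u w : Y} {σ : Γ} {d : E2} (h : FE D u w σ d) {ω : Γ → ℝ}
    (hω : ∀ γ, ω γ + ω (γ * σ) = 0) : load1 ρ u w d ω = 0 := by
  have hσ := D.refl_sq σ h.hσ
  have h0 : sy σ ω = 0 := funext hω
  ext1 y
  rw [Finsupp.zero_apply]
  rcases h.typ with ⟨h1, h2, h3⟩ | ⟨h1, h2, h3⟩
  · rw [← h1, load1_type1 hσ h3, h0, inc_zero]
  · have := load1_type2 (ρ := ρ) hσ h3 h1 h2 y ω
    rw [h0, inc_zero, inc_zero, sub_zero] at this
    exact (smul_eq_zero.1 this).resolve_left two_ne_zero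

/-- the background loads of the special orbit -/
def KF (ρ : Γ →* (E2 →ₗ[ℝ] E2)) (u w : Y) (d : E2) : Set (Y →₀ E2) :=
  {z | ∃ ω : Γ → ℝ, z = load1 ρ u w d ω}

theorem KF_tinv (u w : Y) (d : E2) : TInv ρ (KF ρ u w d) := by
  rintro z ⟨ω, rfl⟩ δ
  refine ⟨load1 ρ u w d (fun γ => ω (δ * γ)), ⟨_, rfl⟩, fun y => ?_⟩
  rw [load1_apply, load1_apply, inc_translate, inc_translate, map_sub]

theorem KF_zero (u w : Y) (d : E2) : (0 : Y →₀ E2) ∈ KF ρ u w d := by
  refine ⟨0, ?_⟩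
  ext1 y
  rw [load1_apply, inc_zero, inc_zero, sub_zero, Finsupp.zero_apply]

theorem KF_at {u w v : Y} (hu : ∀ γ : Γ, γ • u ≠ v) (hw : ∀ γ : Γ, γ • w ≠ v) (d : E2) :
    ∀ z ∈ KF ρ u w d, z v = 0 := by
  rintro z ⟨ω, rfl⟩
  rw [load1_apply, inc_eq_zero ρ hu, inc_eq_zero ρ hw, sub_zero]

/-! ### parity of the special count -/

theorem kk_fe_even {D : Dih Γ ρ} {u w : Y} {σ : Γ} {d : E2} (h : FE D u w σ d) (X : Finset Y) :
    2 ∣ kk Γ u w X := by
  classical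
  -- pair γ with γ * σ
  have hσ := D.refl_sq σ h.hσ
  have hσ1 := D.refl_ne_one h.hσ
  unfold kk
  set F := Finset.univ.filter (fun γ : Γ => γ • u ∈ X ∧ γ • w ∈ X) with hF
  have hmem : ∀ γ, γ ∈ F → γ * σ ∈ F := by
    intro γ hγ
    simp only [hF, Finset.mem_filter, Finset.mem_univ, true_and] at hγ ⊢
    rw [mul_smul, mul_smul]
    rcases h.typ with ⟨h1, h2, _⟩ | ⟨h1, h2, _⟩
    · rw [h1, h2]; exact ⟨hγ.2, hγ.1⟩
    · rw [h1, h2]; exact hγ
  have h1 : F = (F.filter (fun γ => γ ∈ D.R)) ∪ (F.filter (fun γ => γ ∉ D.R)) := by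
    rw [Finset.filter_union_filter_not_eq]
  have h2 : (F.filter (fun γ => γ ∈ D.R)).card = (F.filter (fun γ => γ ∉ D.R)).card := by
    refine Finset.card_bij (fun γ _ => γ * σ) ?_ ?_ ?_
    · intro γ hγ
      rw [Finset.mem_filter] at hγ ⊢
      exact ⟨hmem γ hγ.1, D.mul_not_mem hγ.2 h.hσ⟩
    · intro γ _ γ' _ hh
      exact mul_right_cancel hh
    · intro γ hγ
      rw [Finset.mem_filter] at hγ
      refine ⟨γ * σ, Finset.mem_filter.2 ⟨hmem γ hγ.1, D.mul_mem γ σ hγ.2 h.hσ⟩, ?_⟩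
      rw [mul_assoc, hσ, mul_one]
  have h3 : F.card = (F.filter (fun γ => γ ∈ D.R)).card + (F.filter (fun γ => γ ∉ D.R)).card := by
    rw [Finset.card_filter_add_card_filter_not]
  rw [h3, h2]
  exact ⟨_, (two_mul _).symm⟩

theorem kk_le_card (a b : Y) (X : Finset Y) : kk Γ a b X ≤ Fintype.card Γ := by
  unfold kk
  exact Finset.card_le_univ _

/-- for a rotation-invariant set the special count is 0 or 6 -/
theorem kk_fe_R {D : Dih Γ ρ} (hm : D.m = 3) {u w : Y} {σ : Γ} {d : E2} (h : FE D u w σ d)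
    {X : Finset Y} (hX : InvH D.R X) : kk Γ u w X = 0 ∨ kk Γ u w X = 6 := by
  have h1 := kk_fe_even h X
  have h2 := kk_dvd D.R u w X hX
  have h3 := kk_le_card (Γ := Γ) u w X
  rw [D.card_R, hm] at h2
  rw [D.card_G, hm] at h3
  omega

/-! ### the doubled count -/

theorem BB_eq (S : Finset ι) (a b : ι → Y) (u w : Y) (X : Finset Y) :
    BB (Γ := Γ) S a b u w X = 2 * bb (Γ := Γ) S a b X - (kk Γ u w X : ℤ) := by
  unfold BB bb
  ring

theorem BB_smul (S : Finset ι) (a b : ι → Y) (u w : Y) (g : Γ) (X : Finset Y) :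
    BB (Γ := Γ) S a b u w (g • X) = BB (Γ := Γ) S a b u w X := by
  rw [BB_eq, BB_eq, bb_smul, kk_smul]

theorem BB_submod (S : Finset ι) (a b : ι → Y) (u w : Y) (X Z : Finset Y) :
    BB (Γ := Γ) S a b u w (X ∪ Z) + BB (Γ := Γ) S a b u w (X ∩ Z) ≤
      BB (Γ := Γ) S a b u w X + BB (Γ := Γ) S a b u w Z := by
  rw [BB_eq, BB_eq, BB_eq, BB_eq]
  have h1 := bb_submod (Γ := Γ) S a b X Z
  have h2 : (kk Γ u w X : ℤ) + kk Γ u w Z ≤ kk Γ u w (X ∪ Z) + kk Γ u w (X ∩ Z) := by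
    exact_mod_cast kk_supermod (Γ := Γ) u w X Z
  linarith

theorem BB_empty (S : Finset ι) (a b : ι → Y) (u w : Y) :
    BB (Γ := Γ) S a b u w (∅ : Finset Y) = 0 := by
  rw [BB_eq, bb_empty, kk_empty]; rfl

theorem BB_even {D : Dih Γ ρ} {u w : Y} {σ : Γ} {d : E2} (h : FE D u w σ d)
    (S : Finset ι) (a b : ι → Y) (X : Finset Y) : (2 : ℤ) ∣ BB (Γ := Γ) S a b u w X := by
  rw [BB_eq]
  refine dvd_sub (dvd_mul_right 2 _) ?_
  exact_mod_cast kk_fe_even h X

theorem BB_R {D : Dih Γ ρ} (hm : D.m = 3) {A : Finset Y} (hA : Good D A)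
    (hnf : ∀ y ∈ A, ¬ Fx Γ y) {u w : Y} {σ : Γ} {d : E2} (h : FE D u w σ d)
    (S : Finset ι) (a b : ι → Y) {X : Finset Y} (hXA : X ⊆ A) (hX : InvH D.R X) :
    (6 : ℤ) ∣ BB (Γ := Γ) S a b u w X := by
  rw [BB_eq]
  have h1 := bb_dvd_R (S := S) (a := a) (b := b) hA hXA hX (fun y hy => hnf y (hXA hy))
  rw [hm] at h1
  push_cast at h1
  rcases kk_fe_R hm h hX with h2 | h2
  · rw [h2]; omega
  · rw [h2]; omega

theorem BB_top {D : Dih Γ ρ} (hm : D.m = 3) {A : Finset Y} (hA : Good D A)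
    (hnf : ∀ y ∈ A, ¬ Fx Γ y) {u w : Y}
    (S : Finset ι) (a b : ι → Y) {X : Finset Y} (hXA : X ⊆ A) (hX : InvH (⊤ : Subgroup Γ) X) :
    (12 : ℤ) ∣ BB (Γ := Γ) S a b u w X + (kk Γ u w X : ℤ) := by
  rw [BB_eq, sub_add_cancel]
  have h1 := bb_dvd_top (S := S) (a := a) (b := b) hA hXA hX (fun y hy => hnf y (hXA hy))
  rw [hm] at h1
  push_cast at h1
  omega

/-- reflection-invariant sets -/
theorem BB_refl {D : Dih Γ ρ} {g : Γ} (hg : g ∉ D.R) {u w : Y}
    (S : Finset ι) (a b : ι → Y) {X : Finset Y} (hX : g • X = X) :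
    (4 : ℤ) ∣ BB (Γ := Γ) S a b u w X + (kk Γ u w X : ℤ) := by
  rw [BB_eq, sub_add_cancel]
  have hgg := D.refl_sq g hg
  have hg1 := D.refl_ne_one hg
  have h1 := bb_dvd (Subgroup.zpowers g) S a b X (by
    intro h hh y hy
    have h2 : h ∈ MulAction.stabilizer Γ X := by
      have h3 : Subgroup.zpowers g ≤ MulAction.stabilizer Γ X := by
        rw [Subgroup.zpowers_le]
        exact MulAction.mem_stabilizer_iff.2 hX
      exact h3 hh
    rw [← MulAction.mem_stabilizer_iff.1 h2]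
    exact Finset.smul_mem_smul_finset hy)
  rw [Nat.card_zpowers, orderOf_eq_prime (by rw [sq]; exact hgg) hg1] at h1
  push_cast at h1
  omega

theorem BB_mono_S {S S' : Finset ι} (h : S' ⊆ S) (a b : ι → Y) (u w : Y) (X : Finset Y) :
    BB (Γ := Γ) S a b u w X ≤ BB (Γ := Γ) S' a b u w X := by
  rw [BB_eq, BB_eq]
  have := bb_mono_S (Γ := Γ) h a b X
  linarith

theorem BB_congr_rel {S : Finset ι} {a b a' b' : ι → Y} (u w : Y)
    (hrel : ∀ i ∈ S, Rel Γ (a i) (b i) (a' i) (b' i)) (X : Finset Y) :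
    BB (Γ := Γ) S a' b' u w X = BB (Γ := Γ) S a b u w X := by
  rw [BB_eq, BB_eq, bb_congr_rel hrel]

/-- the sparsity condition including the special orbit -/
structure StarG (D : Dih Γ ρ) (A : Finset Y) (S : Finset ι) (a b : ι → Y) (u w : Y) : Prop where
  h1 : ∀ X ⊆ A, X.Nonempty → 4 ≤ BB (Γ := Γ) S a b u w X
  h2 : ∀ X ⊆ A, X.Nonempty → InvH D.R X → 6 ≤ BB (Γ := Γ) S a b u w X

/-- the strong sparsity condition -/
def Strong (Γ : Type) [Group Γ] [Fintype Γ] {Y : Type} [MulAction Γ Y] [DecidableEq Y]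
    {ι : Type} (A : Finset Y) (S : Finset ι) (a b : ι → Y) (u w : Y) : Prop :=
  ∀ X ⊆ A, 2 ≤ X.card → 6 ≤ BB (Γ := Γ) S a b u w X

end Pool.Agent.SymLaman
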