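import Pool.Agent.Lib_MP_d5472a_co.Low

set_option autoImplicit false
set_option linter.unusedSectionVars false

/-! Generic independence for free orbits. -/

namespace Pool.Agent.SymLaman
open scoped Pointwise

variable {Γ : Type} [Group Γ] [Fintype Γ]
variable {Y : Type} [MulAction Γ Y] [DecidableEq Y]
variable {ι : Type} [DecidableEq ι]
variable {ρ : Γ →* (E2 →ₗ[ℝ] E2)}

theorem conflict_II {D : Dih Γ ρ} {A : Finset Y} (hA : Good D A) {S : Finset ι} {a b : ι → Y}
    (hβ : StarF D A (bb (Γ := Γ) S a b)) {v : Y} (hvA : v ∈ A) {p q r : ι}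
    (hp : p ∈ S) (hq : q ∈ S) (hr : r ∈ S) (hpq : p ≠ q) (hpr : p ≠ r) (hqr : q ≠ r)
    (hap : a p = v) (haq : a q = v) (har : a r = v)
    (h1 : TII (away Γ A v) (bb (Γ := Γ) S a b) (b p) (b q))
    (h2 : TII (away Γ A v) (bb (Γ := Γ) S a b) (b p) (b r)) : False := by
  obtain ⟨W1, hW1, hp1, hq1, hb1⟩ := h1
  obtain ⟨W2, hW2, hp2, hr2, hb2⟩ := h2
  have h3 := bb_submod (Γ := Γ) S a b W1 W2
  have h4 := hβ.1 (W1 ∩ W2) ((Finset.inter_subset_left.trans hW1).trans away_subset)
    ⟨b p, Finset.mem_inter.2 ⟨hp1, hp2⟩⟩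
  obtain ⟨Z, hZA, _, hvZ, _, _, hbZ⟩ := bb_add_orbit (⊥ : Subgroup Γ) hA (T := {p, q, r}) (by
    intro k hk
    simp only [Finset.mem_insert, Finset.mem_singleton] at hk
    rcases hk with rfl | rfl | rfl
    · exact hp
    · exact hq
    · exact hr) hvA (X := W1 ∪ W2) (S := S) (a := a) (b := b) (Finset.union_subset hW1 hW2) (by
      intro h hh y hy
      rw [Subgroup.mem_bot] at hh
      rw [hh, one_smul]; exact hy) (by
      intro k hk
      simp only [Finset.mem_insert, Finset.mem_singleton] at hk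
      rcases hk with rfl | rfl | rfl
      · exact ⟨hap, Finset.mem_union_left _ hp1⟩
      · exact ⟨haq, Finset.mem_union_left _ hq1⟩
      · exact ⟨har, Finset.mem_union_right _ hr2⟩) (by
      rw [Finset.card_insert_of_notMem (by simp [hpq, hpr]), Finset.card_pair hqr]; norm_num)
  rw [Finset.card_insert_of_notMem (by simp [hpq, hpr]), Finset.card_pair hqr,
    Subgroup.card_bot] at hbZ
  have h5 := hβ.1 Z hZA ⟨v, hvZ⟩
  push_cast at hbZ
  linarith

theorem conflict_V {D : Dih Γ ρ} {A : Finset Y} (hA : Good D A) {S : Finset ι} {a b : ι → Y}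
    (hβ : StarF D A (bb (Γ := Γ) S a b)) {v : Y} (hvA : v ∈ A) (hvF : ¬ Fx Γ v) {p q r : ι}
    (hp : p ∈ S) (hq : q ∈ S) (hr : r ∈ S) (hpq : p ≠ q) (hpr : p ≠ r) (hqr : q ≠ r)
    (hap : a p = v) (haq : a q = v) (har : a r = v)
    (h1 : TV D (away Γ A v) (bb (Γ := Γ) S a b) (b p) (b q))
    (h2 : TV D (away Γ A v) (bb (Γ := Γ) S a b) (b p) (b r)) : False := by
  obtain ⟨W1, hW1, hp1, hq1, hI1, hF1, hb1⟩ := h1
  obtain ⟨W2, hW2, hp2, hr2, hI2, hF2, hb2⟩ := h2
  have h3 := bb_submod (Γ := Γ) S a b W1 W2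
  have hcapA : W1 ∩ W2 ⊆ A := (Finset.inter_subset_left.trans hW1).trans away_subset
  have hcapF : ∀ y ∈ W1 ∩ W2, ¬ Fx Γ y := fun y hy => hF1 y (Finset.mem_inter.1 hy).1
  have hcapI : InvH D.HH (W1 ∩ W2) := hI1.inter hI2
  have h4 := hβ.2 (W1 ∩ W2) hcapA
    ⟨b p, Finset.mem_inter.2 ⟨hp1, hp2⟩⟩ (hcapI.mono D.R_le_HH) hcapF
  have h4' : (2 * D.m : ℤ) ≤ bb (Γ := Γ) S a b (W1 ∩ W2) := by
    rcases D.hm with hm | hm
    · have hd := bb_dvd_R (S := S) (a := a) (b := b) hA hcapA (hcapI.mono D.R_le_HH) hcapF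
      rw [hm] at hd ⊢
      push_cast at hd ⊢
      omega
    · have hT : InvH (⊤ : Subgroup Γ) (W1 ∩ W2) := by
        rw [Dih.HH_three hm] at hcapI; exact hcapI
      have hd := bb_dvd_top (S := S) (a := a) (b := b) hA hcapA hT hcapF
      rw [hm] at hd ⊢
      push_cast at hd ⊢
      omega
  obtain ⟨Z, hZA, _, hvZ, hIZ, hZc, hbZ⟩ := bb_add_orbit D.HH hA (T := {p, q, r}) (by
    intro k hk
    simp only [Finset.mem_insert, Finset.mem_singleton] at hk
    rcases hk with rfl | rfl | rfl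
    · exact hp
    · exact hq
    · exact hr) hvA (X := W1 ∪ W2) (S := S) (a := a) (b := b) (Finset.union_subset hW1 hW2)
      (hI1.union hI2) (by
      intro k hk
      simp only [Finset.mem_insert, Finset.mem_singleton] at hk
      rcases hk with rfl | rfl | rfl
      · exact ⟨hap, Finset.mem_union_left _ hp1⟩
      · exact ⟨haq, Finset.mem_union_left _ hq1⟩
      · exact ⟨har, Finset.mem_union_right _ hr2⟩) (by
      rw [Finset.card_insert_of_notMem (by simp [hpq, hpr]), Finset.card_pair hqr]; norm_num)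
  rw [Finset.card_insert_of_notMem (by simp [hpq, hpr]), Finset.card_pair hqr] at hbZ
  push_cast at hbZ
  rcases D.hm with hm | hm
  · have hZF : ∀ y ∈ Z, ¬ Fx Γ y := by
      intro y hy hFy
      rcases hZc y hy with h | ⟨γ, rfl⟩
      · rcases Finset.mem_union.1 h with h | h
        · exact hF1 y h hFy
        · exact hF2 y h hFy
      · exact hvF (Fx_smul hFy)
    have h5 := hβ.2 Z hZA ⟨v, hvZ⟩ (hIZ.mono D.R_le_HH) hZF
    rw [Dih.HH_two hm, D.card_R] at hbZ
    rw [hm] at hbZ h4' hb1 hb2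
    push_cast at hbZ h4' hb1 hb2
    linarith
  · have h5 := hβ.1 Z hZA ⟨v, hvZ⟩
    rw [Dih.HH_three hm, D.card_top] at hbZ
    rw [hm] at hbZ h4' hb1 hb2
    push_cast at hbZ h4' hb1 hb2
    linarith

/-- one of the three pairs is good -/
theorem exists_good_pair {D : Dih Γ ρ} {A : Finset Y} (hA : Good D A) {S : Finset ι}
    {a b : ι → Y}
    (hβ : StarF D A (bb (Γ := Γ) S a b)) {v : Y} (hvA : v ∈ A) (hvF : ¬ Fx Γ v) {p q r : ι}
    (hp : p ∈ S) (hq : q ∈ S) (hr : r ∈ S) (hpq : p ≠ q) (hpr : p ≠ r) (hqr : q ≠ r)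
    (hap : a p = v) (haq : a q = v) (har : a r = v) :
    StarF D (away Γ A v) (fun X => bb (Γ := Γ) S a b X - (kk Γ (b p) (b q) X : ℤ)) ∨
    StarF D (away Γ A v) (fun X => bb (Γ := Γ) S a b X - (kk Γ (b p) (b r) X : ℤ)) ∨
    StarF D (away Γ A v) (fun X => bb (Γ := Γ) S a b X - (kk Γ (b q) (b r) X : ℤ)) := by
  by_contra hcon
  push Not at hcon
  obtain ⟨h1, h2, h3⟩ := hcon
  have hβ' : StarF D (away Γ A v) (bb (Γ := Γ) S a b) := hβ.mono away_subset fun X _ => le_rfl
  have hA' := away_good hA v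
  rcases viol hA' hβ' h1 with h1 | h1 <;> rcases viol hA' hβ' h2 with h2 | h2
  · exact conflict_II hA hβ hvA hp hq hr hpq hpr hqr hap haq har h1 h2
  · rcases viol hA' hβ' h3 with h3 | h3
    · exact conflict_II hA hβ hvA hq hp hr hpq.symm hqr hpr haq hap har h1.symm h3
    · exact conflict_V hA hβ hvA hvF hr hp hq hpr.symm hqr.symm hpq har hap haq h2.symm h3.symm
  · rcases viol hA' hβ' h3 with h3 | h3
    · exact conflict_II hA hβ hvA hr hp hq hpr.symm hqr.symm hpq har hap haq h2.symm h3.symm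
    · exact conflict_V hA hβ hvA hvF hq hp hr hpq.symm hqr hpr haq hap har h1.symm h3
  · exact conflict_V hA hβ hvA hvF hp hq hr hpq hpr hqr hap haq har h1 h2

/-- the count of the reduced system -/
theorem bb_reduced {A : Finset Y} {S : Finset ι} {a b : ι → Y} {v : Y} {p q r : ι}
    (hp : p ∈ S) (hq : q ∈ S) (hr : r ∈ S) (hpq : p ≠ q) (hpr : p ≠ r) (hqr : q ≠ r)
    (hap : a p = v) (haq : a q = v) (har : a r = v) {X : Finset Y} (hX : X ⊆ away Γ A v) :
    bb (Γ := Γ) ((S.erase r).erase q) (Function.update a p (b q)) b X =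
      bb (Γ := Γ) S a b X - (kk Γ (b p) (b q) X : ℤ) := by
  have h0 : ∀ c : Y, kk Γ v c X = 0 := fun c => kk_eq_zero_left (fun g => notMem_of_away hX g)
  unfold bb
  have hpS : p ∈ (S.erase r).erase q :=
    Finset.mem_erase.2 ⟨hpq, Finset.mem_erase.2 ⟨hpr, hp⟩⟩
  have hqS : q ∈ S.erase r := Finset.mem_erase.2 ⟨hqr, hq⟩
  rw [← Finset.add_sum_erase S _ hr, ← Finset.add_sum_erase (S.erase r) _ hqS,
    ← Finset.add_sum_erase _ _ hpS,
    ← Finset.add_sum_erase _ (fun i => (kk Γ (a i) (b i) X : ℤ)) hpS,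
    har, haq, hap, h0, h0, h0, Function.update_self, kk_comm (b q) (b p)]
  have : ∑ x ∈ ((S.erase r).erase q).erase p, (kk Γ (Function.update a p (b q) x) (b x) X : ℤ) =
      ∑ x ∈ ((S.erase r).erase q).erase p, (kk Γ (a x) (b x) X : ℤ) := by
    refine Finset.sum_congr rfl fun k hk => ?_
    rw [Function.update_of_ne (Finset.ne_of_mem_erase hk)]
  rw [this]
  push_cast
  ring

theorem tinv_zero : TInv ρ ({0} : Set (Y →₀ E2)) := by
  intro z hz δ
  refine ⟨0, rfl, fun y => ?_⟩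
  rw [Set.mem_singleton_iff.1 hz, Finsupp.zero_apply, Finsupp.zero_apply, map_zero]

/-- the case analysis at a vertex of small degree, for representatives normalised at `v` -/
theorem reduce_normal (D : Dih Γ ρ) {A : Finset Y} (hA : Good D A) {K : Set (Y →₀ E2)}
    (hK : TInv ρ K) (hK0 : (0 : Y →₀ E2) ∈ K) {v : Y} (hKv : ∀ z ∈ K, z v = 0)
    (hvA : v ∈ A) (hvF : ¬ Fx Γ v) {S : Finset ι} {a b : ι → Y}
    (hnf : ∀ i, a i = v ∨ ((∀ γ : Γ, γ • a i ≠ v) ∧ (∀ γ : Γ, γ • b i ≠ v)))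
    (hdeg0 : 0 < ∑ i ∈ S, (cnt Γ (a i) v + cnt Γ (b i) v))
    (hdeg4 : ∑ i ∈ S, (cnt Γ (a i) v + cnt Γ (b i) v) < 4)
    (hloop : ∀ i ∈ S, a i = v → b i ≠ v)
    (hhalf : D.m = 2 → ∀ i ∈ S, a i = v → ∀ r ∈ D.R, b i ≠ r • v)
    (hIH1 : ∀ S' ⊂ S, ∃ x : ι → E2, Indep ρ K S' a b x)
    (hIH3 : ∀ p ∈ S, ∀ q ∈ S, ∀ r ∈ S, p ≠ q → p ≠ r → q ≠ r → a p = v → a q = v → a r = v →
      (∀ γ : Γ, γ • b p ≠ v) → (∀ γ : Γ, γ • b q ≠ v) → (∀ γ : Γ, γ • b r ≠ v) →
      (∀ k ∈ S, k ≠ p → k ≠ q → k ≠ r → (∀ γ : Γ, γ • a k ≠ v) ∧ (∀ γ : Γ, γ • b k ≠ v)) →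
      (∃ x : ι → E2, Indep ρ K ((S.erase r).erase q) (Function.update a p (b q)) b x) ∨
      (∃ x : ι → E2, Indep ρ K ((S.erase q).erase r) (Function.update a p (b r)) b x) ∨
      (∃ x : ι → E2, Indep ρ K ((S.erase p).erase r) (Function.update a q (b r)) b x)) :
    ∃ x : ι → E2, Indep ρ K S a b x := by
  classical
  set s := cnt Γ v v with hs
  set T := S.filter (fun i => a i = v) with hT
  set T2 := T.filter (fun i => ∃ γ : Γ, γ • b i = v) with hT2
  have hTS : T ⊆ S := Finset.filter_subset _ _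
  have hT2T : T2 ⊆ T := Finset.filter_subset _ _
  have hTm : ∀ i, i ∈ T ↔ i ∈ S ∧ a i = v := fun i => Finset.mem_filter
  have hout : ∀ i ∈ S, i ∉ T → (∀ γ : Γ, γ • a i ≠ v) ∧ (∀ γ : Γ, γ • b i ≠ v) := by
    intro i hi hiT
    rcases hnf i with h | h
    · exact absurd ((hTm i).2 ⟨hi, h⟩) hiT
    · exact h
  have hTn : T.Nonempty := by
    by_contra hTe
    rw [Finset.not_nonempty_iff_eq_empty] at hTe
    have : ∑ i ∈ S, (cnt Γ (a i) v + cnt Γ (b i) v) = 0 := by
      refine Finset.sum_eq_zero fun i hi => ?_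
      have h := hout i hi (by rw [hTe]; exact Finset.notMem_empty i)
      rw [cnt_eq_zero h.1, cnt_eq_zero h.2, add_zero]
    omega
  have hbound : s * (T.card + T2.card) ≤ ∑ i ∈ S, (cnt Γ (a i) v + cnt Γ (b i) v) := by
    rw [Finset.sum_add_distrib, mul_add]
    refine Nat.add_le_add ?_ ?_
    · have h1 : ∑ i ∈ T, cnt Γ (a i) v ≤ ∑ i ∈ S, cnt Γ (a i) v :=
        Finset.sum_le_sum_of_subset hTS
      refine le_trans (le_of_eq ?_) h1
      rw [Finset.sum_congr rfl (fun i hi => by rw [((hTm i).1 hi).2]), Finset.sum_const,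
        smul_eq_mul, mul_comm]
    · have h1 : ∑ i ∈ T2, cnt Γ (b i) v ≤ ∑ i ∈ S, cnt Γ (b i) v :=
        Finset.sum_le_sum_of_subset (hT2T.trans hTS)
      refine le_trans (le_of_eq ?_) h1
      rw [Finset.sum_congr rfl (fun i hi => by
        obtain ⟨γ, hγ⟩ := (Finset.mem_filter.1 hi).2
        rw [cnt_of_smul γ hγ]), Finset.sum_const, smul_eq_mul, mul_comm]
  have hTpos : 0 < T.card := Finset.card_pos.2 hTn
  have hstab : ∀ h : Γ, h ∈ MulAction.stabilizer Γ v ↔ h • v = v := by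
    intro h; exact MulAction.mem_stabilizer_iff
  have hRno : ∀ r ∈ D.R, r • v = v → r = 1 := by
    intro r hr hrv
    by_contra hr1
    exact hvF (hA.rot v hvA r hr hr1 hrv)
  have hsub : ∀ i ∈ S, S.erase i ⊂ S := fun i hi => Finset.erase_ssubset hi
  -- stabiliser
  have hcases : (∀ γ : Γ, γ • v = v → γ = 1) ∨
      (∃ g : Γ, g ≠ 1 ∧ g ∉ D.R ∧ g • v = v ∧ ∀ γ : Γ, γ • v = v → γ = 1 ∨ γ = g) := by
    by_cases h : ∀ γ : Γ, γ • v = v → γ = 1
    · exact Or.inl h
    · right
      push Not at h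
      obtain ⟨g, hgv, hg1⟩ := h
      have hgR : g ∉ D.R := fun hgR => hg1 (hRno g hgR hgv)
      refine ⟨g, hg1, hgR, hgv, ?_⟩
      intro γ hγ
      by_cases hγR : γ ∈ D.R
      · exact Or.inl (hRno γ hγR hγ)
      · right
        have h1 := hRno (g * γ) (D.mul_mem g γ hgR hγR) (by rw [mul_smul, hγ, hgv])
        rw [← D.inv_refl hgR]
        exact eq_inv_of_mul_eq_one_right h1
  rcases hcases with hfree | ⟨g, hg1, hgR, hgv, hst⟩
  swap
  · -- stabiliser of order two
    have hs2 : s = 2 := by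
      rw [hs]
      unfold cnt
      have : (Finset.univ.filter (fun γ : Γ => γ • v = v)) = {1, g} := by
        ext γ
        simp only [Finset.mem_filter, Finset.mem_univ, true_and, Finset.mem_insert,
          Finset.mem_singleton]
        constructor
        · exact hst γ
        · rintro (rfl | rfl)
          · exact one_smul _ _
          · exact hgv
      rw [this, Finset.card_pair (Ne.symm hg1)]
    rw [hs2] at hbound
    have hT1 : T.card = 1 := by omega
    have hT20 : T2.card = 0 := by omega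
    obtain ⟨i, hi⟩ := Finset.card_eq_one.1 hT1
    have hiT : i ∈ T := by rw [hi]; exact Finset.mem_singleton_self i
    have hiS := hTS hiT
    obtain ⟨x0, hx0⟩ := D.exists_np_refl hgR
    obtain ⟨x, hx⟩ := hIH1 (S.erase i) (hsub i hiS)
    refine local_stab hK hKv hg1 hgv hst hx0 hiS ((hTm i).1 hiT).2 ?_ ?_ hx
    · intro γ hγ
      have h1 : i ∈ T2 := Finset.mem_filter.2 ⟨hiT, γ, hγ⟩
      rw [Finset.card_eq_zero.1 hT20] at h1
      exact Finset.notMem_empty i h1
    · intro j hj hji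
      refine hout j hj fun hjT => hji ?_
      rw [hi] at hjT
      exact Finset.mem_singleton.1 hjT
  -- free vertex
  have hs1 : s = 1 := by
    rw [hs]
    unfold cnt
    have : (Finset.univ.filter (fun γ : Γ => γ • v = v)) = {1} := by
      ext γ
      simp only [Finset.mem_filter, Finset.mem_univ, true_and, Finset.mem_singleton]
      constructor
      · exact hfree γ
      · rintro rfl; exact one_smul _ _
    rw [this, Finset.card_singleton]
  rw [hs1, one_mul] at hbound
  have hT3 : T.card + T2.card ≤ 3 := by omega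
  rcases T2.eq_empty_or_nonempty with hT2e | ⟨i, hiT2⟩
  · -- only external edges
    have hext : ∀ i ∈ T, ∀ γ : Γ, γ • b i ≠ v := by
      intro i hi γ hγ
      have h1 : i ∈ T2 := Finset.mem_filter.2 ⟨hi, γ, hγ⟩
      rw [hT2e] at h1
      exact Finset.notMem_empty i h1
    have hTle : T.card ≤ 3 := by omega
    have hT123 : T.card = 1 ∨ T.card = 2 ∨ T.card = 3 := by omega
    rcases hT123 with h1 | h2 | h3
    · obtain ⟨i, hi⟩ := Finset.card_eq_one.1 h1
      have hiT : i ∈ T := by rw [hi]; exact Finset.mem_singleton_self i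
      obtain ⟨x0, y0, hxy⟩ := D.exists_np
      obtain ⟨x, hx⟩ := hIH1 (S.erase i) (hsub i (hTS hiT))
      refine local_ext1 hK hKv hfree hxy.ne_left (hTS hiT) ((hTm i).1 hiT).2 (hext i hiT) ?_ hx
      intro j hj hji
      refine hout j hj fun hjT => hji ?_
      rw [hi] at hjT
      exact Finset.mem_singleton.1 hjT
    · obtain ⟨i, j, hij, hT'⟩ := Finset.card_eq_two.1 h2
      have hiT : i ∈ T := by rw [hT']; simp
      have hjT : j ∈ T := by rw [hT']; simp
      obtain ⟨x0, y0, hxy⟩ := D.exists_np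
      obtain ⟨x, hx⟩ := hIH1 ((S.erase i).erase j)
        (Finset.ssubset_of_subset_of_ssubset (Finset.erase_subset _ _) (hsub i (hTS hiT)))
      refine local_ext2 hK hKv hfree hxy (hTS hiT) (hTS hjT) hij ((hTm i).1 hiT).2 (hext i hiT)
        ((hTm j).1 hjT).2 (hext j hjT) ?_ hx
      intro k hk hki hkj
      refine hout k hk fun hkT => ?_
      rw [hT'] at hkT
      simp only [Finset.mem_insert, Finset.mem_singleton] at hkT
      rcases hkT with h | h
      · exact hki h
      · exact hkj h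
    · obtain ⟨p, q, r, hpq, hpr, hqr, hT'⟩ := Finset.card_eq_three.1 h3
      have hpT : p ∈ T := by rw [hT']; simp
      have hqT : q ∈ T := by rw [hT']; simp
      have hrT : r ∈ T := by rw [hT']; simp
      have hout' : ∀ k ∈ S, k ≠ p → k ≠ q → k ≠ r →
          (∀ γ : Γ, γ • a k ≠ v) ∧ (∀ γ : Γ, γ • b k ≠ v) := by
        intro k hk hkp hkq hkr
        refine hout k hk fun hkT => ?_
        rw [hT'] at hkT
        simp only [Finset.mem_insert, Finset.mem_singleton] at hkT
        rcases hkT with h | h | h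
        · exact hkp h
        · exact hkq h
        · exact hkr h
      rcases hIH3 p (hTS hpT) q (hTS hqT) r (hTS hrT) hpq hpr hqr ((hTm p).1 hpT).2
        ((hTm q).1 hqT).2 ((hTm r).1 hrT).2 (hext p hpT) (hext q hqT) (hext r hrT) hout' with
        ⟨x, hx⟩ | ⟨x, hx⟩ | ⟨x, hx⟩
      · exact local_ext3 hK hK0 hKv hfree (hTS hpT) (hTS hqT) (hTS hrT) hpq hpr hqr
          ((hTm p).1 hpT).2 (hext p hpT) ((hTm q).1 hqT).2 (hext q hqT)
          ((hTm r).1 hrT).2 (hext r hrT) hout' hx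
      · exact local_ext3 hK hK0 hKv hfree (hTS hpT) (hTS hrT) (hTS hqT) hpr hpq hqr.symm
          ((hTm p).1 hpT).2 (hext p hpT) ((hTm r).1 hrT).2 (hext r hrT)
          ((hTm q).1 hqT).2 (hext q hqT) (fun k hk h1 h2 h3 => hout' k hk h1 h3 h2) hx
      · exact local_ext3 hK hK0 hKv hfree (hTS hqT) (hTS hrT) (hTS hpT) hqr hpq.symm hpr.symm
          ((hTm q).1 hqT).2 (hext q hqT) ((hTm r).1 hrT).2 (hext r hrT)
          ((hTm p).1 hpT).2 (hext p hpT) (fun k hk h1 h2 h3 => hout' k hk h3 h1 h2) hx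
  · -- an internal edge
    have hT2pos : 0 < T2.card := Finset.card_pos.2 ⟨i, hiT2⟩
    have hT2le : T2.card ≤ T.card := Finset.card_le_card hT2T
    have hT21 : T2.card = 1 := by omega
    have hT2i : T2 = {i} := by
      obtain ⟨i', hi'⟩ := Finset.card_eq_one.1 hT21
      rw [hi'] at hiT2 ⊢
      rw [Finset.mem_singleton.1 hiT2]
    have hiT := hT2T hiT2
    have hai := ((hTm i).1 hiT).2
    obtain ⟨γ, hγ⟩ := (Finset.mem_filter.1 hiT2).2
    have hbi : b i = γ⁻¹ • v := by rw [← hγ, inv_smul_smul]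
    have hγ1 : γ⁻¹ ≠ 1 := by
      intro h
      apply hloop i (hTS hiT) hai
      rw [hbi, h, one_smul]
    have hγR : D.m = 2 → γ⁻¹ ∉ D.R := by
      intro hm hR
      exact hhalf hm i (hTS hiT) hai _ hR hbi
    obtain ⟨x0, hx0⟩ := D.exists_np_of (g := γ⁻¹⁻¹) (by simpa using hγ1) (by
      intro hm hR
      exact hγR hm (by simpa using D.R.inv_mem hR))
    have hT12 : T.card = 1 ∨ T.card = 2 := by omega
    rcases hT12 with h1 | h2
    · have hTi : T = {i} := by
        obtain ⟨i', hi'⟩ := Finset.card_eq_one.1 h1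
        rw [hi'] at hiT ⊢
        rw [Finset.mem_singleton.1 hiT]
      obtain ⟨x, hx⟩ := hIH1 (S.erase i) (hsub i (hTS hiT))
      refine local_int1 hK hKv hfree hx0 (hTS hiT) hai hbi ?_ hx
      intro j hj hji
      refine hout j hj fun hjT => hji ?_
      rw [hTi] at hjT
      exact Finset.mem_singleton.1 hjT
    · obtain ⟨j, hTj⟩ : ∃ j, T.erase i = {j} := by
        rw [← Finset.card_eq_one, Finset.card_erase_of_mem hiT]; omega
      have hjTe : j ∈ T.erase i := by rw [hTj]; exact Finset.mem_singleton_self j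
      have hjT := Finset.mem_of_mem_erase hjTe
      have hji := Finset.ne_of_mem_erase hjTe
      obtain ⟨x, hx⟩ := hIH1 ((S.erase i).erase j)
        (Finset.ssubset_of_subset_of_ssubset (Finset.erase_subset _ _) (hsub i (hTS hiT)))
      refine local_int2 hK hKv hfree hx0 (hTS hiT) (hTS hjT) hji.symm hai hbi
        ((hTm j).1 hjT).2 ?_ ?_ hx
      · intro δ hδ
        have h1 : j ∈ T2 := Finset.mem_filter.2 ⟨hjT, δ, hδ⟩
        rw [hT2i] at h1
        exact hji (Finset.mem_singleton.1 h1)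
      · intro k hk hki hkj
        refine hout k hk fun hkT => ?_
        have : k ∈ T.erase i := Finset.mem_erase.2 ⟨hki, hkT⟩
        rw [hTj] at this
        exact hkj (Finset.mem_singleton.1 this)

/-- normalisation of representatives at `v` -/
theorem exists_normal (a b : ι → Y) (v : Y) : ∃ a' b' : ι → Y,
    (∀ i, Rel Γ (a i) (b i) (a' i) (b' i)) ∧
    (∀ i, a' i = v ∨ ((∀ γ : Γ, γ • a' i ≠ v) ∧ (∀ γ : Γ, γ • b' i ≠ v))) := by
  have hnorm : ∀ i, ∃ ab : Y × Y, Rel Γ (a i) (b i) ab.1 ab.2 ∧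
      (ab.1 = v ∨ ((∀ γ : Γ, γ • ab.1 ≠ v) ∧ (∀ γ : Γ, γ • ab.2 ≠ v))) := by
    intro i
    obtain ⟨a', b', h1, h2⟩ := exists_rel (Γ := Γ) (a i) (b i) v
    exact ⟨(a', b'), h1, h2⟩
  choose ab hrel hnf using hnorm
  exact ⟨fun i => (ab i).1, fun i => (ab i).2, hrel, hnf⟩

theorem rel_mem {D : Dih Γ ρ} {A : Finset Y} (hA : Good D A) {a b a' b' : Y}
    (h : Rel Γ a b a' b') (hab : a ∈ A ∧ b ∈ A) : a' ∈ A ∧ b' ∈ A := by
  obtain ⟨g, (⟨rfl, rfl⟩ | ⟨rfl, rfl⟩)⟩ := h
  · exact ⟨hA.inv g (Subgroup.mem_top g) _ hab.1, hA.inv g (Subgroup.mem_top g) _ hab.2⟩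
  · exact ⟨hA.inv g (Subgroup.mem_top g) _ hab.2, hA.inv g (Subgroup.mem_top g) _ hab.1⟩

theorem T1_aux (D : Dih Γ ρ) : ∀ (n : ℕ) (S : Finset ι) (a b : ι → Y) (A : Finset Y), S.card = n →
    Good D A → (∀ i ∈ S, a i ∈ A ∧ b i ∈ A) → StarF D A (bb (Γ := Γ) S a b) →
    ∃ x : ι → E2, Indep ρ {0} S a b x := by
  classical
  intro n
  induction n using Nat.strong_induction_on with
  | _ n ih =>
  intro S a0 b0 A hn hA hab0 hβ0
  rcases S.eq_empty_or_nonempty with rfl | hSn
  · exact ⟨0, fun ω z _ _ i hi => absurd hi (Finset.notMem_empty i)⟩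
  obtain ⟨v, hvA, hdeg0, hdeg4⟩ := exists_low hA.inv hSn hab0 hβ0.1
  obtain ⟨a, b, hrel, hnf⟩ := exists_normal (Γ := Γ) a0 b0 v
  refine exists_indep_of_rel ρ (a' := a) (b' := b) (fun i _ => hrel i) ?_
  have hβ : StarF D A (bb (Γ := Γ) S a b) := by
    refine hβ0.mono subset_rfl fun X _ => ?_
    rw [bb_congr_rel (fun i _ => hrel i)]
  have hab : ∀ i ∈ S, a i ∈ A ∧ b i ∈ A := fun i hi => rel_mem hA (hrel i) (hab0 i hi)
  have hdeg : ∑ i ∈ S, (cnt Γ (a i) v + cnt Γ (b i) v) =
      ∑ i ∈ S, (cnt Γ (a0 i) v + cnt Γ (b0 i) v) :=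
    Finset.sum_congr rfl fun i _ => cnt_rel (hrel i) v
  rw [← hdeg] at hdeg0 hdeg4
  have hbb1 : ∀ i ∈ S, ∀ X : Finset Y,
      bb (Γ := Γ) S a b X ≤ 2 * (X.card : ℤ) - (kk Γ (a i) (b i) X : ℤ) := by
    intro i hi X
    unfold bb
    have : (kk Γ (a i) (b i) X : ℤ) ≤ ∑ i ∈ S, (kk Γ (a i) (b i) X : ℤ) :=
      Finset.single_le_sum (f := fun i => (kk Γ (a i) (b i) X : ℤ))
        (fun _ _ => by positivity) hi
    linarith
  have hvF : ¬ Fx Γ v := by
    intro hF
    have h1 : ∃ i ∈ S, 0 < cnt Γ (a i) v + cnt Γ (b i) v := by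
      by_contra hcon
      push Not at hcon
      have : ∑ i ∈ S, (cnt Γ (a i) v + cnt Γ (b i) v) = 0 :=
        Finset.sum_eq_zero fun i hi => by have := hcon i hi; omega
      omega
    obtain ⟨i, hi, hpos⟩ := h1
    have hai : a i = v := by
      rcases hnf i with h | h
      · exact h
      · rw [cnt_eq_zero h.1, cnt_eq_zero h.2] at hpos; omega
    have h2 : cnt Γ (a i) v = Fintype.card Γ := by
      rw [hai]
      unfold cnt
      rw [Finset.filter_true_of_mem (fun γ _ => hF γ), Finset.card_univ]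
    have h3 : cnt Γ (a i) v + cnt Γ (b i) v ≤ ∑ i ∈ S, (cnt Γ (a i) v + cnt Γ (b i) v) :=
      Finset.single_le_sum (f := fun i => cnt Γ (a i) v + cnt Γ (b i) v)
        (fun _ _ => Nat.zero_le _) hi
    rw [h2, D.card_G] at h3
    have := D.m_prime.two_le
    omega
  refine reduce_normal D hA tinv_zero rfl (v := v) ?_ hvA hvF hnf hdeg0 hdeg4 ?_ ?_ ?_ ?_
  · intro z hz
    rw [Set.mem_singleton_iff.1 hz, Finsupp.zero_apply]
  · -- no loops
    intro i hi hai hbi
    have h1 := hβ.1 {v} (Finset.singleton_subset_iff.2 hvA) ⟨v, Finset.mem_singleton_self v⟩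
    have h2 := hbb1 i hi {v}
    have h3 : 0 < kk Γ (a i) (b i) {v} := by
      unfold kk
      refine Finset.card_pos.2 ⟨1, ?_⟩
      simp [hai, hbi]
    rw [Finset.card_singleton] at h2
    push_cast at h2
    omega
  · -- no half-turn doubles
    intro hm i hi hai r hr hbi
    by_cases hr1 : r = 1
    · subst hr1
      rw [one_smul] at hbi
      have h1 := hβ.1 {v} (Finset.singleton_subset_iff.2 hvA) ⟨v, Finset.mem_singleton_self v⟩
      have h2 := hbb1 i hi {v}
      have h3 : 0 < kk Γ (a i) (b i) {v} := by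
        unfold kk
        refine Finset.card_pos.2 ⟨1, ?_⟩
        simp [hai, hbi]
      rw [Finset.card_singleton] at h2
      push_cast at h2
      omega
    · have hrr : r * r = 1 := by
        have h1 : (⟨r, hr⟩ : D.R) ^ Nat.card D.R = 1 := pow_card_eq_one'
        rw [D.card_R, hm, sq] at h1
        exact congr_arg Subtype.val h1
      have hRel : ∀ h ∈ D.R, h = 1 ∨ h = r := by
        intro h hh
        have h2 : Nat.card D.R = 2 := by rw [D.card_R, hm]
        obtain ⟨c, d, hcd, hall⟩ := Nat.card_eq_two_iff.1 h2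
        have e1 : (⟨h, hh⟩ : D.R) ∈ ({c, d} : Set D.R) := by rw [hall]; trivial
        have e2 : (⟨r, hr⟩ : D.R) ∈ ({c, d} : Set D.R) := by rw [hall]; trivial
        have e3 : (1 : D.R) ∈ ({c, d} : Set D.R) := by rw [hall]; trivial
        simp only [Set.mem_insert_iff, Set.mem_singleton_iff] at e1 e2 e3
        have hne : (⟨r, hr⟩ : D.R) ≠ 1 := fun h => hr1 (congr_arg Subtype.val h)
        have : (⟨h, hh⟩ : D.R) = 1 ∨ (⟨h, hh⟩ : D.R) = ⟨r, hr⟩ := by
          rcases e1 with e1 | e1 <;> rcases e2 with e2 | e2 <;> rcases e3 with e3 | e3 <;>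
            simp_all
        rcases this with h | h
        · exact Or.inl (congr_arg Subtype.val h)
        · exact Or.inr (congr_arg Subtype.val h)
      have hrvA : r • v ∈ A := hA.inv r (Subgroup.mem_top r) v hvA
      have h1 := hβ.2 {v, r • v} (by
        intro y hy
        simp only [Finset.mem_insert, Finset.mem_singleton] at hy
        rcases hy with rfl | rfl
        · exact hvA
        · exact hrvA) ⟨v, by simp⟩ (by
        intro h hh y hy
        simp only [Finset.mem_insert, Finset.mem_singleton] at hy ⊢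
        rcases hRel h hh with rfl | rfl
        · rw [one_smul]; exact hy
        · rcases hy with rfl | rfl
          · exact Or.inr rfl
          · left; rw [smul_smul, hrr, one_smul]) (by
        intro y hy hFy
        simp only [Finset.mem_insert, Finset.mem_singleton] at hy
        rcases hy with rfl | rfl
        · exact hvF hFy
        · exact hvF (Fx_smul hFy))
      have h2 := hbb1 i hi {v, r • v}
      have h3 : 2 ≤ kk Γ (a i) (b i) {v, r • v} := by
        unfold kk
        have : ({1, r} : Finset Γ) ⊆ Finset.univ.filter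
            (fun γ : Γ => γ • a i ∈ ({v, r • v} : Finset Y) ∧ γ • b i ∈ ({v, r • v} : Finset Y)) := by
          intro γ hγ
          simp only [Finset.mem_insert, Finset.mem_singleton] at hγ
          simp only [Finset.mem_filter, Finset.mem_univ, true_and, Finset.mem_insert,
            Finset.mem_singleton, hai, hbi]
          rcases hγ with rfl | rfl
          · simp
          · rw [smul_smul, hrr, one_smul]; simp
        refine le_trans (le_of_eq ?_) (Finset.card_le_card this)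
        rw [Finset.card_pair (Ne.symm hr1)]
      have h4 : (({v, r • v} : Finset Y).card : ℤ) ≤ 2 := by
        exact_mod_cast Finset.card_le_two
      have h3' : (2 : ℤ) ≤ (kk Γ (a i) (b i) {v, r • v} : ℤ) := by exact_mod_cast h3
      linarith
  · -- induction hypothesis for subsets
    intro S' hS'
    refine ih S'.card (by rw [← hn]; exact Finset.card_lt_card hS') S' a b A rfl hA
      (fun i hi => hab i (hS'.1 hi)) ?_
    exact hβ.mono subset_rfl fun X _ => bb_mono_S hS'.1 a b X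
  · -- three neighbours
    intro p hp q hq r hr hpq hpr hqr hap haq har hbp hbq hbr hout
    have step : ∀ p q r : ι, p ∈ S → q ∈ S → r ∈ S → p ≠ q → p ≠ r → q ≠ r → a p = v → a q = v →
        a r = v → (∀ γ : Γ, γ • b p ≠ v) → (∀ γ : Γ, γ • b q ≠ v) →
        (∀ k ∈ S, k ≠ p → k ≠ q → k ≠ r → (∀ γ : Γ, γ • a k ≠ v) ∧ (∀ γ : Γ, γ • b k ≠ v)) →
        StarF D (away Γ A v) (fun X => bb (Γ := Γ) S a b X - (kk Γ (b p) (b q) X : ℤ)) →
        ∃ x : ι → E2, Indep ρ {0} ((S.erase r).erase q) (Function.update a p (b q)) b x := by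
      intro p q r hp hq hr hpq hpr hqr hap haq har hbp hbq hout hgood
      have hcard : ((S.erase r).erase q).card < n := by
        rw [← hn]
        exact Finset.card_lt_card (Finset.ssubset_of_subset_of_ssubset (Finset.erase_subset _ _)
          (Finset.erase_ssubset hr))
      refine ih _ hcard ((S.erase r).erase q) (Function.update a p (b q)) b (away Γ A v) rfl
        (away_good hA v) ?_ ?_
      · intro i hi
        have hiq : i ≠ q := Finset.ne_of_mem_erase hi
        have hir : i ≠ r := Finset.ne_of_mem_erase (Finset.mem_of_mem_erase hi)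
        have hiS : i ∈ S := Finset.mem_of_mem_erase (Finset.mem_of_mem_erase hi)
        by_cases hip : i = p
        · subst hip
          rw [Function.update_self]
          exact ⟨mem_away.2 ⟨(hab q hq).2, hbq⟩, mem_away.2 ⟨(hab i hp).2, hbp⟩⟩
        · rw [Function.update_of_ne hip]
          have h := hout i hiS hip hiq hir
          exact ⟨mem_away.2 ⟨(hab i hiS).1, h.1⟩, mem_away.2 ⟨(hab i hiS).2, h.2⟩⟩
      · refine hgood.mono subset_rfl fun X hX => ?_
        rw [bb_reduced hp hq hr hpq hpr hqr hap haq har hX]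
    rcases exists_good_pair hA hβ hvA hvF hp hq hr hpq hpr hqr hap haq har with h | h | h
    · exact Or.inl (step p q r hp hq hr hpq hpr hqr hap haq har hbp hbq hout h)
    · exact Or.inr (Or.inl (step p r q hp hr hq hpr hpq hqr.symm hap har haq hbp hbr
        (fun k hk h1 h2 h3 => hout k hk h1 h3 h2) h))
    · exact Or.inr (Or.inr (step q r p hq hr hp hqr hpq.symm hpr.symm haq har hap hbq hbr
        (fun k hk h1 h2 h3 => hout k hk h3 h1 h2) h))

theorem T1 {Γ : Type} [Group Γ] [Fintype Γ] {Y : Type} [MulAction Γ Y] [DecidableEq Y]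
    {ι : Type} [DecidableEq ι] {ρ : Γ →* (E2 →ₗ[ℝ] E2)} (D : Dih Γ ρ) {A : Finset Y}
    (hA : Good D A) (S : Finset ι) (a b : ι → Y) (hab : ∀ i ∈ S, a i ∈ A ∧ b i ∈ A)
    (hβ : StarF D A (bb (Γ := Γ) S a b)) : ∃ x : ι → E2, Indep ρ {0} S a b x :=
  T1_aux D S.card S a b A rfl hA hab hβ

end Pool.Agent.SymLaman
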