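import Pool.Agent.Lib_MP_d5472a_co.Frame
import Pool.Agent.Lib_MP_d5472a_co.PartC
import Pool.Agent.Lib_MP_d5472a_co.T1

set_option autoImplicit false

/-! PART F2: the frame for the group of order 4. -/

namespace Pool.Agent.SymLaman
open scoped Pointwise

/-- two non-parallel vectors span the plane -/
theorem NP.span {x y : E2} (h : NP x y) (v : E2) : ∃ α β : ℝ, v = α • x + β • y := by
  have hD : x 0 * y 1 - x 1 * y 0 ≠ 0 := by
    intro hD
    have h1 := h (y 0) (-(x 0)) (by
      funext k
      fin_cases k
      · simp; ring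
      · simp; linarith)
    have h2 := h (y 1) (-(x 1)) (by
      funext k
      fin_cases k
      · simp; linarith
      · simp; ring)
    have hx : x = 0 := by
      funext k
      fin_cases k
      · simpa using h1.2
      · simpa using h2.2
    have h3 := h 1 0 (by rw [hx]; simp)
    exact one_ne_zero h3.1
  refine ⟨(v 0 * y 1 - v 1 * y 0) / (x 0 * y 1 - x 1 * y 0),
    (x 0 * v 1 - x 1 * v 0) / (x 0 * y 1 - x 1 * y 0), ?_⟩
  funext k
  fin_cases k
  · simp only [Fin.zero_eta, Pi.add_apply, Pi.smul_apply, smul_eq_mul]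
    rw [eq_comm, div_mul_eq_mul_div, div_mul_eq_mul_div, ← add_div, div_eq_iff hD]
    ring
  · simp only [Fin.mk_one, Pi.add_apply, Pi.smul_apply, smul_eq_mul]
    rw [eq_comm, div_mul_eq_mul_div, div_mul_eq_mul_div, ← add_div, div_eq_iff hD]
    ring

section optact
variable {Γ : Type} [Group Γ] [Fintype Γ] {V : Type} [MulAction Γ V] [DecidableEq V]

theorem inc_some (ρ : Γ →* (E2 →ₗ[ℝ] E2)) (a v : V) (x : E2) (ω : Γ → ℝ) :
    inc ρ (some a) (some v) x ω = inc ρ a v x ω := by
  unfold inc
  refine Finset.sum_congr rfl fun γ _ => ?_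
  simp only [Option.smul_some, Option.some.injEq]

theorem inc_some_none (ρ : Γ →* (E2 →ₗ[ℝ] E2)) (a : V) (x : E2) (ω : Γ → ℝ) :
    inc ρ (some a) none x ω = 0 :=
  inc_eq_zero ρ (fun γ => by simp) x ω

theorem inc_none_some (ρ : Γ →* (E2 →ₗ[ℝ] E2)) (v : V) (x : E2) (ω : Γ → ℝ) :
    inc ρ (none : Option V) (some v) x ω = 0 :=
  inc_eq_zero ρ (fun γ => by simp) x ω

theorem kk_some (a b : V) (X : Finset (Option V)) :
    kk Γ (some a) (some b) X = kk Γ a b (Finset.eraseNone X) := by
  unfold kk
  congr 1
  ext γ
  simp only [Finset.mem_filter, Finset.mem_univ, true_and, Option.smul_some,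
    Finset.mem_eraseNone]

end optact

theorem exists_frame_two {Γ : Type} [Group Γ] [Fintype Γ] {V : Type} [Fintype V] [DecidableEq V]
    [MulAction Γ V] (G : SimpleGraph V) [DecidableRel G.Adj]
    {ρ : Γ →* (E2 →ₗ[ℝ] E2)} (D : Dih Γ ρ) (hm : D.m = 2)
    (hadj : ∀ (γ : Γ) (u v : V), G.Adj u v ↔ G.Adj (γ • u) (γ • v))
    (hlaman : ∀ X : Finset V, 2 ≤ X.card →
      (((X ×ˢ X).filter (fun x : V × V => G.Adj x.1 x.2)).card : ℤ) ≤ 2 * (2 * (X.card : ℤ) - 3))
    (hfixv : ∀ r ∈ D.R, r ≠ 1 → ∀ v : V, r • v ≠ v)
    (hfixe : ∀ γ : Γ, γ ≠ 1 → (Finset.univ.filter (fun x : V × V => G.Adj x.1 x.2 ∧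
      ((γ • x.1 = x.1 ∧ γ • x.2 = x.2) ∨ (γ • x.1 = x.2 ∧ γ • x.2 = x.1)))).card = 2) :
    ∃ (S : Finset (V × V)) (x : V × V → E2) (ef : Unit → V × V) (df : Unit → E2),
      Frame G ρ S x Unit ef df ∧
      (∀ X : Finset V, 2 ≤ X.card → ∑ i ∈ S, kk Γ i.1 i.2 X + 3 ≤ 2 * X.card) ∧
      (Finset.univ.filter (fun x : V × V => G.Adj x.1 x.2)).card =
        2 * (Fintype.card Γ * S.card + 1) := by
  classical
  -- the half-turn
  have hcR : Nat.card D.R = 2 := by rw [D.card_R, hm]
  obtain ⟨c, hcR', hc1, hRc⟩ : ∃ c ∈ D.R, c ≠ 1 ∧ ∀ r ∈ D.R, r = 1 ∨ r = c := by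
    have h1 : Nontrivial D.R := by
      rw [← Finite.one_lt_card_iff_nontrivial, hcR]; norm_num
    obtain ⟨⟨c, hc⟩, hc1⟩ := exists_ne (1 : D.R)
    have hc1' : c ≠ 1 := fun h => hc1 (Subtype.ext h)
    refine ⟨c, hc, hc1', ?_⟩
    intro r hr
    by_contra hcon
    push Not at hcon
    have hF : Fintype D.R := Fintype.ofFinite _
    have h3 : ({⟨1, D.R.one_mem⟩, ⟨c, hc⟩, ⟨r, hr⟩} : Finset D.R).card ≤ Fintype.card D.R :=
      Finset.card_le_univ _
    rw [Nat.card_eq_fintype_card] at hcR
    rw [hcR, Finset.card_insert_of_notMem, Finset.card_pair] at h3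
    · omega
    · intro h; exact hcon.2 (congrArg Subtype.val h).symm
    · simp only [Finset.mem_insert, Finset.mem_singleton, Subtype.mk.injEq, not_or]
      exact ⟨hc1'.symm, hcon.1.symm⟩
  have hcc : c * c = 1 := by
    rcases hRc (c * c) (D.R.mul_mem hcR' hcR') with h | h
    · exact h
    · exact absurd (mul_eq_left.1 h) hc1
  have hcomm : ∀ g : Γ, g * c = c * g := by
    intro g
    rcases hRc _ (D.conj_mem hcR' g) with h | h
    · exfalso
      apply hc1
      have : g * c = g := by
        have := congrArg (· * g) h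
        simpa using this
      exact mul_eq_left.1 this
    · have := congrArg (· * g) h
      simpa using this
  -- the special edge
  have hcard := hfixe c hc1
  obtain ⟨⟨u0, w0⟩, he0⟩ : (Finset.univ.filter (fun x : V × V => G.Adj x.1 x.2 ∧
      ((c • x.1 = x.1 ∧ c • x.2 = x.2) ∨ (c • x.1 = x.2 ∧ c • x.2 = x.1)))).Nonempty := by
    rw [← Finset.card_pos, hcard]; norm_num
  simp only [Finset.mem_filter, Finset.mem_univ, true_and] at he0
  obtain ⟨hadj0, hor⟩ := he0
  have hcu : c • u0 = w0 := by
    rcases hor with h | h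
    · exact absurd h.1 (hfixv c hcR' hc1 u0)
    · exact h.1
  have hcw : c • w0 = u0 := by
    rw [← hcu, smul_smul, hcc, one_smul]
  have hne0 : u0 ≠ w0 := hadj0.ne
  -- all fixed pairs of `γ ≠ 1` are the special edge
  have hspec : ∀ γ : Γ, γ ≠ 1 → G.Adj u0 w0 →
      ((γ • u0 = u0 ∧ γ • w0 = w0) ∨ (γ • u0 = w0 ∧ γ • w0 = u0)) →
      ∀ x : V × V, G.Adj x.1 x.2 →
      ((γ • x.1 = x.1 ∧ γ • x.2 = x.2) ∨ (γ • x.1 = x.2 ∧ γ • x.2 = x.1)) →
      x = (u0, w0) ∨ x = (w0, u0) := by
    intro γ hγ _ hfix x hx hx2
    by_contra hcon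
    push Not at hcon
    have h2 := hfixe γ hγ
    have hsub : ({(u0, w0), (w0, u0), x} : Finset (V × V)) ⊆
        (Finset.univ.filter (fun x : V × V => G.Adj x.1 x.2 ∧
      ((γ • x.1 = x.1 ∧ γ • x.2 = x.2) ∨ (γ • x.1 = x.2 ∧ γ • x.2 = x.1)))) := by
      intro y hy
      simp only [Finset.mem_insert, Finset.mem_singleton] at hy
      simp only [Finset.mem_filter, Finset.mem_univ, true_and]
      rcases hy with rfl | rfl | rfl
      · exact ⟨hadj0, hfix⟩
      · refine ⟨hadj0.symm, ?_⟩
        rcases hfix with h | h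
        · exact Or.inl ⟨h.2, h.1⟩
        · exact Or.inr ⟨h.2, h.1⟩
      · exact ⟨hx, hx2⟩
    have h3 := Finset.card_le_card hsub
    rw [h2, Finset.card_insert_of_notMem, Finset.card_pair] at h3
    · omega
    · exact hcon.2.symm
    · simp only [Finset.mem_insert, Finset.mem_singleton, not_or, Prod.mk.injEq]
      exact ⟨fun h => hne0 h.1, hcon.1.symm⟩
  have hcspec := hspec c hc1 hadj0 (Or.inr ⟨hcu, hcw⟩)
  -- every element preserves the special edge
  have hpres : ∀ γ : Γ, (γ • u0 = u0 ∧ γ • w0 = w0) ∨ (γ • u0 = w0 ∧ γ • w0 = u0) := by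
    intro γ
    have h1 : c • (γ • u0) = γ • w0 := by rw [smul_smul, ← hcomm, mul_smul, hcu]
    have h2 : c • (γ • w0) = γ • u0 := by rw [smul_smul, ← hcomm, mul_smul, hcw]
    have h3 := hcspec (γ • u0, γ • w0) ((hadj γ _ _).1 hadj0) (Or.inr ⟨h1, h2⟩)
    rcases h3 with h | h
    · rw [Prod.mk.injEq] at h; exact Or.inl h
    · rw [Prod.mk.injEq] at h; exact Or.inr h
  -- the reflection fixing `u0`
  obtain ⟨s, hsR, hsu⟩ : ∃ s, s ∉ D.R ∧ s • u0 = u0 := by
    obtain ⟨s0, hs0⟩ : ∃ s0, s0 ∉ D.R := by
      by_contra hcon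
      push Not at hcon
      have hF : Fintype D.R := Fintype.ofFinite _
      have h1 : D.R = ⊤ := by
        rw [eq_top_iff]; intro x _; exact hcon x
      have h2 : Nat.card D.R = Nat.card Γ := by
        rw [h1]; exact Subgroup.card_top
      rw [hcR, Nat.card_eq_fintype_card, D.card_G, hm] at h2
      omega
    rcases hpres s0 with h | h
    · exact ⟨s0, hs0, h.1⟩
    · refine ⟨s0 * c, D.mul_not_mem' hcR' hs0, ?_⟩
      rw [mul_smul, hcu, h.2]
  have hss : s * s = 1 := D.refl_sq s hsR
  have hs1 : s ≠ 1 := D.refl_ne_one hsR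
  -- the stabilizer of `u0`
  have hstab : ∀ γ : Γ, γ • u0 = u0 → γ = 1 ∨ γ = s := by
    intro γ hγ
    by_cases hR : γ ∈ D.R
    · rcases hRc γ hR with h | h
      · exact Or.inl h
      · exfalso
        rw [h, hcu] at hγ
        exact hne0 hγ.symm
    · right
      have h1 := D.mul_mem s γ hsR hR
      rcases hRc _ h1 with h | h
      · have := congrArg (s * ·) h
        simpa [← mul_assoc, hss] using this
      · exfalso
        have h2 : (s * γ) • u0 = u0 := by rw [mul_smul, hγ, hsu]
        rw [h, hcu] at h2
        exact hne0 h2.symm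
  -- orbit representatives
  let P : Finset (V × V) := (Finset.univ.filter (fun x : V × V => G.Adj x.1 x.2)) \
    {(u0, w0), (w0, u0)}
  have hPmem : ∀ e : V × V, e ∈ P ↔ G.Adj e.1 e.2 ∧ e ≠ (u0, w0) ∧ e ≠ (w0, u0) := by
    intro e
    simp only [P, Finset.mem_sdiff, Finset.mem_filter, Finset.mem_univ, true_and,
      Finset.mem_insert, Finset.mem_singleton, not_or]
  obtain ⟨S, hSP, hScount⟩ := exists_orbit_reps Γ P
    (by
      intro e he
      rw [hPmem] at he ⊢
      refine ⟨he.1.symm, ?_, ?_⟩
      · intro h
        apply he.2.2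
        rw [Prod.mk.injEq] at h
        exact Prod.ext h.2 h.1
      · intro h
        apply he.2.1
        rw [Prod.mk.injEq] at h
        exact Prod.ext h.2 h.1)
    (by
      intro γ e he
      rw [hPmem] at he ⊢
      refine ⟨(hadj γ _ _).1 he.1, ?_, ?_⟩
      · intro h
        rw [Prod.mk.injEq] at h
        rcases hpres γ with h2 | h2
        · apply he.2.1
          exact Prod.ext (smul_left_cancel γ (h.1.trans h2.1.symm))
            (smul_left_cancel γ (h.2.trans h2.2.symm))
        · apply he.2.2
          exact Prod.ext (smul_left_cancel γ (h.1.trans h2.2.symm))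
            (smul_left_cancel γ (h.2.trans h2.1.symm))
      · intro h
        rw [Prod.mk.injEq] at h
        rcases hpres γ with h2 | h2
        · apply he.2.2
          exact Prod.ext (smul_left_cancel γ (h.1.trans h2.2.symm))
            (smul_left_cancel γ (h.2.trans h2.1.symm))
        · apply he.2.1
          exact Prod.ext (smul_left_cancel γ (h.1.trans h2.1.symm))
            (smul_left_cancel γ (h.2.trans h2.2.symm)))
    (fun e he => ((hPmem e).1 he).1.ne)
    (by
      intro γ hγ e he hfix
      rw [hPmem] at he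
      rcases hspec γ hγ hadj0 (hpres γ) e he.1 hfix with h | h
      · exact he.2.1 h
      · exact he.2.2 h)
  -- counting all adjacent pairs inside `X`
  have hcountX : ∀ X : Finset V,
      ((X ×ˢ X).filter (fun x : V × V => G.Adj x.1 x.2)).card
        = 2 * ∑ e ∈ S, kk Γ e.1 e.2 X + (if u0 ∈ X ∧ w0 ∈ X then 2 else 0) := by
    intro X
    rw [← hScount X]
    have h1 : ((X ×ˢ X).filter (fun x : V × V => G.Adj x.1 x.2))
        = (P.filter (fun e => e.1 ∈ X ∧ e.2 ∈ X)) ∪
          (({(u0, w0), (w0, u0)} : Finset (V × V)).filter (fun e => e.1 ∈ X ∧ e.2 ∈ X)) := by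
      ext e
      simp only [Finset.mem_filter, Finset.mem_product, Finset.mem_union, hPmem,
        Finset.mem_insert, Finset.mem_singleton]
      constructor
      · rintro ⟨hX, ha⟩
        by_cases h1 : e = (u0, w0) ∨ e = (w0, u0)
        · exact Or.inr ⟨h1, hX⟩
        · push Not at h1
          exact Or.inl ⟨⟨ha, h1⟩, hX⟩
      · rintro (⟨⟨ha, _⟩, hX⟩ | ⟨h1, hX⟩)
        · exact ⟨hX, ha⟩
        · refine ⟨hX, ?_⟩
          rcases h1 with rfl | rfl
          · exact hadj0
          · exact hadj0.symm
    rw [h1, Finset.card_union_of_disjoint]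
    · congr 1
      by_cases h2 : u0 ∈ X ∧ w0 ∈ X
      · rw [if_pos h2, Finset.filter_true_of_mem, Finset.card_pair]
        · intro h; rw [Prod.mk.injEq] at h; exact hne0 h.1
        · intro e he
          simp only [Finset.mem_insert, Finset.mem_singleton] at he
          rcases he with rfl | rfl
          · exact h2
          · exact ⟨h2.2, h2.1⟩
      · rw [if_neg h2, Finset.filter_false_of_mem, Finset.card_empty]
        intro e he
        simp only [Finset.mem_insert, Finset.mem_singleton] at he
        rcases he with rfl | rfl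
        · exact h2
        · exact fun h => h2 ⟨h.2, h.1⟩
    · rw [Finset.disjoint_left]
      intro e he he'
      simp only [Finset.mem_filter, hPmem, Finset.mem_insert, Finset.mem_singleton] at he he'
      rcases he'.1 with h | h
      · exact he.1.2.1 h
      · exact he.1.2.2 h
  have hL : ∀ X : Finset V, 2 ≤ X.card → ∑ i ∈ S, kk Γ i.1 i.2 X + 3 ≤ 2 * X.card := by
    intro X hX
    have h1 := hlaman X hX
    rw [hcountX X] at h1
    push_cast at h1
    have h2 : (0 : ℤ) ≤ (if u0 ∈ X ∧ w0 ∈ X then (2 : ℤ) else 0) := by split_ifs <;> norm_num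
    have h3 : (2 : ℤ) * ((∑ i ∈ S, kk Γ i.1 i.2 X : ℕ) : ℤ) ≤ 2 * (2 * (X.card : ℤ) - 3) := by
      push_cast
      linarith
    omega
  have hL' : ∀ X : Finset V, u0 ∈ X → w0 ∈ X → ∑ i ∈ S, kk Γ i.1 i.2 X + 4 ≤ 2 * X.card := by
    intro X hu hw
    have hX : 2 ≤ X.card := by
      have : ({u0, w0} : Finset V) ⊆ X := by
        intro z hz
        simp only [Finset.mem_insert, Finset.mem_singleton] at hz
        rcases hz with rfl | rfl
        · exact hu
        · exact hw
      have h := Finset.card_le_card this
      rw [Finset.card_pair hne0] at h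
      exact h
    have h1 := hlaman X hX
    rw [hcountX X, if_pos ⟨hu, hw⟩] at h1
    push_cast at h1
    have h3 : (2 : ℤ) * ((∑ i ∈ S, kk Γ i.1 i.2 X : ℕ) : ℤ) + 2 ≤ 2 * (2 * (X.card : ℤ) - 3) := by
      push_cast
      linarith
    omega
  -- singletons
  have hL1 : ∀ X : Finset V, X.card = 1 → ∑ i ∈ S, kk Γ i.1 i.2 X = 0 := by
    intro X hX
    apply Finset.sum_eq_zero
    intro e he
    by_contra hpos
    obtain ⟨γ, h1, h2⟩ := kk_pos (Nat.pos_of_ne_zero hpos)
    have h3 := Finset.card_le_one.1 hX.le _ h1 _ h2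
    exact ((hPmem e).1 (hSP he)).1.ne (smul_left_cancel γ h3)
  -- nonempty sets
  have hL2 : ∀ X : Finset V, X.Nonempty → ∑ i ∈ S, kk Γ i.1 i.2 X + 2 ≤ 2 * X.card := by
    intro X hX
    have h1 := Finset.card_pos.2 hX
    rcases Nat.lt_or_ge 1 X.card with h2 | h2
    · have := hL X h2; omega
    · have h3 : X.card = 1 := by omega
      rw [hL1 X h3, h3]
  -- the auxiliary system
  let S' : Finset (Option (V × V)) := Finset.insertNone S
  let a' : Option (V × V) → Option V := fun o => match o with
    | none => some u0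
    | some e => some e.1
  let b' : Option (V × V) → Option V := fun o => match o with
    | none => none
    | some e => some e.2
  have hGood : Good D (Finset.univ : Finset (Option V)) := by
    refine ⟨fun _ _ _ _ => Finset.mem_univ _, ?_, ?_⟩
    · intro y _ r hr hr1 hy
      cases y with
      | none => intro γ; simp
      | some v =>
        exfalso
        rw [Option.smul_some, Option.some.injEq] at hy
        exact hfixv r hr hr1 v hy
    · intro y _ y' _ hy hy'
      cases y with
      | none =>
        cases y' with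
        | none => rfl
        | some v =>
          exfalso
          have := hy' c
          rw [Option.smul_some, Option.some.injEq] at this
          exact hfixv c hcR' hc1 v this
      | some v =>
        exfalso
        have := hy c
        rw [Option.smul_some, Option.some.injEq] at this
        exact hfixv c hcR' hc1 v this
  have hbb : ∀ X : Finset (Option V), bb (Γ := Γ) S' a' b' X
      = 2 * (X.card : ℤ) - ∑ i ∈ S, (kk Γ i.1 i.2 (Finset.eraseNone X) : ℤ)
        - (kk Γ (some u0) (none : Option V) X : ℤ) := by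
    intro X
    unfold bb
    rw [Finset.sum_insertNone]
    simp only [a', b', kk_some]
    ring
  have hcardX : ∀ X : Finset (Option V),
      X.card = (Finset.eraseNone X).card + (if none ∈ X then 1 else 0) := by
    intro X
    by_cases h : none ∈ X
    · rw [if_pos h, Finset.card_eraseNone_of_mem h]
      have := Finset.card_pos.2 ⟨none, h⟩
      omega
    · rw [if_neg h, Finset.card_eraseNone_of_not_mem h, add_zero]
  have hkn : ∀ X : Finset (Option V), none ∉ X → kk Γ (some u0) (none : Option V) X = 0 := by
    intro X h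
    by_contra hpos
    obtain ⟨γ, _, h2⟩ := kk_pos (Nat.pos_of_ne_zero hpos)
    rw [Option.smul_none] at h2
    exact h h2
  have hkc : ∀ X : Finset (Option V), kk Γ (some u0) (none : Option V) X ≤
      2 * ((if u0 ∈ Finset.eraseNone X then 1 else 0)
        + (if w0 ∈ Finset.eraseNone X then 1 else 0)) := by
    intro X
    unfold kk
    have h1 : (Finset.univ.filter (fun γ : Γ => γ • (some u0 : Option V) ∈ X ∧
        γ • (none : Option V) ∈ X)) ⊆
        (if u0 ∈ Finset.eraseNone X then {1, s} else ∅) ∪
        (if w0 ∈ Finset.eraseNone X then {c, c * s} else ∅) := by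
      intro γ hγ
      simp only [Finset.mem_filter, Finset.mem_univ, true_and, Option.smul_some] at hγ
      rw [Finset.mem_union]
      rcases hpres γ with h | h
      · left
        rw [h.1] at hγ
        rw [if_pos (Finset.mem_eraseNone.2 hγ.1)]
        rcases hstab γ h.1 with h | h
        · rw [h]; simp
        · rw [h]; simp
      · right
        rw [h.1] at hγ
        rw [if_pos (Finset.mem_eraseNone.2 hγ.1)]
        have h2 : (c * γ) • u0 = u0 := by rw [mul_smul, h.1, hcw]
        have h3 : γ = c * (c * γ) := by rw [← mul_assoc, hcc, one_mul]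
        rcases hstab _ h2 with h | h
        · rw [h3, h]; simp
        · rw [h3, h]; simp
    refine (Finset.card_le_card h1).trans ((Finset.card_union_le _ _).trans ?_)
    rw [mul_add]
    refine Nat.add_le_add ?_ ?_
    · split_ifs
      · exact Finset.card_le_two
      · simp
    · split_ifs
      · exact Finset.card_le_two
      · simp
  have hStar : StarF D (Finset.univ : Finset (Option V)) (bb (Γ := Γ) S' a' b') := by
    constructor
    · intro X _ hX
      rw [hbb, hcardX]
      by_cases hn : none ∈ X
      · rw [if_pos hn]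
        have h1 := hkc X
        by_cases hu : u0 ∈ Finset.eraseNone X <;> by_cases hw : w0 ∈ Finset.eraseNone X
        · rw [if_pos hu, if_pos hw] at h1
          have h2 := hL' _ hu hw
          have h3 : ((∑ i ∈ S, kk Γ i.1 i.2 (Finset.eraseNone X) : ℕ) : ℤ) + 4
            ≤ 2 * (Finset.eraseNone X).card := by exact_mod_cast h2
          push_cast at h3 ⊢
          omega
        · rw [if_pos hu, if_neg hw] at h1
          have h2 := hL2 _ ⟨_, hu⟩
          have h3 : ((∑ i ∈ S, kk Γ i.1 i.2 (Finset.eraseNone X) : ℕ) : ℤ) + 2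
            ≤ 2 * (Finset.eraseNone X).card := by exact_mod_cast h2
          push_cast at h3 ⊢
          omega
        · rw [if_neg hu, if_pos hw] at h1
          have h2 := hL2 _ ⟨_, hw⟩
          have h3 : ((∑ i ∈ S, kk Γ i.1 i.2 (Finset.eraseNone X) : ℕ) : ℤ) + 2
            ≤ 2 * (Finset.eraseNone X).card := by exact_mod_cast h2
          push_cast at h3 ⊢
          omega
        · rw [if_neg hu, if_neg hw] at h1
          rcases (Finset.eraseNone X).eq_empty_or_nonempty with he | hne
          · rw [he] at *
            simp only [kk_empty]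
            simp
            omega
          · have h2 := hL2 _ hne
            have h3 : ((∑ i ∈ S, kk Γ i.1 i.2 (Finset.eraseNone X) : ℕ) : ℤ) + 2
              ≤ 2 * (Finset.eraseNone X).card := by exact_mod_cast h2
            push_cast at h3 ⊢
            omega
      · rw [if_neg hn, hkn X hn]
        have hne : (Finset.eraseNone X).Nonempty := by
          rw [← Finset.card_pos, Finset.card_eraseNone_of_not_mem hn]
          exact Finset.card_pos.2 hX
        have h2 := hL2 _ hne
        have h3 : ((∑ i ∈ S, kk Γ i.1 i.2 (Finset.eraseNone X) : ℕ) : ℤ) + 2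
          ≤ 2 * (Finset.eraseNone X).card := by exact_mod_cast h2
        push_cast at h3 ⊢
        omega
    · intro X _ hX hinv hnf
      have hn : none ∉ X := fun h => hnf none h (fun γ => by simp)
      rw [hbb, hcardX, if_neg hn, hkn X hn]
      have h2le : 2 ≤ (Finset.eraseNone X).card := by
        obtain ⟨y, hy⟩ := hX
        cases y with
        | none => exact absurd hy hn
        | some v =>
          have h1 := hinv c hcR' _ hy
          rw [Option.smul_some] at h1
          have hsub : ({v, c • v} : Finset V) ⊆ Finset.eraseNone X := by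
            intro z hz
            simp only [Finset.mem_insert, Finset.mem_singleton] at hz
            rw [Finset.mem_eraseNone]
            rcases hz with rfl | rfl
            · exact hy
            · exact h1
          have h3 := Finset.card_le_card hsub
          rwa [Finset.card_pair (hfixv c hcR' hc1 v).symm] at h3
      have h2 := hL _ h2le
      have h3 : ((∑ i ∈ S, kk Γ i.1 i.2 (Finset.eraseNone X) : ℕ) : ℤ) + 3
        ≤ 2 * (Finset.eraseNone X).card := by exact_mod_cast h2
      push_cast at h3 ⊢
      omega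
  obtain ⟨x', hx'⟩ := T1 D hGood S' a' b'
    (fun _ _ => ⟨Finset.mem_univ _, Finset.mem_univ _⟩) hStar
  -- the direction
  set z : E2 := x' none with hz
  set d : E2 := z + ρ s z with hd
  have hρcc : ∀ v : E2, ρ c v = -v := fun v => D.half hm c hcR' hc1 v
  have hρss : ∀ v : E2, ρ s (ρ s v) = v := by
    intro v
    rw [← Module.End.mul_apply, ← map_mul, hss, map_one]
    rfl
  have hsd : ρ s d = d := by
    rw [hd, map_add, hρss, add_comm]
  -- incidences for a constant coefficient
  have hinc1 : ∀ κ : ℝ, inc ρ u0 u0 z (fun _ => κ) = κ • d := by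
    intro κ
    rw [inc_stab ρ hs1 hsu hstab]
    rw [hd, smul_add]
  have hinc2 : ∀ κ : ℝ, inc ρ u0 w0 z (fun _ => κ) = -(κ • d) := by
    intro κ
    have h1 := inc_translate ρ u0 u0 c z (fun _ : Γ => κ)
    rw [hcu] at h1
    have h2 := congrArg (ρ c) h1
    rw [← Module.End.mul_apply, ← map_mul, mul_inv_cancel, map_one, hinc1] at h2
    rw [hρcc] at h2
    exact h2.symm
  have hinc3 : ∀ κ : ℝ, ∀ v : V, v ≠ u0 → v ≠ w0 → inc ρ u0 v z (fun _ => κ) = 0 := by
    intro κ v h1 h2
    apply inc_eq_zero
    intro γ h
    rcases hpres γ with h3 | h3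
    · exact h1 (h.symm.trans h3.1)
    · exact h2 (h.symm.trans h3.1)
  have hinc4 : ∀ κ : ℝ, inc ρ (none : Option V) none z (fun _ : Γ => κ) = 0 := by
    intro κ
    have h1 := inc_translate ρ (none : Option V) none c z (fun _ : Γ => κ)
    rw [Option.smul_none] at h1
    have h2 := congrArg (ρ c) h1
    rw [← Module.End.mul_apply, ← map_mul, mul_inv_cancel, map_one, hρcc] at h2
    have h3 : ∀ v : E2, -v = v → v = 0 := by
      intro v hv
      funext k
      have := congrFun hv k
      simp only [Pi.neg_apply] at this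
      simp only [Pi.zero_apply]
      linarith
    exact h3 _ h2
  -- nonvanishing of `d`
  have hd0 : d ≠ 0 := by
    intro h0
    let ω : Option (V × V) → Γ → ℝ := fun o γ =>
      if o = none ∧ (γ = 1 ∨ γ = s) then 1 else 0
    have hsupp : ∀ e : V × V, ω (some e) = 0 := by
      intro e; funext γ; simp [ω]
    have hone : ω none 1 = 1 := by simp [ω]
    have hload : load ρ S' a' b' x' ω + 0 = 0 := by
      rw [add_zero]
      ext1 y
      rw [load_apply, Finset.sum_insertNone, Finsupp.zero_apply]
      have h1 : ∑ e ∈ S, (inc ρ (a' (some e)) y (x' (some e)) (ω (some e))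
          - inc ρ (b' (some e)) y (x' (some e)) (ω (some e))) = 0 := by
        refine Finset.sum_eq_zero fun e _ => ?_
        rw [hsupp, inc_zero, inc_zero, sub_zero]
      rw [h1, add_zero]
      show inc ρ (some u0) y z (ω none) - inc ρ (none : Option V) y z (ω none) = 0
      have hsum : ∀ f : Γ → E2, (∀ γ, γ ≠ 1 → γ ≠ s → f γ = 0) → f 1 + f s = 0 →
          ∑ γ, f γ = 0 := by
        intro f hf1 hf2
        rw [← Finset.sum_subset (Finset.subset_univ ({1, s} : Finset Γ)),
          Finset.sum_pair hs1.symm, hf2]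
        intro γ _ hγ
        simp only [Finset.mem_insert, Finset.mem_singleton, not_or] at hγ
        exact hf1 γ hγ.1 hγ.2
      have hω0 : ∀ γ, γ ≠ 1 → γ ≠ s → ω none γ = 0 := by
        intro γ h1 h2
        simp [ω, h1, h2]
      have hωs : ω none s = 1 := by simp [ω]
      have e1 : inc ρ (some u0) y z (ω none) = 0 := by
        unfold inc
        apply hsum
        · intro γ h1 h2
          rw [hω0 γ h1 h2]; simp
        · rw [one_smul, Option.smul_some, hsu, hone, hωs]
          by_cases hy : some u0 = y
          · rw [if_pos hy, if_pos hy, one_smul, one_smul, map_one]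
            exact h0
          · rw [if_neg hy, if_neg hy, add_zero]
      have e2 : inc ρ (none : Option V) y z (ω none) = 0 := by
        unfold inc
        apply hsum
        · intro γ h1 h2
          rw [hω0 γ h1 h2]; simp
        · rw [Option.smul_none, Option.smul_none, hone, hωs]
          by_cases hy : none = y
          · rw [if_pos hy, if_pos hy, one_smul, one_smul, map_one]
            exact h0
          · rw [if_neg hy, if_neg hy, add_zero]
      rw [e1, e2, sub_zero]
    have := hx' ω 0 rfl hload none (Finset.none_mem_insertNone)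
    have h2 := congrFun this 1
    rw [hone] at h2
    exact one_ne_zero h2
  refine ⟨S, fun e => x' (some e), fun _ => (u0, w0), fun _ => d, ⟨?_, ?_, ?_, ?_⟩, hL, ?_⟩
  · intro e he γ
    exact (hadj γ _ _).1 ((hPmem e).1 (hSP he)).1
  · intro _; exact hadj0
  · -- par
    intro q hq _
    obtain ⟨d', hd'0, hd'⟩ := D.dneg s hsR
    have hnp := D.np_pm hd0 hd'0 hsd hd'
    have hqs : ρ s (q u0) = q u0 := by rw [← hq, hsu]
    obtain ⟨α, β, hαβ⟩ := hnp.span (q u0)
    have h1 : β • d' = 0 := by
      have h2 := hqs
      rw [hαβ, map_add, map_smul, map_smul, hsd, hd'] at h2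
      have h3 : β • d' = -(β • d') := by
        have := add_left_cancel h2
        rw [smul_neg] at this
        exact this.symm
      funext k
      have := congrFun h3 k
      simp only [Pi.neg_apply] at this
      simp only [Pi.zero_apply]
      linarith
    refine ⟨2 * α, ?_⟩
    show q u0 - q w0 = (2 * α) • d
    rw [← hcu, hq, hρcc, hαβ, h1]
    module
  · -- ind
    intro ω cf hsum
    let κ : ℝ := cf ()
    let ω' : Option (V × V) → Γ → ℝ := fun o => match o with
      | none => fun _ => κ
      | some e => ω e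
    have hload : load ρ S' a' b' x' ω' + 0 = 0 := by
      rw [add_zero]
      ext1 y
      rw [load_apply, Finset.sum_insertNone, Finsupp.zero_apply]
      show inc ρ (some u0) y z (fun _ => κ) - inc ρ (none : Option V) y z (fun _ => κ)
        + ∑ e ∈ S, (inc ρ (some e.1) y (x' (some e)) (ω e)
          - inc ρ (some e.2) y (x' (some e)) (ω e)) = 0
      cases y with
      | none =>
        rw [inc_some_none, hinc4, sub_zero, zero_add]
        refine Finset.sum_eq_zero fun e _ => ?_
        rw [inc_some_none, inc_some_none, sub_zero]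
      | some v =>
        rw [inc_some, inc_none_some, sub_zero]
        have h1 := DFunLike.congr_fun hsum v
        rw [Finsupp.add_apply, load_apply, Finsupp.zero_apply] at h1
        simp only [Finset.univ_unique, Finset.sum_singleton] at h1
        rw [Finsupp.sub_apply, Finsupp.single_apply, Finsupp.single_apply] at h1
        have h2 : ∑ e ∈ S, (inc ρ (some e.1) (some v) (x' (some e)) (ω e)
            - inc ρ (some e.2) (some v) (x' (some e)) (ω e))
            = ∑ e ∈ S, (inc ρ e.1 v (x' (some e)) (ω e) - inc ρ e.2 v (x' (some e)) (ω e)) :=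
          Finset.sum_congr rfl fun e _ => by rw [inc_some, inc_some]
        rw [h2, add_comm]
        have h3 : inc ρ u0 v z (fun _ => κ)
            = (if u0 = v then cf default • d else 0) - (if w0 = v then cf default • d else 0) := by
          by_cases hv1 : u0 = v
          · subst hv1
            rw [hinc1, if_pos rfl, if_neg hne0.symm, sub_zero]
          · by_cases hv2 : w0 = v
            · subst hv2
              rw [hinc2, if_neg hv1, if_pos rfl, zero_sub]
            · rw [hinc3 κ v (Ne.symm hv1) (Ne.symm hv2), if_neg hv1, if_neg hv2, sub_zero]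
        rw [h3]
        exact h1
    have hall := hx' ω' 0 rfl hload
    refine ⟨?_, ?_⟩
    · intro e he
      exact hall (some e) (Finset.some_mem_insertNone.2 he)
    · funext j
      have h1 := congrFun (hall none Finset.none_mem_insertNone) 1
      exact h1
  · -- total count
    have h1 := hcountX Finset.univ
    have h2 : ((Finset.univ : Finset V) ×ˢ (Finset.univ : Finset V)) = Finset.univ := by
      simp
    rw [h2, if_pos ⟨Finset.mem_univ _, Finset.mem_univ _⟩] at h1
    rw [h1]
    have h3 : ∑ e ∈ S, kk Γ e.1 e.2 Finset.univ = Fintype.card Γ * S.card := by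
      rw [Finset.sum_const_nat (m := Fintype.card Γ), mul_comm]
      intro e _
      unfold kk
      simp
    rw [h3]; ring

end Pool.Agent.SymLaman
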