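import Pool.Agent.Lib_MP_d5472a_co.Frame
import Pool.Agent.Lib_MP_d5472a_co.PartC

set_option autoImplicit false

/-! The frame for the group of order 6. -/

namespace Pool.Agent.SymLaman
open scoped Pointwise

/-- Cramer's rule. -/
theorem NP.det_ne {x y : E2} (h : NP x y) : x 0 * y 1 - x 1 * y 0 ≠ 0 := by
  intro hdet
  have h1 : y 1 = 0 ∧ -(x 1) = 0 := by
    apply h
    ext i
    fin_cases i
    · simp; linarith
    · simp; ring
  have h2 : y 0 = 0 ∧ -(x 0) = 0 := by
    apply h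
    ext i
    fin_cases i
    · simp; ring
    · simp; linarith
  have h3 := h 1 0 (by
    ext i
    fin_cases i
    · simp; linarith [h2.2]
    · simp; linarith [h1.2])
  exact one_ne_zero h3.1

theorem NP.span3 {x y : E2} (h : NP x y) (z : E2) : ∃ α β : ℝ, z = α • x + β • y := by
  have hd := h.det_ne
  refine ⟨(z 0 * y 1 - z 1 * y 0) / (x 0 * y 1 - x 1 * y 0),
    (x 0 * z 1 - x 1 * z 0) / (x 0 * y 1 - x 1 * y 0), ?_⟩
  ext i
  fin_cases i
  · simp only [Fin.zero_eta, Pi.add_apply, Pi.smul_apply, smul_eq_mul]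
    rw [div_mul_eq_mul_div, div_mul_eq_mul_div, ← add_div, eq_div_iff hd]
    ring
  · simp only [Fin.mk_one, Pi.add_apply, Pi.smul_apply, smul_eq_mul]
    rw [div_mul_eq_mul_div, div_mul_eq_mul_div, ← add_div, eq_div_iff hd]
    ring

/-- The statement of the main technical theorem for the group of order six. -/
def T1fStatement : Prop :=
  ∀ {Γ : Type} [Group Γ] [Fintype Γ] {Y : Type} [MulAction Γ Y] [DecidableEq Y]
    {ι : Type} [DecidableEq ι] {ρ : Γ →* (E2 →ₗ[ℝ] E2)} (D : Dih Γ ρ) (_hm : D.m = 3)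
    {A : Finset Y} (_hA : Good D A) (_hnf : ∀ y ∈ A, ¬ Fx Γ y)
    (S : Finset ι) (a b : ι → Y) (_hab : ∀ i ∈ S, a i ∈ A ∧ b i ∈ A)
    (u w : Y) (σ : Γ) (d : E2) (_hFE : FE D u w σ d) (_hu : u ∈ A) (_hw : w ∈ A)
    (_hβ1 : ∀ X ⊆ A, X.Nonempty → 4 ≤ BB (Γ := Γ) S a b u w X)
    (_hβ2 : ∀ X ⊆ A, X.Nonempty → InvH D.R X → 6 ≤ BB (Γ := Γ) S a b u w X),
    ∃ x : ι → E2, ∀ (ω : ι → Γ → ℝ) (ωf : Γ → ℝ),
      load ρ S a b x ω + load1 ρ u w d ωf = 0 →
      (∀ i ∈ S, ω i = 0) ∧ ∀ γ : Γ, ωf γ + ωf (γ * σ) = 0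

section

variable {Γ : Type} [Group Γ] [Fintype Γ] {V : Type} [Fintype V] [DecidableEq V]
  [MulAction Γ V] {ρ : Γ →* (E2 →ₗ[ℝ] E2)}

theorem Dih.exists_refl (D : Dih Γ ρ) : ∃ s : Γ, s ∉ D.R := by
  by_contra h
  push Not at h
  have h1 : D.R = ⊤ := (Subgroup.eq_top_iff' _).2 h
  have h2 := D.card_R
  rw [h1, D.card_top] at h2
  rcases D.hm with h3 | h3 <;> omega

theorem Dih.exists_rot (D : Dih Γ ρ) : ∃ r ∈ D.R, r ≠ 1 := by
  by_contra h
  push Not at h
  have h1 : D.R = ⊥ := by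
    rw [eq_bot_iff]
    intro r hr
    exact Subgroup.mem_bot.2 (h r hr)
  have h2 := D.card_R
  rw [h1, Subgroup.card_bot] at h2
  rcases D.hm with h3 | h3 <;> omega

/-- all reflections are conjugate under the rotations in the group of order six -/
theorem Dih.conj_refl (D : Dih Γ ρ) (hm : D.m = 3) {s g : Γ} (hs : s ∉ D.R) (hg : g ∉ D.R) :
    ∃ r ∈ D.R, g = r * s * r⁻¹ := by
  have hr' : g * s ∈ D.R := D.mul_mem g s hg hs
  set r' := g * s with hr'd
  have hss : s * s = 1 := D.refl_sq s hs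
  have hg' : g = r' * s := by rw [hr'd, mul_assoc, hss, mul_one]
  have h3 : r' ^ 3 = 1 := by
    have h1 : (⟨r', hr'⟩ : D.R) ^ (Nat.card D.R) = 1 := pow_card_eq_one'
    rw [D.card_R, hm] at h1
    have := congrArg (Subtype.val) h1
    simpa using this
  have hr2 : r' ^ 2 ∈ D.R := D.R.pow_mem hr' 2
  refine ⟨r' ^ 2, hr2, ?_⟩
  have hsr : s * r' ^ 2 ∉ D.R := D.mul_not_mem' hr2 hs
  have h4 := D.refl_sq _ hsr
  -- s * r'^2 * (s * r'^2) = 1
  have h5 : s * (r' ^ 2)⁻¹ = r' ^ 2 * s := by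
    rw [eq_comm, ← mul_inv_eq_one, mul_inv_rev, inv_inv]
    have h6 : r' ^ 2 * (s * r' ^ 2) * s = 1 := by
      have h7 : s * (r' ^ 2 * (s * r' ^ 2)) = 1 := by
        rw [← mul_assoc]; exact h4
      have h8 : r' ^ 2 * (s * r' ^ 2) = s := by
        have := eq_inv_of_mul_eq_one_right h7
        rw [this, D.inv_refl hs]
      rw [h8, hss]
    calc r' ^ 2 * s * (r' ^ 2 * s⁻¹) = r' ^ 2 * (s * r' ^ 2) * s⁻¹ := by group
      _ = r' ^ 2 * (s * r' ^ 2) * s := by rw [D.inv_refl hs]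
      _ = 1 := h6
  rw [mul_assoc, h5, hg', ← mul_assoc, ← pow_add]
  have : r' ^ (2 + 2) = r' := by
    calc r' ^ (2 + 2) = r' ^ 3 * r' := by rw [← pow_succ]
      _ = r' := by rw [h3, one_mul]
  rw [this]

end

/-- PART F3: the frame for the group of order 6 (three special edges). -/
theorem exists_frame_three_of (T1f : T1fStatement)
    {Γ : Type} [Group Γ] [Fintype Γ] {V : Type} [Fintype V]
    [DecidableEq V]
    [MulAction Γ V] (G : SimpleGraph V) [DecidableRel G.Adj]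
    {ρ : Γ →* (E2 →ₗ[ℝ] E2)} (D : Dih Γ ρ) (hm : D.m = 3)
    (hadj : ∀ (γ : Γ) (u v : V), G.Adj u v ↔ G.Adj (γ • u) (γ • v))
    (hlaman : ∀ X : Finset V, 2 ≤ X.card →
      (((X ×ˢ X).filter (fun x : V × V => G.Adj x.1 x.2)).card : ℤ) ≤ 2 * (2 * (X.card : ℤ) - 3))
    (hfixv : ∀ r ∈ D.R, r ≠ 1 → ∀ v : V, r • v ≠ v)
    (hfixr : ∀ γ ∈ D.R, γ ≠ 1 → (Finset.univ.filter (fun x : V × V => G.Adj x.1 x.2 ∧
      ((γ • x.1 = x.1 ∧ γ • x.2 = x.2) ∨ (γ • x.1 = x.2 ∧ γ • x.2 = x.1)))).card = 0)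
    (hfixe : ∀ γ : Γ, γ ∉ D.R → (Finset.univ.filter (fun x : V × V => G.Adj x.1 x.2 ∧
      ((γ • x.1 = x.1 ∧ γ • x.2 = x.2) ∨ (γ • x.1 = x.2 ∧ γ • x.2 = x.1)))).card = 2) :
    ∃ (S : Finset (V × V)) (x : V × V → E2) (Jf : Type) (_ : Fintype Jf) (ef : Jf → V × V)
      (df : Jf → E2),
      Frame G ρ S x Jf ef df ∧
      (∀ X : Finset V, 2 ≤ X.card → ∑ i ∈ S, kk Γ i.1 i.2 X + 3 ≤ 2 * X.card) ∧
      (Finset.univ.filter (fun x : V × V => G.Adj x.1 x.2)).card =
        2 * (Fintype.card Γ * S.card + Fintype.card Jf) := by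
  classical
  obtain ⟨s, hs⟩ := D.exists_refl
  have hss : s * s = 1 := D.refl_sq s hs
  have hssv : ∀ v : V, s • s • v = v := fun v => by rw [smul_smul, hss, one_smul]
  -- no rotation fixes an edge
  have hnor : ∀ γ ∈ D.R, γ ≠ 1 → ∀ a b : V, G.Adj a b →
      ¬ ((γ • a = a ∧ γ • b = b) ∨ (γ • a = b ∧ γ • b = a)) := by
    intro γ hγ h1 a b hab h
    have h0 := Finset.card_eq_zero.1 (hfixr γ hγ h1)
    have : (a, b) ∈ (∅ : Finset (V × V)) := by
      rw [← h0, Finset.mem_filter]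
      exact ⟨Finset.mem_univ _, hab, h⟩
    exact absurd this (Finset.notMem_empty _)
  -- the edge fixed by s
  have hcard2 := hfixe s hs
  obtain ⟨e0, he0⟩ : ((Finset.univ.filter (fun x : V × V => G.Adj x.1 x.2 ∧
      ((s • x.1 = x.1 ∧ s • x.2 = x.2) ∨ (s • x.1 = x.2 ∧ s • x.2 = x.1))))).Nonempty := by
    rw [← Finset.card_pos, hcard2]; norm_num
  obtain ⟨u, w⟩ := e0
  rw [Finset.mem_filter] at he0
  obtain ⟨-, huw, hfix⟩ := he0
  simp only at huw hfix
  have hne : u ≠ w := huw.ne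
  have huniq : ∀ a b : V, G.Adj a b →
      ((s • a = a ∧ s • b = b) ∨ (s • a = b ∧ s • b = a)) →
      (a, b) = (u, w) ∨ (a, b) = (w, u) := by
    intro a b hab h
    have hsub : ({(u, w), (w, u)} : Finset (V × V)) ⊆
        (Finset.univ.filter (fun x : V × V => G.Adj x.1 x.2 ∧
      ((s • x.1 = x.1 ∧ s • x.2 = x.2) ∨ (s • x.1 = x.2 ∧ s • x.2 = x.1)))) := by
      intro x hx
      rw [Finset.mem_insert, Finset.mem_singleton] at hx
      rw [Finset.mem_filter]
      rcases hx with rfl | rfl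
      · exact ⟨Finset.mem_univ _, huw, hfix⟩
      · refine ⟨Finset.mem_univ _, huw.symm, ?_⟩
        rcases hfix with h | h
        · exact Or.inl ⟨h.2, h.1⟩
        · exact Or.inr ⟨h.2, h.1⟩
    have hc : ({(u, w), (w, u)} : Finset (V × V)).card = 2 := by
      rw [Finset.card_pair]
      intro h
      exact hne (Prod.mk.inj h).1
    have heq := Finset.eq_of_subset_of_card_le hsub (by rw [hcard2, hc])
    have hmem : (a, b) ∈ ({(u, w), (w, u)} : Finset (V × V)) := by
      rw [heq, Finset.mem_filter]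
      exact ⟨Finset.mem_univ _, hab, h⟩
    rw [Finset.mem_insert, Finset.mem_singleton] at hmem
    exact hmem
  -- the direction
  obtain ⟨d, hd0, hdt⟩ : ∃ d : E2, d ≠ 0 ∧ ((s • u = w ∧ s • w = u ∧ ρ s d = -d) ∨
      (s • u = u ∧ s • w = w ∧ ρ s d = d)) := by
    rcases hfix with h | h
    · obtain ⟨d, h1, h2⟩ := D.dpos s hs
      exact ⟨d, h1, Or.inr ⟨h.1, h.2, h2⟩⟩
    · obtain ⟨d, h1, h2⟩ := D.dneg s hs
      exact ⟨d, h1, Or.inl ⟨h.1, h.2, h2⟩⟩
  have hFE : FE D u w s d := ⟨hs, hne, hd0, hdt⟩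
  -- the special pairs
  set f : Γ → V × V := fun γ => if γ ∈ D.R then (γ • u, γ • w) else ((γ * s) • w, (γ * s) • u)
    with hf
  have hRinj : ∀ r ∈ D.R, ∀ r' ∈ D.R, ∀ v : V, r • v = r' • v → r = r' := by
    intro r hr r' hr' v h
    by_contra hne'
    have h1 : (r'⁻¹ * r) • v = v := by rw [mul_smul, h, inv_smul_smul]
    refine hfixv (r'⁻¹ * r) (D.R.mul_mem (D.R.inv_mem hr') hr) ?_ v h1
    intro h2
    apply hne'
    rw [inv_mul_eq_one] at h2
    exact h2.symm
  have hRcross : ∀ r ∈ D.R, ∀ r' ∈ D.R, r • u = r' • w → r • w = r' • u → False := by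
    intro r hr r' hr' h1 h2
    have h3 : (r'⁻¹ * r) • u = w := by rw [mul_smul, h1, inv_smul_smul]
    have h4 : (r'⁻¹ * r) • w = u := by rw [mul_smul, h2, inv_smul_smul]
    have hq1 : r'⁻¹ * r ≠ 1 := by
      intro h
      rw [h, one_smul] at h3
      exact hne h3
    exact hnor _ (D.R.mul_mem (D.R.inv_mem hr') hr) hq1 u w huw (Or.inr ⟨h3, h4⟩)
  have hfinj : Function.Injective f := by
    intro γ γ' h
    simp only [hf] at h
    by_cases h1 : γ ∈ D.R <;> by_cases h2 : γ' ∈ D.R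
    · rw [if_pos h1, if_pos h2, Prod.mk.injEq] at h
      exact hRinj γ h1 γ' h2 u h.1
    · rw [if_pos h1, if_neg h2, Prod.mk.injEq] at h
      exact (hRcross γ h1 (γ' * s) (D.mul_mem _ _ h2 hs) h.1 h.2).elim
    · rw [if_neg h1, if_pos h2, Prod.mk.injEq] at h
      exact (hRcross γ' h2 (γ * s) (D.mul_mem _ _ h1 hs) h.1.symm h.2.symm).elim
    · rw [if_neg h1, if_neg h2, Prod.mk.injEq] at h
      have := hRinj (γ * s) (D.mul_mem _ _ h1 hs) (γ' * s) (D.mul_mem _ _ h2 hs) w h.1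
      exact mul_right_cancel this
  set Ef : Finset (V × V) := Finset.univ.image f with hEf
  have hmemEf : ∀ x : V × V, x ∈ Ef ↔ ∃ r ∈ D.R, x = (r • u, r • w) ∨ x = (r • w, r • u) := by
    intro x
    rw [hEf, Finset.mem_image]
    constructor
    · rintro ⟨γ, -, rfl⟩
      by_cases h : γ ∈ D.R
      · exact ⟨γ, h, Or.inl (by simp only [hf]; rw [if_pos h])⟩
      · exact ⟨γ * s, D.mul_mem _ _ h hs, Or.inr (by simp only [hf]; rw [if_neg h])⟩
    · rintro ⟨r, hr, rfl | rfl⟩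
      · exact ⟨r, Finset.mem_univ _, by simp only [hf]; rw [if_pos hr]⟩
      · have h1 : r * s ∉ D.R := D.mul_not_mem hr hs
        refine ⟨r * s, Finset.mem_univ _, ?_⟩
        simp only [hf]
        rw [if_neg h1, mul_assoc, hss, mul_one]
  have hsuw : (s • u = w ∧ s • w = u) ∨ (s • u = u ∧ s • w = w) := by
    rcases hfix with h | h
    · exact Or.inr h
    · exact Or.inl h
  have hEfinv : ∀ (γ : Γ), ∀ x ∈ Ef, (γ • x.1, γ • x.2) ∈ Ef := by
    intro γ x hx
    rw [hmemEf] at hx ⊢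
    obtain ⟨r, hr, hx⟩ := hx
    by_cases hγ : γ ∈ D.R
    · refine ⟨γ * r, D.R.mul_mem hγ hr, ?_⟩
      rcases hx with rfl | rfl
      · exact Or.inl (by simp [mul_smul])
      · exact Or.inr (by simp [mul_smul])
    · have hγr : γ * r ∉ D.R := D.mul_not_mem' hr hγ
      have hr'' : γ * r * s ∈ D.R := D.mul_mem _ _ hγr hs
      refine ⟨γ * r * s, hr'', ?_⟩
      rcases hsuw with h | h
      · rcases hx with rfl | rfl
        · right
          simp only [mul_smul]
          rw [h.1, h.2]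
        · left
          simp only [mul_smul]
          rw [h.1, h.2]
      · rcases hx with rfl | rfl
        · left
          simp only [mul_smul]
          rw [h.1, h.2]
        · right
          simp only [mul_smul]
          rw [h.1, h.2]
  have hEfswap : ∀ x ∈ Ef, (x.2, x.1) ∈ Ef := by
    intro x hx
    rw [hmemEf] at hx ⊢
    obtain ⟨r, hr, rfl | rfl⟩ := hx
    · exact ⟨r, hr, Or.inr rfl⟩
    · exact ⟨r, hr, Or.inl rfl⟩
  have hEfadj : ∀ x ∈ Ef, G.Adj x.1 x.2 := by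
    intro x hx
    rw [hmemEf] at hx
    obtain ⟨r, hr, rfl | rfl⟩ := hx
    · exact (hadj r u w).1 huw
    · exact (hadj r w u).1 huw.symm
  -- fixed pairs are special
  have hspecial : ∀ γ : Γ, γ ≠ 1 → ∀ a b : V, G.Adj a b →
      ((γ • a = a ∧ γ • b = b) ∨ (γ • a = b ∧ γ • b = a)) → (a, b) ∈ Ef := by
    intro γ h1 a b hab h
    have hγ : γ ∉ D.R := fun hγ => hnor γ hγ h1 a b hab h
    obtain ⟨r, hr, hrs⟩ := D.conj_refl hm hs hγ
    have hsr : s = r⁻¹ * γ * r := by rw [hrs]; group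
    have h2 : (r⁻¹ • a, r⁻¹ • b) = (u, w) ∨ (r⁻¹ • a, r⁻¹ • b) = (w, u) := by
      apply huniq _ _ ((hadj r⁻¹ a b).1 hab)
      have e1 : ∀ v : V, s • r⁻¹ • v = r⁻¹ • γ • v := by
        intro v
        rw [hsr]
        simp only [mul_smul, smul_inv_smul]
      rw [e1, e1]
      rcases h with h | h
      · left; rw [h.1, h.2]; exact ⟨rfl, rfl⟩
      · right; rw [h.1, h.2]; exact ⟨rfl, rfl⟩
    rw [hmemEf]
    refine ⟨r, hr, ?_⟩
    rcases h2 with h2 | h2
    · left
      rw [Prod.mk.injEq] at h2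
      rw [← h2.1, ← h2.2, smul_inv_smul, smul_inv_smul]
    · right
      rw [Prod.mk.injEq] at h2
      rw [← h2.1, ← h2.2, smul_inv_smul, smul_inv_smul]
  -- the free pairs
  set P : Finset (V × V) := (Finset.univ.filter (fun x : V × V => G.Adj x.1 x.2)) \ Ef with hP
  have hPmem : ∀ x, x ∈ P ↔ G.Adj x.1 x.2 ∧ x ∉ Ef := by
    intro x
    rw [hP, Finset.mem_sdiff, Finset.mem_filter]
    simp
  obtain ⟨S, hSP, hScount⟩ := exists_orbit_reps Γ P
    (by
      intro e he
      rw [hPmem] at he ⊢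
      exact ⟨he.1.symm, fun h => he.2 (hEfswap _ h)⟩)
    (by
      intro γ e he
      rw [hPmem] at he ⊢
      refine ⟨(hadj γ _ _).1 he.1, fun h => he.2 ?_⟩
      have := hEfinv γ⁻¹ _ h
      simpa using this)
    (by
      intro e he
      rw [hPmem] at he
      exact he.1.ne)
    (by
      intro γ h1 e he h
      rw [hPmem] at he
      exact he.2 (hspecial γ h1 e.1 e.2 he.1 h))
  -- counts
  have hcountEf : ∀ X : Finset V, (Ef.filter (fun e => e.1 ∈ X ∧ e.2 ∈ X)).card = kk Γ u w X := by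
    intro X
    rw [hEf, Finset.filter_image, Finset.card_image_of_injective _ hfinj]
    unfold kk
    congr 1
    ext γ
    simp only [Finset.mem_filter, Finset.mem_univ, true_and]
    by_cases h : γ ∈ D.R
    · simp only [hf]; rw [if_pos h]
    · simp only [hf]; rw [if_neg h]
      simp only [mul_smul]
      rcases hsuw with h' | h'
      · rw [h'.1, h'.2]
      · rw [h'.1, h'.2]
        exact and_comm
  have hcount : ∀ X : Finset V, ((X ×ˢ X).filter (fun x : V × V => G.Adj x.1 x.2)).card =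
      2 * ∑ i ∈ S, kk Γ i.1 i.2 X + kk Γ u w X := by
    intro X
    rw [← hScount X, ← hcountEf X, ← Finset.card_union_of_disjoint]
    · congr 1
      ext x
      simp only [Finset.mem_filter, Finset.mem_product, Finset.mem_union, hPmem]
      constructor
      · rintro ⟨h1, h2⟩
        by_cases h3 : x ∈ Ef
        · exact Or.inr ⟨h3, h1⟩
        · exact Or.inl ⟨⟨h2, h3⟩, h1⟩
      · rintro (⟨⟨h1, h2⟩, h3⟩ | ⟨h1, h2⟩)
        · exact ⟨h3, h1⟩
        · exact ⟨h2, hEfadj x h1⟩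
    · rw [Finset.disjoint_left]
      intro x hx hx'
      rw [Finset.mem_filter, hPmem] at hx
      rw [Finset.mem_filter] at hx'
      exact hx.1.2 hx'.1
  have hBBeq : ∀ X : Finset V, BB (Γ := Γ) S Prod.fst Prod.snd u w X =
      4 * (X.card : ℤ) - (((X ×ˢ X).filter (fun x : V × V => G.Adj x.1 x.2)).card : ℤ) := by
    intro X
    unfold BB
    rw [hcount X]
    push_cast
    ring
  have hBB2 : ∀ X : Finset V, 2 ≤ X.card → 6 ≤ BB (Γ := Γ) S Prod.fst Prod.snd u w X := by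
    intro X hX
    rw [hBBeq]
    have := hlaman X hX
    linarith
  have hBB1 : ∀ X : Finset V, X.Nonempty → 4 ≤ BB (Γ := Γ) S Prod.fst Prod.snd u w X := by
    intro X hX
    by_cases h2 : 2 ≤ X.card
    · have := hBB2 X h2
      linarith
    · have h1 : X.card = 1 := by
        have := Finset.card_pos.2 hX
        omega
      obtain ⟨v, rfl⟩ := Finset.card_eq_one.1 h1
      rw [hBBeq]
      have h0 : ((({v} : Finset V) ×ˢ ({v} : Finset V)).filter
          (fun x : V × V => G.Adj x.1 x.2)).card = 0 := by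
        rw [Finset.card_eq_zero]
        ext x
        simp only [Finset.mem_filter, Finset.mem_product, Finset.mem_singleton,
          Finset.notMem_empty, iff_false, not_and]
        rintro ⟨h3, h4⟩ h5
        rw [h3, h4] at h5
        exact h5.ne rfl
      rw [h0]
      simp
  obtain ⟨r1, hr1, hr1'⟩ := D.exists_rot
  have hnoFx : ∀ y : V, ¬ Fx Γ y := fun y h => hfixv r1 hr1 hr1' y (h r1)
  have hGood : Good D (Finset.univ : Finset V) :=
    ⟨fun _ _ _ _ => Finset.mem_univ _, fun y _ r hr hr1 h => absurd h (hfixv r hr hr1 y),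
      fun y _ _ _ h _ => absurd h (hnoFx y)⟩
  obtain ⟨x, hx⟩ := T1f D hm hGood (fun y _ => hnoFx y) S Prod.fst Prod.snd
    (fun _ _ => ⟨Finset.mem_univ _, Finset.mem_univ _⟩) u w s d hFE (Finset.mem_univ _)
    (Finset.mem_univ _) (fun X _ hX => hBB1 X hX) (fun X _ hX hR => hBB2 X (by
      obtain ⟨y, hy⟩ := hX
      have h1 := hR r1 hr1 y hy
      have h2 := hfixv r1 hr1 hr1' y
      have : 1 < X.card := Finset.one_lt_card.2 ⟨r1 • y, h1, y, hy, h2⟩
      omega))
  let _ : Fintype D.R := Fintype.ofFinite _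
  have hcardJ : Fintype.card D.R = 3 := by
    rw [← Nat.card_eq_fintype_card, D.card_R, hm]
  refine ⟨S, x, D.R, inferInstance, fun r => ((r : Γ) • u, (r : Γ) • w), fun r => ρ (r : Γ) d,
    ⟨?_, ?_, ?_, ?_⟩, ?_, ?_⟩
  · intro e he γ
    have := (hPmem e).1 (hSP he)
    exact (hadj γ _ _).1 this.1
  · intro j
    exact (hadj j u w).1 huw
  · intro q hq j
    -- the difference is an eigenvector
    obtain ⟨c, hc⟩ : ∃ c : ℝ, q u - q w = c • d := by
      rcases hdt with ⟨h1, h2, h3⟩ | ⟨h1, h2, h3⟩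
      · obtain ⟨d', hd', hd''⟩ := D.dpos s hs
        have hnp := D.np_pm hd' hd0 hd'' h3
        obtain ⟨α, β, hαβ⟩ := hnp.span3 (q u - q w)
        have h4 : ρ s (q u - q w) = -(q u - q w) := by
          rw [map_sub, ← hq, ← hq, h1, h2]; abel
        rw [hαβ, map_add, map_smul, map_smul, hd'', h3] at h4
        have h5 := hnp (2 * α) 0 (by
          have : α • d' + β • -d + (α • d' + β • d) = 0 := by rw [h4]; abel
          rw [← this]; module)
        refine ⟨β, ?_⟩
        rw [hαβ]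
        have : α = 0 := by linarith [h5.1]
        rw [this, zero_smul, zero_add]
      · obtain ⟨d', hd', hd''⟩ := D.dneg s hs
        have hnp := D.np_pm hd0 hd' h3 hd''
        obtain ⟨α, β, hαβ⟩ := hnp.span3 (q u - q w)
        have h4 : ρ s (q u - q w) = (q u - q w) := by
          rw [map_sub, ← hq, ← hq, h1, h2]
        rw [hαβ, map_add, map_smul, map_smul, hd'', h3] at h4
        have h5 := hnp 0 (2 * β) (by
          have : (α • d + β • d') - (α • d + β • -d') = 0 := by rw [h4]; abel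
          rw [← this]; module)
        refine ⟨α, ?_⟩
        rw [hαβ]
        have : β = 0 := by linarith [h5.2]
        rw [this, zero_smul, add_zero]
    refine ⟨c, ?_⟩
    simp only
    rw [hq, hq, ← map_sub, hc, map_smul]
  · intro ω c h
    set ωf : Γ → ℝ := fun γ => if hγ : γ ∈ D.R then c ⟨γ, hγ⟩ else 0 with hωf
    have hload : load1 ρ u w d ωf = ∑ j : D.R, (Finsupp.single ((j : Γ) • u) (c j • ρ (j : Γ) d) -
        Finsupp.single ((j : Γ) • w) (c j • ρ (j : Γ) d)) := by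
      unfold load1
      rw [← Finset.sum_filter_add_sum_filter_not Finset.univ (fun γ : Γ => γ ∈ D.R)]
      have h0 : ∑ γ ∈ Finset.univ.filter (fun γ : Γ => γ ∉ D.R),
          (Finsupp.single (γ • u) (ωf γ • ρ γ d) - Finsupp.single (γ • w) (ωf γ • ρ γ d)) = 0 := by
        apply Finset.sum_eq_zero
        intro γ hγ
        rw [Finset.mem_filter] at hγ
        have : ωf γ = 0 := by simp only [hωf]; rw [dif_neg hγ.2]
        rw [this]
        simp
      rw [h0, add_zero]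
      symm
      refine Finset.sum_bij (fun (j : D.R) _ => (j : Γ)) ?_ ?_ ?_ ?_
      · intro j _
        rw [Finset.mem_filter]
        exact ⟨Finset.mem_univ _, j.2⟩
      · intro j _ j' _ h
        exact Subtype.ext h
      · intro γ hγ
        rw [Finset.mem_filter] at hγ
        exact ⟨⟨γ, hγ.2⟩, Finset.mem_univ _, rfl⟩
      · intro j _
        have : ωf (j : Γ) = c j := by
          simp only [hωf]; rw [dif_pos j.2]
        rw [this]
    rw [← hload] at h
    obtain ⟨h1, h2⟩ := hx ω ωf h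
    refine ⟨h1, ?_⟩
    funext j
    have h3 := h2 (j : Γ)
    have h4 : ωf (j : Γ) = c j := by
      simp only [hωf]; rw [dif_pos j.2]
    have h5 : ωf ((j : Γ) * s) = 0 := by
      simp only [hωf]; rw [dif_neg (D.mul_not_mem j.2 hs)]
    rw [h4, h5, add_zero] at h3
    exact h3
  · intro X hX
    have h1 := hlaman X hX
    rw [hcount X] at h1
    push_cast at h1
    have h2 : (∑ i ∈ S, (kk Γ i.1 i.2 X : ℤ)) + 3 ≤ 2 * (X.card : ℤ) := by
      have : (0 : ℤ) ≤ (kk Γ u w X : ℤ) := by positivity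
      linarith
    exact_mod_cast h2
  · have h1 := hcount Finset.univ
    have h2 : ((Finset.univ : Finset V) ×ˢ (Finset.univ : Finset V)) = Finset.univ := by
      ext x; simp
    rw [h2] at h1
    rw [h1]
    have h3 : ∀ a b : V, kk Γ a b (Finset.univ : Finset V) = Fintype.card Γ := by
      intro a b
      unfold kk
      simp
    simp only [h3, Finset.sum_const, smul_eq_mul]
    rw [hcardJ, D.card_G, hm]
    ring

end Pool.Agent.SymLaman
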