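import Pool.Agent.Lib_MP_d5472a_co.Basic

set_option autoImplicit false

namespace Pool.Agent.SymLaman
open scoped Pointwise

theorem orth_entries (A : Matrix (Fin 2) (Fin 2) ℝ) (hA : A ∈ Matrix.orthogonalGroup (Fin 2) ℝ) :
    A 0 0 ^ 2 + A 0 1 ^ 2 = 1 ∧ A 1 0 ^ 2 + A 1 1 ^ 2 = 1 ∧
      A 0 0 * A 1 0 + A 0 1 * A 1 1 = 0 := by
  have h := (Matrix.mem_orthogonalGroup_iff (Fin 2) ℝ).mp hA
  have h00 := congrFun (congrFun h 0) 0
  have h01 := congrFun (congrFun h 0) 1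
  have h11 := congrFun (congrFun h 1) 1
  simp [Matrix.mul_apply, Fin.sum_univ_two] at h00 h01 h11
  refine ⟨by nlinarith [h00], by nlinarith [h11], by nlinarith [h01]⟩

theorem sq_one_cases (a : ℝ) (h : a ^ 2 = 1) : a = 1 ∨ a = -1 := by
  have : (a - 1) * (a + 1) = 0 := by linear_combination h
  rcases mul_eq_zero.mp this with h | h
  · left; linarith
  · right; linarith

theorem orth_det_sq (A : Matrix (Fin 2) (Fin 2) ℝ) (hA : A ∈ Matrix.orthogonalGroup (Fin 2) ℝ) :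
    A.det = 1 ∨ A.det = -1 := by
  obtain ⟨h1, h2, h3⟩ := orth_entries A hA
  have : A.det ^ 2 = 1 := by
    rw [Matrix.det_fin_two]
    have : (A 0 0 * A 1 1 - A 0 1 * A 1 0) ^ 2 + (A 0 0 * A 1 0 + A 0 1 * A 1 1) ^ 2 =
      (A 0 0 ^ 2 + A 0 1 ^ 2) * (A 1 0 ^ 2 + A 1 1 ^ 2) := by ring
    rw [h1, h2, h3] at this
    linarith
  exact sq_one_cases _ this

/-- rotations -/
theorem rot_entries (A : Matrix (Fin 2) (Fin 2) ℝ) (hA : A ∈ Matrix.orthogonalGroup (Fin 2) ℝ)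
    (hd : A.det = 1) : A 1 1 = A 0 0 ∧ A 0 1 = - A 1 0 ∧ A 0 0 ^ 2 + A 1 0 ^ 2 = 1 := by
  obtain ⟨h1, h2, h3⟩ := orth_entries A hA
  rw [Matrix.det_fin_two] at hd
  have h : (A 0 0 - A 1 1) ^ 2 + (A 0 1 + A 1 0) ^ 2 = 0 := by nlinarith
  have h4 : (A 0 0 - A 1 1) ^ 2 = 0 := by nlinarith [sq_nonneg (A 0 0 - A 1 1), sq_nonneg (A 0 1 + A 1 0)]
  have h5 : (A 0 1 + A 1 0) ^ 2 = 0 := by nlinarith [sq_nonneg (A 0 0 - A 1 1), sq_nonneg (A 0 1 + A 1 0)]
  have h6 : A 0 0 - A 1 1 = 0 := by simpa using h4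
  have h7 : A 0 1 + A 1 0 = 0 := by simpa using h5
  have h8 : A 1 1 = A 0 0 := by linarith
  have h9 : A 0 1 = - A 1 0 := by linarith
  refine ⟨h8, h9, ?_⟩
  rw [h9] at h1
  nlinarith

/-- reflections -/
theorem refl_entries (A : Matrix (Fin 2) (Fin 2) ℝ) (hA : A ∈ Matrix.orthogonalGroup (Fin 2) ℝ)
    (hd : A.det = -1) : A 1 1 = - A 0 0 ∧ A 0 1 = A 1 0 ∧ A 0 0 ^ 2 + A 1 0 ^ 2 = 1 := by
  obtain ⟨h1, h2, h3⟩ := orth_entries A hA
  rw [Matrix.det_fin_two] at hd
  have h : (A 0 0 + A 1 1) ^ 2 + (A 0 1 - A 1 0) ^ 2 = 0 := by nlinarith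
  have h4 : (A 0 0 + A 1 1) ^ 2 = 0 := by nlinarith [sq_nonneg (A 0 0 + A 1 1), sq_nonneg (A 0 1 - A 1 0)]
  have h5 : (A 0 1 - A 1 0) ^ 2 = 0 := by nlinarith [sq_nonneg (A 0 0 + A 1 1), sq_nonneg (A 0 1 - A 1 0)]
  have h6 : A 0 0 + A 1 1 = 0 := by simpa using h4
  have h7 : A 0 1 - A 1 0 = 0 := by simpa using h5
  have h8 : A 1 1 = - A 0 0 := by linarith
  have h9 : A 0 1 = A 1 0 := by linarith
  refine ⟨h8, h9, ?_⟩
  rw [h9] at h1
  nlinarith

theorem refl_mul_self (A : Matrix (Fin 2) (Fin 2) ℝ) (hA : A ∈ Matrix.orthogonalGroup (Fin 2) ℝ)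
    (hd : A.det = -1) : A * A = 1 := by
  obtain ⟨h1, h2, h3⟩ := refl_entries A hA hd
  ext i j
  fin_cases i <;> fin_cases j <;> simp [Matrix.mul_apply, Fin.sum_univ_two, h1, h2] <;> nlinarith

theorem refl_neg (A : Matrix (Fin 2) (Fin 2) ℝ) (hA : A ∈ Matrix.orthogonalGroup (Fin 2) ℝ)
    (hd : A.det = -1) : ∃ d : E2, d ≠ 0 ∧ Matrix.mulVec A d = -d := by
  obtain ⟨h1, h2, h3⟩ := refl_entries A hA hd
  by_cases hp : A 0 0 = -1
  · have hq : A 1 0 = 0 := by
      rw [hp] at h3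
      have : A 1 0 ^ 2 = 0 := by linarith
      simpa using this
    refine ⟨![1, 0], ?_, ?_⟩
    · intro h
      have := congrFun h 0
      simp at this
    · ext i
      fin_cases i <;> simp [Matrix.mulVec, dotProduct, Fin.sum_univ_two, h1, h2, hp, hq]
  · refine ⟨![A 1 0, -(1 + A 0 0)], ?_, ?_⟩
    · intro h
      have := congrFun h 1
      simp at this
      apply hp
      linarith
    · ext i
      fin_cases i <;> simp [Matrix.mulVec, dotProduct, Fin.sum_univ_two, h1, h2] <;> nlinarith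

theorem refl_pos (A : Matrix (Fin 2) (Fin 2) ℝ) (hA : A ∈ Matrix.orthogonalGroup (Fin 2) ℝ)
    (hd : A.det = -1) : ∃ d : E2, d ≠ 0 ∧ Matrix.mulVec A d = d := by
  obtain ⟨h1, h2, h3⟩ := refl_entries A hA hd
  by_cases hp : A 0 0 = -1
  · have hq : A 1 0 = 0 := by
      rw [hp] at h3
      have : A 1 0 ^ 2 = 0 := by linarith
      simpa using this
    refine ⟨![0, 1], ?_, ?_⟩
    · intro h
      have := congrFun h 1
      simp at this
    · ext i
      fin_cases i <;> simp [Matrix.mulVec, dotProduct, Fin.sum_univ_two, h1, h2, hp, hq]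
  · refine ⟨![1 + A 0 0, A 1 0], ?_, ?_⟩
    · intro h
      have := congrFun h 0
      simp at this
      apply hp
      linarith
    · ext i
      fin_cases i <;> simp [Matrix.mulVec, dotProduct, Fin.sum_univ_two, h1, h2] <;> nlinarith

/-- A rotation matrix with nonzero off-diagonal entry moves every nonzero vector off its line. -/
theorem rot_np (A : Matrix (Fin 2) (Fin 2) ℝ) (hA : A ∈ Matrix.orthogonalGroup (Fin 2) ℝ)
    (hd : A.det = 1) (hq : A 1 0 ≠ 0) (x : E2) (hx : x ≠ 0) : NP x (Matrix.mulVec A x) := by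
  obtain ⟨h1, h2, h3⟩ := rot_entries A hA hd
  intro α β h
  have e0 := congrFun h 0
  have e1 := congrFun h 1
  simp [Matrix.mulVec, dotProduct, Fin.sum_univ_two, h1, h2] at e0 e1
  set p := A 0 0
  set q := A 1 0
  have hxx : 0 < x 0 ^ 2 + x 1 ^ 2 := by
    by_contra hcon
    have ha : x 0 ^ 2 = 0 := by nlinarith [sq_nonneg (x 0), sq_nonneg (x 1)]
    have hb : x 1 ^ 2 = 0 := by nlinarith [sq_nonneg (x 0), sq_nonneg (x 1)]
    apply hx
    ext i
    fin_cases i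
    · simpa using ha
    · simpa using hb
  -- (α + β p) x0 - β q x1 = 0 ; β q x0 + (α + β p) x1 = 0
  have f1 : (β * q) * (x 0 ^ 2 + x 1 ^ 2) = 0 := by
    have : (β * q) * (x 0 ^ 2 + x 1 ^ 2) =
      x 0 * (α * x 1 + β * (q * x 0 + p * x 1)) - x 1 * (α * x 0 + β * (p * x 0 + -(q * x 1))) := by
      ring
    rw [this, e1, e0]; ring
  have f2 : (α + β * p) * (x 0 ^ 2 + x 1 ^ 2) = 0 := by
    have : (α + β * p) * (x 0 ^ 2 + x 1 ^ 2) =
      x 1 * (α * x 1 + β * (q * x 0 + p * x 1)) + x 0 * (α * x 0 + β * (p * x 0 + -(q * x 1))) := by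
      ring
    rw [this, e1, e0]; ring
  have hβq : β * q = 0 := by
    rcases mul_eq_zero.mp f1 with h | h
    · exact h
    · exact absurd h hxx.ne'
  have hβ : β = 0 := by
    rcases mul_eq_zero.mp hβq with h | h
    · exact h
    · exact absurd h hq
  have hα : α + β * p = 0 := by
    rcases mul_eq_zero.mp f2 with h | h
    · exact h
    · exact absurd h hxx.ne'
  rw [hβ] at hα
  exact ⟨by linarith, hβ⟩

theorem rot_order2 (A : Matrix (Fin 2) (Fin 2) ℝ) (hA : A ∈ Matrix.orthogonalGroup (Fin 2) ℝ)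
    (hd : A.det = 1) (h2 : A * A = 1) (hne : A ≠ 1) : A = -1 := by
  obtain ⟨h1, h2', h3⟩ := rot_entries A hA hd
  have e00 := congrFun (congrFun h2 0) 0
  have e10 := congrFun (congrFun h2 1) 0
  simp [Matrix.mul_apply, Fin.sum_univ_two, h1, h2'] at e00 e10
  have hq : A 1 0 = 0 := by
    have : A 1 0 ^ 2 = 0 := by nlinarith
    simpa using this
  have hp : A 0 0 = 1 ∨ A 0 0 = -1 := by
    rw [hq] at h3
    have : A 0 0 ^ 2 = 1 := by nlinarith
    exact sq_one_cases _ this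
  rcases hp with hp | hp
  · exfalso
    apply hne
    ext i j
    fin_cases i <;> fin_cases j <;> simp [h1, h2', hq, hp]
  · ext i j
    fin_cases i <;> fin_cases j <;> simp [h1, h2', hq, hp]

theorem rot_order3 (A : Matrix (Fin 2) (Fin 2) ℝ) (hA : A ∈ Matrix.orthogonalGroup (Fin 2) ℝ)
    (hd : A.det = 1) (h2 : A * A * A = 1) (hne : A ≠ 1) : A 1 0 ≠ 0 ∧ A 0 0 = -1/2 := by
  obtain ⟨h1, h2', h3⟩ := rot_entries A hA hd
  have e00 := congrFun (congrFun h2 0) 0
  have e10 := congrFun (congrFun h2 1) 0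
  simp [Matrix.mul_apply, Fin.sum_univ_two, h1, h2'] at e00 e10
  have hq : A 1 0 ≠ 0 := by
    intro hq
    rw [hq] at e00 h3
    have hp3 : A 0 0 ^ 3 = 1 := by nlinarith
    have hp2 : A 0 0 ^ 2 = 1 := by nlinarith
    have hp : A 0 0 = 1 := by
      have : A 0 0 ^ 3 = A 0 0 * A 0 0 ^ 2 := by ring
      rw [hp3, hp2] at this
      linarith
    apply hne
    ext i j
    fin_cases i <;> fin_cases j <;> simp [h1, h2', hq, hp]
  refine ⟨hq, ?_⟩
  have hq2 : A 1 0 ^ 2 = 3 * A 0 0 ^ 2 := by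
    have : A 1 0 * (3 * A 0 0 ^ 2 - A 1 0 ^ 2) = 0 := by nlinarith
    rcases mul_eq_zero.mp this with h | h
    · exact absurd h hq
    · linarith
  have hp2 : A 0 0 ^ 2 = 1 / 4 := by linarith
  have hp3 : A 0 0 ^ 3 - 3 * A 0 0 * A 1 0 ^ 2 = 1 := by nlinarith
  rw [hq2] at hp3
  have : -8 * (A 0 0 * A 0 0 ^ 2) = 1 := by linarith [show A 0 0 ^ 3 - 3 * A 0 0 * (3 * A 0 0 ^ 2) = -8 * (A 0 0 * A 0 0 ^ 2) by ring]
  rw [hp2] at this
  linarith


/-- PART G: the group facts. -/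
theorem exists_dih (Γ : Type) [Group Γ] [Fintype Γ]
    (τ : Γ →* Matrix.orthogonalGroup (Fin 2) ℝ) (hinj : Function.Injective τ)
    (hcard : Fintype.card Γ = 4 ∨ Fintype.card Γ = 6)
    (hdet : ∃ γ : Γ, ((τ γ).1).det = -1)
    (ρ : Γ →* (E2 →ₗ[ℝ] E2)) (hρ : ∀ (γ : Γ) (x : E2), ρ γ x = Matrix.mulVec (τ γ).1 x) :
    ∃ D : Dih Γ ρ, (∀ g : Γ, g ∈ D.R ↔ ((τ g).1).det = 1) ∧
      (∀ g : Γ, g ∉ D.R → ((τ g).1).det = -1 ∧ Matrix.trace (τ g).1 = 0) ∧
      (∀ g : Γ, g ∈ D.R → g ≠ 1 → Matrix.trace (τ g).1 = (D.m : ℝ) - 4) := by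
  classical
  obtain ⟨γ₀, hγ₀⟩ := hdet
  have hmul : ∀ g h : Γ, ((τ (g * h)).1) = (τ g).1 * (τ h).1 := by
    intro g h
    rw [map_mul]
    rfl
  have hone : ((τ (1 : Γ)).1) = 1 := by
    rw [map_one]
    rfl
  have hinj' : ∀ g h : Γ, (τ g).1 = (τ h).1 → g = h := fun g h e => hinj (Subtype.ext e)
  have hdmul : ∀ g h : Γ, ((τ (g * h)).1).det = ((τ g).1).det * ((τ h).1).det := by
    intro g h
    rw [hmul, Matrix.det_mul]
  let R : Subgroup Γ :=
    { carrier := {g | ((τ g).1).det = 1}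
      mul_mem' := by
        intro a b ha hb
        simp only [Set.mem_setOf_eq] at ha hb ⊢
        rw [hdmul, ha, hb, one_mul]
      one_mem' := by
        simp only [Set.mem_setOf_eq]
        rw [hone, Matrix.det_one]
      inv_mem' := by
        intro a ha
        simp only [Set.mem_setOf_eq] at ha ⊢
        have h := hdmul a⁻¹ a
        rw [inv_mul_cancel, hone, Matrix.det_one, ha, mul_one] at h
        exact h.symm }
  have hR : ∀ g : Γ, g ∈ R ↔ ((τ g).1).det = 1 := fun g => Iff.rfl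
  have hnR : ∀ g : Γ, g ∉ R → ((τ g).1).det = -1 := by
    intro g hg
    rcases orth_det_sq _ (τ g).2 with h | h
    · exact absurd ((hR g).mpr h) hg
    · exact h
  have hidx : R.index = 2 := by
    rw [Subgroup.index_eq_two_iff]
    refine ⟨γ₀, fun b => ?_⟩
    rw [hR, hR, hdmul, hγ₀]
    rcases orth_det_sq _ (τ b).2 with h | h
    · rw [h]; right; norm_num
    · rw [h]; left; norm_num
  have hcard2 : Nat.card R * 2 = Fintype.card Γ := by
    have := R.card_mul_index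
    rw [hidx, Nat.card_eq_fintype_card (α := Γ)] at this
    exact this
  have hm : Nat.card R = 2 ∨ Nat.card R = 3 := by
    rcases hcard with h | h
    · left; omega
    · right; omega
  have hordR : ∀ r ∈ R, r ^ Nat.card R = 1 := by
    intro r hr
    have : (⟨r, hr⟩ : R) ^ Nat.card R = 1 := pow_card_eq_one'
    have h := congrArg (Subtype.val) this
    rw [SubmonoidClass.coe_pow] at h
    exact h
  have hrot3 : Nat.card R = 3 → ∀ r ∈ R, r ≠ 1 →
      (τ r).1 1 0 ≠ 0 ∧ (τ r).1 0 0 = -1/2 := by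
    intro h3 r hr hr1
    have hp := hordR r hr
    rw [h3] at hp
    have : (τ r).1 * (τ r).1 * (τ r).1 = 1 := by
      rw [← hmul, ← hmul, ← hone]
      congr 2
      rw [← hp, pow_succ, sq]
    exact rot_order3 _ (τ r).2 ((hR r).mp hr) this (fun h => hr1 (hinj' _ _ (by rw [h, hone])))
  have hrot2 : Nat.card R = 2 → ∀ r ∈ R, r ≠ 1 → (τ r).1 = -1 := by
    intro h2 r hr hr1
    have hp := hordR r hr
    rw [h2] at hp
    have : (τ r).1 * (τ r).1 = 1 := by
      rw [← hmul, ← hone]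
      congr 2
      rw [← hp, sq]
    exact rot_order2 _ (τ r).2 ((hR r).mp hr) this (fun h => hr1 (hinj' _ _ (by rw [h, hone])))
  let D : Dih Γ ρ :=
    { R := R
      m := Nat.card R
      hm := hm
      card_R := rfl
      card_G := by omega
      refl_sq := by
        intro g hg
        apply hinj'
        rw [hmul, hone]
        exact refl_mul_self _ (τ g).2 (hnR g hg)
      mul_mem := by
        intro g h hg hh
        rw [hR, hdmul, hnR g hg, hnR h hh]
        norm_num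
      np_rot := by
        intro h3 r hr hr1 x hx
        rw [hρ]
        exact rot_np _ (τ r).2 ((hR r).mp hr) (hrot3 h3 r hr hr1).1 x hx
      half := by
        intro h2 r hr hr1 x
        rw [hρ, hrot2 h2 r hr hr1, Matrix.neg_mulVec, Matrix.one_mulVec]
      dneg := by
        intro g hg
        obtain ⟨d, hd, h⟩ := refl_neg _ (τ g).2 (hnR g hg)
        exact ⟨d, hd, by rw [hρ]; exact h⟩
      dpos := by
        intro g hg
        obtain ⟨d, hd, h⟩ := refl_pos _ (τ g).2 (hnR g hg)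
        exact ⟨d, hd, by rw [hρ]; exact h⟩ }
  refine ⟨D, hR, ?_, ?_⟩
  · intro g hg
    refine ⟨hnR g hg, ?_⟩
    obtain ⟨h1, h2, h3⟩ := refl_entries _ (τ g).2 (hnR g hg)
    rw [Matrix.trace_fin_two, h1]
    ring
  · intro g hg hg1
    show Matrix.trace (τ g).1 = ((Nat.card R : ℕ) : ℝ) - 4
    rcases hm with h | h
    · rw [hrot2 h g hg hg1, h, Matrix.trace_fin_two]
      simp
      norm_num
    · obtain ⟨h1, h2, h3⟩ := rot_entries _ (τ g).2 ((hR g).mp hg)
      rw [Matrix.trace_fin_two, h1, (hrot3 h g hg hg1).2, h]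
      norm_num

end Pool.Agent.SymLaman
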