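import Pool.Agent.Lib_MP_d5472a_co.T1fFinal
import Pool.Agent.Lib_MP_d5472a_co.Frame2
import Pool.Agent.Lib_MP_d5472a_co.Frame3
import Pool.Agent.Lib_MP_d5472a_co.Asm
import Pool.Agent.Lib_MP_d5472a_co.PartG

set_option autoImplicit false

/-! Putting everything together. -/

namespace Pool.Agent.SymLaman
open scoped Pointwise

theorem exists_frame_three {Γ : Type} [Group Γ] [Fintype Γ] {V : Type} [Fintype V]
    [DecidableEq V]
    [MulAction Γ V] (G : SimpleGraph V) [DecidableRel G.Adj]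
    {ρ : Γ →* (E2 →ₗ[ℝ] E2)} (D : Dih Γ ρ) (hm : D.m = 3)
    (hadj : ∀ (γ : Γ) (u v : V), G.Adj u v ↔ G.Adj (γ • u) (γ • v))
    (hlaman : ∀ X : Finset V, 2 ≤ X.card →
      (((X ×ˢ X).filter (fun x : V × V => G.Adj x.1 x.2)).card : ℤ) ≤ 2 * (2 * (X.card : ℤ) - 3))
    (hfixv : ∀ r ∈ D.R, r ≠ 1 → ∀ v : V, r • v ≠ v)
    (hfixr : ∀ γ ∈ D.R, γ ≠ 1 → (Finset.univ.filter (fun x : V × V => G.Adj x.1 x.2 ∧
      ((γ • x.1 = x.1 ∧ γ • x.2 = x.2) ∨ (γ • x.1 = x.2 ∧ γ • x.2 = x.1)))).card = 0)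
    (hfixe : ∀ γ : Γ, γ ∉ D.R → (Finset.univ.filter (fun x : V × V => G.Adj x.1 x.2 ∧
      ((γ • x.1 = x.1 ∧ γ • x.2 = x.2) ∨ (γ • x.1 = x.2 ∧ γ • x.2 = x.1)))).card = 2) :
    ∃ (S : Finset (V × V)) (x : V × V → E2) (Jf : Type) (_ : Fintype Jf) (ef : Jf → V × V)
      (df : Jf → E2),
      Frame G ρ S x Jf ef df ∧
      (∀ X : Finset V, 2 ≤ X.card → ∑ i ∈ S, kk Γ i.1 i.2 X + 3 ≤ 2 * X.card) ∧
      (Finset.univ.filter (fun x : V × V => G.Adj x.1 x.2)).card =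
        2 * (Fintype.card Γ * S.card + Fintype.card Jf) :=
  exists_frame_three_of (fun {Γ} _ _ {Y} _ _ {ι} _ {ρ} D hm {A} hA hnf S a b hab u w σ d hFE hu hw
    hβ1 hβ2 => T1f D hm hA hnf S a b hab u w σ d hFE hu hw hβ1 hβ2) G D hm hadj hlaman hfixv hfixr
    hfixe

/-- the lower bound for the rank -/
theorem main_lower (V : Type) [Fintype V] [DecidableEq V] (G : SimpleGraph V) [DecidableRel G.Adj]
    (Γ : Type) [Group Γ] [Fintype Γ] [MulAction Γ V]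
    (τ : Γ →* Matrix.orthogonalGroup (Fin 2) ℝ)
    (hadj : ∀ (γ : Γ) (u v : V), G.Adj u v ↔ G.Adj (γ • u) (γ • v))
    (hinj : Function.Injective τ)
    (hcard : Fintype.card Γ = 4 ∨ Fintype.card Γ = 6)
    (hdet : ∃ γ : Γ, ((τ γ).1).det = -1)
    (hlaman : ∀ S : Finset V, 2 ≤ S.card →
        (((S ×ˢ S).filter (fun x : V × V => G.Adj x.1 x.2)).card : ℤ)
          ≤ 2 * (2 * (S.card : ℤ) - 3))
    (htrace : ∀ γ : Γ,
        (((Finset.univ.filter (fun x : V × V => G.Adj x.1 x.2 ∧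
            ((γ • x.1 = x.1 ∧ γ • x.2 = x.2) ∨ (γ • x.1 = x.2 ∧ γ • x.2 = x.1)))).card : ℝ)
          = 2 * (Matrix.trace (τ γ).1
                  * ((Finset.univ.filter (fun v : V => γ • v = v)).card : ℝ)
                - (Matrix.trace (τ γ).1 + ((τ γ).1).det)))) :
    ∃ q : V → Fin 2 → ℝ, (∀ (γ : Γ) (v : V), q (γ • v) = Matrix.mulVec (τ γ).1 (q v)) ∧
      (Finset.univ.filter (fun x : V × V => G.Adj x.1 x.2)).card ≤ 2 * (rigM G q).rank := by
  classical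
  -- the representation
  let ρ : Γ →* (E2 →ₗ[ℝ] E2) :=
    { toFun := fun γ => Matrix.mulVecLin (τ γ).1
      map_one' := by
        rw [map_one]
        exact Matrix.mulVecLin_one
      map_mul' := by
        intro g h
        rw [map_mul]
        exact Matrix.mulVecLin_mul _ _ }
  have hρ : ∀ (γ : Γ) (x : E2), ρ γ x = Matrix.mulVec (τ γ).1 x := fun γ x => rfl
  obtain ⟨D, hR, hrefl, hrot⟩ := exists_dih Γ τ hinj hcard hdet ρ hρ
  have htr : ∀ γ : Γ, γ ≠ 1 → Matrix.trace (τ γ).1 ≤ 0 := by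
    intro γ hγ
    by_cases h : γ ∈ D.R
    · rw [hrot γ h hγ]
      rcases D.hm with hm | hm <;> rw [hm] <;> norm_num
    · rw [(hrefl γ h).2]
  have hdetR : ∀ γ ∈ D.R, ((τ γ).1).det = 1 := fun γ h => (hR γ).1 h
  -- the counts
  have hrotcount : ∀ γ ∈ D.R, γ ≠ 1 →
      (((Finset.univ.filter (fun x : V × V => G.Adj x.1 x.2 ∧
            ((γ • x.1 = x.1 ∧ γ • x.2 = x.2) ∨ (γ • x.1 = x.2 ∧ γ • x.2 = x.1)))).card : ℝ)
        = 2 * (((D.m : ℝ) - 4) * ((Finset.univ.filter (fun v : V => γ • v = v)).card : ℝ)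
            - ((D.m : ℝ) - 3))) := by
    intro γ h hγ
    have h1 := htrace γ
    rw [hrot γ h hγ, hdetR γ h] at h1
    rw [h1]
    ring
  have hfixv : ∀ r ∈ D.R, r ≠ 1 → ∀ v : V, r • v ≠ v := by
    intro r hr hr1 v hv
    have h1 := hrotcount r hr hr1
    have h2 : (1 : ℝ) ≤ ((Finset.univ.filter (fun v : V => r • v = v)).card : ℝ) := by
      have : 0 < (Finset.univ.filter (fun v : V => r • v = v)).card :=
        Finset.card_pos.2 ⟨v, by simpa using hv⟩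
      exact_mod_cast this
    have h3 : (0 : ℝ) ≤ ((Finset.univ.filter (fun x : V × V => G.Adj x.1 x.2 ∧
            ((r • x.1 = x.1 ∧ r • x.2 = x.2) ∨ (r • x.1 = x.2 ∧ r • x.2 = x.1)))).card : ℝ) := by
      positivity
    rcases D.hm with hm | hm
    · rw [hm] at h1
      push_cast at h1
      linarith
    · rw [hm] at h1
      push_cast at h1
      linarith
  have hfixv0 : ∀ r ∈ D.R, r ≠ 1 → (Finset.univ.filter (fun v : V => r • v = v)).card = 0 := by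
    intro r hr hr1
    rw [Finset.card_eq_zero, Finset.filter_eq_empty_iff]
    intro v _
    exact hfixv r hr hr1 v
  have hfix : ∀ γ : Γ, γ ≠ 1 → Matrix.trace (τ γ).1 = 0 ∨ ∀ v : V, γ • v ≠ v := by
    intro γ hγ
    by_cases h : γ ∈ D.R
    · exact Or.inr (hfixv γ h hγ)
    · exact Or.inl (hrefl γ h).2
  have hreflcount : ∀ γ : Γ, γ ∉ D.R → (Finset.univ.filter (fun x : V × V => G.Adj x.1 x.2 ∧
      ((γ • x.1 = x.1 ∧ γ • x.2 = x.2) ∨ (γ • x.1 = x.2 ∧ γ • x.2 = x.1)))).card = 2 := by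
    intro γ h
    have h1 := htrace γ
    rw [(hrefl γ h).1, (hrefl γ h).2] at h1
    have h2 : ((Finset.univ.filter (fun x : V × V => G.Adj x.1 x.2 ∧
      ((γ • x.1 = x.1 ∧ γ • x.2 = x.2) ∨ (γ • x.1 = x.2 ∧ γ • x.2 = x.1)))).card : ℝ) = 2 := by
      rw [h1]; ring
    exact_mod_cast h2
  rcases D.hm with hm | hm
  · -- order 4
    have hfixe : ∀ γ : Γ, γ ≠ 1 → (Finset.univ.filter (fun x : V × V => G.Adj x.1 x.2 ∧
      ((γ • x.1 = x.1 ∧ γ • x.2 = x.2) ∨ (γ • x.1 = x.2 ∧ γ • x.2 = x.1)))).card = 2 := by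
      intro γ hγ
      by_cases h : γ ∈ D.R
      · have h1 := hrotcount γ h hγ
        rw [hfixv0 γ h hγ, hm] at h1
        push_cast at h1
        have h2 : ((Finset.univ.filter (fun x : V × V => G.Adj x.1 x.2 ∧
          ((γ • x.1 = x.1 ∧ γ • x.2 = x.2) ∨ (γ • x.1 = x.2 ∧ γ • x.2 = x.1)))).card : ℝ)
            = 2 := by
          rw [h1]; ring
        exact_mod_cast h2
      · exact hreflcount γ h
    obtain ⟨S, x, ef, df, F, hL, hc⟩ := exists_frame_two G D hm hadj hlaman hfixv hfixe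
    obtain ⟨q, hq, hrank⟩ := assembly G τ ρ hρ htr hfix S x Unit ef df F hL
    refine ⟨q, hq, ?_⟩
    rw [hc]
    have : Fintype.card Unit = 1 := Fintype.card_unit
    omega
  · -- order 6
    have hfixr : ∀ γ ∈ D.R, γ ≠ 1 → (Finset.univ.filter (fun x : V × V => G.Adj x.1 x.2 ∧
      ((γ • x.1 = x.1 ∧ γ • x.2 = x.2) ∨ (γ • x.1 = x.2 ∧ γ • x.2 = x.1)))).card = 0 := by
      intro γ h hγ
      have h1 := hrotcount γ h hγ
      rw [hfixv0 γ h hγ, hm] at h1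
      push_cast at h1
      have h2 : ((Finset.univ.filter (fun x : V × V => G.Adj x.1 x.2 ∧
          ((γ • x.1 = x.1 ∧ γ • x.2 = x.2) ∨ (γ • x.1 = x.2 ∧ γ • x.2 = x.1)))).card : ℝ)
            = 0 := by
        rw [h1]; ring
      exact_mod_cast h2
    obtain ⟨S, x, Jf, _, ef, df, F, hL, hc⟩ :=
      exists_frame_three G D hm hadj hlaman hfixv hfixr hreflcount
    obtain ⟨q, hq, hrank⟩ := assembly G τ ρ hρ htr hfix S x Jf ef df F hL
    refine ⟨q, hq, ?_⟩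
    rw [hc]
    omega

end Pool.Agent.SymLaman
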