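import Pool.Agent.Lib_MP_d5472a_co.Count

set_option autoImplicit false
set_option linter.unusedSectionVars false

/-! Facts on dihedral groups of order 4 and 6, and non-parallel vectors. -/

namespace Pool.Agent.SymLaman
open scoped Pointwise

theorem NP.symm {x y : E2} (h : NP x y) : NP y x := by
  intro α β hh
  have := h β α (by rw [add_comm]; exact hh)
  exact ⟨this.2, this.1⟩

theorem NP.ne_left {x y : E2} (h : NP x y) : x ≠ 0 := by
  rintro rfl
  have := h 1 0 (by simp)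
  exact one_ne_zero this.1

theorem exists_NP {x : E2} (hx : x ≠ 0) : ∃ y, NP x y := by
  refine ⟨![- x 1, x 0], ?_⟩
  intro α β h
  have h0 := congr_fun h 0
  have h1 := congr_fun h 1
  simp only [Pi.add_apply, Pi.smul_apply, smul_eq_mul, Matrix.cons_val_zero, Matrix.cons_val_one,
    Pi.zero_apply, Matrix.cons_val_fin_one] at h0 h1
  have hs : x 0 ^ 2 + x 1 ^ 2 ≠ 0 := by
    intro hs
    apply hx
    have h2 : x 0 = 0 := by nlinarith [sq_nonneg (x 0), sq_nonneg (x 1)]
    have h3 : x 1 = 0 := by nlinarith [sq_nonneg (x 0), sq_nonneg (x 1)]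
    funext k
    fin_cases k
    · exact h2
    · exact h3
  constructor
  · have : α * (x 0 ^ 2 + x 1 ^ 2) = 0 := by linear_combination x 0 * h0 + x 1 * h1
    exact (mul_eq_zero.1 this).resolve_right hs
  · have : β * (x 0 ^ 2 + x 1 ^ 2) = 0 := by linear_combination x 0 * h1 - x 1 * h0
    exact (mul_eq_zero.1 this).resolve_right hs

theorem smul_eq_zero_of_ne {x : E2} (hx : x ≠ 0) {α : ℝ} (h : α • x = 0) : α = 0 :=
  (smul_eq_zero.1 h).resolve_right hx

namespace Dih

variable {Γ : Type} [Group Γ] [Fintype Γ] {ρ : Γ →* (E2 →ₗ[ℝ] E2)} (D : Dih Γ ρ)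

include D

theorem m_prime : D.m.Prime := by
  rcases D.hm with h | h <;> rw [h]
  · exact Nat.prime_two
  · exact Nat.prime_three

theorem inv_refl {g : Γ} (hg : g ∉ D.R) : g⁻¹ = g := by
  have := D.refl_sq g hg
  exact inv_eq_of_mul_eq_one_right this

theorem refl_ne_one {g : Γ} (hg : g ∉ D.R) : g ≠ 1 := by
  rintro rfl
  exact hg D.R.one_mem

theorem le_of_mem {H : Subgroup Γ} {r : Γ} (hr : r ∈ D.R) (hr1 : r ≠ 1) (hrH : r ∈ H) :
    D.R ≤ H := by
  haveI : Fact (Nat.card D.R).Prime := ⟨by rw [D.card_R]; exact D.m_prime⟩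
  rcases (H.subgroupOf D.R).eq_bot_or_eq_top_of_prime_card with h | h
  · exfalso
    have : (⟨r, hr⟩ : D.R) ∈ H.subgroupOf D.R := by
      rw [Subgroup.mem_subgroupOf]; exact hrH
    rw [h, Subgroup.mem_bot] at this
    exact hr1 (congr_arg Subtype.val this)
  · exact Subgroup.subgroupOf_eq_top.1 h

theorem eq_top_of {H : Subgroup Γ} (hR : D.R ≤ H) {g : Γ} (hg : g ∉ D.R) (hgH : g ∈ H) :
    H = ⊤ := by
  rw [eq_top_iff]
  intro x _
  by_cases hx : x ∈ D.R
  · exact hR hx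
  · have h1 := hR (D.mul_mem g x hg hx)
    have := H.mul_mem (H.inv_mem hgH) h1
    simpa using this

theorem sub_cases (H : Subgroup Γ) : (∀ h ∈ H, h = 1) ∨
    (∃ g, g ∉ D.R ∧ g ∈ H ∧ ∀ h ∈ H, h = 1 ∨ h = g) ∨ H = D.R ∨ H = ⊤ := by
  by_cases h1 : ∃ r ∈ H, r ∈ D.R ∧ r ≠ 1
  · obtain ⟨r, hrH, hr, hr1⟩ := h1
    have hR := D.le_of_mem hr hr1 hrH
    by_cases h2 : ∃ g ∈ H, g ∉ D.R
    · obtain ⟨g, hgH, hg⟩ := h2
      exact Or.inr (Or.inr (Or.inr (D.eq_top_of hR hg hgH)))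
    · push Not at h2
      exact Or.inr (Or.inr (Or.inl (le_antisymm h2 hR)))
  · push Not at h1
    by_cases h2 : ∃ g ∈ H, g ∉ D.R
    · obtain ⟨g, hgH, hg⟩ := h2
      refine Or.inr (Or.inl ⟨g, hg, hgH, ?_⟩)
      intro h hh
      by_cases hhR : h ∈ D.R
      · exact Or.inl (h1 h hh hhR)
      · right
        have h3 := h1 (g * h) (H.mul_mem hgH hh) (D.mul_mem g h hg hhR)
        rw [← D.inv_refl hg]
        exact eq_inv_of_mul_eq_one_right h3
    · push Not at h2
      left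
      intro h hh
      exact h1 h hh (h2 h hh)

theorem card_top : Nat.card (⊤ : Subgroup Γ) = 2 * D.m := by
  rw [Subgroup.card_top, Nat.card_eq_fintype_card, D.card_G]

theorem conj_mem {r : Γ} (hr : r ∈ D.R) (g : Γ) : g * r * g⁻¹ ∈ D.R := by
  by_cases hg : g ∈ D.R
  · exact D.R.mul_mem (D.R.mul_mem hg hr) (D.R.inv_mem hg)
  · have h1 : g * r ∉ D.R := by
      intro h
      apply hg
      have := D.R.mul_mem h (D.R.inv_mem hr)
      simpa using this
    rw [D.inv_refl hg]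
    exact D.mul_mem _ _ h1 hg

theorem conj_mem' {r : Γ} (hr : r ∈ D.R) (g : Γ) : g⁻¹ * r * g ∈ D.R := by
  have := D.conj_mem hr g⁻¹
  simpa using this

theorem mul_not_mem {r g : Γ} (hr : r ∈ D.R) (hg : g ∉ D.R) : r * g ∉ D.R := by
  intro h
  apply hg
  have := D.R.mul_mem (D.R.inv_mem hr) h
  simpa using this

theorem mul_not_mem' {r g : Γ} (hr : r ∈ D.R) (hg : g ∉ D.R) : g * r ∉ D.R := by
  intro h
  apply hg
  have := D.R.mul_mem h (D.R.inv_mem hr)
  simpa using this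

theorem conj_not_mem {g : Γ} (hg : g ∉ D.R) (x : Γ) : x * g * x⁻¹ ∉ D.R := by
  intro h
  apply hg
  have := D.conj_mem' h x
  simpa [mul_assoc] using this

theorem np_pm {g : Γ} {d d' : E2} (hd : d ≠ 0) (hd' : d' ≠ 0) (h1 : ρ g d = d)
    (h2 : ρ g d' = -d') : NP d d' := by
  intro α β h
  have h3 := congr_arg (ρ g) h
  rw [map_add, map_smul, map_smul, h1, h2, map_zero] at h3
  have h4 : (2 * α) • d = 0 := by
    have := congr_arg₂ (· + ·) h h3
    simp only [smul_neg, add_zero] at this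
    rw [two_mul, add_smul]
    rw [← this]; abel
  have h5 := smul_eq_zero_of_ne hd h4
  have h6 : α = 0 := by linarith
  rw [h6, zero_smul, zero_add] at h
  exact ⟨h6, smul_eq_zero_of_ne hd' h⟩

theorem exists_np_refl {g : Γ} (hg : g ∉ D.R) : ∃ x, NP x (ρ g x) := by
  obtain ⟨d, hd, hd1⟩ := D.dpos g hg
  obtain ⟨d', hd', hd1'⟩ := D.dneg g hg
  refine ⟨d + d', ?_⟩
  intro α β h
  rw [map_add, hd1, hd1'] at h
  have h1 := D.np_pm hd hd' hd1 hd1' (α + β) (α - β) (by
    rw [← h]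
    module)
  constructor <;> linarith [h1.1, h1.2]

theorem exists_np : ∃ x y : E2, NP x y := by
  have : ∃ x : E2, x ≠ 0 := ⟨![1, 0], fun h => by simpa using congr_fun h 0⟩
  obtain ⟨x, hx⟩ := this
  obtain ⟨y, hy⟩ := exists_NP hx
  exact ⟨x, y, hy⟩

/-- for a nontrivial element other than the half-turn there is a vector which is not
parallel to its image -/
theorem exists_np_of {g : Γ} (hg : g ≠ 1) (h : D.m = 2 → g ∉ D.R) : ∃ x, NP x (ρ g x) := by
  by_cases hgR : g ∈ D.R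
  · rcases D.hm with hm | hm
    · exact absurd hgR (h hm)
    · obtain ⟨x, y, hxy⟩ := D.exists_np
      exact ⟨x, D.np_rot hm g hgR hg x hxy.ne_left⟩
  · exact D.exists_np_refl hgR

end Dih

end Pool.Agent.SymLaman
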