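import Pool.Agent.Lib_MP_d5472a_co.Basic

set_option autoImplicit false
set_option linter.unusedSectionVars false

/-! Loads (push forward of stresses) of symmetric frames. -/

namespace Pool.Agent.SymLaman
open scoped Pointwise

variable {Γ : Type} [Group Γ] [Fintype Γ]
variable {Y : Type} [MulAction Γ Y] [DecidableEq Y]
variable {ι : Type} [DecidableEq ι]
variable (ρ : Γ →* (E2 →ₗ[ℝ] E2))

noncomputable def load1 (a b : Y) (x : E2) (ω : Γ → ℝ) : Y →₀ E2 :=
  ∑ γ : Γ, (Finsupp.single (γ • a) (ω γ • ρ γ x) - Finsupp.single (γ • b) (ω γ • ρ γ x))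

noncomputable def load (S : Finset ι) (a b : ι → Y) (x : ι → E2) (ω : ι → Γ → ℝ) : Y →₀ E2 :=
  ∑ i ∈ S, load1 ρ (a i) (b i) (x i) (ω i)

/-- incidence sum -/
noncomputable def inc (a y : Y) (x : E2) (ω : Γ → ℝ) : E2 :=
  ∑ γ : Γ, if γ • a = y then ω γ • ρ γ x else 0

theorem load1_apply (a b y : Y) (x : E2) (ω : Γ → ℝ) :
    load1 ρ a b x ω y = inc ρ a y x ω - inc ρ b y x ω := by
  unfold load1 inc
  rw [Finsupp.finsetSum_apply, ← Finset.sum_sub_distrib]
  refine Finset.sum_congr rfl fun γ _ => ?_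
  rw [Finsupp.sub_apply, Finsupp.single_apply, Finsupp.single_apply]

theorem load_apply (S : Finset ι) (a b : ι → Y) (x : ι → E2) (ω : ι → Γ → ℝ) (y : Y) :
    load ρ S a b x ω y = ∑ i ∈ S, (inc ρ (a i) y (x i) (ω i) - inc ρ (b i) y (x i) (ω i)) := by
  unfold load
  rw [Finsupp.finsetSum_apply]
  exact Finset.sum_congr rfl fun i _ => load1_apply ρ _ _ _ _ _

theorem inc_eq_zero {a y : Y} (h : ∀ γ : Γ, γ • a ≠ y) (x : E2) (ω : Γ → ℝ) :
    inc ρ a y x ω = 0 := by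
  unfold inc
  exact Finset.sum_eq_zero fun γ _ => if_neg (h γ)

theorem inc_free {v : Y} (hv : ∀ γ : Γ, γ • v = v → γ = 1) (g : Γ) (x : E2) (ω : Γ → ℝ) :
    inc ρ (g • v) v x ω = ω g⁻¹ • ρ g⁻¹ x := by
  unfold inc
  rw [Finset.sum_eq_single g⁻¹]
  · rw [if_pos (by rw [smul_smul, inv_mul_cancel, one_smul])]
  · intro γ _ hγ
    rw [if_neg]
    intro h
    apply hγ
    rw [smul_smul] at h
    exact eq_inv_of_mul_eq_one_left (hv _ h)
  · intro h; exact absurd (Finset.mem_univ _) h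

theorem inc_self {v : Y} (hv : ∀ γ : Γ, γ • v = v → γ = 1) (x : E2) (ω : Γ → ℝ) :
    inc ρ v v x ω = ω 1 • x := by
  have := inc_free ρ hv 1 x ω
  simpa using this

theorem inc_stab {v : Y} {g : Γ} (hg : g ≠ 1) (hgv : g • v = v)
    (hv : ∀ γ : Γ, γ • v = v → γ = 1 ∨ γ = g) (x : E2) (ω : Γ → ℝ) :
    inc ρ v v x ω = ω 1 • x + ω g • ρ g x := by
  classical
  unfold inc
  rw [← Finset.sum_filter]
  have : (Finset.univ.filter (fun γ : Γ => γ • v = v)) = {1, g} := by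
    ext γ
    simp only [Finset.mem_filter, Finset.mem_univ, true_and, Finset.mem_insert,
      Finset.mem_singleton]
    constructor
    · exact hv γ
    · rintro (rfl | rfl)
      · exact one_smul _ _
      · exact hgv
  rw [this, Finset.sum_pair (Ne.symm hg)]
  simp

theorem inc_add (a y : Y) (x : E2) (ω ω' : Γ → ℝ) :
    inc ρ a y x (ω + ω') = inc ρ a y x ω + inc ρ a y x ω' := by
  unfold inc
  rw [← Finset.sum_add_distrib]
  refine Finset.sum_congr rfl fun γ _ => ?_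
  split_ifs
  · rw [Pi.add_apply, add_smul]
  · rw [add_zero]

theorem inc_smul (a y : Y) (x : E2) (c : ℝ) (ω : Γ → ℝ) :
    inc ρ a y x (c • ω) = c • inc ρ a y x ω := by
  unfold inc
  rw [Finset.smul_sum]
  refine Finset.sum_congr rfl fun γ _ => ?_
  split_ifs
  · rw [Pi.smul_apply, smul_assoc]
  · rw [smul_zero]

theorem inc_zero (a y : Y) (x : E2) : inc ρ a y x 0 = 0 := by
  have := inc_smul ρ a y x 0 (0 : Γ → ℝ)
  simpa using this

theorem inc_neg (a y : Y) (x : E2) (ω : Γ → ℝ) :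
    inc ρ a y x (-ω) = - inc ρ a y x ω := by
  have := inc_smul ρ a y x (-1) ω
  simpa using this

theorem inc_add_vec (a y : Y) (x x' : E2) (ω : Γ → ℝ) :
    inc ρ a y (x + x') ω = inc ρ a y x ω + inc ρ a y x' ω := by
  unfold inc
  rw [← Finset.sum_add_distrib]
  refine Finset.sum_congr rfl fun γ _ => ?_
  split_ifs
  · rw [map_add, smul_add]
  · rw [add_zero]

theorem inc_smul_vec (a y : Y) (x : E2) (c : ℝ) (ω : Γ → ℝ) :
    inc ρ a y (c • x) ω = c • inc ρ a y x ω := by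
  unfold inc
  rw [Finset.smul_sum]
  refine Finset.sum_congr rfl fun γ _ => ?_
  split_ifs
  · rw [map_smul, smul_comm]
  · rw [smul_zero]

/-- change of base point -/
theorem inc_rebase (a y : Y) (g : Γ) (x : E2) (ω : Γ → ℝ) :
    inc ρ (g • a) y x ω = inc ρ a y (ρ g⁻¹ x) (fun γ => ω (γ * g⁻¹)) := by
  unfold inc
  refine Fintype.sum_equiv (Equiv.mulRight g) _ _ fun γ => ?_
  simp only [Equiv.coe_mulRight, mul_inv_cancel_right]
  rw [smul_smul]
  have : ρ (γ * g) (ρ g⁻¹ x) = ρ γ x := by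
    rw [← Module.End.mul_apply, ← map_mul, mul_inv_cancel_right]
  rw [this]

/-- translation -/
theorem inc_translate (a y : Y) (δ : Γ) (x : E2) (ω : Γ → ℝ) :
    inc ρ a y x (fun γ => ω (δ * γ)) = ρ δ⁻¹ (inc ρ a (δ • y) x ω) := by
  unfold inc
  rw [map_sum]
  refine Fintype.sum_equiv (Equiv.mulLeft δ) _ _ fun γ => ?_
  simp only [Equiv.coe_mulLeft]
  by_cases h : γ • a = y
  · rw [if_pos h, if_pos (by rw [mul_smul, h]), map_smul, ← Module.End.mul_apply, ← map_mul,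
      inv_mul_cancel_left]
  · rw [if_neg h, if_neg, map_zero]
    intro h'
    apply h
    rw [mul_smul] at h'
    exact smul_left_cancel _ h'

/-- the background set of loads is invariant under translations -/
def TInv (K : Set (Y →₀ E2)) : Prop :=
  ∀ z ∈ K, ∀ δ : Γ, ∃ z' ∈ K, ∀ y : Y, z' y = ρ δ⁻¹ (z (δ • y))

/-- independence relative to a background set of loads -/
def Indep (K : Set (Y →₀ E2)) (S : Finset ι) (a b : ι → Y) (x : ι → E2) : Prop :=
  ∀ ω : ι → Γ → ℝ, ∀ z ∈ K, load ρ S a b x ω + z = 0 → ∀ i ∈ S, ω i = 0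

/-- kernel -/
def Ker (K : Set (Y →₀ E2)) (S : Finset ι) (a b : ι → Y) (x : ι → E2) (ω : ι → Γ → ℝ) : Prop :=
  ∃ z ∈ K, load ρ S a b x ω + z = 0

theorem indep_iff (K : Set (Y →₀ E2)) (S : Finset ι) (a b : ι → Y) (x : ι → E2) :
    Indep ρ K S a b x ↔ ∀ ω, Ker ρ K S a b x ω → ∀ i ∈ S, ω i = 0 := by
  unfold Indep Ker
  constructor
  · rintro h ω ⟨z, hz, hzz⟩
    exact h ω z hz hzz
  · intro h ω z hz hzz
    exact h ω ⟨z, hz, hzz⟩

theorem ker_translate {K : Set (Y →₀ E2)} (hK : TInv ρ K) {S : Finset ι} {a b : ι → Y}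
    {x : ι → E2} {ω : ι → Γ → ℝ} (h : Ker ρ K S a b x ω) (δ : Γ) :
    Ker ρ K S a b x (fun i γ => ω i (δ * γ)) := by
  obtain ⟨z, hz, hzz⟩ := h
  obtain ⟨z', hz', hzz'⟩ := hK z hz δ
  refine ⟨z', hz', ?_⟩
  ext1 y
  rw [Finsupp.add_apply, hzz', load_apply]
  have h1 := DFunLike.congr_fun hzz (δ • y)
  rw [Finsupp.add_apply, load_apply, Finsupp.zero_apply] at h1
  have h2 : ∀ i ∈ S, (inc ρ (a i) y (x i) (fun γ => ω i (δ * γ))
      - inc ρ (b i) y (x i) (fun γ => ω i (δ * γ)))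
      = ρ δ⁻¹ (inc ρ (a i) (δ • y) (x i) (ω i) - inc ρ (b i) (δ • y) (x i) (ω i)) := by
    intro i _
    rw [inc_translate, inc_translate, map_sub]
  rw [Finset.sum_congr rfl h2, ← map_sum, ← map_add, h1, map_zero, Finsupp.zero_apply]

/-- if the kernel forces `ω i 1 = 0` then it forces `ω i = 0` -/
theorem ker_force {K : Set (Y →₀ E2)} (hK : TInv ρ K) {S : Finset ι} {a b : ι → Y}
    {x : ι → E2} {i : ι} (h : ∀ ω, Ker ρ K S a b x ω → ω i 1 = 0) :
    ∀ ω, Ker ρ K S a b x ω → ω i = 0 := by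
  intro ω hω
  funext δ
  have := h _ (ker_translate ρ hK hω δ)
  simpa using this

theorem load_congr (S : Finset ι) {a a' b b' : ι → Y} {x x' : ι → E2} {ω ω' : ι → Γ → ℝ}
    (ha : ∀ i ∈ S, a i = a' i) (hb : ∀ i ∈ S, b i = b' i) (hx : ∀ i ∈ S, x i = x' i)
    (hω : ∀ i ∈ S, ω i = ω' i) : load ρ S a b x ω = load ρ S a' b' x' ω' := by
  unfold load
  refine Finset.sum_congr rfl fun i hi => ?_
  rw [ha i hi, hb i hi, hx i hi, hω i hi]

theorem load_erase_of_zero {S : Finset ι} {a b : ι → Y} {x : ι → E2} {ω : ι → Γ → ℝ} {i : ι}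
    (hω : ω i = 0) : load ρ S a b x ω = load ρ (S.erase i) a b x ω := by
  by_cases hi : i ∈ S
  · unfold load
    rw [← Finset.add_sum_erase S _ hi]
    have : load1 ρ (a i) (b i) (x i) (ω i) = 0 := by
      ext1 y
      rw [load1_apply, hω, inc_zero, inc_zero, sub_zero, Finsupp.zero_apply]
    rw [this, zero_add]
  · rw [Finset.erase_eq_of_notMem hi]

theorem ker_erase {K : Set (Y →₀ E2)} {S : Finset ι} {a b : ι → Y}
    {x : ι → E2} {i : ι} {ω : ι → Γ → ℝ} (h : Ker ρ K S a b x ω) (hω : ω i = 0) :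
    Ker ρ K (S.erase i) a b x ω := by
  obtain ⟨z, hz, hzz⟩ := h
  refine ⟨z, hz, ?_⟩
  rw [← load_erase_of_zero ρ hω]
  exact hzz

/-- removing an orbit whose coefficients are forced to vanish -/
theorem indep_of_erase {K : Set (Y →₀ E2)} {S : Finset ι} {a b : ι → Y} {x x' : ι → E2} {i : ι}
    (hx : ∀ j ∈ S.erase i, x' j = x j)
    (hI : Indep ρ K (S.erase i) a b x)
    (h : ∀ ω, Ker ρ K S a b x' ω → ω i = 0) : Indep ρ K S a b x' := by
  rw [indep_iff] at hI ⊢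
  intro ω hω j hj
  by_cases hji : j = i
  · rw [hji]; exact h ω hω
  · have h0 := h ω hω
    have h1 := ker_erase ρ hω h0
    refine hI ω ?_ j (Finset.mem_erase.2 ⟨hji, hj⟩)
    obtain ⟨z, hz, hzz⟩ := h1
    refine ⟨z, hz, ?_⟩
    rw [← hzz]
    rw [load_congr ρ (S.erase i) (fun _ _ => rfl) (fun _ _ => rfl)
      (fun j hj => (hx j hj).symm) (fun _ _ => rfl)]

theorem indep_mono {K : Set (Y →₀ E2)} {S S' : Finset ι} (hSS : S' ⊆ S) {a b : ι → Y}
    {x : ι → E2} (hI : Indep ρ K S a b x) : Indep ρ K S' a b x := by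
  intro ω z hz hzz i hi
  let ω' : ι → Γ → ℝ := fun j => if j ∈ S' then ω j else 0
  have h1 : load ρ S a b x ω' = load ρ S' a b x ω := by
    unfold load
    rw [← Finset.sum_subset hSS]
    · refine Finset.sum_congr rfl fun j hj => ?_
      simp only [ω', if_pos hj]
    · intro j _ hj
      simp only [ω', if_neg hj]
      ext1 y
      rw [load1_apply, inc_zero, inc_zero, sub_zero, Finsupp.zero_apply]
  have h2 := hI ω' z hz (by rw [h1]; exact hzz) i (hSS hi)
  simpa only [ω', if_pos hi] using h2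

/-! ### changing representatives of an orbit -/

/-- `(a', b')` is another representative of the orbit of the edge `(a, b)` -/
def Rel (Γ : Type) [Group Γ] {Y : Type} [MulAction Γ Y] (a b a' b' : Y) : Prop :=
  ∃ g : Γ, (a' = g • a ∧ b' = g • b) ∨ (a' = g • b ∧ b' = g • a)

theorem load1_rel {a b a' b' : Y} (h : Rel Γ a b a' b') (x : E2) :
    ∃ x' : E2, ∀ ω : Γ → ℝ, ∃ ω' : Γ → ℝ, load1 ρ a b x' ω = load1 ρ a' b' x ω' ∧
      (ω' = 0 → ω = 0) := by
  obtain ⟨g, (⟨rfl, rfl⟩ | ⟨rfl, rfl⟩)⟩ := h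
  · refine ⟨ρ g⁻¹ x, fun ω => ⟨fun γ => ω (γ * g), ?_, ?_⟩⟩
    · ext1 y
      rw [load1_apply, load1_apply, inc_rebase, inc_rebase]
      simp only [inv_mul_cancel_right]
    · intro h
      funext γ
      have := congr_fun h (γ * g⁻¹)
      simpa using this
  · refine ⟨ρ g⁻¹ x, fun ω => ⟨fun γ => - ω (γ * g), ?_, ?_⟩⟩
    · ext1 y
      rw [load1_apply, load1_apply, inc_rebase, inc_rebase]
      have : (fun γ => - ω (γ * g⁻¹ * g)) = - ω := by
        funext γ; simp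
      rw [this, inc_neg, inc_neg]
      abel
    · intro h
      funext γ
      have := congr_fun h (γ * g⁻¹)
      simpa using this

theorem exists_indep_of_rel {K : Set (Y →₀ E2)} {S : Finset ι} {a b a' b' : ι → Y}
    (hrel : ∀ i ∈ S, Rel Γ (a i) (b i) (a' i) (b' i))
    (h : ∃ x, Indep ρ K S a' b' x) : ∃ x, Indep ρ K S a b x := by
  obtain ⟨x, hx⟩ := h
  have h1 : ∀ i, ∃ x' : E2, i ∈ S → ∀ ω : Γ → ℝ, ∃ ω' : Γ → ℝ,
      load1 ρ (a i) (b i) x' ω = load1 ρ (a' i) (b' i) (x i) ω' ∧ (ω' = 0 → ω = 0) := by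
    intro i
    by_cases hi : i ∈ S
    · obtain ⟨x', hx'⟩ := load1_rel ρ (hrel i hi) (x i)
      exact ⟨x', fun _ => hx'⟩
    · exact ⟨0, fun h => absurd h hi⟩
  choose x' hx' using h1
  refine ⟨x', ?_⟩
  intro ω z hz hzz i hi
  have h2 : ∀ j, ∃ ω' : Γ → ℝ, j ∈ S →
      load1 ρ (a j) (b j) (x' j) (ω j) = load1 ρ (a' j) (b' j) (x j) ω' ∧ (ω' = 0 → ω j = 0) := by
    intro j
    by_cases hj : j ∈ S
    · obtain ⟨ω', h⟩ := hx' j hj (ω j)
      exact ⟨ω', fun _ => h⟩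
    · exact ⟨0, fun h => absurd h hj⟩
  choose ω' hω' using h2
  have h3 : load ρ S a b x' ω = load ρ S a' b' x ω' := by
    unfold load
    exact Finset.sum_congr rfl fun j hj => (hω' j hj).1
  refine (hω' i hi).2 (hx ω' z hz ?_ i hi)
  rw [← h3]; exact hzz

end Pool.Agent.SymLaman
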