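import Pool.Agent.Lib_MP_d5472a_co.Grp

set_option autoImplicit false
set_option linter.unusedSectionVars false

/-! Local reductions at a vertex of small degree. -/

namespace Pool.Agent.SymLaman
open scoped Pointwise

variable {Γ : Type} [Group Γ] [Fintype Γ]
variable {Y : Type} [MulAction Γ Y] [DecidableEq Y]
variable {ι : Type} [DecidableEq ι]
variable {ρ : Γ →* (E2 →ₗ[ℝ] E2)}
variable {K : Set (Y →₀ E2)} {S : Finset ι} {a b : ι → Y}

theorem ker_local {v : Y} (hKv : ∀ z ∈ K, z v = 0) {T : Finset ι} (hTS : T ⊆ S)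
    (hout : ∀ i ∈ S, i ∉ T → (∀ γ : Γ, γ • a i ≠ v) ∧ (∀ γ : Γ, γ • b i ≠ v))
    {x : ι → E2} {ω : ι → Γ → ℝ} (h : Ker ρ K S a b x ω) :
    ∑ i ∈ T, (inc ρ (a i) v (x i) (ω i) - inc ρ (b i) v (x i) (ω i)) = 0 := by
  obtain ⟨z, hz, hzz⟩ := h
  have h1 := DFunLike.congr_fun hzz v
  rw [Finsupp.add_apply, load_apply, Finsupp.zero_apply, hKv z hz, add_zero] at h1
  rw [← h1]
  refine Finset.sum_subset hTS fun i hi hiT => ?_
  rw [inc_eq_zero ρ (hout i hi hiT).1, inc_eq_zero ρ (hout i hi hiT).2, sub_zero]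

theorem indep_ne_zero (h0 : (0 : Y →₀ E2) ∈ K) {x : ι → E2} (hI : Indep ρ K S a b x) {i : ι}
    (hi : i ∈ S) : x i ≠ 0 := by
  intro hx
  have h1 := hI (fun j => if j = i then 1 else 0) 0 h0 ?_ i hi
  · have := congr_fun h1 1
    simp at this
  · rw [add_zero]
    unfold load
    refine Finset.sum_eq_zero fun j _ => ?_
    ext1 y
    rw [load1_apply, Finsupp.zero_apply]
    by_cases hj : j = i
    · subst hj
      rw [hx]
      have h2 : ∀ c : Y, inc ρ c y 0 ((fun j' => if j' = j then (1 : Γ → ℝ) else 0) j) = 0 := by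
        intro c
        have := inc_smul_vec ρ c y (0 : E2) 0 ((fun j' => if j' = j then (1 : Γ → ℝ) else 0) j)
        simpa using this
      rw [h2, h2, sub_zero]
    · simp only [if_neg hj]
      rw [inc_zero, inc_zero, sub_zero]

/-- a vertex fixed by one reflection, met by one orbit only once -/
theorem local_stab (hK : TInv ρ K) {v : Y} (hKv : ∀ z ∈ K, z v = 0) {g : Γ} (hg : g ≠ 1)
    (hgv : g • v = v) (hv : ∀ γ : Γ, γ • v = v → γ = 1 ∨ γ = g) {x0 : E2}
    (hx0 : NP x0 (ρ g x0)) {i : ι} (hi : i ∈ S)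
    (ha : a i = v) (hb : ∀ γ : Γ, γ • b i ≠ v)
    (hout : ∀ j ∈ S, j ≠ i → (∀ γ : Γ, γ • a j ≠ v) ∧ (∀ γ : Γ, γ • b j ≠ v))
    {x : ι → E2} (hI : Indep ρ K (S.erase i) a b x) : ∃ x', Indep ρ K S a b x' := by
  refine ⟨Function.update x i x0, indep_of_erase ρ (x := x) (i := i) ?_ hI ?_⟩
  · intro j hj
    rw [Function.update_of_ne (Finset.ne_of_mem_erase hj)]
  · refine ker_force ρ hK ?_
    intro ω hω
    have h1 := ker_local hKv (T := {i}) (Finset.singleton_subset_iff.2 hi) ?_ hω
    · rw [Finset.sum_singleton, Function.update_self, inc_eq_zero ρ hb, sub_zero, ha,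
        inc_stab ρ hg hgv hv] at h1
      exact (hx0 _ _ h1).1
    · intro j hj hj'
      exact hout j hj (by simpa using hj')

/-- a free vertex met by one orbit only once -/
theorem local_ext1 (hK : TInv ρ K) {v : Y} (hKv : ∀ z ∈ K, z v = 0)
    (hv : ∀ γ : Γ, γ • v = v → γ = 1) {x0 : E2}
    (hx0 : x0 ≠ 0) {i : ι} (hi : i ∈ S)
    (ha : a i = v) (hb : ∀ γ : Γ, γ • b i ≠ v)
    (hout : ∀ j ∈ S, j ≠ i → (∀ γ : Γ, γ • a j ≠ v) ∧ (∀ γ : Γ, γ • b j ≠ v))
    {x : ι → E2} (hI : Indep ρ K (S.erase i) a b x) : ∃ x', Indep ρ K S a b x' := by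
  refine ⟨Function.update x i x0, indep_of_erase ρ (x := x) (i := i) ?_ hI ?_⟩
  · intro j hj
    rw [Function.update_of_ne (Finset.ne_of_mem_erase hj)]
  · refine ker_force ρ hK ?_
    intro ω hω
    have h1 := ker_local hKv (T := {i}) (Finset.singleton_subset_iff.2 hi) ?_ hω
    · rw [Finset.sum_singleton, Function.update_self, inc_eq_zero ρ hb, sub_zero, ha,
        inc_self ρ hv] at h1
      exact smul_eq_zero_of_ne hx0 h1
    · intro j hj hj'
      exact hout j hj (by simpa using hj')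

/-- a free vertex met by two orbits, once each -/
theorem local_ext2 (hK : TInv ρ K) {v : Y} (hKv : ∀ z ∈ K, z v = 0)
    (hv : ∀ γ : Γ, γ • v = v → γ = 1) {x0 y0 : E2}
    (hx0 : NP x0 y0) {i j : ι} (hi : i ∈ S) (hj : j ∈ S) (hij : i ≠ j)
    (ha : a i = v) (hb : ∀ γ : Γ, γ • b i ≠ v) (haj : a j = v) (hbj : ∀ γ : Γ, γ • b j ≠ v)
    (hout : ∀ k ∈ S, k ≠ i → k ≠ j → (∀ γ : Γ, γ • a k ≠ v) ∧ (∀ γ : Γ, γ • b k ≠ v))
    {x : ι → E2} (hI : Indep ρ K ((S.erase i).erase j) a b x) : ∃ x', Indep ρ K S a b x' := by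
  set x' := Function.update (Function.update x i x0) j y0 with hx'
  have hxi : x' i = x0 := by
    rw [hx', Function.update_of_ne hij, Function.update_self]
  have hxj : x' j = y0 := by
    rw [hx', Function.update_self]
  have key : ∀ ω, Ker ρ K S a b x' ω → ω i 1 = 0 ∧ ω j 1 = 0 := by
    intro ω hω
    have h1 := ker_local hKv (T := {i, j}) (by
      intro k hk
      rcases Finset.mem_insert.1 hk with rfl | hk
      · exact hi
      · rw [Finset.mem_singleton.1 hk]; exact hj) ?_ hω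
    · rw [Finset.sum_pair hij, hxi, hxj, inc_eq_zero ρ hb, inc_eq_zero ρ hbj, sub_zero, sub_zero,
        ha, haj, inc_self ρ hv, inc_self ρ hv] at h1
      exact hx0 _ _ h1
    · intro k hk hk'
      simp only [Finset.mem_insert, Finset.mem_singleton, not_or] at hk'
      exact hout k hk hk'.1 hk'.2
  have hi0 := ker_force ρ hK (fun ω hω => (key ω hω).1)
  have hj0 := ker_force ρ hK (fun ω hω => (key ω hω).2)
  refine ⟨x', ?_⟩
  have hI' : Indep ρ K (S.erase i) a b x' := by
    refine indep_of_erase ρ (x := x) (i := j) ?_ hI ?_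
    · intro k hk
      have h1 := Finset.ne_of_mem_erase hk
      have h2 := Finset.ne_of_mem_erase (Finset.mem_of_mem_erase hk)
      rw [hx', Function.update_of_ne h1, Function.update_of_ne h2]
    · -- kernel of the erased system
      have key2 : ∀ ω, Ker ρ K (S.erase i) a b x' ω → ω j 1 = 0 := by
        intro ω hω
        have h1 := ker_local hKv (T := {j}) (by
          intro k hk
          rw [Finset.mem_singleton.1 hk]; exact Finset.mem_erase.2 ⟨Ne.symm hij, hj⟩) ?_ hω
        · rw [Finset.sum_singleton, hxj, inc_eq_zero ρ hbj, sub_zero, haj, inc_self ρ hv] at h1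
          exact smul_eq_zero_of_ne hx0.symm.ne_left h1
        · intro k hk hk'
          simp only [Finset.mem_singleton] at hk'
          exact hout k (Finset.mem_of_mem_erase hk) (Finset.ne_of_mem_erase hk) hk'
      exact ker_force ρ hK key2
  exact indep_of_erase ρ (fun k _ => rfl) hI' hi0

/-- a free vertex met only by an edge joining it to its own orbit -/
theorem local_int1 (hK : TInv ρ K) {v : Y} (hKv : ∀ z ∈ K, z v = 0)
    (hv : ∀ γ : Γ, γ • v = v → γ = 1) {x0 : E2} {g : Γ}
    (hx0 : NP x0 (ρ g⁻¹ x0)) {i : ι} (hi : i ∈ S)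
    (ha : a i = v) (hb : b i = g • v)
    (hout : ∀ j ∈ S, j ≠ i → (∀ γ : Γ, γ • a j ≠ v) ∧ (∀ γ : Γ, γ • b j ≠ v))
    {x : ι → E2} (hI : Indep ρ K (S.erase i) a b x) : ∃ x', Indep ρ K S a b x' := by
  refine ⟨Function.update x i x0, indep_of_erase ρ (x := x) (i := i) ?_ hI ?_⟩
  · intro j hj
    rw [Function.update_of_ne (Finset.ne_of_mem_erase hj)]
  · refine ker_force ρ hK ?_
    intro ω hω
    have h1 := ker_local hKv (T := {i}) (Finset.singleton_subset_iff.2 hi) ?_ hω
    · rw [Finset.sum_singleton, Function.update_self, hb, inc_free ρ hv, ha,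
        inc_self ρ hv, sub_eq_add_neg, ← neg_smul] at h1
      exact (hx0 _ _ h1).1
    · intro j hj hj'
      exact hout j hj (by simpa using hj')

/-- a free vertex met by an edge joining it to its own orbit and one more edge -/
theorem local_int2 (hK : TInv ρ K) {v : Y} (hKv : ∀ z ∈ K, z v = 0)
    (hv : ∀ γ : Γ, γ • v = v → γ = 1) {x0 : E2} {g : Γ}
    (hx0 : NP x0 (ρ g⁻¹ x0)) {i j : ι} (hi : i ∈ S) (hj : j ∈ S) (hij : i ≠ j)
    (ha : a i = v) (hb : b i = g • v) (haj : a j = v) (hbj : ∀ γ : Γ, γ • b j ≠ v)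
    (hout : ∀ k ∈ S, k ≠ i → k ≠ j → (∀ γ : Γ, γ • a k ≠ v) ∧ (∀ γ : Γ, γ • b k ≠ v))
    {x : ι → E2} (hI : Indep ρ K ((S.erase i).erase j) a b x) : ∃ x', Indep ρ K S a b x' := by
  set x' := Function.update (Function.update x i x0) j (ρ g⁻¹ x0) with hx'
  have hxi : x' i = x0 := by
    rw [hx', Function.update_of_ne hij, Function.update_self]
  have hxj : x' j = ρ g⁻¹ x0 := by
    rw [hx', Function.update_self]
  have key : ∀ ω, Ker ρ K S a b x' ω → ω i 1 = 0 := by
    intro ω hω
    have h1 := ker_local hKv (T := {i, j}) (by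
      intro k hk
      rcases Finset.mem_insert.1 hk with rfl | hk
      · exact hi
      · rw [Finset.mem_singleton.1 hk]; exact hj) ?_ hω
    · rw [Finset.sum_pair hij, hxi, hxj, hb, inc_free ρ hv, inc_eq_zero ρ hbj, sub_zero,
        ha, haj, inc_self ρ hv, inc_self ρ hv] at h1
      refine (hx0 (ω i 1) (ω j 1 - ω i g⁻¹) ?_).1
      rw [← h1]
      module
    · intro k hk hk'
      simp only [Finset.mem_insert, Finset.mem_singleton, not_or] at hk'
      exact hout k hk hk'.1 hk'.2
  have hi0 := ker_force ρ hK key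
  refine ⟨x', ?_⟩
  have hI' : Indep ρ K (S.erase i) a b x' := by
    refine indep_of_erase ρ (x := x) (i := j) ?_ hI ?_
    · intro k hk
      have h1 := Finset.ne_of_mem_erase hk
      have h2 := Finset.ne_of_mem_erase (Finset.mem_of_mem_erase hk)
      rw [hx', Function.update_of_ne h1, Function.update_of_ne h2]
    · have key2 : ∀ ω, Ker ρ K (S.erase i) a b x' ω → ω j 1 = 0 := by
        intro ω hω
        have h1 := ker_local hKv (T := {j}) (by
          intro k hk
          rw [Finset.mem_singleton.1 hk]; exact Finset.mem_erase.2 ⟨Ne.symm hij, hj⟩) ?_ hω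
        · rw [Finset.sum_singleton, hxj, inc_eq_zero ρ hbj, sub_zero, haj, inc_self ρ hv] at h1
          exact smul_eq_zero_of_ne hx0.symm.ne_left h1
        · intro k hk hk'
          simp only [Finset.mem_singleton] at hk'
          exact hout k (Finset.mem_of_mem_erase hk) (Finset.ne_of_mem_erase hk) hk'
      exact ker_force ρ hK key2
  exact indep_of_erase ρ (fun k _ => rfl) hI' hi0

/-- a free vertex met by three orbits, once each: replace the three orbits by one -/
theorem local_ext3 (hK : TInv ρ K) (hK0 : (0 : Y →₀ E2) ∈ K) {v : Y} (hKv : ∀ z ∈ K, z v = 0)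
    (hv : ∀ γ : Γ, γ • v = v → γ = 1) {p q r : ι} (hp : p ∈ S) (hq : q ∈ S) (hr : r ∈ S)
    (hpq : p ≠ q) (hpr : p ≠ r) (hqr : q ≠ r)
    (hap : a p = v) (hbp : ∀ γ : Γ, γ • b p ≠ v)
    (haq : a q = v) (hbq : ∀ γ : Γ, γ • b q ≠ v)
    (har : a r = v) (hbr : ∀ γ : Γ, γ • b r ≠ v)
    (hout : ∀ k ∈ S, k ≠ p → k ≠ q → k ≠ r →
      (∀ γ : Γ, γ • a k ≠ v) ∧ (∀ γ : Γ, γ • b k ≠ v))
    {x : ι → E2}
    (hI : Indep ρ K ((S.erase r).erase q) (Function.update a p (b q)) b x) :
    ∃ x', Indep ρ K S a b x' := by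
  have hpS : p ∈ (S.erase r).erase q :=
    Finset.mem_erase.2 ⟨hpq, Finset.mem_erase.2 ⟨hpr, hp⟩⟩
  have hxp : x p ≠ 0 := indep_ne_zero hK0 hI hpS
  obtain ⟨y, hy⟩ := exists_NP hxp
  set x' := Function.update (Function.update x q (x p)) r y with hx'
  have hx'p : x' p = x p := by
    rw [hx', Function.update_of_ne hpr, Function.update_of_ne hpq]
  have hx'q : x' q = x p := by
    rw [hx', Function.update_of_ne hqr, Function.update_self]
  have hx'r : x' r = y := by rw [hx', Function.update_self]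
  have key : ∀ ω, Ker ρ K S a b x' ω → ω p 1 + ω q 1 = 0 ∧ ω r 1 = 0 := by
    intro ω hω
    have h1 := ker_local hKv (T := {p, q, r}) (by
      intro k hk
      simp only [Finset.mem_insert, Finset.mem_singleton] at hk
      rcases hk with rfl | rfl | rfl
      · exact hp
      · exact hq
      · exact hr) ?_ hω
    · rw [Finset.sum_insert (by simp [hpq, hpr]), Finset.sum_pair hqr, hx'p, hx'q, hx'r,
        inc_eq_zero ρ hbp, inc_eq_zero ρ hbq, inc_eq_zero ρ hbr, sub_zero, sub_zero, sub_zero,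
        hap, haq, har, inc_self ρ hv, inc_self ρ hv, inc_self ρ hv, ← add_assoc, ← add_smul] at h1
      exact hy _ _ h1
    · intro k hk hk'
      simp only [Finset.mem_insert, Finset.mem_singleton, not_or] at hk'
      exact hout k hk hk'.1 hk'.2.1 hk'.2.2
  refine ⟨x', ?_⟩
  rw [indep_iff]
  intro ω hω
  have hr0 : ω r = 0 := ker_force ρ hK (fun ω hω => (key ω hω).2) ω hω
  have hq0 : ω q = - ω p := by
    funext δ
    have := (key _ (ker_translate ρ hK hω δ)).1
    simp only [mul_one] at this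
    rw [Pi.neg_apply]; linarith
  have hload : load ρ S a b x' ω =
      load ρ ((S.erase r).erase q) (Function.update a p (b q)) b x ω := by
    rw [load_erase_of_zero ρ hr0]
    have hqS : q ∈ S.erase r := Finset.mem_erase.2 ⟨hqr, hq⟩
    unfold load
    rw [← Finset.add_sum_erase (S.erase r) _ hqS, ← Finset.add_sum_erase _ _ hpS,
      ← Finset.add_sum_erase _ (fun i => load1 ρ (Function.update a p (b q) i) (b i) (x i) (ω i)) hpS,
      ← add_assoc]
    congr 1
    · rw [Function.update_self, hx'p, hx'q, hq0, hap, haq]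
      ext1 y
      rw [Finsupp.add_apply, load1_apply, load1_apply, load1_apply, inc_neg, inc_neg]
      abel
    · refine Finset.sum_congr rfl fun k hk => ?_
      have hkp : k ≠ p := Finset.ne_of_mem_erase hk
      have hk1 := Finset.mem_of_mem_erase hk
      have hkq : k ≠ q := Finset.ne_of_mem_erase hk1
      have hkr : k ≠ r := Finset.ne_of_mem_erase (Finset.mem_of_mem_erase hk1)
      rw [Function.update_of_ne hkp, hx', Function.update_of_ne hkr, Function.update_of_ne hkq]
  have h2 : ∀ i ∈ (S.erase r).erase q, ω i = 0 := by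
    obtain ⟨z, hz, hzz⟩ := hω
    exact hI ω z hz (by rw [← hload]; exact hzz)
  intro i hi
  by_cases hir : i = r
  · rw [hir]; exact hr0
  by_cases hiq : i = q
  · rw [hiq, hq0, h2 p hpS, neg_zero]
  exact h2 i (Finset.mem_erase.2 ⟨hiq, Finset.mem_erase.2 ⟨hir, hi⟩⟩)

end Pool.Agent.SymLaman
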