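import Pool.Agent.Lib_MP_d5472a_co.Viol

set_option autoImplicit false
set_option linter.unusedSectionVars false

/-! Degrees, normalisation of representatives. -/

namespace Pool.Agent.SymLaman
open scoped Pointwise

variable {Γ : Type} [Group Γ] [Fintype Γ]
variable {Y : Type} [MulAction Γ Y] [DecidableEq Y]
variable {ι : Type} [DecidableEq ι]
variable {ρ : Γ →* (E2 →ₗ[ℝ] E2)}

/-- number of group elements sending `a` to `v` -/
def cnt (Γ : Type) [Group Γ] [Fintype Γ] {Y : Type} [MulAction Γ Y] [DecidableEq Y]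
    (a v : Y) : ℕ := (Finset.univ.filter (fun γ : Γ => γ • a = v)).card

theorem cnt_smul (a v : Y) (g : Γ) : cnt Γ (g • a) v = cnt Γ a v := by
  unfold cnt
  refine Finset.card_bij (fun γ _ => γ * g) ?_ ?_ ?_
  · intro γ hγ
    simp only [Finset.mem_filter, Finset.mem_univ, true_and] at hγ ⊢
    rw [mul_smul]; exact hγ
  · intro γ _ γ' _ h
    exact mul_right_cancel h
  · intro γ hγ
    simp only [Finset.mem_filter, Finset.mem_univ, true_and] at hγ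
    refine ⟨γ * g⁻¹, ?_, by simp⟩
    simp only [Finset.mem_filter, Finset.mem_univ, true_and]
    rw [smul_smul, inv_mul_cancel_right]
    exact hγ

theorem cnt_smul_right (a v : Y) (g : Γ) : cnt Γ a (g • v) = cnt Γ a v := by
  unfold cnt
  refine Finset.card_bij (fun γ _ => g⁻¹ * γ) ?_ ?_ ?_
  · intro γ hγ
    simp only [Finset.mem_filter, Finset.mem_univ, true_and] at hγ ⊢
    rw [mul_smul, hγ, inv_smul_smul]
  · intro γ _ γ' _ h
    exact mul_left_cancel h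
  · intro γ hγ
    simp only [Finset.mem_filter, Finset.mem_univ, true_and] at hγ
    refine ⟨g * γ, ?_, by simp⟩
    simp only [Finset.mem_filter, Finset.mem_univ, true_and]
    rw [mul_smul, hγ]

theorem cnt_rel {a b a' b' : Y} (h : Rel Γ a b a' b') (v : Y) :
    cnt Γ a' v + cnt Γ b' v = cnt Γ a v + cnt Γ b v := by
  obtain ⟨g, (⟨rfl, rfl⟩ | ⟨rfl, rfl⟩)⟩ := h
  · rw [cnt_smul, cnt_smul]
  · rw [cnt_smul, cnt_smul, add_comm]

theorem cnt_pos {a v : Y} (h : 0 < cnt Γ a v) : ∃ γ : Γ, γ • a = v := by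
  unfold cnt at h
  obtain ⟨γ, hγ⟩ := Finset.card_pos.1 h
  exact ⟨γ, by simpa using hγ⟩

theorem cnt_of_smul {a v : Y} (γ : Γ) (h : γ • a = v) : cnt Γ a v = cnt Γ v v := by
  rw [← h, cnt_smul]

theorem cnt_eq_zero {a v : Y} (h : ∀ γ : Γ, γ • a ≠ v) : cnt Γ a v = 0 := by
  by_contra h0
  obtain ⟨γ, hγ⟩ := cnt_pos (Nat.pos_of_ne_zero h0)
  exact h γ hγ

theorem sum_cnt {A : Finset Y} {a : Y} (h : ∀ γ : Γ, γ • a ∈ A) :
    ∑ v ∈ A, cnt Γ a v = Fintype.card Γ := by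
  unfold cnt
  have := Finset.card_eq_sum_card_fiberwise (f := fun γ : Γ => γ • a) (s := Finset.univ) (t := A)
    (fun γ _ => h γ)
  rw [← Finset.card_univ]
  exact this.symm

theorem exists_rel (a b v : Y) : ∃ a' b' : Y, Rel Γ a b a' b' ∧
    (a' = v ∨ ((∀ γ : Γ, γ • a' ≠ v) ∧ (∀ γ : Γ, γ • b' ≠ v))) := by
  by_cases h1 : ∃ γ : Γ, γ • a = v
  · obtain ⟨γ, hγ⟩ := h1
    exact ⟨γ • a, γ • b, ⟨γ, Or.inl ⟨rfl, rfl⟩⟩, Or.inl hγ⟩
  by_cases h2 : ∃ γ : Γ, γ • b = v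
  · obtain ⟨γ, hγ⟩ := h2
    exact ⟨γ • b, γ • a, ⟨γ, Or.inr ⟨rfl, rfl⟩⟩, Or.inl hγ⟩
  push Not at h1 h2
  exact ⟨a, b, ⟨1, Or.inl ⟨(one_smul _ _).symm, (one_smul _ _).symm⟩⟩, Or.inr ⟨h1, h2⟩⟩

/-- all endpoints of the orbits -/
def supp (Γ : Type) [Group Γ] [Fintype Γ] {Y : Type} [MulAction Γ Y] [DecidableEq Y]
    {ι : Type} [DecidableEq ι] (S : Finset ι) (a b : ι → Y) : Finset Y :=
  S.biUnion (fun i => Finset.univ.image (fun γ : Γ => γ • a i) ∪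
    Finset.univ.image (fun γ : Γ => γ • b i))

theorem mem_supp {S : Finset ι} {a b : ι → Y} {v : Y} :
    v ∈ supp Γ S a b ↔ ∃ i ∈ S, (∃ γ : Γ, γ • a i = v) ∨ (∃ γ : Γ, γ • b i = v) := by
  unfold supp
  simp only [Finset.mem_biUnion, Finset.mem_union, Finset.mem_image, Finset.mem_univ, true_and]

theorem kk_eq_card {a b : Y} {X : Finset Y} (ha : ∀ γ : Γ, γ • a ∈ X) (hb : ∀ γ : Γ, γ • b ∈ X) :
    kk Γ a b X = Fintype.card Γ := by
  unfold kk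
  rw [Finset.filter_true_of_mem (fun γ _ => ⟨ha γ, hb γ⟩), Finset.card_univ]

theorem exists_low {A : Finset Y} (hinv : InvH (⊤ : Subgroup Γ) A) {S : Finset ι}
    (hS : S.Nonempty) {a b : ι → Y} (hab : ∀ i ∈ S, a i ∈ A ∧ b i ∈ A)
    (hpos : ∀ X ⊆ A, X.Nonempty → 2 ≤ bb (Γ := Γ) S a b X) :
    ∃ v ∈ A, 0 < ∑ i ∈ S, (cnt Γ (a i) v + cnt Γ (b i) v) ∧
      ∑ i ∈ S, (cnt Γ (a i) v + cnt Γ (b i) v) < 4 := by
  set V1 := supp Γ S a b with hV1
  have hV1A : V1 ⊆ A := by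
    intro v hv
    obtain ⟨i, hi, (⟨γ, rfl⟩ | ⟨γ, rfl⟩)⟩ := mem_supp.1 hv
    · exact hinv γ (Subgroup.mem_top γ) _ (hab i hi).1
    · exact hinv γ (Subgroup.mem_top γ) _ (hab i hi).2
  have hV1n : V1.Nonempty := by
    obtain ⟨i, hi⟩ := hS
    exact ⟨a i, mem_supp.2 ⟨i, hi, Or.inl ⟨1, one_smul _ _⟩⟩⟩
  have h1 := hpos V1 hV1A hV1n
  have hmema : ∀ i ∈ S, ∀ γ : Γ, γ • a i ∈ V1 := fun i hi γ => mem_supp.2 ⟨i, hi, Or.inl ⟨γ, rfl⟩⟩
  have hmemb : ∀ i ∈ S, ∀ γ : Γ, γ • b i ∈ V1 := fun i hi γ => mem_supp.2 ⟨i, hi, Or.inr ⟨γ, rfl⟩⟩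
  have h2 : ∑ i ∈ S, (kk Γ (a i) (b i) V1 : ℤ) = S.card * Fintype.card Γ := by
    rw [Finset.sum_congr rfl (fun i hi => by rw [kk_eq_card (hmema i hi) (hmemb i hi)]),
      Finset.sum_const, nsmul_eq_mul]
  have h3 : ∑ v ∈ V1, ∑ i ∈ S, (cnt Γ (a i) v + cnt Γ (b i) v) = S.card * (2 * Fintype.card Γ) := by
    rw [Finset.sum_comm]
    rw [Finset.sum_congr rfl (fun i hi => by
      rw [Finset.sum_add_distrib, sum_cnt (hmema i hi), sum_cnt (hmemb i hi), ← two_mul]),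
      Finset.sum_const, smul_eq_mul]
  have h4 : ∑ v ∈ V1, ∑ i ∈ S, (cnt Γ (a i) v + cnt Γ (b i) v) < ∑ v ∈ V1, 4 := by
    rw [h3, Finset.sum_const, smul_eq_mul]
    unfold bb at h1
    rw [h2] at h1
    have h5 : ((S.card * (2 * Fintype.card Γ) : ℕ) : ℤ) < ((V1.card * 4 : ℕ) : ℤ) := by
      push_cast
      linarith
    exact_mod_cast h5
  obtain ⟨v, hv, hlt⟩ := Finset.exists_lt_of_sum_lt h4
  refine ⟨v, hV1A hv, ?_, hlt⟩
  obtain ⟨i, hi, h⟩ := mem_supp.1 hv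
  refine Finset.sum_pos' (fun _ _ => Nat.zero_le _) ⟨i, hi, ?_⟩
  rcases h with ⟨γ, hγ⟩ | ⟨γ, hγ⟩
  · have : 0 < cnt Γ (a i) v := Finset.card_pos.2 ⟨γ, by simpa using hγ⟩
    omega
  · have : 0 < cnt Γ (b i) v := Finset.card_pos.2 ⟨γ, by simpa using hγ⟩
    omega

/-- the orbit of a vertex, removed -/
def away (Γ : Type) [Group Γ] [Fintype Γ] {Y : Type} [MulAction Γ Y] [DecidableEq Y]
    (A : Finset Y) (v : Y) : Finset Y := A.filter (fun y => ∀ γ : Γ, γ • y ≠ v)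

theorem mem_away {A : Finset Y} {v y : Y} : y ∈ away Γ A v ↔ y ∈ A ∧ ∀ γ : Γ, γ • y ≠ v := by
  unfold away
  rw [Finset.mem_filter]

theorem away_subset {A : Finset Y} {v : Y} : away Γ A v ⊆ A := fun _ hy => (mem_away.1 hy).1

theorem away_good {D : Dih Γ ρ} {A : Finset Y} (hA : Good D A) (v : Y) :
    Good D (away Γ A v) where
  inv := by
    intro g hg y hy
    rw [mem_away] at hy ⊢
    refine ⟨hA.inv g hg y hy.1, fun γ h => hy.2 (γ * g) (by rw [mul_smul]; exact h)⟩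
  rot := fun y hy => hA.rot y (away_subset hy)
  uniq := fun y hy y' hy' => hA.uniq y (away_subset hy) y' (away_subset hy')

theorem StarF.mono {D : Dih Γ ρ} {A A' : Finset Y} {β β' : Finset Y → ℤ} (h : StarF D A β)
    (hA : A' ⊆ A) (hβ : ∀ X ⊆ A', β X ≤ β' X) : StarF D A' β' :=
  ⟨fun X hX hn => (h.1 X (hX.trans hA) hn).trans (hβ X hX),
    fun X hX hn hR hF => (h.2 X (hX.trans hA) hn hR hF).trans (hβ X hX)⟩

theorem notMem_of_away {A X : Finset Y} {v : Y} (hX : X ⊆ away Γ A v) (g : Γ) : g • v ∉ X := by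
  intro h
  have h1 := (mem_away.1 (hX h)).2 g⁻¹
  rw [inv_smul_smul] at h1
  exact h1 rfl

/-- adding the orbit of `v` under a subgroup -/
theorem bb_add_orbit (H : Subgroup Γ) {D : Dih Γ ρ} {A : Finset Y} (hA : Good D A)
    {S T : Finset ι} (hTS : T ⊆ S) {a b : ι → Y}
    {X : Finset Y} {v : Y} (hvA : v ∈ A) (hXA : X ⊆ away Γ A v)
    (hX : InvH H X) (hT : ∀ i ∈ T, a i = v ∧ b i ∈ X) (hT2 : 2 ≤ T.card) :
    ∃ Z : Finset Y, Z ⊆ A ∧ X ⊆ Z ∧ v ∈ Z ∧ InvH H Z ∧ (∀ z ∈ Z, z ∈ X ∨ ∃ γ : Γ, γ • v = z) ∧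
      bb (Γ := Γ) S a b Z ≤ bb (Γ := Γ) S a b X - ((T.card : ℤ) - 2) * Nat.card H := by
  classical
  set U : Finset Y := (Finset.univ.filter (fun g : Γ => g ∈ H)).image (fun g => g • v) with hU
  have hUm : ∀ y, y ∈ U ↔ ∃ h ∈ H, h • v = y := by
    intro y
    simp [hU]
  have hcardU : U.card ≤ Nat.card H := by
    rw [hU]
    refine Finset.card_image_le.trans ?_
    rw [Nat.card_eq_fintype_card, Fintype.card_subtype]
  refine ⟨X ∪ U, ?_, Finset.subset_union_left, ?_, ?_, ?_, ?_⟩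
  · refine Finset.union_subset (hXA.trans away_subset) ?_
    intro y hy
    obtain ⟨h, _, rfl⟩ := (hUm y).1 hy
    exact hA.inv h (Subgroup.mem_top h) v hvA
  · exact Finset.mem_union_right _ ((hUm v).2 ⟨1, H.one_mem, one_smul _ _⟩)
  · refine hX.union ?_
    intro h hh y hy
    obtain ⟨g, hg, rfl⟩ := (hUm y).1 hy
    exact (hUm _).2 ⟨h * g, H.mul_mem hh hg, by rw [mul_smul]⟩
  · intro z hz
    rcases Finset.mem_union.1 hz with hz | hz
    · exact Or.inl hz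
    · obtain ⟨h, _, rfl⟩ := (hUm z).1 hz
      exact Or.inr ⟨h, rfl⟩
  · have h1 := bb_add_vertex H hTS (a := a) (b := b) hX (fun g => notMem_of_away hXA g) hT U hUm
    have h2 : (U.card : ℤ) ≤ Nat.card H := by exact_mod_cast hcardU
    have h3 : (2 : ℤ) ≤ T.card := by exact_mod_cast hT2
    nlinarith

end Pool.Agent.SymLaman
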