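import Pool.Agent.Lib_MP_d5472a_co.Contract

set_option autoImplicit false
set_option linter.unusedSectionVars false

/-! The independence theorem with the special orbit. -/

namespace Pool.Agent.SymLaman
open scoped Pointwise

variable {Γ : Type} [Group Γ] [Fintype Γ]
variable {Y : Type} [MulAction Γ Y] [DecidableEq Y]
variable {ι : Type} [DecidableEq ι]
variable {ρ : Γ →* (E2 →ₗ[ℝ] E2)}

theorem stab_cases {D : Dih Γ ρ} {A : Finset Y} (hA : Good D A) {v : Y} (hvA : v ∈ A)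
    (hvF : ¬ Fx Γ v) : (∀ γ : Γ, γ • v = v → γ = 1) ∨
      (∃ g : Γ, g ≠ 1 ∧ g ∉ D.R ∧ g • v = v ∧ ∀ γ : Γ, γ • v = v → γ = 1 ∨ γ = g) := by
  have hRno : ∀ r ∈ D.R, r • v = v → r = 1 := by
    intro r hr hrv
    by_contra hr1
    exact hvF (hA.rot v hvA r hr hr1 hrv)
  by_cases h : ∀ γ : Γ, γ • v = v → γ = 1
  · exact Or.inl h
  · right
    push Not at h
    obtain ⟨g, hgv, hg1⟩ := h
    have hgR : g ∉ D.R := fun hgR => hg1 (hRno g hgR hgv)
    refine ⟨g, hg1, hgR, hgv, ?_⟩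
    intro γ hγ
    by_cases hγR : γ ∈ D.R
    · exact Or.inl (hRno γ hγR hγ)
    · right
      have h1 := hRno (g * γ) (D.mul_mem g γ hgR hγR) (by rw [mul_smul, hγ, hgv])
      rw [← D.inv_refl hgR]
      exact eq_inv_of_mul_eq_one_right h1

theorem FE.symm {D : Dih Γ ρ} {u w : Y} {σ : Γ} {d : E2} (h : FE D u w σ d) : FE D w u σ d := by
  refine ⟨h.hσ, h.hne.symm, h.d0, ?_⟩
  rcases h.typ with ⟨h1, h2, h3⟩ | ⟨h1, h2, h3⟩
  · exact Or.inl ⟨h2, h1, h3⟩
  · exact Or.inr ⟨h2, h1, h3⟩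

/-- in type 2 the two ends are in different orbits -/
theorem fe_orbit {D : Dih Γ ρ} (hm : D.m = 3) {A : Finset Y} (hA : Good D A)
    (hnf : ∀ y ∈ A, ¬ Fx Γ y) {u w : Y} {σ : Γ} (hσ : σ ∉ D.R) (hne : u ≠ w) (hu : u ∈ A)
    (h1 : σ • u = u) (h2 : σ • w = w) : ∀ γ : Γ, γ • w ≠ u := by
  intro γ hγ
  have h3 : (γ * σ * γ⁻¹) • u = u := by
    rw [← hγ, smul_smul, inv_mul_cancel_right, mul_smul, h2]
  rcases stab_cases hA hu (hnf u hu) with h | ⟨g, hg1, hgR, hgu, hh⟩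
  · exact D.refl_ne_one hσ (h σ h1)
  · have h4 : γ * σ * γ⁻¹ = g := by
      rcases hh _ h3 with h | h
      · exact absurd h (D.refl_ne_one (D.conj_not_mem hσ γ))
      · exact h
    have h5 : σ = g := by
      rcases hh _ h1 with h | h
      · exact absurd h (D.refl_ne_one hσ)
      · exact h
    rcases D.centr hm hσ (h4.trans h5.symm) with h | h
    · rw [h, one_smul] at hγ
      exact hne hγ.symm
    · rw [h, h2] at hγ
      exact hne hγ.symm

theorem NP_of_rot {D : Dih Γ ρ} (hm : D.m = 3) {g σ : Γ} (hg : g ∉ D.R) (hσ : σ ∉ D.R)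
    (hne : g ≠ σ) {d : E2} (hd0 : d ≠ 0) (hd : ρ σ d = -d ∨ ρ σ d = d) : NP d (ρ g d) := by
  have hR : g * σ ∈ D.R := D.mul_mem g σ hg hσ
  have h1 : g * σ ≠ 1 := by
    intro h
    apply hne
    rw [eq_inv_of_mul_eq_one_left h, D.inv_refl hσ]
  have h2 := D.np_rot hm _ hR h1 d hd0
  have h3 : ρ (g * σ) d = ρ g (ρ σ d) := by rw [map_mul]; rfl
  rw [h3] at h2
  rcases hd with hd | hd
  · rw [hd, map_neg] at h2
    intro α β h
    have := h2 α (-β) (by rw [← h]; simp)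
    exact ⟨this.1, by linarith [this.2]⟩
  · rw [hd] at h2
    exact h2

/-- the special loads at `u` -/
theorem fe_local {D : Dih Γ ρ} (hm : D.m = 3) {A : Finset Y} (hA : Good D A)
    (hnf : ∀ y ∈ A, ¬ Fx Γ y) {u w : Y} {σ : Γ} {d : E2} (hFE : FE D u w σ d) (hu : u ∈ A)
    {ωf : Γ → ℝ} (h : load1 ρ u w d ωf u = 0) : ωf 1 + ωf σ = 0 := by
  have hσσ := D.refl_sq σ hFE.hσ
  have hs1 : sy σ ωf 1 = ωf 1 + ωf σ := by unfold sy; rw [one_mul]
  rcases hFE.typ with ⟨h1, h2, h3⟩ | ⟨h1, h2, h3⟩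
  · rw [← h1, load1_type1 hσσ h3] at h
    rcases stab_cases hA hu (hnf u hu) with hf | ⟨g, hg1, hgR, hgu, hh⟩
    · rw [inc_self ρ hf] at h
      rw [← hs1]
      exact smul_eq_zero_of_ne hFE.d0 h
    · rw [inc_stab ρ hg1 hgu hh] at h
      have hgσ : g ≠ σ := by
        rintro rfl
        exact hFE.hne (hgu.symm.trans h1)
      rw [← hs1]
      exact (NP_of_rot hm hgR hFE.hσ hgσ hFE.d0 (Or.inl h3) _ _ h).1
  · have h4 := load1_type2 (ρ := ρ) hσσ h3 h1 h2 u ωf
    rw [h, smul_zero] at h4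
    rw [inc_eq_zero ρ (fe_orbit hm hA hnf hFE.hσ hFE.hne hu h1 h2), sub_zero] at h4
    rcases stab_cases hA hu (hnf u hu) with hf | ⟨g, hg1, hgR, hgu, hh⟩
    · exact absurd (hf σ h1) (D.refl_ne_one hFE.hσ)
    · have h5 : σ = g := by
        rcases hh _ h1 with h | h
        · exact absurd h (D.refl_ne_one hFE.hσ)
        · exact h
      rw [← h5] at hg1 hgu hh
      rw [inc_stab ρ hg1 hgu hh, h3, ← add_smul] at h4
      have h6 := smul_eq_zero_of_ne hFE.d0 h4.symm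
      have h7 : sy σ ωf σ = sy σ ωf 1 := by
        have := sy_mul hσσ ωf 1
        rwa [one_mul] at this
      rw [h7] at h6
      rw [← hs1]
      linarith

/-- nondegeneracy of the special orbit -/
theorem fe_nondeg {D : Dih Γ ρ} (hm : D.m = 3) {A : Finset Y} (hA : Good D A)
    (hnf : ∀ y ∈ A, ¬ Fx Γ y) {u w : Y} {σ : Γ} {d : E2} (hFE : FE D u w σ d) (hu : u ∈ A)
    {ωf : Γ → ℝ} (h : load1 ρ u w d ωf = 0) : ∀ γ : Γ, ωf γ + ωf (γ * σ) = 0 := by
  intro δ
  have h1 : load1 ρ u w d (fun γ => ωf (δ * γ)) u = 0 := by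
    rw [load1_apply, inc_translate, inc_translate, ← map_sub, ← load1_apply, h,
      Finsupp.zero_apply, map_zero]
  have h2 := fe_local hm hA hnf hFE hu h1
  simpa using h2

theorem conF_of_indep {D : Dih Γ ρ} (hm : D.m = 3) {A : Finset Y} (hA : Good D A)
    (hnf : ∀ y ∈ A, ¬ Fx Γ y) {S : Finset ι} {a b : ι → Y} {u w : Y} {σ : Γ} {d : E2}
    (hFE : FE D u w σ d) (hu : u ∈ A) (h : ∃ x, Indep ρ (KF ρ u w d) S a b x) :
    ConF ρ S a b u w σ d := by
  obtain ⟨x, hx⟩ := h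
  refine ⟨x, fun ω ωf hker => ?_⟩
  have h1 := hx ω _ ⟨ωf, rfl⟩ hker
  refine ⟨h1, fe_nondeg hm hA hnf hFE hu ?_⟩
  have h2 : load ρ S a b x ω = 0 := by
    unfold load
    refine Finset.sum_eq_zero fun i hi => ?_
    rw [h1 i hi]
    ext1 y
    rw [load1_apply, inc_zero, inc_zero, sub_zero, Finsupp.zero_apply]
  rwa [h2, zero_add] at hker

theorem indep_of_conF {S : Finset ι} {a b : ι → Y} {u w : Y} {σ : Γ} {d : E2}
    (h : ConF ρ S a b u w σ d) : ∃ x, Indep ρ (KF ρ u w d) S a b x := by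
  obtain ⟨x, hx⟩ := h
  refine ⟨x, ?_⟩
  rintro ω z ⟨ωf, rfl⟩ hker
  exact (hx ω ωf hker).1

/-- translations of kernel elements including the special coefficients -/
theorem ker2_translate {S : Finset ι} {a b : ι → Y} {x : ι → E2} {u w : Y} {d : E2}
    {ω : ι → Γ → ℝ} {ωf : Γ → ℝ} (h : load ρ S a b x ω + load1 ρ u w d ωf = 0) (δ : Γ) :
    load ρ S a b x (fun i γ => ω i (δ * γ)) + load1 ρ u w d (fun γ => ωf (δ * γ)) = 0 := by
  ext1 y
  have h1 := DFunLike.congr_fun h (δ • y)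
  rw [Finsupp.add_apply, load_apply, Finsupp.zero_apply, load1_apply] at h1
  rw [Finsupp.add_apply, load_apply, load1_apply, Finsupp.zero_apply, inc_translate,
    inc_translate]
  have h2 : ∀ i ∈ S, (inc ρ (a i) y (x i) (fun γ => ω i (δ * γ))
      - inc ρ (b i) y (x i) (fun γ => ω i (δ * γ)))
      = ρ δ⁻¹ (inc ρ (a i) (δ • y) (x i) (ω i) - inc ρ (b i) (δ • y) (x i) (ω i)) := by
    intro i _
    rw [inc_translate, inc_translate, map_sub]
  rw [Finset.sum_congr rfl h2, ← map_sum, ← map_sub, ← map_add, h1, map_zero]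

theorem load_at {S : Finset ι} {a b : ι → Y} {x : ι → E2} {ω : ι → Γ → ℝ} {v : Y}
    {T : Finset ι} (hTS : T ⊆ S)
    (hout : ∀ i ∈ S, i ∉ T → (∀ γ : Γ, γ • a i ≠ v) ∧ (∀ γ : Γ, γ • b i ≠ v)) :
    load ρ S a b x ω v = ∑ i ∈ T, (inc ρ (a i) v (x i) (ω i) - inc ρ (b i) v (x i) (ω i)) := by
  rw [load_apply]
  symm
  refine Finset.sum_subset hTS fun i hi hiT => ?_
  rw [inc_eq_zero ρ (hout i hi hiT).1, inc_eq_zero ρ (hout i hi hiT).2, sub_zero]

theorem load_zero_of {S : Finset ι} {a b : ι → Y} {x : ι → E2} {ω : ι → Γ → ℝ}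
    (h : ∀ i ∈ S, ω i = 0) : load ρ S a b x ω = 0 := by
  unfold load
  refine Finset.sum_eq_zero fun i hi => ?_
  rw [h i hi]
  ext1 y
  rw [load1_apply, inc_zero, inc_zero, sub_zero, Finsupp.zero_apply]

/-- the special orbit alone at `u` -/
theorem f_remove {D : Dih Γ ρ} (hm : D.m = 3) {A : Finset Y} (hA : Good D A)
    (hnf : ∀ y ∈ A, ¬ Fx Γ y) {S : Finset ι} {a b : ι → Y} {u w : Y} {σ : Γ} {d : E2}
    (hFE : FE D u w σ d) (hu : u ∈ A)
    (hout : ∀ i ∈ S, (∀ γ : Γ, γ • a i ≠ u) ∧ (∀ γ : Γ, γ • b i ≠ u))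
    (hI : ∃ x, Indep ρ {0} S a b x) : ConF ρ S a b u w σ d := by
  obtain ⟨x, hx⟩ := hI
  refine conF_of_indep hm hA hnf hFE hu ⟨x, ?_⟩
  rintro ω z ⟨ωf, rfl⟩ hker
  have key : ∀ (ω : ι → Γ → ℝ) (ωf : Γ → ℝ), load ρ S a b x ω + load1 ρ u w d ωf = 0 →
      ωf 1 + ωf σ = 0 := by
    intro ω ωf hker
    refine fe_local hm hA hnf hFE hu ?_
    have h1 := DFunLike.congr_fun hker u
    rw [Finsupp.add_apply, Finsupp.zero_apply, load_at (T := ∅) (Finset.empty_subset _)
      (fun i hi _ => hout i hi), Finset.sum_empty, zero_add] at h1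
    exact h1
  have h1 : ∀ γ, ωf γ + ωf (γ * σ) = 0 := by
    intro δ
    have := key _ _ (ker2_translate hker δ)
    simpa using this
  rw [load1_fe_zero hFE h1] at hker
  exact hx ω 0 rfl hker

/-- free `u`, type 1, one further edge orbit -/
theorem f_ext1 {D : Dih Γ ρ} (hm : D.m = 3) {A : Finset Y} (hA : Good D A)
    (hnf : ∀ y ∈ A, ¬ Fx Γ y) {S : Finset ι} {a b : ι → Y} {u w : Y} {σ : Γ} {d : E2}
    (hFE : FE D u w σ d) (hu : u ∈ A) (hfree : ∀ γ : Γ, γ • u = u → γ = 1)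
    (h1 : σ • u = w) (h3 : ρ σ d = -d)
    {i : ι} (hi : i ∈ S) (hai : a i = u) (hbi : ∀ γ : Γ, γ • b i ≠ u)
    (hout : ∀ k ∈ S, k ≠ i → (∀ γ : Γ, γ • a k ≠ u) ∧ (∀ γ : Γ, γ • b k ≠ u))
    (hI : ∃ x, Indep ρ {0} (S.erase i) a b x) : ConF ρ S a b u w σ d := by
  have hσσ := D.refl_sq σ hFE.hσ
  obtain ⟨x, hx⟩ := hI
  obtain ⟨y0, hy0⟩ := exists_NP hFE.d0
  set x' := Function.update x i y0 with hx'
  refine conF_of_indep hm hA hnf hFE hu ⟨x', ?_⟩
  rintro ω z ⟨ωf, rfl⟩ hker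
  have key : ∀ (ω : ι → Γ → ℝ) (ωf : Γ → ℝ), load ρ S a b x' ω + load1 ρ u w d ωf = 0 →
      ωf 1 + ωf σ = 0 ∧ ω i 1 = 0 := by
    intro ω ωf hker
    have h4 := DFunLike.congr_fun hker u
    rw [Finsupp.add_apply, Finsupp.zero_apply, load_at (T := {i})
      (Finset.singleton_subset_iff.2 hi) (fun k hk hk' => hout k hk (by simpa using hk')),
      Finset.sum_singleton, hx', Function.update_self, inc_eq_zero ρ hbi, sub_zero, hai,
      inc_self ρ hfree, ← h1, load1_type1 hσσ h3, inc_self ρ hfree, add_comm] at h4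
    have h5 := hy0 _ _ h4
    refine ⟨?_, h5.2⟩
    have := h5.1
    unfold sy at this
    rwa [one_mul] at this
  have hs : ∀ γ, ωf γ + ωf (γ * σ) = 0 := by
    intro δ
    have := (key _ _ (ker2_translate hker δ)).1
    simpa using this
  have hi0 : ω i = 0 := by
    funext δ
    have := (key _ _ (ker2_translate hker δ)).2
    simpa using this
  rw [load1_fe_zero hFE hs, add_zero, load_erase_of_zero ρ hi0] at hker
  have h6 := hx ω 0 rfl (by
    rw [add_zero, ← hker]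
    refine load_congr ρ _ (fun _ _ => rfl) (fun _ _ => rfl) (fun j hj => ?_) (fun _ _ => rfl)
    rw [hx', Function.update_of_ne (Finset.ne_of_mem_erase hj)])
  intro j hj
  by_cases hji : j = i
  · rw [hji]; exact hi0
  · exact h6 j (Finset.mem_erase.2 ⟨hji, hj⟩)

/-- free `u`, type 1, an orbit of edges inside the orbit of `u` by a rotation -/
theorem f_int {D : Dih Γ ρ} (hm : D.m = 3) {A : Finset Y} (hA : Good D A)
    (hnf : ∀ y ∈ A, ¬ Fx Γ y) {S : Finset ι} {a b : ι → Y} {u w : Y} {σ : Γ} {d : E2}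
    (hFE : FE D u w σ d) (hu : u ∈ A) (hfree : ∀ γ : Γ, γ • u = u → γ = 1)
    (h1 : σ • u = w) (h3 : ρ σ d = -d)
    {i : ι} (hi : i ∈ S) (hai : a i = u) {g : Γ} (hgR : g ∈ D.R) (hg1 : g ≠ 1)
    (hbi : b i = g • u)
    (hout : ∀ k ∈ S, k ≠ i → (∀ γ : Γ, γ • a k ≠ u) ∧ (∀ γ : Γ, γ • b k ≠ u))
    (hI : ∃ x, Indep ρ {0} (S.erase i) a b x) : ConF ρ S a b u w σ d := by
  have hσσ := D.refl_sq σ hFE.hσ
  obtain ⟨x, hx⟩ := hI
  have hnp := D.np_rot hm g hgR hg1 d hFE.d0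
  set x' := Function.update x i (ρ g d) with hx'
  refine conF_of_indep hm hA hnf hFE hu ⟨x', ?_⟩
  rintro ω z ⟨ωf, rfl⟩ hker
  have key : ∀ (ω : ι → Γ → ℝ) (ωf : Γ → ℝ), load ρ S a b x' ω + load1 ρ u w d ωf = 0 →
      ωf 1 + ωf σ - ω i g⁻¹ = 0 ∧ ω i 1 = 0 := by
    intro ω ωf hker
    have h4 := DFunLike.congr_fun hker u
    rw [Finsupp.add_apply, Finsupp.zero_apply, load_at (T := {i})
      (Finset.singleton_subset_iff.2 hi) (fun k hk hk' => hout k hk (by simpa using hk')),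
      Finset.sum_singleton, hx', Function.update_self, hbi, inc_free ρ hfree, hai,
      inc_self ρ hfree, ← h1, load1_type1 hσσ h3, inc_self ρ hfree] at h4
    have h5 : ρ g⁻¹ (ρ g d) = d := by
      rw [← Module.End.mul_apply, ← map_mul, inv_mul_cancel, map_one, Module.End.one_apply]
    rw [h5] at h4
    refine hnp _ _ ?_
    rw [← h4]
    unfold sy
    rw [one_mul]
    module
  have hi0 : ω i = 0 := by
    funext δ
    have := (key _ _ (ker2_translate hker δ)).2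
    simpa using this
  have hs : ∀ γ, ωf γ + ωf (γ * σ) = 0 := by
    intro δ
    have := (key _ _ (ker2_translate hker δ)).1
    rw [hi0] at this
    simpa using this
  rw [load1_fe_zero hFE hs, add_zero, load_erase_of_zero ρ hi0] at hker
  have h6 := hx ω 0 rfl (by
    rw [add_zero, ← hker]
    refine load_congr ρ _ (fun _ _ => rfl) (fun _ _ => rfl) (fun j hj => ?_) (fun _ _ => rfl)
    rw [hx', Function.update_of_ne (Finset.ne_of_mem_erase hj)])
  intro j hj
  by_cases hji : j = i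
  · rw [hji]; exact hi0
  · exact h6 j (Finset.mem_erase.2 ⟨hji, hj⟩)

/-- splitting off two orbits from the load -/
theorem load_split2 {S : Finset ι} {a b : ι → Y} {x : ι → E2} {ω : ι → Γ → ℝ} {i j : ι}
    (hi : i ∈ S) (hj : j ∈ S) (hij : i ≠ j) :
    load ρ S a b x ω = load1 ρ (a i) (b i) (x i) (ω i) + load1 ρ (a j) (b j) (x j) (ω j) +
      load ρ ((S.erase i).erase j) a b x ω := by
  unfold load
  rw [← Finset.add_sum_erase S _ hi,
    ← Finset.add_sum_erase (S.erase i) _ (Finset.mem_erase.2 ⟨hij.symm, hj⟩), add_assoc]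

theorem load_split1 {S : Finset ι} {a b : ι → Y} {x : ι → E2} {ω : ι → Γ → ℝ} {i : ι}
    (hi : i ∈ S) :
    load ρ S a b x ω = load1 ρ (a i) (b i) (x i) (ω i) + load ρ (S.erase i) a b x ω := by
  unfold load
  rw [← Finset.add_sum_erase S _ hi]

/-- free `u`, type 1, two further orbits, the first neighbour not on the mirror -/
theorem f_ext2 {D : Dih Γ ρ} (hm : D.m = 3) {A : Finset Y} (hA : Good D A)
    (hnf : ∀ y ∈ A, ¬ Fx Γ y) {S : Finset ι} {a b : ι → Y} {u w : Y} {σ : Γ} {d : E2}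
    (hFE : FE D u w σ d) (hu : u ∈ A) (hfree : ∀ γ : Γ, γ • u = u → γ = 1)
    (h1 : σ • u = w) (h3 : ρ σ d = -d)
    {i j : ι} (hi : i ∈ S) (hj : j ∈ S) (hij : i ≠ j)
    (hai : a i = u) (hbi : ∀ γ : Γ, γ • b i ≠ u) (haj : a j = u) (hbj : ∀ γ : Γ, γ • b j ≠ u)
    (hout : ∀ k ∈ S, k ≠ i → k ≠ j → (∀ γ : Γ, γ • a k ≠ u) ∧ (∀ γ : Γ, γ • b k ≠ u))
    (hI : ConF ρ ((S.erase i).erase j) a b (b i) (σ • b i) σ d) : ConF ρ S a b u w σ d := by
  have hσσ := D.refl_sq σ hFE.hσ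
  obtain ⟨x, hx⟩ := hI
  obtain ⟨y0, hy0⟩ := exists_NP hFE.d0
  set x' := Function.update (Function.update x i d) j y0 with hx'
  have hxi : x' i = d := by
    rw [hx', Function.update_of_ne hij, Function.update_self]
  have hxj : x' j = y0 := by
    rw [hx', Function.update_self]
  refine conF_of_indep hm hA hnf hFE hu ⟨x', ?_⟩
  rintro ω z ⟨ωf, rfl⟩ hker
  have key : ∀ (ω : ι → Γ → ℝ) (ωf : Γ → ℝ), load ρ S a b x' ω + load1 ρ u w d ωf = 0 →
      ωf 1 + ωf σ + ω i 1 = 0 ∧ ω j 1 = 0 := by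
    intro ω ωf hker
    have h4 := DFunLike.congr_fun hker u
    rw [Finsupp.add_apply, Finsupp.zero_apply, load_at (T := {i, j}) (by
        intro k hk
        simp only [Finset.mem_insert, Finset.mem_singleton] at hk
        rcases hk with rfl | rfl
        · exact hi
        · exact hj) (fun k hk hk' => by
        simp only [Finset.mem_insert, Finset.mem_singleton, not_or] at hk'
        exact hout k hk hk'.1 hk'.2),
      Finset.sum_pair hij, hxi, hxj, inc_eq_zero ρ hbi, inc_eq_zero ρ hbj, sub_zero, sub_zero,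
      hai, haj, inc_self ρ hfree, inc_self ρ hfree, ← h1, load1_type1 hσσ h3,
      inc_self ρ hfree] at h4
    have h5 := hy0 (sy σ ωf 1 + ω i 1) (ω j 1) (by rw [← h4]; module)
    refine ⟨?_, h5.2⟩
    have := h5.1
    unfold sy at this
    rwa [one_mul] at this
  have hj0 : ω j = 0 := by
    funext δ
    have := (key _ _ (ker2_translate hker δ)).2
    simpa using this
  have hs : ω i = - sy σ ωf := by
    funext δ
    have := (key _ _ (ker2_translate hker δ)).1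
    simp only [mul_one] at this
    rw [Pi.neg_apply]
    unfold sy
    linarith
  have h7 := hx ω ωf (by
    rw [← hker, load_split2 hi hj hij, hxi, hxj, hj0, hs, hai, haj]
    have e1 : load1 ρ u (b j) y0 (0 : Γ → ℝ) = 0 := by
      ext1 y
      rw [load1_apply, inc_zero, inc_zero, sub_zero, Finsupp.zero_apply]
    have e2 : load ρ ((S.erase i).erase j) a b x' ω = load ρ ((S.erase i).erase j) a b x ω := by
      refine load_congr ρ _ (fun _ _ => rfl) (fun _ _ => rfl) (fun k hk => ?_) (fun _ _ => rfl)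
      have hkj := Finset.ne_of_mem_erase hk
      have hki := Finset.ne_of_mem_erase (Finset.mem_of_mem_erase hk)
      rw [hx', Function.update_of_ne hkj, Function.update_of_ne hki]
    rw [e1, e2, add_zero]
    ext1 y
    rw [Finsupp.add_apply, Finsupp.add_apply, Finsupp.add_apply, load1_type1 hσσ h3, ← h1,
      load1_type1 hσσ h3, load1_apply, inc_neg, inc_neg]
    abel)
  have hi0 : ω i = 0 := by
    rw [hs]
    funext γ
    have := h7.2 γ
    rw [Pi.neg_apply, Pi.zero_apply]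
    unfold sy
    linarith
  intro k hk
  by_cases hki : k = i
  · rw [hki]; exact hi0
  by_cases hkj : k = j
  · rw [hkj]; exact hj0
  exact h7.1 k (Finset.mem_erase.2 ⟨hkj, Finset.mem_erase.2 ⟨hki, hk⟩⟩)

/-- free `u`, type 1, two further orbits, both neighbours on the mirror -/
theorem f_ext2' {D : Dih Γ ρ} (hm : D.m = 3) {A : Finset Y} (hA : Good D A)
    (hnf : ∀ y ∈ A, ¬ Fx Γ y) {S : Finset ι} {a b : ι → Y} {u w : Y} {σ : Γ} {d : E2}
    (hFE : FE D u w σ d) (hu : u ∈ A) (hfree : ∀ γ : Γ, γ • u = u → γ = 1)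
    (h1 : σ • u = w) (h3 : ρ σ d = -d)
    {i j : ι} (hi : i ∈ S) (hj : j ∈ S) (hij : i ≠ j)
    (hai : a i = u) (hbi : ∀ γ : Γ, γ • b i ≠ u) (haj : a j = u) (hbj : ∀ γ : Γ, γ • b j ≠ u)
    (hout : ∀ k ∈ S, k ≠ i → k ≠ j → (∀ γ : Γ, γ • a k ≠ u) ∧ (∀ γ : Γ, γ • b k ≠ u))
    (hσi : σ • b i = b i) (hσj : σ • b j = b j) {d' : E2} (hd'0 : d' ≠ 0) (hd' : ρ σ d' = d')
    (hI : ConF ρ ((S.erase i).erase j) a b (b i) (b j) σ d') : ConF ρ S a b u w σ d := by
  have hσσ := D.refl_sq σ hFE.hσ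
  obtain ⟨x, hx⟩ := hI
  have hnp : NP d' d := D.np_pm hd'0 hFE.d0 hd' h3
  set x' := Function.update (Function.update x i d') j (d' + d) with hx'
  have hxi : x' i = d' := by
    rw [hx', Function.update_of_ne hij, Function.update_self]
  have hxj : x' j = d' + d := by
    rw [hx', Function.update_self]
  refine conF_of_indep hm hA hnf hFE hu ⟨x', ?_⟩
  rintro ω z ⟨ωf, rfl⟩ hker
  have key : ∀ (ω : ι → Γ → ℝ) (ωf : Γ → ℝ), load ρ S a b x' ω + load1 ρ u w d ωf = 0 →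
      ω i 1 + ω j 1 = 0 ∧ ωf 1 + ωf σ + ω j 1 = 0 := by
    intro ω ωf hker
    have h4 := DFunLike.congr_fun hker u
    rw [Finsupp.add_apply, Finsupp.zero_apply, load_at (T := {i, j}) (by
        intro k hk
        simp only [Finset.mem_insert, Finset.mem_singleton] at hk
        rcases hk with rfl | rfl
        · exact hi
        · exact hj) (fun k hk hk' => by
        simp only [Finset.mem_insert, Finset.mem_singleton, not_or] at hk'
        exact hout k hk hk'.1 hk'.2),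
      Finset.sum_pair hij, hxi, hxj, inc_eq_zero ρ hbi, inc_eq_zero ρ hbj, sub_zero, sub_zero,
      hai, haj, inc_self ρ hfree, inc_self ρ hfree, ← h1, load1_type1 hσσ h3,
      inc_self ρ hfree] at h4
    have h5 := hnp (ω i 1 + ω j 1) (sy σ ωf 1 + ω j 1) (by rw [← h4]; module)
    refine ⟨h5.1, ?_⟩
    have := h5.2
    unfold sy at this
    rwa [one_mul] at this
  have hij' : ω i = - ω j := by
    funext δ
    have := (key _ _ (ker2_translate hker δ)).1
    simp only [mul_one] at this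
    rw [Pi.neg_apply]
    linarith
  have hs : sy σ ωf = - ω j := by
    funext δ
    have := (key _ _ (ker2_translate hker δ)).2
    simp only [mul_one] at this
    rw [Pi.neg_apply]
    unfold sy
    linarith
  have hsym : ∀ γ, ω j (γ * σ) = ω j γ := by
    intro γ
    have h8 := sy_mul hσσ ωf γ
    rw [hs, Pi.neg_apply, Pi.neg_apply] at h8
    linarith
  have h7 := hx ω (ω j) (by
    rw [← hker, load_split2 hi hj hij, hxi, hxj, hij', hai, haj]
    have e2 : load ρ ((S.erase i).erase j) a b x' ω = load ρ ((S.erase i).erase j) a b x ω := by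
      refine load_congr ρ _ (fun _ _ => rfl) (fun _ _ => rfl) (fun k hk => ?_) (fun _ _ => rfl)
      have hkj := Finset.ne_of_mem_erase hk
      have hki := Finset.ne_of_mem_erase (Finset.mem_of_mem_erase hk)
      rw [hx', Function.update_of_ne hkj, Function.update_of_ne hki]
    rw [e2]
    ext1 y
    rw [Finsupp.add_apply, Finsupp.add_apply, Finsupp.add_apply, Finsupp.add_apply, ← h1,
      load1_type1 hσσ h3, hs, load1_apply, load1_apply, load1_apply, inc_neg, inc_neg, inc_neg,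
      inc_add_vec, inc_add_vec, inc_fixed_neg hσσ h3 hσj y hsym]
    abel)
  have hj0 : ω j = 0 := by
    funext γ
    have := h7.2 γ
    rw [hsym γ] at this
    rw [Pi.zero_apply]
    linarith
  have hi0 : ω i = 0 := by rw [hij', hj0, neg_zero]
  intro k hk
  by_cases hki : k = i
  · rw [hki]; exact hi0
  by_cases hkj : k = j
  · rw [hkj]; exact hj0
  exact h7.1 k (Finset.mem_erase.2 ⟨hkj, Finset.mem_erase.2 ⟨hki, hk⟩⟩)

/-- type 2 with one further orbit at `u` -/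
theorem f_type2 {D : Dih Γ ρ} (hm : D.m = 3) {A : Finset Y} (hA : Good D A)
    (hnf : ∀ y ∈ A, ¬ Fx Γ y) {S : Finset ι} {a b : ι → Y} {u w : Y} {σ : Γ} {d : E2}
    (hFE : FE D u w σ d) (hu : u ∈ A) (hst : ∀ γ : Γ, γ • u = u → γ = 1 ∨ γ = σ)
    (h1 : σ • u = u) (h2 : σ • w = w) (h3 : ρ σ d = d)
    {i : ι} (hi : i ∈ S) (hai : a i = u) (hbi : ∀ γ : Γ, γ • b i ≠ u)
    (hout : ∀ k ∈ S, k ≠ i → (∀ γ : Γ, γ • a k ≠ u) ∧ (∀ γ : Γ, γ • b k ≠ u))
    {d' : E2} (hd'0 : d' ≠ 0) (hd' : ρ σ d' = -d')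
    (hI : ConF ρ (S.erase i) a b (b i) (σ • b i) σ d') : ConF ρ S a b u w σ d := by
  have hσσ := D.refl_sq σ hFE.hσ
  have hσ1 := D.refl_ne_one hFE.hσ
  obtain ⟨x, hx⟩ := hI
  have hnp : NP d d' := D.np_pm hFE.d0 hd'0 h3 hd'
  set x' := Function.update x i d' with hx'
  have hxi : x' i = d' := by
    rw [hx', Function.update_self]
  refine conF_of_indep hm hA hnf hFE hu ⟨x', ?_⟩
  rintro ω z ⟨ωf, rfl⟩ hker
  have key : ∀ (ω : ι → Γ → ℝ) (ωf : Γ → ℝ), load ρ S a b x' ω + load1 ρ u w d ωf = 0 →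
      ωf 1 + ωf σ = 0 ∧ ω i 1 = ω i σ := by
    intro ω ωf hker
    have h4 := DFunLike.congr_fun hker u
    rw [Finsupp.add_apply, Finsupp.zero_apply, load_at (T := {i})
      (Finset.singleton_subset_iff.2 hi) (fun k hk hk' => hout k hk (by simpa using hk')),
      Finset.sum_singleton, hxi, inc_eq_zero ρ hbi, sub_zero, hai, inc_stab ρ hσ1 h1 hst, hd',
      load1_apply, inc_eq_zero ρ (fe_orbit hm hA hnf hFE.hσ hFE.hne hu h1 h2), sub_zero,
      inc_stab ρ hσ1 h1 hst, h3] at h4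
    have h5 := hnp (ωf 1 + ωf σ) (ω i 1 - ω i σ) (by rw [← h4]; module)
    exact ⟨h5.1, by linarith [h5.2]⟩
  have hs : ∀ γ, ωf γ + ωf (γ * σ) = 0 := by
    intro δ
    have := (key _ _ (ker2_translate hker δ)).1
    simpa using this
  have hsym : ∀ γ, ω i (γ * σ) = ω i γ := by
    intro δ
    have := (key _ _ (ker2_translate hker δ)).2
    simpa using this.symm
  have h7 := hx ω (fun γ => - (1 / 2) * ω i γ) (by
    rw [← hker, load1_fe_zero hFE hs, add_zero, load_split1 hi, hxi, hai]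
    have e2 : load ρ (S.erase i) a b x' ω = load ρ (S.erase i) a b x ω := by
      refine load_congr ρ _ (fun _ _ => rfl) (fun _ _ => rfl) (fun k hk => ?_) (fun _ _ => rfl)
      rw [hx', Function.update_of_ne (Finset.ne_of_mem_erase hk)]
    have e3 : sy σ (fun γ => - (1 / 2) * ω i γ) = - ω i := by
      funext γ
      have h8 := hsym γ
      have h9 : sy σ (fun γ => - (1 / 2) * ω i γ) γ =
        - (1 / 2) * ω i γ + - (1 / 2) * ω i (γ * σ) := rfl
      rw [h9, h8, Pi.neg_apply]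
      ring
    rw [e2]
    ext1 y
    rw [Finsupp.add_apply, Finsupp.add_apply, load1_type1 hσσ hd', e3, inc_neg, load1_apply,
      inc_fixed_neg hσσ hd' h1 y hsym]
    abel)
  have hi0 : ω i = 0 := by
    funext γ
    have h8 : - (1 / 2) * ω i γ + - (1 / 2) * ω i (γ * σ) = 0 := h7.2 γ
    rw [hsym γ] at h8
    rw [Pi.zero_apply]
    linarith
  intro k hk
  by_cases hki : k = i
  · rw [hki]; exact hi0
  exact h7.1 k (Finset.mem_erase.2 ⟨hki, hk⟩)

end Pool.Agent.SymLaman
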