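import Pool.Agent.Lib_MP_d5472a_co.T1fMain

set_option autoImplicit false
set_option linter.unusedSectionVars false

/-! The independence theorem with the special orbit, final form. -/

namespace Pool.Agent.SymLaman
open scoped Pointwise

variable {Γ : Type} [Group Γ] [Fintype Γ]
variable {Y : Type} [MulAction Γ Y] [DecidableEq Y]
variable {ι : Type} [DecidableEq ι]
variable {ρ : Γ →* (E2 →ₗ[ℝ] E2)}

theorem exists_low_f {A : Finset Y} (hinv : InvH (⊤ : Subgroup Γ) A) {S : Finset ι}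
    {a b : ι → Y} (hab : ∀ i ∈ S, a i ∈ A ∧ b i ∈ A) {u w : Y} (hu : u ∈ A) (hw : w ∈ A)
    (hpos : ∀ X ⊆ A, X.Nonempty → 4 ≤ BB (Γ := Γ) S a b u w X) :
    ∃ v ∈ A, ((∃ γ : Γ, γ • u = v) ∨ (∃ γ : Γ, γ • w = v) ∨
        0 < ∑ i ∈ S, (cnt Γ (a i) v + cnt Γ (b i) v)) ∧
      2 * ∑ i ∈ S, (cnt Γ (a i) v + cnt Γ (b i) v) + (cnt Γ u v + cnt Γ w v) < 8 := by
  classical
  set O : Y → Finset Y := fun y => Finset.univ.image (fun γ : Γ => γ • y) with hO
  set V1 := supp Γ S a b ∪ (O u ∪ O w) with hV1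
  have hOm : ∀ y z : Y, z ∈ O y ↔ ∃ γ : Γ, γ • y = z := by
    intro y z; simp [hO]
  have hmem : ∀ v, v ∈ V1 ↔ (v ∈ supp Γ S a b ∨ (∃ γ : Γ, γ • u = v) ∨ (∃ γ : Γ, γ • w = v)) := by
    intro v
    rw [hV1, Finset.mem_union, Finset.mem_union, hOm, hOm]
  have hV1A : V1 ⊆ A := by
    intro v hv
    rcases (hmem v).1 hv with h | ⟨γ, rfl⟩ | ⟨γ, rfl⟩
    · obtain ⟨i, hi, (⟨γ, rfl⟩ | ⟨γ, rfl⟩)⟩ := mem_supp.1 h
      · exact hinv γ (Subgroup.mem_top γ) _ (hab i hi).1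
      · exact hinv γ (Subgroup.mem_top γ) _ (hab i hi).2
    · exact hinv γ (Subgroup.mem_top γ) _ hu
    · exact hinv γ (Subgroup.mem_top γ) _ hw
  have hV1n : V1.Nonempty := ⟨u, (hmem u).2 (Or.inr (Or.inl ⟨1, one_smul _ _⟩))⟩
  have h1 := hpos V1 hV1A hV1n
  have hmema : ∀ i ∈ S, ∀ γ : Γ, γ • a i ∈ V1 := fun i hi γ =>
    (hmem _).2 (Or.inl (mem_supp.2 ⟨i, hi, Or.inl ⟨γ, rfl⟩⟩))
  have hmemb : ∀ i ∈ S, ∀ γ : Γ, γ • b i ∈ V1 := fun i hi γ =>
    (hmem _).2 (Or.inl (mem_supp.2 ⟨i, hi, Or.inr ⟨γ, rfl⟩⟩))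
  have hmemu : ∀ γ : Γ, γ • u ∈ V1 := fun γ => (hmem _).2 (Or.inr (Or.inl ⟨γ, rfl⟩))
  have hmemw : ∀ γ : Γ, γ • w ∈ V1 := fun γ => (hmem _).2 (Or.inr (Or.inr ⟨γ, rfl⟩))
  have h2 : ∑ i ∈ S, (kk Γ (a i) (b i) V1 : ℤ) = S.card * Fintype.card Γ := by
    rw [Finset.sum_congr rfl (fun i hi => by rw [kk_eq_card (hmema i hi) (hmemb i hi)]),
      Finset.sum_const, nsmul_eq_mul]
  have h2' : kk Γ u w V1 = Fintype.card Γ := kk_eq_card hmemu hmemw
  have h3 : ∑ v ∈ V1, ∑ i ∈ S, (cnt Γ (a i) v + cnt Γ (b i) v) = S.card * (2 * Fintype.card Γ) := by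
    rw [Finset.sum_comm]
    rw [Finset.sum_congr rfl (fun i hi => by
      rw [Finset.sum_add_distrib, sum_cnt (hmema i hi), sum_cnt (hmemb i hi), ← two_mul]),
      Finset.sum_const, smul_eq_mul]
  have h3' : ∑ v ∈ V1, (cnt Γ u v + cnt Γ w v) = 2 * Fintype.card Γ := by
    rw [Finset.sum_add_distrib, sum_cnt hmemu, sum_cnt hmemw, ← two_mul]
  have h4 : ∑ v ∈ V1, (2 * ∑ i ∈ S, (cnt Γ (a i) v + cnt Γ (b i) v) + (cnt Γ u v + cnt Γ w v)) <
      ∑ v ∈ V1, 8 := by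
    rw [Finset.sum_add_distrib, ← Finset.mul_sum, h3, h3', Finset.sum_const, smul_eq_mul]
    unfold BB at h1
    rw [h2, h2'] at h1
    have h5 : ((2 * (S.card * (2 * Fintype.card Γ)) + 2 * Fintype.card Γ : ℕ) : ℤ) <
        ((V1.card * 8 : ℕ) : ℤ) := by
      push_cast
      linarith
    exact_mod_cast h5
  obtain ⟨v, hv, hlt⟩ := Finset.exists_lt_of_sum_lt h4
  refine ⟨v, hV1A hv, ?_, hlt⟩
  rcases (hmem v).1 hv with h | h | h
  · right; right
    obtain ⟨i, hi, h⟩ := mem_supp.1 h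
    refine Finset.sum_pos' (fun _ _ => Nat.zero_le _) ⟨i, hi, ?_⟩
    rcases h with ⟨γ, hγ⟩ | ⟨γ, hγ⟩
    · have : 0 < cnt Γ (a i) v := Finset.card_pos.2 ⟨γ, by simpa using hγ⟩
      omega
    · have : 0 < cnt Γ (b i) v := Finset.card_pos.2 ⟨γ, by simpa using hγ⟩
      omega
  · exact Or.inl h
  · exact Or.inr (Or.inl h)

theorem main_step {D : Dih Γ ρ} (hm : D.m = 3) {A : Finset Y} (hA : Good D A)
    (hnf : ∀ y ∈ A, ¬ Fx Γ y) {S : Finset ι} {a0 b0 : ι → Y}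
    (hab0 : ∀ i ∈ S, a0 i ∈ A ∧ b0 i ∈ A)
    {u w : Y} {σ : Γ} {d : E2} (hFE : FE D u w σ d) (hu : u ∈ A) (hw : w ∈ A)
    (hβ0 : StarG D A S a0 b0 u w) (ih : IHF D ι S.card) :
    ConF ρ S a0 b0 u w σ d := by
  classical
  by_cases hst0 : Strong Γ A S a0 b0 u w
  swap
  · exact contract hm hA hnf hab0 hFE hu hw hβ0 hst0 ih
  obtain ⟨v, hvA, hv, hdeg⟩ := exists_low_f hA.inv hab0 hu hw hβ0.h1
  by_cases hvu : ∃ γ : Γ, γ • u = v
  · obtain ⟨γ, rfl⟩ := hvu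
    refine main_u hm hA hnf hab0 hFE hu hw hβ0 hst0 ih ?_
    simpa only [cnt_smul_right] using hdeg
  by_cases hvw : ∃ γ : Γ, γ • w = v
  · obtain ⟨γ, rfl⟩ := hvw
    refine ConF.symm (main_u hm hA hnf hab0 hFE.symm hw hu hβ0.symm ?_ ih ?_)
    · intro X hX hc
      rw [BB_comm]; exact hst0 X hX hc
    · simp only [cnt_smul_right] at hdeg
      omega
  push Not at hvu hvw
  have hcu := cnt_eq_zero hvu
  have hcw := cnt_eq_zero hvw
  have hdeg0 : 0 < ∑ i ∈ S, (cnt Γ (a0 i) v + cnt Γ (b0 i) v) := by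
    rcases hv with ⟨γ, hγ⟩ | ⟨γ, hγ⟩ | h
    · exact absurd hγ (hvu γ)
    · exact absurd hγ (hvw γ)
    · exact h
  have hdeg4 : ∑ i ∈ S, (cnt Γ (a0 i) v + cnt Γ (b0 i) v) < 4 := by omega
  obtain ⟨a, b, hrel, hnm⟩ := exists_normal (Γ := Γ) a0 b0 v
  refine conF_of_indep hm hA hnf hFE hu ?_
  refine exists_indep_of_rel ρ (a' := a) (b' := b) (fun i _ => hrel i) ?_
  have hβ : StarG D A S a b u w := by
    refine ⟨fun X hX hn => ?_, fun X hX hn hR => ?_⟩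
    · rw [BB_congr_rel u w (fun i _ => hrel i)]; exact hβ0.h1 X hX hn
    · rw [BB_congr_rel u w (fun i _ => hrel i)]; exact hβ0.h2 X hX hn hR
  have hst : Strong Γ A S a b u w := by
    intro X hX hc
    rw [BB_congr_rel u w (fun i _ => hrel i)]; exact hst0 X hX hc
  have hab : ∀ i ∈ S, a i ∈ A ∧ b i ∈ A := fun i hi => rel_mem hA (hrel i) (hab0 i hi)
  have hdegeq : ∑ i ∈ S, (cnt Γ (a i) v + cnt Γ (b i) v) =
      ∑ i ∈ S, (cnt Γ (a0 i) v + cnt Γ (b0 i) v) :=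
    Finset.sum_congr rfl fun i _ => cnt_rel (hrel i) v
  rw [← hdegeq] at hdeg0 hdeg4
  refine reduce_normal D hA (KF_tinv u w d) (KF_zero u w d) (KF_at hvu hvw d) hvA (hnf v hvA)
    hnm hdeg0 hdeg4 ?_ ?_ ?_ ?_
  · intro i hi hai hbi
    have h5 := hβ.h1 {v} (Finset.singleton_subset_iff.2 hvA) ⟨v, Finset.mem_singleton_self v⟩
    have h6 := BB_le_one (Γ := Γ) (a := a) (b := b) (u := u) (w := w) hi {v}
    have h7 : 0 < kk Γ (a i) (b i) {v} := by
      unfold kk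
      refine Finset.card_pos.2 ⟨1, ?_⟩
      simp [hai, hbi]
    rw [Finset.card_singleton] at h6
    push_cast at h6
    omega
  · intro hm2
    omega
  · intro S' hS'
    refine indep_of_conF (σ := σ) ?_
    refine ih Y S' a b A u w σ d (Finset.card_lt_card hS') hA hnf
      (fun i hi => hab i (hS'.1 hi)) hFE hu hw ⟨fun X hX hn => ?_, fun X hX hn hR => ?_⟩
    · exact (hβ.h1 X hX hn).trans (BB_mono_S hS'.1 a b u w X)
    · exact (hβ.h2 X hX hn hR).trans (BB_mono_S hS'.1 a b u w X)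
  · intro p hp q hq r hr hpq hpr hqr hap haq har hbp hbq hbr hout
    have hne : ∀ i, (∀ γ : Γ, γ • b i ≠ v) → b i ≠ v := by
      intro i h
      have := h 1
      rwa [one_smul] at this
    have hnpq := nbr_ne hst hab hvA hp hq hpq hap haq (hne p hbp)
    have hnpr := nbr_ne hst hab hvA hp hr hpr hap har (hne p hbp)
    have hnqr := nbr_ne hst hab hvA hq hr hqr haq har (hne q hbq)
    have step : ∀ p q r : ι, p ∈ S → q ∈ S → r ∈ S → p ≠ q → p ≠ r → q ≠ r → a p = v → a q = v →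
        a r = v → (∀ γ : Γ, γ • b p ≠ v) → (∀ γ : Γ, γ • b q ≠ v) →
        (∀ k ∈ S, k ≠ p → k ≠ q → k ≠ r → (∀ γ : Γ, γ • a k ≠ v) ∧ (∀ γ : Γ, γ • b k ≠ v)) →
        GoodPair D (away Γ A v) (BB (Γ := Γ) S a b u w) (b p) (b q) →
        ∃ x : ι → E2, Indep ρ (KF ρ u w d) ((S.erase r).erase q)
          (Function.update a p (b q)) b x := by
      intro p q r hp hq hr hpq hpr hqr hap haq har hbp hbq hout hgood
      refine indep_of_conF (σ := σ) ?_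
      have hcard : ((S.erase r).erase q).card < S.card := 
        Finset.card_lt_card (Finset.ssubset_of_subset_of_ssubset (Finset.erase_subset _ _)
          (Finset.erase_ssubset hr))
      have hBB : ∀ X ⊆ away Γ A v, BB (Γ := Γ) ((S.erase r).erase q)
          (Function.update a p (b q)) b u w X =
          BB (Γ := Γ) S a b u w X - 2 * (kk Γ (b p) (b q) X : ℤ) := by
        intro X hX
        rw [BB_eq, BB_eq, bb_reduced hp hq hr hpq hpr hqr hap haq har hX]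
        ring
      refine ih Y ((S.erase r).erase q) (Function.update a p (b q)) b (away Γ A v) u w σ d hcard
        (away_good hA v) (fun y hy => hnf y (away_subset hy)) ?_ hFE
        (mem_away.2 ⟨hu, hvu⟩) (mem_away.2 ⟨hw, hvw⟩) ⟨fun X hX hn => ?_, fun X hX hn hR => ?_⟩
      · intro i hi
        have hiq : i ≠ q := Finset.ne_of_mem_erase hi
        have hir : i ≠ r := Finset.ne_of_mem_erase (Finset.mem_of_mem_erase hi)
        have hiS : i ∈ S := Finset.mem_of_mem_erase (Finset.mem_of_mem_erase hi)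
        by_cases hip : i = p
        · subst hip
          rw [Function.update_self]
          exact ⟨mem_away.2 ⟨(hab q hq).2, hbq⟩, mem_away.2 ⟨(hab i hp).2, hbp⟩⟩
        · rw [Function.update_of_ne hip]
          have h := hout i hiS hip hiq hir
          exact ⟨mem_away.2 ⟨(hab i hiS).1, h.1⟩, mem_away.2 ⟨(hab i hiS).2, h.2⟩⟩
      · rw [hBB X hX]; exact hgood.1 X hX hn
      · rw [hBB X hX]; exact hgood.2 X hX hn hR
    rcases exists_good_pair_f hm hA hnf hFE hβ hst hvA hp hq hr hpq hpr hqr hap haq har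
      hnpq hnpr hnqr with h | h | h
    · exact Or.inl (step p q r hp hq hr hpq hpr hqr hap haq har hbp hbq hout h)
    · exact Or.inr (Or.inl (step p r q hp hr hq hpr hpq hqr.symm hap har haq hbp hbr
        (fun k hk h1 h2 h3 => hout k hk h1 h3 h2) h))
    · exact Or.inr (Or.inr (step q r p hq hr hp hqr hpq.symm hpr.symm haq har hap hbq hbr
        (fun k hk h1 h2 h3 => hout k hk h3 h1 h2) h))

theorem T1f_aux (D : Dih Γ ρ) (hm : D.m = 3) : ∀ n : ℕ, IHF D ι n := by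
  intro n
  induction n with
  | zero =>
    intro Z _ _ S a b A u w σ d hS
    exact absurd hS (Nat.not_lt_zero _)
  | succ n ihn =>
    intro Z _ _ S a b A u w σ d hS hA hnf hab hFE hu hw hβ
    rcases Nat.lt_succ_iff_lt_or_eq.1 hS with h | h
    · exact ihn Z S a b A u w σ d h hA hnf hab hFE hu hw hβ
    · refine main_step hm hA hnf hab hFE hu hw hβ ?_
      rw [h]; exact ihn

theorem T1f {Γ : Type} [Group Γ] [Fintype Γ] {Y : Type} [MulAction Γ Y] [DecidableEq Y]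
    {ι : Type} [DecidableEq ι] {ρ : Γ →* (E2 →ₗ[ℝ] E2)} (D : Dih Γ ρ) (hm : D.m = 3)
    {A : Finset Y} (hA : Good D A) (hnf : ∀ y ∈ A, ¬ Fx Γ y)
    (S : Finset ι) (a b : ι → Y) (hab : ∀ i ∈ S, a i ∈ A ∧ b i ∈ A)
    (u w : Y) (σ : Γ) (d : E2) (hFE : FE D u w σ d) (hu : u ∈ A) (hw : w ∈ A)
    (hβ1 : ∀ X ⊆ A, X.Nonempty → 4 ≤ BB (Γ := Γ) S a b u w X)
    (hβ2 : ∀ X ⊆ A, X.Nonempty → InvH D.R X → 6 ≤ BB (Γ := Γ) S a b u w X) :
    ∃ x : ι → E2, ∀ (ω : ι → Γ → ℝ) (ωf : Γ → ℝ),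
      load ρ S a b x ω + load1 ρ u w d ωf = 0 →
      (∀ i ∈ S, ω i = 0) ∧ ∀ γ : Γ, ωf γ + ωf (γ * σ) = 0 :=
  T1f_aux (ι := ι) D hm (S.card + 1) Y S a b A u w σ d (Nat.lt_succ_self _) hA hnf hab hFE hu hw
    ⟨hβ1, hβ2⟩

end Pool.Agent.SymLaman
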