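import Pool.Agent.Lib_MP_d5472a_co.T1f

set_option autoImplicit false
set_option linter.unusedSectionVars false

/-! The main induction with the special orbit. -/

namespace Pool.Agent.SymLaman
open scoped Pointwise

variable {Γ : Type} [Group Γ] [Fintype Γ]
variable {Y : Type} [MulAction Γ Y] [DecidableEq Y]
variable {ι : Type} [DecidableEq ι]
variable {ρ : Γ →* (E2 →ₗ[ℝ] E2)}

theorem BB_comm (S : Finset ι) (a b : ι → Y) (u w : Y) (X : Finset Y) :
    BB (Γ := Γ) S a b w u X = BB (Γ := Γ) S a b u w X := by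
  rw [BB_eq, BB_eq, kk_comm]

theorem StarG.symm {D : Dih Γ ρ} {A : Finset Y} {S : Finset ι} {a b : ι → Y} {u w : Y}
    (h : StarG D A S a b u w) : StarG D A S a b w u :=
  ⟨fun X hX hn => by rw [BB_comm]; exact h.h1 X hX hn,
    fun X hX hn hR => by rw [BB_comm]; exact h.h2 X hX hn hR⟩

theorem starF_of_starG {D : Dih Γ ρ} {A : Finset Y} {S S' : Finset ι} {a b : ι → Y} {u w : Y}
    (hβ : StarG D A S a b u w) (hS : S' ⊆ S) : StarF D A (bb (Γ := Γ) S' a b) := by
  refine ⟨?_, ?_⟩
  · intro X hX hXn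
    have h1 := hβ.h1 X hX hXn
    have h2 := BB_mono_S (Γ := Γ) hS a b u w X
    rw [BB_eq (Γ := Γ) S'] at h2
    have h3 : (0 : ℤ) ≤ kk Γ u w X := by positivity
    omega
  · intro X hX hXn hR _
    have h1 := hβ.h2 X hX hXn hR
    have h2 := BB_mono_S (Γ := Γ) hS a b u w X
    rw [BB_eq (Γ := Γ) S'] at h2
    have h3 : (0 : ℤ) ≤ kk Γ u w X := by positivity
    omega

theorem ConF.symm {S : Finset ι} {a b : ι → Y} {u w : Y} {σ : Γ} {d : E2}
    (h : ConF ρ S a b w u σ d) : ConF ρ S a b u w σ d := by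
  obtain ⟨x, hx⟩ := h
  refine ⟨x, fun ω ωf hker => ?_⟩
  have h1 := hx ω (-ωf) (by
    rw [← hker]
    congr 1
    ext1 y
    rw [load1_apply, load1_apply, inc_neg, inc_neg]
    abel)
  refine ⟨h1.1, fun γ => ?_⟩
  have := h1.2 γ
  simp only [Pi.neg_apply] at this
  linarith

theorem BB_le_one {S : Finset ι} {a b : ι → Y} {u w : Y} {i : ι} (hi : i ∈ S) (X : Finset Y) :
    BB (Γ := Γ) S a b u w X ≤ 4 * (X.card : ℤ) - 2 * (kk Γ (a i) (b i) X : ℤ) := by
  unfold BB
  have h1 : (kk Γ (a i) (b i) X : ℤ) ≤ ∑ i ∈ S, (kk Γ (a i) (b i) X : ℤ) :=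
    Finset.single_le_sum (f := fun i => (kk Γ (a i) (b i) X : ℤ))
      (fun _ _ => by positivity) hi
  have h2 : (0 : ℤ) ≤ kk Γ u w X := by positivity
  linarith

theorem BB_le_two {S : Finset ι} {a b : ι → Y} {u w : Y} {i j : ι} (hi : i ∈ S) (hj : j ∈ S)
    (hij : i ≠ j) (X : Finset Y) :
    BB (Γ := Γ) S a b u w X ≤ 4 * (X.card : ℤ) - 2 * (kk Γ (a i) (b i) X : ℤ)
      - 2 * (kk Γ (a j) (b j) X : ℤ) := by
  unfold BB
  have h1 : (kk Γ (a i) (b i) X : ℤ) + (kk Γ (a j) (b j) X : ℤ) ≤
      ∑ i ∈ S, (kk Γ (a i) (b i) X : ℤ) := by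
    rw [← Finset.sum_pair (f := fun i => (kk Γ (a i) (b i) X : ℤ)) hij]
    refine Finset.sum_le_sum_of_subset_of_nonneg ?_ fun _ _ _ => by positivity
    intro k hk
    simp only [Finset.mem_insert, Finset.mem_singleton] at hk
    rcases hk with rfl | rfl
    · exact hi
    · exact hj
  have h2 : (0 : ℤ) ≤ kk Γ u w X := by positivity
  linarith

/-- two parallel edges at `v` are excluded by the strong condition -/
theorem nbr_ne {A : Finset Y} {S : Finset ι} {a b : ι → Y} {u w v : Y}
    (hst : Strong Γ A S a b u w) (hab : ∀ i ∈ S, a i ∈ A ∧ b i ∈ A) (hvA : v ∈ A) {i j : ι}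
    (hi : i ∈ S) (hj : j ∈ S) (hij : i ≠ j) (hai : a i = v) (haj : a j = v)
    (hbi : b i ≠ v) : b i ≠ b j := by
  intro h
  have h1 := hst {v, b i} (by
    intro y hy
    simp only [Finset.mem_insert, Finset.mem_singleton] at hy
    rcases hy with rfl | rfl
    · exact hvA
    · exact (hab i hi).2) (by rw [Finset.card_pair hbi.symm])
  have h2 := BB_le_two (Γ := Γ) (a := a) (b := b) (u := u) (w := w) hi hj hij {v, b i}
  rw [Finset.card_pair hbi.symm] at h2
  have h3 : 1 ≤ kk Γ (a i) (b i) {v, b i} := by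
    unfold kk
    refine Finset.card_pos.2 ⟨1, ?_⟩
    simp [hai]
  have h4 : 1 ≤ kk Γ (a j) (b j) {v, b i} := by
    unfold kk
    refine Finset.card_pos.2 ⟨1, ?_⟩
    simp [haj, h]
  push_cast at h2
  omega

theorem cnt_free {v : Y} (h : ∀ γ : Γ, γ • v = v → γ = 1) : cnt Γ v v = 1 := by
  classical
  unfold cnt
  have : (Finset.univ.filter (fun γ : Γ => γ • v = v)) = {1} := by
    ext γ
    simp only [Finset.mem_filter, Finset.mem_univ, true_and, Finset.mem_singleton]
    constructor
    · exact h γ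
    · rintro rfl; exact one_smul _ _
  rw [this, Finset.card_singleton]

theorem cnt_stab {v : Y} {g : Γ} (hg1 : g ≠ 1) (hgv : g • v = v)
    (h : ∀ γ : Γ, γ • v = v → γ = 1 ∨ γ = g) : cnt Γ v v = 2 := by
  classical
  unfold cnt
  have : (Finset.univ.filter (fun γ : Γ => γ • v = v)) = {1, g} := by
    ext γ
    simp only [Finset.mem_filter, Finset.mem_univ, true_and, Finset.mem_insert,
      Finset.mem_singleton]
    constructor
    · exact h γ
    · rintro (rfl | rfl)
      · exact one_smul _ _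
      · exact hgv
  rw [this, Finset.card_pair (Ne.symm hg1)]

/-- the edges at a normalised vertex -/
theorem deg_bound {S : Finset ι} {a b : ι → Y} {v : Y} {T T2 : Finset ι} (hTS : T ⊆ S)
    (hT2S : T2 ⊆ S) (hT : ∀ i ∈ T, a i = v) (hT2 : ∀ i ∈ T2, ∃ γ : Γ, γ • b i = v) :
    cnt Γ v v * (T.card + T2.card) ≤ ∑ i ∈ S, (cnt Γ (a i) v + cnt Γ (b i) v) := by
  rw [Finset.sum_add_distrib, mul_add]
  refine Nat.add_le_add ?_ ?_
  · have h1 : ∑ i ∈ T, cnt Γ (a i) v ≤ ∑ i ∈ S, cnt Γ (a i) v :=
      Finset.sum_le_sum_of_subset hTS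
    refine le_trans (le_of_eq ?_) h1
    rw [Finset.sum_congr rfl (fun i hi => by rw [hT i hi]), Finset.sum_const,
      smul_eq_mul, mul_comm]
  · have h1 : ∑ i ∈ T2, cnt Γ (b i) v ≤ ∑ i ∈ S, cnt Γ (b i) v :=
      Finset.sum_le_sum_of_subset hT2S
    refine le_trans (le_of_eq ?_) h1
    rw [Finset.sum_congr rfl (fun i hi => by
      obtain ⟨γ, hγ⟩ := hT2 i hi
      rw [cnt_of_smul γ hγ]), Finset.sum_const, smul_eq_mul, mul_comm]

/-- using the induction hypothesis with a new special orbit -/
theorem ih_apply {D : Dih Γ ρ} (hm : D.m = 3) {A : Finset Y} (hA : Good D A)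
    (hnf : ∀ y ∈ A, ¬ Fx Γ y) {S S' : Finset ι} {a b : ι → Y}
    (hab : ∀ i ∈ S, a i ∈ A ∧ b i ∈ A)
    {u w : Y} (hβ : StarG D A S a b u w) (hst : Strong Γ A S a b u w)
    (ih : IHF D ι S.card) (hS' : S' ⊂ S)
    (hout : ∀ k ∈ S', (∀ γ : Γ, γ • a k ≠ u) ∧ (∀ γ : Γ, γ • b k ≠ u))
    {n n' : Y} {σ : Γ} {d' : E2} (hFE : FE D n n' σ d') (hn : n ∈ away Γ A u)
    (hn' : n' ∈ away Γ A u) : ConF ρ S' a b n n' σ d' := by
  have hle : ∀ X ⊆ away Γ A u, BB (Γ := Γ) S a b u w X ≤ 2 * bb (Γ := Γ) S' a b X := by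
    intro X hX
    rw [BB_eq, kk_eq_zero_left (fun g => notMem_of_away hX g)]
    have := bb_mono_S (Γ := Γ) hS'.1 a b X
    push_cast
    linarith
  refine ih Y S' a b (away Γ A u) n n' σ d' (Finset.card_lt_card hS') (away_good hA u)
    (fun y hy => hnf y (away_subset hy)) (fun i hi => ?_) hFE hn hn' ?_
  · have h1 := hab i (hS'.1 hi)
    exact ⟨mem_away.2 ⟨h1.1, (hout i hi).1⟩, mem_away.2 ⟨h1.2, (hout i hi).2⟩⟩
  · refine valid_f hm (away_good hA u) (fun y hy => hnf y (away_subset hy)) hFE ?_ ?_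
    · intro X hX hXn
      have h1 := hβ.h1 X (hX.trans away_subset) hXn
      have h2 := hle X hX
      omega
    · intro X hX hXc
      have h1 := hst X (hX.trans away_subset) hXc
      have h2 := hle X hX
      omega

theorem main_u {D : Dih Γ ρ} (hm : D.m = 3) {A : Finset Y} (hA : Good D A)
    (hnf : ∀ y ∈ A, ¬ Fx Γ y) {S : Finset ι} {a0 b0 : ι → Y}
    (hab0 : ∀ i ∈ S, a0 i ∈ A ∧ b0 i ∈ A)
    {u w : Y} {σ : Γ} {d : E2} (hFE : FE D u w σ d) (hu : u ∈ A) (hw : w ∈ A)
    (hβ0 : StarG D A S a0 b0 u w) (hst0 : Strong Γ A S a0 b0 u w)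
    (ih : IHF D ι S.card)
    (hdeg0 : 2 * ∑ i ∈ S, (cnt Γ (a0 i) u + cnt Γ (b0 i) u) + (cnt Γ u u + cnt Γ w u) < 8) :
    ConF ρ S a0 b0 u w σ d := by
  classical
  obtain ⟨a, b, hrel, hnm⟩ := exists_normal (Γ := Γ) a0 b0 u
  refine conF_of_indep hm hA hnf hFE hu ?_
  refine exists_indep_of_rel ρ (a' := a) (b' := b) (fun i _ => hrel i) ?_
  refine indep_of_conF (σ := σ) ?_
  have hβ : StarG D A S a b u w := by
    refine ⟨fun X hX hn => ?_, fun X hX hn hR => ?_⟩
    · rw [BB_congr_rel u w (fun i _ => hrel i)]; exact hβ0.h1 X hX hn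
    · rw [BB_congr_rel u w (fun i _ => hrel i)]; exact hβ0.h2 X hX hn hR
  have hst : Strong Γ A S a b u w := by
    intro X hX hc
    rw [BB_congr_rel u w (fun i _ => hrel i)]; exact hst0 X hX hc
  have hab : ∀ i ∈ S, a i ∈ A ∧ b i ∈ A := fun i hi => rel_mem hA (hrel i) (hab0 i hi)
  have hdegeq : ∑ i ∈ S, (cnt Γ (a i) u + cnt Γ (b i) u) =
      ∑ i ∈ S, (cnt Γ (a0 i) u + cnt Γ (b0 i) u) :=
    Finset.sum_congr rfl fun i _ => cnt_rel (hrel i) u
  rw [← hdegeq] at hdeg0
  have hσσ := D.refl_sq σ hFE.hσ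
  set T := S.filter (fun i => a i = u) with hT
  set T2 := T.filter (fun i => ∃ γ : Γ, γ • b i = u) with hT2
  have hTS : T ⊆ S := Finset.filter_subset _ _
  have hT2T : T2 ⊆ T := Finset.filter_subset _ _
  have hTm : ∀ i, i ∈ T ↔ i ∈ S ∧ a i = u := fun i => Finset.mem_filter
  have hout : ∀ i ∈ S, i ∉ T → (∀ γ : Γ, γ • a i ≠ u) ∧ (∀ γ : Γ, γ • b i ≠ u) := by
    intro i hi hiT
    rcases hnm i with h | h
    · exact absurd ((hTm i).2 ⟨hi, h⟩) hiT
    · exact h
  have hbound := deg_bound (Γ := Γ) (S := S) (a := a) (b := b) (v := u) hTS (hT2T.trans hTS)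
    (fun i hi => ((hTm i).1 hi).2) (fun i hi => (Finset.mem_filter.1 hi).2)
  have hext : T2 = ∅ → ∀ i ∈ T, ∀ γ : Γ, γ • b i ≠ u := by
    intro hT2e i hi γ hγ
    have h1 : i ∈ T2 := Finset.mem_filter.2 ⟨hi, γ, hγ⟩
    rw [hT2e] at h1
    exact Finset.notMem_empty i h1
  have hempty : T = ∅ → ConF ρ S a b u w σ d := by
    intro hTe
    refine f_remove hm hA hnf hFE hu (fun i hi => hout i hi ?_)
      (T1 D hA S a b hab (starF_of_starG hβ subset_rfl))
    rw [hTe]; exact Finset.notMem_empty i
  have hcardT : T.card ≤ T.card := le_rfl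
  rcases stab_cases hA hu (hnf u hu) with hfree | ⟨g, hg1, hgR, hgu, hh⟩
  · -- free
    have hs := cnt_free hfree
    rcases hFE.typ with ⟨h1, h2, h3⟩ | ⟨h1, h2, h3⟩
    swap
    · exact absurd (hfree σ h1) (D.refl_ne_one hFE.hσ)
    have hcw : cnt Γ w u = 1 := by rw [← h1, cnt_smul, hs]
    rw [hs, one_mul] at hbound
    rw [hs, hcw] at hdeg0
    have hT2le : T2.card ≤ T.card := Finset.card_le_card hT2T
    have hsum : T.card + T2.card ≤ 2 := by omega
    rcases T2.eq_empty_or_nonempty with hT2e | ⟨i, hiT2⟩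
    · have hT012 : T.card = 0 ∨ T.card = 1 ∨ T.card = 2 := by omega
      rcases hT012 with h0 | h0 | h0
      · exact hempty (Finset.card_eq_zero.1 h0)
      · obtain ⟨i, hi⟩ := Finset.card_eq_one.1 h0
        have hiT : i ∈ T := by rw [hi]; exact Finset.mem_singleton_self i
        refine f_ext1 hm hA hnf hFE hu hfree h1 h3 (hTS hiT) ((hTm i).1 hiT).2
          (hext hT2e i hiT) ?_ (T1 D hA (S.erase i) a b
            (fun k hk => hab k (Finset.mem_of_mem_erase hk))
            (starF_of_starG hβ (Finset.erase_subset _ _)))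
        intro k hk hki
        refine hout k hk fun hkT => hki ?_
        rw [hi] at hkT
        exact Finset.mem_singleton.1 hkT
      · obtain ⟨i, j, hij, hT'⟩ := Finset.card_eq_two.1 h0
        have hiT : i ∈ T := by rw [hT']; simp
        have hjT : j ∈ T := by rw [hT']; simp
        have hiS := hTS hiT
        have hjS := hTS hjT
        have hai := ((hTm i).1 hiT).2
        have haj := ((hTm j).1 hjT).2
        have hbi := hext hT2e i hiT
        have hbj := hext hT2e j hjT
        have hout2 : ∀ k ∈ S, k ≠ i → k ≠ j →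
            (∀ γ : Γ, γ • a k ≠ u) ∧ (∀ γ : Γ, γ • b k ≠ u) := by
          intro k hk hki hkj
          refine hout k hk fun hkT => ?_
          rw [hT'] at hkT
          simp only [Finset.mem_insert, Finset.mem_singleton] at hkT
          rcases hkT with h | h
          · exact hki h
          · exact hkj h
        have hbiA : b i ∈ away Γ A u := mem_away.2 ⟨(hab i hiS).2, hbi⟩
        have hbjA : b j ∈ away Γ A u := mem_away.2 ⟨(hab j hjS).2, hbj⟩
        have hAinv := (away_good hA u).inv
        have hssub : (S.erase i).erase j ⊂ S :=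
          Finset.ssubset_of_subset_of_ssubset (Finset.erase_subset _ _)
            (Finset.erase_ssubset hiS)
        have hssub' : (S.erase j).erase i ⊂ S :=
          Finset.ssubset_of_subset_of_ssubset (Finset.erase_subset _ _)
            (Finset.erase_ssubset hjS)
        have houtS : ∀ k ∈ (S.erase i).erase j,
            (∀ γ : Γ, γ • a k ≠ u) ∧ (∀ γ : Γ, γ • b k ≠ u) := by
          intro k hk
          exact hout2 k (Finset.mem_of_mem_erase (Finset.mem_of_mem_erase hk))
            (Finset.ne_of_mem_erase (Finset.mem_of_mem_erase hk)) (Finset.ne_of_mem_erase hk)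
        have houtS' : ∀ k ∈ (S.erase j).erase i,
            (∀ γ : Γ, γ • a k ≠ u) ∧ (∀ γ : Γ, γ • b k ≠ u) := by
          intro k hk
          exact hout2 k (Finset.mem_of_mem_erase (Finset.mem_of_mem_erase hk))
            (Finset.ne_of_mem_erase hk) (Finset.ne_of_mem_erase (Finset.mem_of_mem_erase hk))
        by_cases hσi : σ • b i = b i
        · by_cases hσj : σ • b j = b j
          · obtain ⟨d', hd'0, hd'⟩ := D.dpos σ hFE.hσ
            have hne : b i ≠ b j := nbr_ne hst hab hu hiS hjS hij hai haj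
              (by have := hbi 1; rwa [one_smul] at this)
            refine f_ext2' hm hA hnf hFE hu hfree h1 h3 hiS hjS hij hai hbi haj hbj hout2
              hσi hσj hd'0 hd' ?_
            exact ih_apply hm hA hnf hab hβ hst ih hssub houtS
              ⟨hFE.hσ, hne, hd'0, Or.inr ⟨hσi, hσj, hd'⟩⟩ hbiA hbjA
          · refine f_ext2 hm hA hnf hFE hu hfree h1 h3 hjS hiS hij.symm haj hbj hai hbi
              (fun k hk h5 h6 => hout2 k hk h6 h5) ?_
            exact ih_apply hm hA hnf hab hβ hst ih hssub' houtS'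
              ⟨hFE.hσ, Ne.symm hσj, hFE.d0,
                Or.inl ⟨rfl, by rw [smul_smul, hσσ, one_smul], h3⟩⟩ hbjA
              (hAinv σ (Subgroup.mem_top σ) _ hbjA)
        · refine f_ext2 hm hA hnf hFE hu hfree h1 h3 hiS hjS hij hai hbi haj hbj hout2 ?_
          exact ih_apply hm hA hnf hab hβ hst ih hssub houtS
            ⟨hFE.hσ, Ne.symm hσi, hFE.d0,
              Or.inl ⟨rfl, by rw [smul_smul, hσσ, one_smul], h3⟩⟩ hbiA
            (hAinv σ (Subgroup.mem_top σ) _ hbiA)
    · -- internal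
      have hT2pos : 0 < T2.card := Finset.card_pos.2 ⟨i, hiT2⟩
      have hT1 : T.card = 1 := by omega
      have hiT := hT2T hiT2
      have hTi : T = {i} := by
        obtain ⟨i', hi'⟩ := Finset.card_eq_one.1 hT1
        rw [hi'] at hiT ⊢
        rw [Finset.mem_singleton.1 hiT]
      have hiS := hTS hiT
      have hai := ((hTm i).1 hiT).2
      obtain ⟨γ, hγ⟩ := (Finset.mem_filter.1 hiT2).2
      have hbi : b i = γ⁻¹ • u := by rw [← hγ, inv_smul_smul]
      have hγ1 : γ⁻¹ ≠ 1 := by
        intro h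
        rw [h, one_smul] at hbi
        have h5 := hβ.h1 {u} (Finset.singleton_subset_iff.2 hu) ⟨u, Finset.mem_singleton_self u⟩
        have h6 := BB_le_one (Γ := Γ) (a := a) (b := b) (u := u) (w := w) hiS {u}
        have h7 : 0 < kk Γ (a i) (b i) {u} := by
          unfold kk
          refine Finset.card_pos.2 ⟨1, ?_⟩
          simp [hai, hbi]
        rw [Finset.card_singleton] at h6
        push_cast at h6
        omega
      have hγR : γ⁻¹ ∈ D.R := by
        by_contra hγR
        have hgg := D.refl_sq _ hγR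
        have hne : u ≠ γ⁻¹ • u := fun h => hγ1 (hfree _ h.symm)
        have h5 := hst {u, γ⁻¹ • u} (by
          intro y hy
          simp only [Finset.mem_insert, Finset.mem_singleton] at hy
          rcases hy with rfl | rfl
          · exact hu
          · exact hA.inv _ (Subgroup.mem_top _) _ hu) (by rw [Finset.card_pair hne])
        have h6 := BB_le_one (Γ := Γ) (a := a) (b := b) (u := u) (w := w) hiS {u, γ⁻¹ • u}
        have h7 : 2 ≤ kk Γ (a i) (b i) {u, γ⁻¹ • u} := by
          unfold kk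
          have : ({1, γ⁻¹} : Finset Γ) ⊆ Finset.univ.filter
              (fun δ : Γ => δ • a i ∈ ({u, γ⁻¹ • u} : Finset Y) ∧
                δ • b i ∈ ({u, γ⁻¹ • u} : Finset Y)) := by
            intro δ hδ
            rw [Finset.mem_insert, Finset.mem_singleton] at hδ
            rw [Finset.mem_filter]
            refine ⟨Finset.mem_univ _, ?_⟩
            rw [hai, hbi, Finset.mem_insert, Finset.mem_singleton, Finset.mem_insert,
              Finset.mem_singleton]
            rcases hδ with h | h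
            · rw [h, one_smul, one_smul]; exact ⟨Or.inl rfl, Or.inr rfl⟩
            · rw [h, smul_smul, hgg, one_smul]; exact ⟨Or.inr rfl, Or.inl rfl⟩
          refine le_trans (le_of_eq ?_) (Finset.card_le_card this)
          rw [Finset.card_pair (Ne.symm hγ1)]
        rw [Finset.card_pair hne] at h6
        push_cast at h6
        omega
      refine f_int hm hA hnf hFE hu hfree h1 h3 hiS hai hγR hγ1 hbi ?_
        (T1 D hA (S.erase i) a b (fun k hk => hab k (Finset.mem_of_mem_erase hk))
            (starF_of_starG hβ (Finset.erase_subset _ _)))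
      intro k hk hki
      refine hout k hk fun hkT => hki ?_
      rw [hTi] at hkT
      exact Finset.mem_singleton.1 hkT
  · -- stabiliser of order two
    have hs := cnt_stab hg1 hgu hh
    rw [hs] at hbound hdeg0
    rcases hFE.typ with ⟨h1, h2, h3⟩ | ⟨h1, h2, h3⟩
    · have hcw : cnt Γ w u = 2 := by rw [← h1, cnt_smul, hs]
      rw [hcw] at hdeg0
      refine hempty (Finset.card_eq_zero.1 ?_)
      omega
    · have hgσ : g = σ := by
        rcases hh σ h1 with h | h
        · exact absurd h (D.refl_ne_one hFE.hσ)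
        · exact h.symm
      rw [hgσ] at hh hg1
      have hT01 : T.card = 0 ∨ (T.card = 1 ∧ T2.card = 0) := by omega
      rcases hT01 with h0 | ⟨h0, h00⟩
      · exact hempty (Finset.card_eq_zero.1 h0)
      · obtain ⟨i, hi⟩ := Finset.card_eq_one.1 h0
        have hiT : i ∈ T := by rw [hi]; exact Finset.mem_singleton_self i
        have hiS := hTS hiT
        have hai := ((hTm i).1 hiT).2
        have hbi := hext (Finset.card_eq_zero.1 h00) i hiT
        have hbine : b i ≠ u := by have := hbi 1; rwa [one_smul] at this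
        have hout1 : ∀ k ∈ S, k ≠ i → (∀ γ : Γ, γ • a k ≠ u) ∧ (∀ γ : Γ, γ • b k ≠ u) := by
          intro k hk hki
          refine hout k hk fun hkT => hki ?_
          rw [hi] at hkT
          exact Finset.mem_singleton.1 hkT
        have hσb : σ • b i ≠ b i := by
          intro hσb
          have h5 := hst {u, b i} (by
            intro y hy
            simp only [Finset.mem_insert, Finset.mem_singleton] at hy
            rcases hy with rfl | rfl
            · exact hu
            · exact (hab i hiS).2) (by rw [Finset.card_pair hbine.symm])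
          have h6 := BB_le_one (Γ := Γ) (a := a) (b := b) (u := u) (w := w) hiS {u, b i}
          have h7 : 2 ≤ kk Γ (a i) (b i) {u, b i} := by
            unfold kk
            have : ({1, σ} : Finset Γ) ⊆ Finset.univ.filter
                (fun δ : Γ => δ • a i ∈ ({u, b i} : Finset Y) ∧
                  δ • b i ∈ ({u, b i} : Finset Y)) := by
              intro δ hδ
              rw [Finset.mem_insert, Finset.mem_singleton] at hδ
              rw [Finset.mem_filter]
              refine ⟨Finset.mem_univ _, ?_⟩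
              rw [hai, Finset.mem_insert, Finset.mem_singleton, Finset.mem_insert,
                Finset.mem_singleton]
              rcases hδ with h | h
              · rw [h, one_smul, one_smul]; exact ⟨Or.inl rfl, Or.inr rfl⟩
              · rw [h, h1, hσb]; exact ⟨Or.inl rfl, Or.inr rfl⟩
            refine le_trans (le_of_eq ?_) (Finset.card_le_card this)
            rw [Finset.card_pair (Ne.symm hg1)]
          rw [Finset.card_pair hbine.symm] at h6
          push_cast at h6
          omega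
        obtain ⟨d', hd'0, hd'⟩ := D.dneg σ hFE.hσ
        have hbiA : b i ∈ away Γ A u := mem_away.2 ⟨(hab i hiS).2, hbi⟩
        refine f_type2 hm hA hnf hFE hu hh h1 h2 h3 hiS hai hbi hout1 hd'0 hd' ?_
        refine ih_apply hm hA hnf hab hβ hst ih (Finset.erase_ssubset hiS) ?_
          ⟨hFE.hσ, Ne.symm hσb, hd'0, Or.inl ⟨rfl, by rw [smul_smul, hσσ, one_smul], hd'⟩⟩ hbiA
          ((away_good hA u).inv σ (Subgroup.mem_top σ) _ hbiA)
        intro k hk
        exact hout1 k (Finset.mem_of_mem_erase hk) (Finset.ne_of_mem_erase hk)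

end Pool.Agent.SymLaman
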