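import Pool.Agent.Lib_MP_d5472a_co.Local

set_option autoImplicit false
set_option linter.unusedSectionVars false

/-! Analysis of the violated counts for the three-neighbour reduction. -/

namespace Pool.Agent.SymLaman
open scoped Pointwise

variable {Γ : Type} [Group Γ] [Fintype Γ]
variable {Y : Type} [MulAction Γ Y] [DecidableEq Y]
variable {ι : Type} [DecidableEq ι]
variable {ρ : Γ →* (E2 →ₗ[ℝ] E2)}

/-- fixed by the whole group -/
def Fx (Γ : Type) [Group Γ] {Y : Type} [MulAction Γ Y] (y : Y) : Prop := ∀ γ : Γ, γ • y = y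

/-- invariance of a finset under a subgroup -/
def InvH (H : Subgroup Γ) (X : Finset Y) : Prop := ∀ h ∈ H, ∀ y ∈ X, h • y ∈ X

theorem InvH.smul_eq {H : Subgroup Γ} {X : Finset Y} (hX : InvH H X) {h : Γ} (hh : h ∈ H) :
    h • X = X := by
  refine Finset.eq_of_subset_of_card_le ?_ (by rw [Finset.card_smul_finset])
  intro y hy
  obtain ⟨z, hz, rfl⟩ := Finset.mem_smul_finset.1 hy
  exact hX h hh z hz

theorem invH_of_smul_eq {H : Subgroup Γ} {X : Finset Y} (hX : ∀ h ∈ H, h • X = X) : InvH H X := by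
  intro h hh y hy
  rw [← hX h hh]
  exact Finset.smul_mem_smul_finset hy

theorem InvH.union {H : Subgroup Γ} {X Z : Finset Y} (hX : InvH H X) (hZ : InvH H Z) :
    InvH H (X ∪ Z) := by
  intro h hh y hy
  rcases Finset.mem_union.1 hy with hy | hy
  · exact Finset.mem_union_left _ (hX h hh y hy)
  · exact Finset.mem_union_right _ (hZ h hh y hy)

theorem InvH.inter {H : Subgroup Γ} {X Z : Finset Y} (hX : InvH H X) (hZ : InvH H Z) :
    InvH H (X ∩ Z) := by
  intro h hh y hy
  rw [Finset.mem_inter] at hy ⊢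
  exact ⟨hX h hh y hy.1, hZ h hh y hy.2⟩

theorem InvH.mono {H H' : Subgroup Γ} {X : Finset Y} (hX : InvH H X) (hH : H' ≤ H) :
    InvH H' X := fun h hh => hX h (hH hh)

/-- the vertex set hypotheses -/
structure Good (D : Dih Γ ρ) (A : Finset Y) : Prop where
  inv : InvH (⊤ : Subgroup Γ) A
  rot : ∀ y ∈ A, ∀ r ∈ D.R, r ≠ 1 → r • y = y → Fx Γ y
  uniq : ∀ y ∈ A, ∀ y' ∈ A, Fx Γ y → Fx Γ y' → y = y'

/-- the sparsity condition -/
def StarF (D : Dih Γ ρ) (A : Finset Y) (β : Finset Y → ℤ) : Prop :=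
  (∀ X ⊆ A, X.Nonempty → 2 ≤ β X) ∧
  (∀ X ⊆ A, X.Nonempty → InvH D.R X → (∀ y ∈ X, ¬ Fx Γ y) → 3 ≤ β X)

open Classical in
/-- the group used for global violations -/
noncomputable def Dih.HH (D : Dih Γ ρ) : Subgroup Γ := if D.m = 2 then D.R else ⊤

theorem Dih.HH_two {D : Dih Γ ρ} (h : D.m = 2) : D.HH = D.R := by
  unfold Dih.HH; rw [if_pos h]

theorem Dih.HH_three {D : Dih Γ ρ} (h : D.m = 3) : D.HH = ⊤ := by
  unfold Dih.HH; rw [if_neg (by omega)]

theorem Dih.R_le_HH (D : Dih Γ ρ) : D.R ≤ D.HH := by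
  rcases D.hm with h | h
  · rw [Dih.HH_two h]
  · rw [Dih.HH_three h]; exact le_top

def TII (A : Finset Y) (β : Finset Y → ℤ) (n n' : Y) : Prop :=
  ∃ W ⊆ A, n ∈ W ∧ n' ∈ W ∧ β W ≤ 2

def TV (D : Dih Γ ρ) (A : Finset Y) (β : Finset Y → ℤ) (n n' : Y) : Prop :=
  ∃ W ⊆ A, n ∈ W ∧ n' ∈ W ∧ InvH D.HH W ∧ (∀ y ∈ W, ¬ Fx Γ y) ∧ β W ≤ 2 * D.m

theorem TII.symm {A : Finset Y} {β : Finset Y → ℤ} {n n' : Y} (h : TII A β n n') :
    TII A β n' n := by
  obtain ⟨W, h1, h2, h3, h4⟩ := h
  exact ⟨W, h1, h3, h2, h4⟩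

theorem TV.symm {D : Dih Γ ρ} {A : Finset Y} {β : Finset Y → ℤ} {n n' : Y}
    (h : TV D A β n n') : TV D A β n' n := by
  obtain ⟨W, h1, h2, h3, h4⟩ := h
  exact ⟨W, h1, h3, h2, h4⟩

section divis

variable {D : Dih Γ ρ} {A : Finset Y} (hA : Good D A) {S : Finset ι} {a b : ι → Y}

include hA

theorem free_R {X : Finset Y} (hX : X ⊆ A) (hF : ∀ y ∈ X, ¬ Fx Γ y) :
    ∀ h ∈ D.R, h ≠ 1 → ∀ y ∈ X, h • y ≠ y := by
  intro h hh h1 y hy hhy
  exact hF y hy (hA.rot y (hX hy) h hh h1 hhy)

theorem card_dvd_R {X : Finset Y} (hX : X ⊆ A) (hR : InvH D.R X) (hF : ∀ y ∈ X, ¬ Fx Γ y) :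
    (D.m : ℤ) ∣ (X.card : ℤ) := by
  have := card_dvd_free D.R X hR (free_R hA hX hF)
  rw [D.card_R] at this
  exact_mod_cast this

theorem card_dvd_top {X : Finset Y} (hX : X ⊆ A) (hR : InvH (⊤ : Subgroup Γ) X)
    (hF : ∀ y ∈ X, ¬ Fx Γ y) : ((2 * D.m : ℕ) : ℤ) ∣ 2 * (X.card : ℤ) := by
  classical
  have := card_dvd_two (Γ := Γ) X (fun g y hy => hR g (Subgroup.mem_top g) y hy) ?_
  · rw [D.card_G] at this
    exact_mod_cast this
  · intro y hy
    have hstab : ∀ h : Γ, h ∈ MulAction.stabilizer Γ y ↔ h • y = y := by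
      intro h; exact MulAction.mem_stabilizer_iff
    rcases D.sub_cases (MulAction.stabilizer Γ y) with h | h | h | h
    · have : (Finset.univ.filter (fun h : Γ => h • y = y)) = {1} := by
        ext g
        simp only [Finset.mem_filter, Finset.mem_univ, true_and, Finset.mem_singleton]
        constructor
        · intro hg; exact h g ((hstab g).2 hg)
        · rintro rfl; exact one_smul _ _
      rw [this, Finset.card_singleton]
      exact one_dvd _
    · obtain ⟨g, hgR, hg, hh⟩ := h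
      have : (Finset.univ.filter (fun h : Γ => h • y = y)) = {1, g} := by
        ext g'
        simp only [Finset.mem_filter, Finset.mem_univ, true_and, Finset.mem_insert,
          Finset.mem_singleton]
        constructor
        · intro hg'; exact hh g' ((hstab g').2 hg')
        · rintro (rfl | rfl)
          · exact one_smul _ _
          · exact (hstab _).1 hg
      rw [this, Finset.card_pair (Ne.symm (D.refl_ne_one hgR))]
    · exfalso
      have hlt : 1 < Nat.card D.R := by
        rw [D.card_R]; exact D.m_prime.one_lt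
      obtain ⟨r, hr, hr1⟩ := (Subgroup.one_lt_card_iff_ne_bot _).1 hlt |> fun hb =>
        (Subgroup.ne_bot_iff_exists_ne_one).1 hb |> fun ⟨r, hr⟩ =>
          (⟨(r : Γ), r.2, fun h1 => hr (Subtype.ext h1)⟩ : ∃ r : Γ, r ∈ D.R ∧ r ≠ 1)
      exact free_R hA hX hF r hr hr1 y hy ((hstab r).1 (h ▸ hr))
    · exfalso
      exact hF y hy fun g => (hstab g).1 (h ▸ Subgroup.mem_top g)

theorem bb_dvd_R {X : Finset Y} (hX : X ⊆ A) (hR : InvH D.R X) (hF : ∀ y ∈ X, ¬ Fx Γ y) :
    (D.m : ℤ) ∣ bb (Γ := Γ) S a b X := by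
  have h1 := bb_dvd D.R S a b X hR
  rw [D.card_R] at h1
  have h2 := (card_dvd_R hA hX hR hF).mul_left 2
  have h3 := dvd_sub h2 h1
  rwa [sub_sub_cancel] at h3

theorem bb_dvd_top {X : Finset Y} (hX : X ⊆ A) (hR : InvH (⊤ : Subgroup Γ) X)
    (hF : ∀ y ∈ X, ¬ Fx Γ y) : ((2 * D.m : ℕ) : ℤ) ∣ bb (Γ := Γ) S a b X := by
  have h1 := bb_dvd (⊤ : Subgroup Γ) S a b X hR
  rw [D.card_top] at h1
  have h2 := card_dvd_top hA hX hR hF
  have h3 := dvd_sub h2 h1
  rwa [sub_sub_cancel] at h3

theorem bb_dvd_top' {X : Finset Y} (hX : X ⊆ A) (hR : InvH (⊤ : Subgroup Γ) X)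
    {y0 : Y} (hy0 : y0 ∈ X) (hF : Fx Γ y0) :
    ((2 * D.m : ℕ) : ℤ) ∣ bb (Γ := Γ) S a b X - 2 := by
  have h1 := bb_dvd (⊤ : Subgroup Γ) S a b X hR
  rw [D.card_top] at h1
  have h2 := card_dvd_top hA (X := X.erase y0) ((Finset.erase_subset _ _).trans hX) ?_ ?_
  · have h4 : ((X.erase y0).card : ℤ) = X.card - 1 := by
      rw [Finset.card_erase_of_mem hy0, Nat.cast_sub (Finset.card_pos.2 ⟨y0, hy0⟩)]
      rfl
    rw [h4] at h2
    have h3 := dvd_sub h2 h1
    have : 2 * ((X.card : ℤ) - 1) - (2 * (X.card : ℤ) - bb (Γ := Γ) S a b X)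
        = bb (Γ := Γ) S a b X - 2 := by ring
    rwa [this] at h3
  · intro h _ y hy
    rw [Finset.mem_erase] at hy ⊢
    refine ⟨fun h1 => hy.1 ?_, hR h (Subgroup.mem_top h) y hy.2⟩
    rw [← hF h] at h1
    exact smul_left_cancel _ h1
  · intro y hy hFy
    exact Finset.ne_of_mem_erase hy (hA.uniq y (hX (Finset.mem_of_mem_erase hy)) y0 (hX hy0) hFy hF)

end divis

theorem Fx_smul {y : Y} {g : Γ} (h : Fx Γ (g • y)) : Fx Γ y := by
  intro γ
  have h1 := h (g * γ * g⁻¹)
  rw [mul_smul, inv_smul_smul, mul_smul] at h1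
  exact smul_left_cancel _ h1

theorem Good.smul_sub {D : Dih Γ ρ} {A : Finset Y} (hA : Good D A) {X : Finset Y} (hX : X ⊆ A)
    (g : Γ) : g • X ⊆ A := by
  intro y hy
  obtain ⟨z, hz, rfl⟩ := Finset.mem_smul_finset.1 hy
  exact hA.inv g (Subgroup.mem_top g) z (hX hz)

/-- The violation lemma. -/
theorem viol {D : Dih Γ ρ} {A : Finset Y} (hA : Good D A) {S : Finset ι} {a b : ι → Y}
    (hβ : StarF D A (bb (Γ := Γ) S a b)) {n n' : Y}
    (hv : ¬ StarF D A (fun X => bb (Γ := Γ) S a b X - (kk Γ n n' X : ℤ))) :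
    TII A (bb (Γ := Γ) S a b) n n' ∨ TV D A (bb (Γ := Γ) S a b) n n' := by
  classical
  set β0 : Finset Y → ℤ := bb (Γ := Γ) S a b with hβ0
  set β : Finset Y → ℤ := fun X => β0 X - (kk Γ n n' X : ℤ) with hβd
  have hinv : ∀ (g : Γ) (X : Finset Y), β (g • X) = β X := by
    intro g X
    simp only [hβd, hβ0, bb_smul, kk_smul]
  have hinv0 : ∀ (g : Γ) (X : Finset Y), β0 (g • X) = β0 X := by
    intro g X
    simp only [hβ0, bb_smul]
  have hsub : ∀ X Z : Finset Y, β (X ∪ Z) + β (X ∩ Z) ≤ β X + β Z := by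
    intro X Z
    have h1 := bb_submod (Γ := Γ) S a b X Z
    have h2 : (kk Γ n n' X : ℤ) + kk Γ n n' Z ≤ kk Γ n n' (X ∪ Z) + kk Γ n n' (X ∩ Z) := by
      exact_mod_cast kk_supermod (Γ := Γ) n n' X Z
    simp only [hβd, hβ0]
    linarith
  have hβm : ∀ X ⊆ A, InvH D.R X → (∀ y ∈ X, ¬ Fx Γ y) → (D.m : ℤ) ∣ β X := by
    intro X hX hR hF
    refine dvd_sub (bb_dvd_R hA hX hR hF) ?_
    have := kk_dvd D.R n n' X hR
    rw [D.card_R] at this
    exact_mod_cast this
  -- translation of a block to one which contains n and n'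
  have trans : ∀ (W : Finset Y) (μ : ℤ), W ⊆ A → β W ≤ μ → 0 < kk Γ n n' W →
      (∀ g : Γ, (g • W ∩ W).Nonempty → g • W = W) →
      ∃ W' : Finset Y, ∃ g0 : Γ, W' = g0 • W ∧ W' ⊆ A ∧ n ∈ W' ∧ n' ∈ W' ∧
        (∀ g : Γ, (g • W' ∩ W').Nonempty → g • W' = W') ∧
        β0 W' ≤ μ + (Finset.univ.filter (fun g : Γ => g • W' = W')).card := by
    intro W μ hWA hWμ hk hblock
    obtain ⟨g1, hn1, hn1'⟩ := kk_pos hk
    have hn2 : n ∈ g1⁻¹ • W := by
      rw [Finset.mem_inv_smul_finset_iff]; exact hn1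
    have hn2' : n' ∈ g1⁻¹ • W := by
      rw [Finset.mem_inv_smul_finset_iff]; exact hn1'
    have hbl : ∀ g : Γ, (g • g1⁻¹ • W ∩ g1⁻¹ • W).Nonempty → g • g1⁻¹ • W = g1⁻¹ • W := by
      intro g hg
      have h1 : ((g1 * g * g1⁻¹) • W ∩ W).Nonempty := by
        obtain ⟨y, hy⟩ := hg
        rw [Finset.mem_inter] at hy
        refine ⟨g1 • y, Finset.mem_inter.2 ⟨?_, ?_⟩⟩
        · rw [mul_smul, mul_smul]
          exact Finset.smul_mem_smul_finset hy.1
        · exact Finset.mem_inv_smul_finset_iff.1 hy.2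
      have h2 := hblock _ h1
      rw [mul_smul, mul_smul] at h2
      exact eq_inv_smul_iff.2 h2
    refine ⟨g1⁻¹ • W, g1⁻¹, rfl, hA.smul_sub hWA _, hn2, hn2', hbl, ?_⟩
    have h3 := kk_block hbl hn2 hn2'
    have h4 : β (g1⁻¹ • W) ≤ μ := by rw [hinv]; exact hWμ
    simp only [hβd] at h4
    rw [h3] at h4
    linarith
  have hcardH : ∀ (W' : Finset Y), (Finset.univ.filter (fun g : Γ => g • W' = W')).card =
      Nat.card (MulAction.stabilizer Γ W') := by
    intro W'
    rw [Nat.card_eq_fintype_card, Fintype.card_subtype]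
    congr 1
  have hstab : ∀ (W' : Finset Y) (g : Γ), g ∈ MulAction.stabilizer Γ W' ↔ g • W' = W' := by
    intro W' g; exact MulAction.mem_stabilizer_iff
  have hlt : 1 < D.m := D.m_prime.one_lt
  by_cases hcase : ∀ X ⊆ A, X.Nonempty → 2 ≤ β X
  · -- Case B
    have hB : ¬ ∀ X ⊆ A, X.Nonempty → InvH D.R X → (∀ y ∈ X, ¬ Fx Γ y) → 3 ≤ β X :=
      fun h => hv ⟨hcase, h⟩
    push Not at hB
    obtain ⟨X0, hX0A, hX0n, hX0R, hX0F, hX0β⟩ := hB
    have h2 := hcase X0 hX0A hX0n
    have h3 : β X0 = 2 := by omega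
    have h4 := hβm X0 hX0A hX0R hX0F
    rw [h3] at h4
    rcases D.hm with hm | hm
    swap
    · exfalso
      rw [hm] at h4
      omega
    obtain ⟨W, ⟨hWA, hX0W, hWF⟩, hWβ, hWbl⟩ := exists_block (Γ := Γ) (A := A) β hinv hsub
      (fun X => X ⊆ A ∧ X0 ⊆ X ∧ ∀ y ∈ X, ¬ Fx Γ y) 2 (fun X hX => hX.1) (by
        intro X g hX _ hn
        refine ⟨⟨?_, ?_, ?_⟩, ?_⟩
        · exact Finset.union_subset hX.1 (hA.smul_sub hX.1 g)
        · exact hX.2.1.trans Finset.subset_union_left
        · intro y hy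
          rcases Finset.mem_union.1 hy with hy | hy
          · exact hX.2.2 y hy
          · obtain ⟨z, hz, rfl⟩ := Finset.mem_smul_finset.1 hy
            exact fun h => hX.2.2 z hz (Fx_smul h)
        · refine hcase _ (Finset.inter_subset_left.trans hX.1) ?_
          rw [Finset.inter_comm]; exact hn) X0 ⟨hX0A, subset_rfl, hX0F⟩ (by omega)
    have hWR : ∀ r ∈ D.R, r • W = W := by
      intro r hr
      refine hWbl r ?_
      obtain ⟨y, hy⟩ := hX0n
      refine ⟨r • y, Finset.mem_inter.2 ⟨Finset.smul_mem_smul_finset (hX0W hy), hX0W ?_⟩⟩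
      exact hX0R r hr y hy
    have hWn : W.Nonempty := hX0n.mono hX0W
    have hW3 := hβ.2 W hWA hWn (invH_of_smul_eq hWR) hWF
    have hk : 0 < kk Γ n n' W := by
      simp only [hβd] at hWβ
      omega
    obtain ⟨W', g0, hW', hW'A, hn1, hn1', hbl, hle⟩ := trans W 2 hWA hWβ hk hWbl
    have hW'F : ∀ y ∈ W', ¬ Fx Γ y := by
      intro y hy
      rw [hW'] at hy
      obtain ⟨z, hz, rfl⟩ := Finset.mem_smul_finset.1 hy
      exact fun h => hWF z hz (Fx_smul h)
    have hW'R : ∀ r ∈ D.R, r • W' = W' := by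
      intro r hr
      have h1 := hWR _ (D.conj_mem' hr g0)
      rw [mul_smul, mul_smul] at h1
      rw [hW']
      exact inv_smul_eq_iff.1 h1
    rw [hcardH] at hle
    right
    rcases D.sub_cases (MulAction.stabilizer Γ W') with h | h | h | h
    · exfalso
      have h1 : D.R ≤ ⊥ := by
        intro r hr
        rw [Subgroup.mem_bot]
        exact h r ((hstab W' r).2 (hW'R r hr))
      have h2 : D.R = ⊥ := le_bot_iff.1 h1
      have h3 := D.card_R
      rw [h2, Subgroup.card_bot] at h3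
      omega
    · exfalso
      obtain ⟨g, hgR, hg, hh⟩ := h
      have h1 : D.R ≤ ⊥ := by
        intro r hr
        rw [Subgroup.mem_bot]
        rcases hh r ((hstab W' r).2 (hW'R r hr)) with h1 | h1
        · exact h1
        · exact absurd (h1 ▸ hr) hgR
      have h2 : D.R = ⊥ := le_bot_iff.1 h1
      have h3 := D.card_R
      rw [h2, Subgroup.card_bot] at h3
      omega
    · rw [h, D.card_R, hm] at hle
      refine ⟨W', hW'A, hn1, hn1', ?_, hW'F, ?_⟩
      · rw [Dih.HH_two hm]; exact invH_of_smul_eq hW'R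
      · rw [hm]; push_cast at hle ⊢; linarith
    · have hinvT : InvH (⊤ : Subgroup Γ) W' := by
        refine invH_of_smul_eq fun g _ => (hstab W' g).1 ?_
        rw [h]; exact Subgroup.mem_top g
      have hd := bb_dvd_top (S := S) (a := a) (b := b) hA hW'A hinvT hW'F
      rw [h, D.card_top, hm] at hle
      rw [hm] at hd
      push_cast at hle hd
      refine ⟨W', hW'A, hn1, hn1', hinvT.mono le_top, hW'F, ?_⟩
      rw [hm]
      push_cast
      have hle' : bb (Γ := Γ) S a b W' ≤ 2 + 2 * 2 := hle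
      show bb (Γ := Γ) S a b W' ≤ 2 * 2
      omega
  · -- Case A
    push Not at hcase
    obtain ⟨X0, hX0A, hX0n, hX0β⟩ := hcase
    obtain ⟨W0, hW0, hmin⟩ := Finset.exists_min_image (A.powerset.filter (fun X => X.Nonempty)) β
      ⟨X0, Finset.mem_filter.2 ⟨Finset.mem_powerset.2 hX0A, hX0n⟩⟩
    rw [Finset.mem_filter, Finset.mem_powerset] at hW0
    have hμ : β W0 ≤ 1 := by
      have := hmin X0 (Finset.mem_filter.2 ⟨Finset.mem_powerset.2 hX0A, hX0n⟩)
      omega
    obtain ⟨W, ⟨hWA, hWn⟩, hWβ, hWbl⟩ := exists_block (Γ := Γ) (A := A) β hinv hsub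
      (fun X => X ⊆ A ∧ X.Nonempty) (β W0) (fun X hX => hX.1) (by
        intro X g hX _ hn
        refine ⟨⟨?_, ?_⟩, ?_⟩
        · exact Finset.union_subset hX.1 (hA.smul_sub hX.1 g)
        · exact hX.2.mono Finset.subset_union_left
        · refine hmin _ (Finset.mem_filter.2 ⟨Finset.mem_powerset.2
            (Finset.inter_subset_left.trans hX.1), ?_⟩)
          rw [Finset.inter_comm]; exact hn) W0 hW0 le_rfl
    have hW2 := hβ.1 W hWA hWn
    have hWβ1 : β W ≤ 1 := hWβ.trans hμ
    have hk : 0 < kk Γ n n' W := by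
      simp only [hβd] at hWβ1
      omega
    obtain ⟨W', g0, hW', hW'A, hn1, hn1', hbl, hle⟩ := trans W 1 hWA hWβ1 hk hWbl
    rw [hcardH] at hle
    rcases D.sub_cases (MulAction.stabilizer Γ W') with h | h | h | h
    · -- trivial stabiliser
      left
      refine ⟨W', hW'A, hn1, hn1', ?_⟩
      have h1 : MulAction.stabilizer Γ W' = ⊥ := by
        rw [eq_bot_iff]
        intro r hr
        exact Subgroup.mem_bot.2 (h r hr)
      rw [h1, Subgroup.card_bot] at hle
      push_cast at hle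
      linarith
    · -- one reflection
      left
      obtain ⟨g, hgR, hg, hh⟩ := h
      refine ⟨W', hW'A, hn1, hn1', ?_⟩
      have hc2 : Nat.card (MulAction.stabilizer Γ W') = 2 := by
        rw [← hcardH]
        have : (Finset.univ.filter (fun g : Γ => g • W' = W')) = {1, g} := by
          ext g'
          simp only [Finset.mem_filter, Finset.mem_univ, true_and, Finset.mem_insert,
            Finset.mem_singleton]
          constructor
          · intro hg'; exact hh g' ((hstab W' g').2 hg')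
          · rintro (rfl | rfl)
            · exact one_smul _ _
            · exact (hstab W' _).1 hg
        rw [this, Finset.card_pair (Ne.symm (D.refl_ne_one hgR))]
      have hd := bb_dvd (MulAction.stabilizer Γ W') S a b W' (by
        intro h hh' y hy
        rw [← (hstab W' h).1 hh']
        exact Finset.smul_mem_smul_finset hy)
      rw [hc2] at hd hle
      push_cast at hd hle
      have hle' : bb (Γ := Γ) S a b W' ≤ 1 + 2 := hle
      show bb (Γ := Γ) S a b W' ≤ 2
      omega
    · -- all rotations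
      right
      have hR : ∀ r ∈ D.R, r • W' = W' := by
        intro r hr
        exact (hstab W' r).1 (h ▸ hr)
      have hF : ∀ y ∈ W', ¬ Fx Γ y := by
        intro y hy hFy
        have h1 : MulAction.stabilizer Γ W' = ⊤ := by
          rw [eq_top_iff]
          intro g _
          rw [hstab]
          refine hbl g ⟨y, Finset.mem_inter.2 ⟨?_, hy⟩⟩
          have := Finset.smul_mem_smul_finset (a := g) hy
          rwa [hFy g] at this
        rw [h] at h1
        have h2 := D.card_top
        rw [← h1, D.card_R] at h2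
        omega
      have hIR : InvH D.R W' := invH_of_smul_eq hR
      rw [h, D.card_R] at hle
      rcases D.hm with hm | hm
      · refine ⟨W', hW'A, hn1, hn1', ?_, hF, ?_⟩
        · rw [Dih.HH_two hm]; exact hIR
        · rw [hm] at hle ⊢; push_cast at hle ⊢; linarith
      · have hd := bb_dvd_R (S := S) (a := a) (b := b) hA hW'A hIR hF
        rw [hm] at hd hle
        push_cast at hd hle
        have hle' : bb (Γ := Γ) S a b W' ≤ 1 + 3 := hle
        have hle3 : bb (Γ := Γ) S a b W' ≤ 3 := by omega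
        -- choose a reflection
        have hex : ∃ g : Γ, g ∉ D.R := by
          by_contra hcon
          push Not at hcon
          have h1 : D.R = ⊤ := by
            rw [eq_top_iff]; intro g _; exact hcon g
          have h2 := D.card_top
          rw [← h1, D.card_R] at h2
          omega
        obtain ⟨g, hg⟩ := hex
        have hgW : g • W' ≠ W' := by
          intro h1
          exact hg (h ▸ (hstab W' g).2 h1)
        have hdisj : g • W' ∩ W' = ∅ := by
          by_contra h1
          exact hgW (hbl g (Finset.nonempty_iff_ne_empty.2 h1))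
        have hsm : bb (Γ := Γ) S a b (W' ∪ g • W') ≤ 6 := by
          have h1 := bb_submod (Γ := Γ) S a b W' (g • W')
          rw [Finset.inter_comm, hdisj, bb_empty, bb_smul] at h1
          linarith
        refine ⟨W' ∪ g • W', Finset.union_subset hW'A (hA.smul_sub hW'A g),
          Finset.mem_union_left _ hn1, Finset.mem_union_left _ hn1', ?_, ?_, ?_⟩
        · rw [Dih.HH_three hm]
          refine invH_of_smul_eq ?_
          intro x _
          rw [Finset.smul_finset_union]
          by_cases hx : x ∈ D.R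
          · have h1 : x • g • W' = g • W' := by
              have h2 := hR _ (D.conj_mem' hx g)
              rw [mul_smul, mul_smul] at h2
              exact inv_smul_eq_iff.1 h2
            rw [h1, hR x hx]
          · have h1 : x • g • W' = W' := by
              rw [smul_smul]; exact hR _ (D.mul_mem x g hx hg)
            have h2 : x • W' = g • W' := by
              have h3 := hR _ (D.mul_mem g x hg hx)
              rw [mul_smul] at h3
              have h4 := congr_arg (fun Z => g⁻¹ • Z) h3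
              simp only [inv_smul_smul] at h4
              rw [h4, D.inv_refl hg]
            rw [h1, h2, Finset.union_comm]
        · intro y hy
          rcases Finset.mem_union.1 hy with hy | hy
          · exact hF y hy
          · obtain ⟨z, hz, rfl⟩ := Finset.mem_smul_finset.1 hy
            exact fun h => hF z hz (Fx_smul h)
        · rw [hm]; push_cast; linarith
    · -- everything
      have hinvT : InvH (⊤ : Subgroup Γ) W' := by
        refine invH_of_smul_eq fun g _ => (hstab W' g).1 ?_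
        rw [h]; exact Subgroup.mem_top g
      rw [h, D.card_top] at hle
      have hle' : bb (Γ := Γ) S a b W' ≤ 1 + ((2 * D.m : ℕ) : ℤ) := hle
      by_cases hF : ∀ y ∈ W', ¬ Fx Γ y
      · right
        have hd := bb_dvd_top (S := S) (a := a) (b := b) hA hW'A hinvT hF
        refine ⟨W', hW'A, hn1, hn1', hinvT.mono le_top, hF, ?_⟩
        show bb (Γ := Γ) S a b W' ≤ 2 * D.m
        rcases D.hm with hm | hm
        · rw [hm] at hd hle' ⊢
          push_cast at hd hle' ⊢
          omega
        · rw [hm] at hd hle' ⊢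
          push_cast at hd hle' ⊢
          omega
      · left
        push Not at hF
        obtain ⟨y0, hy0, hFy0⟩ := hF
        have hd := bb_dvd_top' (S := S) (a := a) (b := b) hA hW'A hinvT hy0 hFy0
        refine ⟨W', hW'A, hn1, hn1', ?_⟩
        show bb (Γ := Γ) S a b W' ≤ 2
        rcases D.hm with hm | hm
        · rw [hm] at hd hle'
          push_cast at hd hle'
          omega
        · rw [hm] at hd hle'
          push_cast at hd hle'
          omega

end Pool.Agent.SymLaman
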