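import Pool.Agent.Lib_MP_d5472a_co.FeBasic

set_option autoImplicit false
set_option linter.unusedSectionVars false

/-! Violations in the presence of the special orbit. -/

namespace Pool.Agent.SymLaman
open scoped Pointwise

variable {Γ : Type} [Group Γ] [Fintype Γ]
variable {Y : Type} [MulAction Γ Y] [DecidableEq Y]
variable {ι : Type} [DecidableEq ι]
variable {ρ : Γ →* (E2 →ₗ[ℝ] E2)}

/-- a minimal block containing `n` and `n'` -/
theorem exists_min_block {D : Dih Γ ρ} {A : Finset Y} (hA : Good D A) (β0 : Finset Y → ℤ)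
    (hinv : ∀ (g : Γ) (X : Finset Y), β0 (g • X) = β0 X)
    (hsub : ∀ X Z : Finset Y, β0 (X ∪ Z) + β0 (X ∩ Z) ≤ β0 X + β0 Z)
    (k : ℕ) (n n' : Y) (μ : ℤ) (hpos : ∀ X ⊆ A, X.Nonempty → μ < β0 X)
    {X0 : Finset Y} (hX0 : X0 ⊆ A) (hX0n : X0.Nonempty)
    (hX0β : β0 X0 - k * (kk Γ n n' X0 : ℤ) ≤ μ) :
    ∃ W : Finset Y, W ⊆ A ∧ n ∈ W ∧ n' ∈ W ∧
      (∀ g : Γ, (g • W ∩ W).Nonempty → g • W = W) ∧
      β0 W ≤ μ + k * (Nat.card (MulAction.stabilizer Γ W) : ℤ) := by
  classical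
  set β : Finset Y → ℤ := fun X => β0 X - k * (kk Γ n n' X : ℤ) with hβd
  have hinvβ : ∀ (g : Γ) (X : Finset Y), β (g • X) = β X := by
    intro g X
    simp only [hβd, hinv, kk_smul]
  have hsubβ : ∀ X Z : Finset Y, β (X ∪ Z) + β (X ∩ Z) ≤ β X + β Z := by
    intro X Z
    have h1 := hsub X Z
    have h2 : (kk Γ n n' X : ℤ) + kk Γ n n' Z ≤ kk Γ n n' (X ∪ Z) + kk Γ n n' (X ∩ Z) := by
      exact_mod_cast kk_supermod (Γ := Γ) n n' X Z
    simp only [hβd]
    nlinarith [Int.natCast_nonneg k]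
  obtain ⟨W0, hW0, hmin⟩ := Finset.exists_min_image (A.powerset.filter (fun X => X.Nonempty)) β
    ⟨X0, Finset.mem_filter.2 ⟨Finset.mem_powerset.2 hX0, hX0n⟩⟩
  rw [Finset.mem_filter, Finset.mem_powerset] at hW0
  have hμ : β W0 ≤ μ := by
    have := hmin X0 (Finset.mem_filter.2 ⟨Finset.mem_powerset.2 hX0, hX0n⟩)
    exact this.trans hX0β
  obtain ⟨W, ⟨hWA, hWn⟩, hWβ, hWbl⟩ := exists_block (Γ := Γ) (A := A) β hinvβ hsubβ
    (fun X => X ⊆ A ∧ X.Nonempty) (β W0) (fun X hX => hX.1) (by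
      intro X g hX _ hn
      refine ⟨⟨?_, ?_⟩, ?_⟩
      · exact Finset.union_subset hX.1 (hA.smul_sub hX.1 g)
      · exact hX.2.mono Finset.subset_union_left
      · refine hmin _ (Finset.mem_filter.2 ⟨Finset.mem_powerset.2
          (Finset.inter_subset_left.trans hX.1), ?_⟩)
        rw [Finset.inter_comm]; exact hn) W0 hW0 le_rfl
  have hW2 := hpos W hWA hWn
  have hWμ : β W ≤ μ := hWβ.trans hμ
  have hk : 0 < kk Γ n n' W := by
    rcases Nat.eq_zero_or_pos (kk Γ n n' W) with h | h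
    · exfalso
      simp only [hβd, h] at hWμ
      simp only [Nat.cast_zero, mul_zero, sub_zero] at hWμ
      omega
    · exact h
  obtain ⟨g1, hn1, hn1'⟩ := kk_pos hk
  have hn2 : n ∈ g1⁻¹ • W := by
    rw [Finset.mem_inv_smul_finset_iff]; exact hn1
  have hn2' : n' ∈ g1⁻¹ • W := by
    rw [Finset.mem_inv_smul_finset_iff]; exact hn1'
  have hbl : ∀ g : Γ, (g • g1⁻¹ • W ∩ g1⁻¹ • W).Nonempty → g • g1⁻¹ • W = g1⁻¹ • W := by
    intro g hg
    have h1 : ((g1 * g * g1⁻¹) • W ∩ W).Nonempty := by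
      obtain ⟨y, hy⟩ := hg
      rw [Finset.mem_inter] at hy
      refine ⟨g1 • y, Finset.mem_inter.2 ⟨?_, ?_⟩⟩
      · rw [mul_smul, mul_smul]
        exact Finset.smul_mem_smul_finset hy.1
      · exact Finset.mem_inv_smul_finset_iff.1 hy.2
    have h2 := hWbl _ h1
    rw [mul_smul, mul_smul] at h2
    exact eq_inv_smul_iff.2 h2
  refine ⟨g1⁻¹ • W, hA.smul_sub hWA _, hn2, hn2', hbl, ?_⟩
  have h3 := kk_block hbl hn2 hn2'
  have h4 : β (g1⁻¹ • W) ≤ μ := by rw [hinvβ]; exact hWμ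
  have h5 : (Finset.univ.filter (fun g : Γ => g • g1⁻¹ • W = g1⁻¹ • W)).card =
      Nat.card (MulAction.stabilizer Γ (g1⁻¹ • W)) := by
    rw [Nat.card_eq_fintype_card, Fintype.card_subtype]
    congr 1
  rw [h5] at h3
  simp only [hβd] at h4
  rw [h3] at h4
  linarith

theorem mem_stab {W : Finset Y} {g : Γ} : g ∈ MulAction.stabilizer Γ W ↔ g • W = W :=
  MulAction.mem_stabilizer_iff

theorem card_stab_refl {D : Dih Γ ρ} {W : Finset Y} {g : Γ} (hgR : g ∉ D.R)
    (hg : g ∈ MulAction.stabilizer Γ W)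
    (hh : ∀ h ∈ MulAction.stabilizer Γ W, h = 1 ∨ h = g) :
    Nat.card (MulAction.stabilizer Γ W) = 2 := by
  classical
  have h1 : (MulAction.stabilizer Γ W : Set Γ) = {1, g} := by
    ext x
    simp only [SetLike.mem_coe, Set.mem_insert_iff, Set.mem_singleton_iff]
    constructor
    · exact hh x
    · rintro (rfl | rfl)
      · exact Subgroup.one_mem _
      · exact hg
  have h2 : Nat.card (MulAction.stabilizer Γ W) = Set.ncard (MulAction.stabilizer Γ W : Set Γ) :=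
    rfl
  rw [h2, h1, Set.ncard_pair (Ne.symm (D.refl_ne_one hgR))]

/-- a block which is invariant under the rotations only and a reflection image -/
theorem union_refl_inv {D : Dih Γ ρ} {W : Finset Y} (hR : ∀ r ∈ D.R, r • W = W) {g : Γ}
    (hg : g ∉ D.R) : InvH (⊤ : Subgroup Γ) (W ∪ g • W) := by
  refine invH_of_smul_eq ?_
  intro x _
  rw [Finset.smul_finset_union]
  by_cases hx : x ∈ D.R
  · have h1 : x • g • W = g • W := by
      have h2 := hR _ (D.conj_mem' hx g)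
      rw [mul_smul, mul_smul] at h2
      exact inv_smul_eq_iff.1 h2
    rw [h1, hR x hx]
  · have h1 : x • g • W = W := by
      rw [smul_smul]; exact hR _ (D.mul_mem x g hx hg)
    have h2 : x • W = g • W := by
      have h3 := hR _ (D.mul_mem g x hg hx)
      rw [mul_smul] at h3
      have h4 := congr_arg (fun Z => g⁻¹ • Z) h3
      simp only [inv_smul_smul] at h4
      rw [h4, D.inv_refl hg]
    rw [h1, h2, Finset.union_comm]

theorem exists_refl_mem (D : Dih Γ ρ) : ∃ g : Γ, g ∉ D.R := by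
  by_contra hcon
  push Not at hcon
  have h1 : D.R = ⊤ := by
    rw [eq_top_iff]; intro g _; exact hcon g
  have h2 := D.card_top
  rw [← h1, D.card_R] at h2
  have := D.m_prime.pos
  omega

/-- local violation at a reflection-invariant block containing its fixed edge -/
def TR (D : Dih Γ ρ) (A : Finset Y) (β : Finset Y → ℤ) (u w : Y) (σ : Γ) (n n' : Y) : Prop :=
  ∃ W ⊆ A, n ∈ W ∧ n' ∈ W ∧ β W ≤ 6 ∧ ∃ γ ∈ D.R, γ • u ∈ W ∧ γ • w ∈ W ∧ (γ * σ * γ⁻¹) • W = W

/-- global violation -/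
def TG (A : Finset Y) (β : Finset Y → ℤ) (n n' : Y) : Prop :=
  ∃ W ⊆ A, n ∈ W ∧ n' ∈ W ∧ β W ≤ 12 ∧ InvH (⊤ : Subgroup Γ) W

theorem TR.symm {D : Dih Γ ρ} {A : Finset Y} {β : Finset Y → ℤ} {u w : Y} {σ : Γ} {n n' : Y}
    (h : TR D A β u w σ n n') : TR D A β u w σ n' n := by
  obtain ⟨W, h1, h2, h3, h4⟩ := h
  exact ⟨W, h1, h3, h2, h4⟩

theorem TG.symm {A : Finset Y} {β : Finset Y → ℤ} {n n' : Y}
    (h : TG (Γ := Γ) A β n n') : TG (Γ := Γ) A β n' n := by
  obtain ⟨W, h1, h2, h3, h4⟩ := h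
  exact ⟨W, h1, h3, h2, h4⟩

/-- the special edge images may be taken under rotations -/
theorem fe_rot {D : Dih Γ ρ} {u w : Y} {σ : Γ} {d : E2} (hFE : FE D u w σ d) {W : Finset Y}
    {γ : Γ} (hu : γ • u ∈ W) (hw : γ • w ∈ W) :
    ∃ r ∈ D.R, r • u ∈ W ∧ r • w ∈ W ∧ r * σ * r⁻¹ = γ * σ * γ⁻¹ := by
  obtain ⟨r, hr, (rfl | rfl)⟩ := D.conj_rot (x := γ) hFE.hσ
  · exact ⟨_, hr, hu, hw, rfl⟩
  · refine ⟨r, hr, ?_⟩
    rw [mul_smul] at hu hw
    refine ⟨?_, ?_, ?_⟩
    · rcases hFE.typ with ⟨h1, h2, _⟩ | ⟨h1, h2, _⟩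
      · rw [h2] at hw; exact hw
      · rw [h1] at hu; exact hu
    · rcases hFE.typ with ⟨h1, h2, _⟩ | ⟨h1, h2, _⟩
      · rw [h1] at hu; exact hu
      · rw [h2] at hw; exact hw
    · rw [mul_inv_rev]; group

/-- the conjugate reflection maps the image edge to itself -/
theorem fe_block {D : Dih Γ ρ} {u w : Y} {σ : Γ} {d : E2} (hFE : FE D u w σ d) {W : Finset Y}
    (hbl : ∀ g : Γ, (g • W ∩ W).Nonempty → g • W = W)
    {γ : Γ} (hu : γ • u ∈ W) (hw : γ • w ∈ W) : (γ * σ * γ⁻¹) • W = W := by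
  refine hbl _ ?_
  rcases hFE.typ with ⟨h1, h2, _⟩ | ⟨h1, h2, _⟩
  · refine ⟨γ • w, Finset.mem_inter.2 ⟨?_, hw⟩⟩
    have := Finset.smul_mem_smul_finset (a := γ * σ * γ⁻¹) hu
    have h3 : (γ * σ * γ⁻¹) • γ • u = γ • w := by
      rw [mul_smul, inv_smul_smul, mul_smul, h1]
    rwa [h3] at this
  · refine ⟨γ • u, Finset.mem_inter.2 ⟨?_, hu⟩⟩
    have := Finset.smul_mem_smul_finset (a := γ * σ * γ⁻¹) hu
    have h3 : (γ * σ * γ⁻¹) • γ • u = γ • u := by
      rw [mul_smul, inv_smul_smul, mul_smul, h1]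
    rwa [h3] at this

theorem viol_f {D : Dih Γ ρ} (hm : D.m = 3) {A : Finset Y} (hA : Good D A)
    (hnf : ∀ y ∈ A, ¬ Fx Γ y) {S : Finset ι} {a b : ι → Y} {u w : Y} {σ : Γ} {d : E2}
    (hFE : FE D u w σ d) (hβ : StarG D A S a b u w) (hst : Strong Γ A S a b u w)
    {n n' : Y} (hnn : n ≠ n')
    (hv : ¬ ((∀ X ⊆ A, X.Nonempty → 4 ≤ BB (Γ := Γ) S a b u w X - 2 * (kk Γ n n' X : ℤ)) ∧
      (∀ X ⊆ A, X.Nonempty → InvH D.R X →
        6 ≤ BB (Γ := Γ) S a b u w X - 2 * (kk Γ n n' X : ℤ)))) :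
    TR D A (BB (Γ := Γ) S a b u w) u w σ n n' ∨
      TG (Γ := Γ) A (BB (Γ := Γ) S a b u w) n n' := by
  classical
  -- there is a violating set with value at most 3
  have hX : ∃ X ⊆ A, X.Nonempty ∧ BB (Γ := Γ) S a b u w X - 2 * (kk Γ n n' X : ℤ) ≤ 3 := by
    by_contra hcon
    push Not at hcon
    apply hv
    refine ⟨fun X hX hXn => by have := hcon X hX hXn; omega, fun X hX hXn hR => ?_⟩
    have h1 := hcon X hX hXn
    have h2 := BB_R hm hA hnf hFE S a b hX hR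
    have h3 := kk_dvd D.R n n' X hR
    rw [D.card_R, hm] at h3
    have h4 : (3 : ℤ) ∣ (kk Γ n n' X : ℤ) := by exact_mod_cast h3
    omega
  obtain ⟨X0, hX0, hX0n, hX0β⟩ := hX
  obtain ⟨W, hWA, hn, hn', hbl, hle⟩ := exists_min_block hA (BB (Γ := Γ) S a b u w)
    (BB_smul S a b u w) (BB_submod S a b u w) 2 n n' 3
    (fun X hX hXn => by have := hβ.h1 X hX hXn; omega) hX0 hX0n (by exact_mod_cast hX0β)
  have hW2 : 2 ≤ W.card := by
    have : ({n, n'} : Finset Y) ⊆ W := by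
      intro y hy
      simp only [Finset.mem_insert, Finset.mem_singleton] at hy
      rcases hy with rfl | rfl
      · exact hn
      · exact hn'
    refine le_trans (le_of_eq ?_) (Finset.card_le_card this)
    rw [Finset.card_pair hnn]
  have h6 := hst W hWA hW2
  have hev := BB_even hFE S a b W
  have hin : ∀ h ∈ MulAction.stabilizer Γ W, h • W = W := fun h hh => mem_stab.1 hh
  rcases D.sub_cases (MulAction.stabilizer Γ W) with h | h | h | h
  · exfalso
    have h1 : MulAction.stabilizer Γ W = ⊥ := by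
      rw [eq_bot_iff]
      intro r hr
      exact Subgroup.mem_bot.2 (h r hr)
    rw [h1, Subgroup.card_bot] at hle
    push_cast at hle
    omega
  · left
    obtain ⟨g, hgR, hg, hh⟩ := h
    rw [card_stab_refl hgR hg hh] at hle
    push_cast at hle
    have h4 := BB_refl hgR (u := u) (w := w) S a b (hin g hg)
    have hk0 : 0 < kk Γ u w W := by
      rcases Nat.eq_zero_or_pos (kk Γ u w W) with h0 | h0
      · exfalso
        rw [h0] at h4
        push_cast at h4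
        omega
      · exact h0
    obtain ⟨γ, hγu, hγw⟩ := kk_pos hk0
    obtain ⟨r, hr, hru, hrw, _⟩ := fe_rot hFE hγu hγw
    exact ⟨W, hWA, hn, hn', by omega, r, hr, hru, hrw, fe_block hFE hbl hru hrw⟩
  · right
    rw [h, D.card_R, hm] at hle
    push_cast at hle
    have hR : ∀ r ∈ D.R, r • W = W := fun r hr => hin r (h ▸ hr)
    have h3 := BB_R hm hA hnf hFE S a b hWA (invH_of_smul_eq hR)
    obtain ⟨g, hg⟩ := exists_refl_mem D
    have hgW : g • W ≠ W := fun h1 => hg (h ▸ mem_stab.2 h1)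
    have hdisj : g • W ∩ W = ∅ := by
      by_contra h1
      exact hgW (hbl g (Finset.nonempty_iff_ne_empty.2 h1))
    refine ⟨W ∪ g • W, Finset.union_subset hWA (hA.smul_sub hWA g),
      Finset.mem_union_left _ hn, Finset.mem_union_left _ hn', ?_, union_refl_inv hR hg⟩
    have h5 := BB_submod (Γ := Γ) S a b u w W (g • W)
    rw [Finset.inter_comm, hdisj, BB_empty, BB_smul] at h5
    omega
  · right
    rw [h, D.card_top, hm] at hle
    push_cast at hle
    have hT : InvH (⊤ : Subgroup Γ) W := by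
      refine invH_of_smul_eq fun g _ => hin g ?_
      rw [h]; exact Subgroup.mem_top g
    have h3 := BB_R hm hA hnf hFE S a b hWA (hT.mono le_top)
    exact ⟨W, hWA, hn, hn', by omega, hT⟩

/-- validity of a new special orbit -/
theorem valid_f {D : Dih Γ ρ} (hm : D.m = 3) {A : Finset Y} (hA : Good D A)
    (hnf : ∀ y ∈ A, ¬ Fx Γ y) {S : Finset ι} {a b : ι → Y} {σ : Γ} {n n' : Y} {d' : E2}
    (hFE : FE D n n' σ d')
    (hpos : ∀ X ⊆ A, X.Nonempty → 2 ≤ bb (Γ := Γ) S a b X)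
    (hst : ∀ X ⊆ A, 2 ≤ X.card → 3 ≤ bb (Γ := Γ) S a b X) :
    StarG D A S a b n n' := by
  classical
  by_contra hcon
  have hX : ∃ X ⊆ A, X.Nonempty ∧ 2 * bb (Γ := Γ) S a b X - (kk Γ n n' X : ℤ) ≤ 3 := by
    by_contra hcon2
    push Not at hcon2
    apply hcon
    refine ⟨fun X hX hXn => by have := hcon2 X hX hXn; rw [BB_eq]; omega,
      fun X hX hXn hR => ?_⟩
    have h1 := hcon2 X hX hXn
    have h2 := BB_R hm hA hnf hFE S a b hX hR
    rw [BB_eq] at h2 ⊢
    omega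
  obtain ⟨X0, hX0, hX0n, hX0β⟩ := hX
  obtain ⟨W, hWA, hn, hn', hbl, hle⟩ := exists_min_block hA (fun X => 2 * bb (Γ := Γ) S a b X)
    (fun g X => by simp only [bb_smul]) (fun X Z => by
      have := bb_submod (Γ := Γ) S a b X Z
      linarith) 1 n n' 3
    (fun X hX hXn => by have := hpos X hX hXn; omega) hX0 hX0n (by
      simpa using hX0β)
  simp only [Nat.cast_one, one_mul] at hle
  have hW2 : 2 ≤ W.card := by
    have : ({n, n'} : Finset Y) ⊆ W := by
      intro y hy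
      simp only [Finset.mem_insert, Finset.mem_singleton] at hy
      rcases hy with rfl | rfl
      · exact hn
      · exact hn'
    refine le_trans (le_of_eq ?_) (Finset.card_le_card this)
    rw [Finset.card_pair hFE.hne]
  have h6 := hst W hWA hW2
  have hσW : σ • W = W := by
    refine hbl σ ?_
    rcases hFE.typ with ⟨h1, h2, _⟩ | ⟨h1, h2, _⟩
    · exact ⟨n', Finset.mem_inter.2 ⟨h1 ▸ Finset.smul_mem_smul_finset hn, hn'⟩⟩
    · exact ⟨n, Finset.mem_inter.2 ⟨by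
        have := Finset.smul_mem_smul_finset (a := σ) hn
        rwa [h1] at this, hn⟩⟩
  have hσst : σ ∈ MulAction.stabilizer Γ W := mem_stab.2 hσW
  rcases D.sub_cases (MulAction.stabilizer Γ W) with h | h | h | h
  · exact D.refl_ne_one hFE.hσ (h σ hσst)
  · obtain ⟨g, hgR, hg, hh⟩ := h
    rw [card_stab_refl hgR hg hh] at hle
    push_cast at hle
    omega
  · exact hFE.hσ (h ▸ hσst)
  · rw [h, D.card_top, hm] at hle
    push_cast at hle
    have hT : InvH (⊤ : Subgroup Γ) W := by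
      refine invH_of_smul_eq fun g _ => mem_stab.1 ?_
      rw [h]; exact Subgroup.mem_top g
    have h3 := bb_dvd_top (S := S) (a := a) (b := b) hA hWA hT (fun y hy => hnf y (hWA hy))
    rw [hm] at h3
    push_cast at h3
    omega

end Pool.Agent.SymLaman
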